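import Mathlib

set_option autoImplicit false

open Set Filter Topology
open scoped ENNReal NNReal

namespace Pool.Agent.H92.Lip

theorem arith {F G U Γ F' G' s ρ K A C E N : ℝ} (hF : 0 ≤ F) (hG : 0 ≤ G) (hU0 : 0 ≤ U)
    (hΓ0 : 0 ≤ Γ) (hs0 : 0 ≤ s) (hρ : 0 ≤ ρ) (hA : 0 ≤ A) (hC : 0 ≤ C) (hN : 0 ≤ N)
    (hρK : ρ * K = 1) (hK : 1 ≤ K) (hs : s ≤ 1) (hU : U ≤ s * F) (hΓ : Γ ≤ s * G)
    (hF' : F' ≤ N * (A * (U + C * (U + ρ * (Γ + F)))))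
    (hG' : G' ≤ N * (N * (E ^ 2 * A * (F + U) + A * (C * (K * U + (Γ + F)) +
      C * (U + ρ * (Γ + F))))))
    (hsB : s * (N * A * (1 + C) + 2 * N ^ 2 * A * C) ≤ 1 / 4)
    (hKB : (N * A * (1 + C) + 2 * N ^ 2 * A * C) + 2 * N ^ 2 * A * E ^ 2 ≤ K / 4) :
    G' + K * F' ≤ (1 / 2) * (G + K * F) := by
  have hK0 : 0 ≤ K := by linarith
  have hρ1 : ρ ≤ 1 := by nlinarith
  have hsF : s * F ≤ s * (K * F) := by
    refine mul_le_mul_of_nonneg_left ?_ hs0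
    nlinarith
  have hKU : K * U ≤ s * (K * F) := by
    calc K * U ≤ K * (s * F) := mul_le_mul_of_nonneg_left hU hK0
      _ = _ := by ring
  have a1 : K * F' ≤ N * (A * (s * (K * F) + C * (s * (K * F) + (s * G + F)))) := by
    calc K * F' ≤ K * (N * (A * (U + C * (U + ρ * (Γ + F))))) :=
          mul_le_mul_of_nonneg_left hF' hK0
      _ = N * (A * (K * U + C * (K * U + (ρ * K) * (Γ + F)))) := by ring
      _ = N * (A * (K * U + C * (K * U + (Γ + F)))) := by rw [hρK, one_mul]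
      _ ≤ _ := by gcongr
  have hU1 : U ≤ s * (K * F) := hU.trans hsF
  have hU2 : U ≤ F := hU.trans (by nlinarith)
  have a2 : ρ * (Γ + F) ≤ s * G + F := by
    calc ρ * (Γ + F) ≤ 1 * (Γ + F) := mul_le_mul_of_nonneg_right hρ1 (by positivity)
      _ ≤ _ := by linarith
  have b1 : G' ≤ N * (N * (E ^ 2 * A * (F + F) + A * (C * (s * (K * F) + (s * G + F)) +
      C * (s * (K * F) + (s * G + F))))) := by
    refine hG'.trans ?_
    have := sq_nonneg E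
    gcongr
  have c1 := mul_le_mul_of_nonneg_right hsB (mul_nonneg hK0 hF)
  have c2 := mul_le_mul_of_nonneg_right hsB hG
  have c3 := mul_le_mul_of_nonneg_right hKB hF
  have d1 : 0 ≤ s * (N * A) * G := by positivity
  have d2 : 0 ≤ N * A * F := by positivity
  nlinarith

theorem arith2 {F G U Γ s ρ K A C E : ℝ} (hF : 0 ≤ F) (hG : 0 ≤ G) (hU0 : 0 ≤ U)
    (hΓ0 : 0 ≤ Γ) (hρ : 0 ≤ ρ) (hA : 0 ≤ A) (hC : 0 ≤ C)
    (hρK : ρ * K = 1) (hK : 1 ≤ K) (hs : s ≤ 1) (hU : U ≤ s * F) (hΓ : Γ ≤ s * G) :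
    A * (U + C * (U + ρ * (Γ + F))) ≤ (2 * E ^ 2 * A + A + 6 * A * C) * (G + K * F) ∧
    E ^ 2 * A * (F + U) + A * (C * (K * U + (Γ + F)) +
      C * (U + ρ * (Γ + F))) ≤ (2 * E ^ 2 * A + A + 6 * A * C) * (G + K * F) := by
  have hK0 : 0 ≤ K := by linarith
  have hρ1 : ρ ≤ 1 := by nlinarith
  set N := G + K * F with hN
  have hFN : F ≤ N := by nlinarith
  have hGN : G ≤ N := by nlinarith
  have hN0 : 0 ≤ N := hG.trans hGN
  have hUF : U ≤ F := hU.trans (by nlinarith)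
  have hΓG : Γ ≤ G := hΓ.trans (by nlinarith)
  have hKU : K * U ≤ N := by
    have := mul_le_mul_of_nonneg_left hUF hK0
    linarith
  have hΓF : Γ + F ≤ 2 * N := by linarith
  have hρΓ : ρ * (Γ + F) ≤ 2 * N := by
    calc ρ * (Γ + F) ≤ 1 * (2 * N) := mul_le_mul hρ1 hΓF (by positivity) zero_le_one
      _ = _ := one_mul _
  have hUN : U ≤ N := hUF.trans hFN
  constructor
  · calc A * (U + C * (U + ρ * (Γ + F))) ≤ A * (N + C * (N + 2 * N)) := by gcongr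
      _ ≤ _ := by
        have h1 : 0 ≤ E ^ 2 * A * N := by positivity
        have h2 : 0 ≤ A * C * N := by positivity
        nlinarith
  · calc E ^ 2 * A * (F + U) + A * (C * (K * U + (Γ + F)) + C * (U + ρ * (Γ + F))) ≤
        E ^ 2 * A * (N + N) + A * (C * (N + 2 * N) + C * (N + 2 * N)) := by
          have := sq_nonneg E
          gcongr
      _ ≤ _ := by
        have h1 : 0 ≤ A * N := by positivity
        nlinarith

/-- `ℝ≥0∞` version -/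
theorem arithE {F G U Γ F' G' : ℝ≥0∞} {s ρ K A C E N : ℝ≥0} (hF : F ≠ ⊤) (hG : G ≠ ⊤)
    (hρK : (ρ : ℝ) * K = 1) (hK : 1 ≤ (K : ℝ)) (hs : (s : ℝ) ≤ 1) (hU : U ≤ s * F)
    (hΓ : Γ ≤ s * G)
    (hF' : F' ≤ N * (A * (U + C * (U + ρ * (Γ + F)))))
    (hG' : G' ≤ N * (N * ((E : ℝ≥0∞) ^ 2 * A * (F + U) + A * (C * (K * U + (Γ + F)) +
      C * (U + ρ * (Γ + F))))))
    (hsB : (s : ℝ) * (N * A * (1 + C) + 2 * (N : ℝ) ^ 2 * A * C) ≤ 1 / 4)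
    (hKB : ((N : ℝ) * A * (1 + C) + 2 * (N : ℝ) ^ 2 * A * C) + 2 * (N : ℝ) ^ 2 * A * (E : ℝ) ^ 2 ≤
      K / 4) :
    G' + K * F' ≤ (1 / 2) * (G + K * F) := by
  have hUt : U ≠ ⊤ := ne_top_of_le_ne_top (by finiteness) hU
  have hΓt : Γ ≠ ⊤ := ne_top_of_le_ne_top (by finiteness) hΓ
  have hFt' : F' ≠ ⊤ := ne_top_of_le_ne_top (by finiteness) hF'
  have hGt' : G' ≠ ⊤ := ne_top_of_le_ne_top (by finiteness) hG'
  lift F to ℝ≥0 using hF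
  lift G to ℝ≥0 using hG
  lift U to ℝ≥0 using hUt
  lift Γ to ℝ≥0 using hΓt
  lift F' to ℝ≥0 using hFt'
  lift G' to ℝ≥0 using hGt'
  norm_cast at hU hΓ hF' hG'
  have h12 : ((1 : ℝ≥0∞) / 2) = (((1 : ℝ≥0) / 2 : ℝ≥0) : ℝ≥0∞) := by
    rw [ENNReal.coe_div two_ne_zero]
    simp
  rw [h12]
  norm_cast
  have key := arith (F := F) (G := G) (U := U) (Γ := Γ) (F' := F') (G' := G') (s := s) (ρ := ρ)
    (K := K) (A := A) (C := C) (E := E) (N := N) F.2 G.2 U.2 Γ.2 s.2 ρ.2 A.2 C.2 N.2 hρK hK hs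
    (by exact_mod_cast hU) (by exact_mod_cast hΓ) (by exact_mod_cast hF')
    (by exact_mod_cast hG') hsB hKB
  rw [← NNReal.coe_le_coe]
  push_cast
  exact key

theorem arithE2 {F G U Γ X Y : ℝ≥0∞} {s ρ K A C E : ℝ≥0} (hF : F ≠ ⊤) (hG : G ≠ ⊤)
    (hρK : (ρ : ℝ) * K = 1) (hK : 1 ≤ (K : ℝ)) (hs : (s : ℝ) ≤ 1) (hU : U ≤ s * F)
    (hΓ : Γ ≤ s * G)
    (hX : X ≤ A * (U + C * (U + ρ * (Γ + F))))
    (hY : Y ≤ (E : ℝ≥0∞) ^ 2 * A * (F + U) + A * (C * (K * U + (Γ + F)) +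
      C * (U + ρ * (Γ + F)))) :
    X ≤ ((2 * E ^ 2 * A + A + 6 * A * C : ℝ≥0) : ℝ≥0∞) * (G + K * F) ∧
    Y ≤ ((2 * E ^ 2 * A + A + 6 * A * C : ℝ≥0) : ℝ≥0∞) * (G + K * F) := by
  have hUt : U ≠ ⊤ := ne_top_of_le_ne_top (by finiteness) hU
  have hΓt : Γ ≠ ⊤ := ne_top_of_le_ne_top (by finiteness) hΓ
  have hFt' : X ≠ ⊤ := ne_top_of_le_ne_top (by finiteness) hX
  have hGt' : Y ≠ ⊤ := ne_top_of_le_ne_top (by finiteness) hY
  lift F to ℝ≥0 using hF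
  lift G to ℝ≥0 using hG
  lift U to ℝ≥0 using hUt
  lift Γ to ℝ≥0 using hΓt
  lift X to ℝ≥0 using hFt'
  lift Y to ℝ≥0 using hGt'
  norm_cast at hU hΓ hX hY
  norm_cast
  have key := arith2 (F := F) (G := G) (U := U) (Γ := Γ) (s := s) (ρ := ρ)
    (K := K) (A := A) (C := C) (E := E) F.2 G.2 U.2 Γ.2 ρ.2 A.2 C.2 hρK hK hs
    (by exact_mod_cast hU) (by exact_mod_cast hΓ)
  have hX' : (X : ℝ) ≤ A * (U + C * (U + ρ * (Γ + F))) := by exact_mod_cast hX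
  have hY' : (Y : ℝ) ≤ (E : ℝ) ^ 2 * A * (F + U) + A * (C * (K * U + (Γ + F)) +
      C * (U + ρ * (Γ + F))) := by exact_mod_cast hY
  rw [← NNReal.coe_le_coe, ← NNReal.coe_le_coe]
  push_cast
  exact ⟨hX'.trans key.1, hY'.trans key.2⟩

end Pool.Agent.H92.Lip
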