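import Mathlib

/-!
Common definitions and module interfaces for the proof that `H^{0,1}_{W^1}` vanishes on
bounded pseudoconvex domains with Lipschitz boundary.
-/

set_option autoImplicit false

open MeasureTheory Set Filter Topology
open scoped ContDiff ENNReal

namespace Pool.Agent.H92.Lip

/-- `ℂⁿ` with the sup norm and Lebesgue measure -/
abbrev EC (n : ℕ) := Fin n → ℂ

variable {n : ℕ}

/-- test functions with support in `Ω` -/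
structure Tst (Ω : Set (EC n)) (ψ : EC n → ℂ) : Prop where
  smooth : ContDiff ℝ ∞ ψ
  cpt : HasCompactSupport ψ
  sub : tsupport ψ ⊆ Ω

/-- the operator `∂/∂z̄_j` -/
noncomputable def db (j : Fin n) (ψ : EC n → ℂ) (x : EC n) : ℂ :=
  (fderiv ℝ ψ x (Pi.single j (1 : ℂ)) + Complex.I * fderiv ℝ ψ x (Pi.single j Complex.I)) / 2

/-- the operator `∂/∂z_j` -/
noncomputable def dz (j : Fin n) (ψ : EC n → ℂ) (x : EC n) : ℂ :=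
  (fderiv ℝ ψ x (Pi.single j (1 : ℂ)) - Complex.I * fderiv ℝ ψ x (Pi.single j Complex.I)) / 2

/-- squared euclidean norm -/
noncomputable def nsq (w : EC n) : ℝ := ∑ j, ‖w j‖ ^ 2

/-- four times the Levi form of `F` at `z` in the direction `w` -/
noncomputable def Lev (F : EC n → ℝ) (z w : EC n) : ℝ :=
  fderiv ℝ (fderiv ℝ F) z w w + fderiv ℝ (fderiv ℝ F) z (Complex.I • w) (Complex.I • w)

/-- sub mean value property on closed affine discs contained in `O` -/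
def SubMean (O : Set (EC n)) (u : EC n → ℝ) : Prop :=
  ∀ z ∈ O, ∀ w : EC n, (∀ ζ : ℂ, ‖ζ‖ ≤ 1 → z + ζ • w ∈ O) →
    u z ≤ (2 * Real.pi)⁻¹ *
      ∫ θ in Set.Ioc (0 : ℝ) (2 * Real.pi), u (z + Complex.exp ((θ : ℂ) * Complex.I) • w)

/-- `K ⊂ D ⊂⊂ Ω` with `D` the negativity set of a smooth strictly psh function -/
def Exh (Ω : Set (EC n)) : Prop :=
  ∀ K : Set (EC n), IsCompact K → K ⊆ Ω → ∃ (p : EC n → ℝ) (D : Set (EC n)),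
    ContDiff ℝ ∞ p ∧ IsOpen D ∧ K ⊆ D ∧ IsCompact (closure D) ∧ closure D ⊆ Ω ∧
    (∀ z ∈ closure D, ∀ w, 4 * nsq w ≤ Lev p z w) ∧ (∀ z ∈ D, p z < 0) ∧
    (∀ z ∈ frontier D, p z = 0)

/-- `Φ` is a locally uniform limit on `Ω` of smooth functions with Levi form at least `|w|²` -/
def SPsh (Ω : Set (EC n)) (Φ : EC n → ℝ) : Prop :=
  ∀ K : Set (EC n), IsCompact K → K ⊆ Ω → ∀ ε : ℝ, 0 < ε → ∃ F : EC n → ℝ, ContDiff ℝ ∞ F ∧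
    (∀ z ∈ K, |F z - Φ z| ≤ ε) ∧ ∀ z ∈ K, ∀ w, 4 * nsq w ≤ Lev F z w

/-- `f` is weakly `∂̄`-closed on `Ω` -/
def WClosed (Ω : Set (EC n)) (f : Fin n → EC n → ℂ) : Prop :=
  ∀ j k : Fin n, ∀ ψ : EC n → ℂ, Tst Ω ψ →
    ∫ x in Ω, f j x * db k ψ x = ∫ x in Ω, f k x * db j ψ x

/-! ### Module interfaces -/

/-- M1: the basic (Morrey-Kohn-Hörmander) estimate for compactly supported smooth forms:
if `4 L(z) |w|² ≤ Lev φ z w` on the supports, then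
`∫ L |γ|² e^{-φ} ≤ ∫ |∑ (∂_j γ_j - γ_j ∂_j φ)|² e^{-φ} + 1/2 ∑_{j,k} ∫ |∂̄_j γ_k - ∂̄_k γ_j|² e^{-φ}` -/
def BasicEst (n : ℕ) : Prop :=
  ∀ (φ : EC n → ℝ) (L : EC n → ℝ) (γ : Fin n → EC n → ℂ), ContDiff ℝ ∞ φ → Continuous L →
    (∀ j, ContDiff ℝ ∞ (γ j)) → (∀ j, HasCompactSupport (γ j)) →
    (∀ j, ∀ z ∈ tsupport (γ j), ∀ w, 4 * (L z * nsq w) ≤ Lev φ z w) →
    ∫ x, L x * (∑ j, ‖γ j x‖ ^ 2) * Real.exp (-φ x) ≤
      (∫ x, ‖∑ j, (dz j (γ j) x - γ j x * dz j (fun y => (φ y : ℂ)) x)‖ ^ 2 * Real.exp (-φ x)) +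
      (1 / 2) * ∑ j, ∑ k, ∫ x, ‖db j (γ k) x - db k (γ j) x‖ ^ 2 * Real.exp (-φ x)

/-- M2: the Hörmander a priori inequality -/
def AprioriIneq (n : ℕ) : Prop :=
  ∀ (Ω : Set (EC n)) (Φ : EC n → ℝ) (M t : ℝ) (f a : Fin n → EC n → ℂ), IsOpen Ω → Exh Ω →
    ContinuousOn Φ Ω → (∀ z ∈ Ω, |Φ z| ≤ M) → SPsh Ω Φ → 0 < t →
    (∀ j, MemLp (f j) 2 (volume.restrict Ω)) → WClosed Ω f → (∀ j, Tst Ω (a j)) →
    ‖∑ j, ∫ x in Ω, f j x * a j x‖ ^ 2 ≤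
      (1 / t) * (∫ x in Ω, (∑ j, ‖f j x‖ ^ 2) * Real.exp (-(t * Φ x))) *
        ∫ x in Ω, ‖∑ j, db j (a j) x‖ ^ 2 * Real.exp (t * Φ x)

/-- M3a: smoothing of continuous functions with the sub mean value property -/
def SmoothApprox (n : ℕ) : Prop :=
  ∀ (O : Set (EC n)) (u : EC n → ℝ), IsOpen O → ContinuousOn u O → SubMean O u →
    ∀ K : Set (EC n), IsCompact K → K ⊆ O → ∀ ε : ℝ, 0 < ε →
      ∃ F : EC n → ℝ, ContDiff ℝ ∞ F ∧ (∀ z ∈ K, |F z - u z| ≤ ε) ∧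
        ∀ z ∈ K, ∀ w, 0 ≤ Lev F z w

/-- M3b: a psh exhaustion gives `Exh` -/
def ExhOfPsh (n : ℕ) : Prop :=
  ∀ (Ω : Set (EC n)) (φ : EC n → ℝ), IsOpen Ω → ContinuousOn φ Ω →
    (∀ c : ℝ, IsCompact {z | z ∈ Ω ∧ φ z ≤ c}) → SubMean Ω φ → Exh Ω

/-- M3c: Oka's lemma (distance in the sup norm) -/
def OkaLemma (n : ℕ) : Prop :=
  ∀ (Ω : Set (EC n)) (φ : EC n → ℝ), IsOpen Ω → (Ωᶜ).Nonempty → ContinuousOn φ Ω →
    (∀ c : ℝ, IsCompact {z | z ∈ Ω ∧ φ z ≤ c}) → SubMean Ω φ →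
    SubMean Ω (fun z => -Real.log (Metric.infDist z Ωᶜ))

/-- the averaging operator of M5 -/
noncomputable def Kop (ζ : EC n → ℂ) (ρ : ℝ) (g : EC n → ℂ) (x : EC n) : ℂ :=
  ∫ v, ζ v * ∫ τ in Set.Ioc (0 : ℝ) 1, (ρ : ℂ) * g (x - (τ * ρ) • v)

/-- M5: `K_ρ` gains one derivative in `L²`, uniformly in `ρ` -/
def GradBound (n : ℕ) : Prop :=
  ∀ ζ : EC n → ℂ, ContDiff ℝ ∞ ζ → HasCompactSupport ζ → ∃ C : ℝ, 0 ≤ C ∧
    ∀ ρ : ℝ, 0 < ρ → ∀ e : EC n, ‖e‖ ≤ 1 → ∀ g : EC n → ℂ, MemLp g 2 volume →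
      ∃ h : EC n → ℂ, MemLp h 2 volume ∧
        eLpNorm h 2 volume ≤ ENNReal.ofReal C * eLpNorm g 2 volume ∧
        ∀ χ : EC n → ℂ, ContDiff ℝ ∞ χ → HasCompactSupport χ →
          ∫ x, Kop ζ ρ g x * fderiv ℝ χ x e = - ∫ x, h x * χ x

end Pool.Agent.H92.Lip
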