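import Pool.Agent.H92.Lip.Defs

/-!
Second batch of definitions and module interfaces (local solutions, Riesz, iteration).
-/

set_option autoImplicit false

open MeasureTheory Set Filter Topology
open scoped ContDiff ENNReal

namespace Pool.Agent.H92.Lip

variable {n : ℕ}

/-- the weighted measure `e^{-tΦ} dx` on `S` -/
noncomputable def wm (Φ : EC n → ℝ) (t : ℝ) (S : Set (EC n)) : Measure (EC n) :=
  (volume.restrict S).withDensity fun x => ENNReal.ofReal (Real.exp (-(t * Φ x)))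

/-- weak derivative on `S` with respect to a first order operator `T` -/
def WDo (T : (EC n → ℂ) → EC n → ℂ) (S : Set (EC n)) (u g : EC n → ℂ) : Prop :=
  ∀ ψ : EC n → ℂ, Tst S ψ → ∫ x in S, u x * T ψ x = -∫ x in S, g x * ψ x

/-- inward cone condition near `p`, along which `Φ` decreases -/
def ConeMono (Ω : Set (EC n)) (Φ : EC n → ℝ) (p e : EC n) (c r : ℝ) : Prop :=
  ∀ z ∈ Ω, dist z p < r → ∀ s : ℝ, 0 ≤ s → s ≤ r → ∀ w : EC n, ‖w‖ ≤ c →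
    z - s • (e + w) ∈ Ω ∧ Φ (z - s • (e + w)) ≤ Φ z

/-- the data: a weakly closed `L²` form `f` with weak derivatives `D k j = ∂_k f_j` in `L²` -/
structure XD (Ω : Set (EC n)) (f : Fin n → EC n → ℂ) (D : Fin n → Fin n → EC n → ℂ) : Prop where
  mf : ∀ j, MemLp (f j) 2 (volume.restrict Ω)
  mD : ∀ k j, MemLp (D k j) 2 (volume.restrict Ω)
  wd : ∀ k j, WDo (dz k) Ω (f j) (D k j)
  cl : WClosed Ω f

/-- M7a: Hörmander's theorem, solution with estimate -/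
def HormSolve (n : ℕ) : Prop :=
  ∀ (Ω : Set (EC n)) (Φ : EC n → ℝ) (M t : ℝ) (f : Fin n → EC n → ℂ), IsOpen Ω → Exh Ω →
    Measurable Φ → ContinuousOn Φ Ω → (∀ z ∈ Ω, |Φ z| ≤ M) → SPsh Ω Φ → 0 < t →
    (∀ j, MemLp (f j) 2 (volume.restrict Ω)) → WClosed Ω f →
    ∃ u : EC n → ℂ, MemLp u 2 (volume.restrict Ω) ∧ (∀ j, WDo (db j) Ω u (f j)) ∧
      eLpNorm u 2 (wm Φ t Ω) ≤
        ENNReal.ofReal (1 / Real.sqrt t) * ∑ j, eLpNorm (f j) 2 (wm Φ t Ω)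

/-- M6a: weighted `L²` bound of `Kop` -/
def KopBound (n : ℕ) : Prop :=
  ∀ (Ω : Set (EC n)) (Φ : EC n → ℝ) (M t : ℝ) (p e : EC n) (c r : ℝ) (ζ : EC n → ℂ) (ρ : ℝ)
    (g : EC n → ℂ), IsOpen Ω → Measurable Φ → (∀ z ∈ Ω, |Φ z| ≤ M) → 0 ≤ t → 0 < r →
    ConeMono Ω Φ p e c r → Continuous ζ → HasCompactSupport ζ →
    tsupport ζ ⊆ Metric.closedBall e c → 0 < ρ → ρ ≤ r → MemLp g 2 (volume.restrict Ω) →
    MemLp (Kop ζ ρ (Ω.indicator g)) 2 volume ∧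
    eLpNorm (Kop ζ ρ (Ω.indicator g)) 2 (wm Φ t (Ω ∩ Metric.ball p r)) ≤
      ENNReal.ofReal (ρ * ∫ v, ‖ζ v‖) * eLpNorm g 2 (wm Φ t Ω)

/-- the translation average -/
noncomputable def Aop (ζ : EC n → ℂ) (ρ : ℝ) (g : EC n → ℂ) (x : EC n) : ℂ :=
  ∫ v, ζ v * g (x - ρ • v)

/-- M6c: weighted `L²` bound and weak derivative of `Aop` -/
def AopBound (n : ℕ) : Prop :=
  ∀ (Ω : Set (EC n)) (Φ : EC n → ℝ) (M t : ℝ) (p e : EC n) (c r : ℝ) (ζ : EC n → ℂ) (ρ : ℝ)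
    (g : EC n → ℂ), IsOpen Ω → Measurable Φ → (∀ z ∈ Ω, |Φ z| ≤ M) → 0 ≤ t → 0 < r →
    ConeMono Ω Φ p e c r → ContDiff ℝ ∞ ζ → HasCompactSupport ζ →
    tsupport ζ ⊆ Metric.closedBall e c → 0 < ρ → ρ ≤ r → MemLp g 2 (volume.restrict Ω) →
    MemLp (Aop ζ ρ (Ω.indicator g)) 2 volume ∧
    eLpNorm (Aop ζ ρ (Ω.indicator g)) 2 (wm Φ t (Ω ∩ Metric.ball p r)) ≤
      ENNReal.ofReal (∫ v, ‖ζ v‖) * eLpNorm g 2 (wm Φ t Ω) ∧
    ∀ e' : EC n, ∀ χ : EC n → ℂ, ContDiff ℝ ∞ χ → HasCompactSupport χ →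
      ∫ x, Aop ζ ρ (Ω.indicator g) x * fderiv ℝ χ x e' =
        - ∫ x, ((1 / ρ : ℝ) : ℂ) * Aop (fun v => fderiv ℝ ζ v e') ρ (Ω.indicator g) x * χ x

/-- M6b: weighted gradient bound of `Kop` (level sets of `Φ` and `GradBound`) -/
def KopGrad (n : ℕ) : Prop :=
  ∀ ζ : EC n → ℂ, ContDiff ℝ ∞ ζ → HasCompactSupport ζ → ∃ C : ℝ, 0 ≤ C ∧
    ∀ (Ω : Set (EC n)) (Φ : EC n → ℝ) (M t : ℝ) (p e : EC n) (c r : ℝ), IsOpen Ω →
    Measurable Φ → ContinuousOn Φ Ω → (∀ z ∈ Ω, |Φ z| ≤ M) → 0 ≤ t → 0 < r →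
    ConeMono Ω Φ p e c r → tsupport ζ ⊆ Metric.closedBall e c →
    ∀ ρ : ℝ, 0 < ρ → ρ ≤ r → ∀ e' : EC n, ‖e'‖ ≤ 1 →
    ∀ g : EC n → ℂ, MemLp g 2 (volume.restrict Ω) →
      ∃ h : EC n → ℂ, MemLp h 2 volume ∧
        (∀ χ : EC n → ℂ, ContDiff ℝ ∞ χ → HasCompactSupport χ →
          ∫ x, Kop ζ ρ (Ω.indicator g) x * fderiv ℝ χ x e' = - ∫ x, h x * χ x) ∧
        eLpNorm h 2 (wm Φ t (Ω ∩ Metric.ball p r)) ≤
          ENNReal.ofReal C * eLpNorm g 2 (wm Φ t Ω)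

/-- the local solution -/
noncomputable def locSol (ζ : EC n → ℂ) (ρ : ℝ) (Ω : Set (EC n)) (u : EC n → ℂ)
    (g f : Fin n → EC n → ℂ) (x : EC n) : ℂ :=
  Aop ζ ρ (Ω.indicator u) x + ∑ l, (Kop (fun v => ζ v * v l) ρ (Ω.indicator (g l)) x +
    Kop (fun v => ζ v * (starRingEnd ℂ) (v l)) ρ (Ω.indicator (f l)) x)

/-- M6d: the local solution solves the `∂̄` equation on the patch -/
def LocalDbar (n : ℕ) : Prop :=
  ∀ (Ω : Set (EC n)) (Φ : EC n → ℝ) (p e : EC n) (c r : ℝ) (ζ : EC n → ℂ) (ρ : ℝ)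
    (f : Fin n → EC n → ℂ) (D : Fin n → Fin n → EC n → ℂ) (u : EC n → ℂ)
    (g : Fin n → EC n → ℂ), IsOpen Ω → Bornology.IsBounded Ω → 0 < r → ConeMono Ω Φ p e c r →
    ContDiff ℝ ∞ ζ → HasCompactSupport ζ → tsupport ζ ⊆ Metric.closedBall e c →
    ∫ v, ζ v = 1 → 0 < ρ → ρ ≤ r → XD Ω f D → MemLp u 2 (volume.restrict Ω) →
    (∀ k, WDo (db k) Ω u (f k)) → (∀ l, MemLp (g l) 2 (volume.restrict Ω)) →
    (∀ l k, WDo (db k) Ω (g l) (D l k)) →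
    ∀ k, WDo (db k) (Ω ∩ Metric.ball p r) (locSol ζ ρ Ω u g f) (f k)

/-- M7b: `‖∂_k U‖ = ‖∂̄_k U‖` for compactly supported `L²` functions -/
def DzOfDb (n : ℕ) : Prop :=
  ∀ (k : Fin n) (U V : EC n → ℂ), MemLp U 2 volume → HasCompactSupport U → MemLp V 2 volume →
    WDo (db k) univ U V → ∃ W : EC n → ℂ, MemLp W 2 volume ∧ WDo (dz k) univ U W ∧
      eLpNorm W 2 volume ≤ eLpNorm V 2 volume

/-- the contraction step -/
def OneStep (Ω : Set (EC n)) : Prop :=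
  ∃ (N : (Fin n → EC n → ℂ) → (Fin n → Fin n → EC n → ℂ) → ℝ≥0∞) (C : ℝ),
    (∀ f D, XD Ω f D → N f D < ⊤ ∧
      ∀ j, eLpNorm (f j) 2 (volume.restrict Ω) ≤ ENNReal.ofReal C * N f D) ∧
    ∀ f D, XD Ω f D → ∃ (u : EC n → ℂ) (P f' : Fin n → EC n → ℂ)
      (D' : Fin n → Fin n → EC n → ℂ), XD Ω f' D' ∧ N f' D' ≤ (1 / 2) * N f D ∧
        MemLp u 2 (volume.restrict Ω) ∧ (∀ k, MemLp (P k) 2 (volume.restrict Ω)) ∧
        (∀ k, WDo (dz k) Ω u (P k)) ∧ (∀ k, WDo (db k) Ω u (fun x => f k x - f' k x)) ∧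
        eLpNorm u 2 (volume.restrict Ω) ≤ ENNReal.ofReal C * N f D ∧
        ∀ k, eLpNorm (P k) 2 (volume.restrict Ω) ≤ ENNReal.ofReal C * N f D

/-- M7d: summing the geometric series -/
def Iterate (n : ℕ) : Prop :=
  ∀ (Ω : Set (EC n)), IsOpen Ω → OneStep Ω →
    ∀ (f : Fin n → EC n → ℂ) (D : Fin n → Fin n → EC n → ℂ), XD Ω f D →
      ∃ (u : EC n → ℂ) (P : Fin n → EC n → ℂ), MemLp u 2 (volume.restrict Ω) ∧
        (∀ k, MemLp (P k) 2 (volume.restrict Ω)) ∧ (∀ k, WDo (dz k) Ω u (P k)) ∧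
        ∀ k, WDo (db k) Ω u (f k)

/-- M7e: the derivatives of a closed form are closed, and the statement in real directions -/
def ClosedD (n : ℕ) : Prop :=
  ∀ (Ω : Set (EC n)) (f : Fin n → EC n → ℂ) (D : Fin n → Fin n → EC n → ℂ), IsOpen Ω →
    XD Ω f D → ∀ k, WClosed Ω (D k)

end Pool.Agent.H92.Lip
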