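import Pool.Agent.H92.Lip.Levi

set_option autoImplicit false

open MeasureTheory Set Filter Topology
open scoped ContDiff ENNReal

namespace Pool.Agent.H92.Lip

variable {n : ℕ}

/-- distance to the complement -/
noncomputable def dl (Ω : Set (EC n)) (z : EC n) : ℝ := Metric.infDist z Ωᶜ

/-- data of a boundary chart: translation inwards by the cone around `e` -/
structure Chart (Ω : Set (EC n)) (p e : EC n) (c r : ℝ) : Prop where
  hc : 0 < c
  hr : 0 < r
  np : p ∉ Ω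
  mem : ∀ z ∈ Ω, dist z p < r → ∀ s : ℝ, 0 ≤ s → s ≤ r → ∀ w : EC n, ‖w‖ ≤ c →
    z - s • (e + w) ∈ Ω

theorem dl_pos {Ω : Set (EC n)} (hΩ : IsOpen Ω) (hne : (Ωᶜ).Nonempty) {z : EC n} (hz : z ∈ Ω) :
    0 < dl Ω z := by
  refine (hΩ.isClosed_compl.notMem_iff_infDist_pos hne).1 ?_
  simpa using hz

theorem ball_dl_subset {Ω : Set (EC n)} {z : EC n} :
    Metric.ball z (dl Ω z) ⊆ Ω := by
  intro y hy
  by_contra hyΩ
  have h1 : dl Ω z ≤ dist z y := Metric.infDist_le_dist_of_mem hyΩ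
  rw [Metric.mem_ball, dist_comm] at hy
  linarith

theorem le_dl {Ω : Set (EC n)} (hne : (Ωᶜ).Nonempty) {z : EC n} {R : ℝ}
    (h : Metric.ball z R ⊆ Ω) : R ≤ dl Ω z := by
  refine (Metric.le_infDist hne).2 fun y hy => ?_
  by_contra hlt
  rw [not_le] at hlt
  exact hy (h (by rwa [Metric.mem_ball, dist_comm]))

theorem dl_le_dist {Ω : Set (EC n)} {z p : EC n} (hp : p ∉ Ω) : dl Ω z ≤ dist z p :=
  Metric.infDist_le_dist_of_mem hp

theorem dl_lip (Ω : Set (EC n)) (z y : EC n) : dl Ω z ≤ dl Ω y + dist z y :=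
  Metric.infDist_le_infDist_add_dist

theorem continuous_dl (Ω : Set (EC n)) : Continuous (dl Ω) := Metric.continuous_infDist_pt _

theorem Chart.dl_mono {Ω : Set (EC n)} (hne : (Ωᶜ).Nonempty) {p e : EC n} {c r : ℝ}
    (h : Chart Ω p e c r) {z : EC n} (hzr : dist z p < r / 2) {s : ℝ} (hs0 : 0 ≤ s)
    (hsr : s ≤ r) {w : EC n} (hw : ‖w‖ ≤ c) : dl Ω z ≤ dl Ω (z - s • (e + w)) := by
  refine le_dl hne fun y hy => ?_
  have h1 : y + s • (e + w) ∈ Metric.ball z (dl Ω z) := by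
    rw [Metric.mem_ball, dist_eq_norm] at hy ⊢
    have : y + s • (e + w) - z = y - (z - s • (e + w)) := by abel
    rwa [this]
  have h2 : y + s • (e + w) ∈ Ω := ball_dl_subset h1
  have h3 : dist (y + s • (e + w)) p < r := by
    have h4 := dist_triangle (y + s • (e + w)) z p
    have h5 := dl_le_dist (z := z) h.np
    rw [Metric.mem_ball] at h1
    linarith
  have h6 := h.mem _ h2 h3 s hs0 hsr w hw
  simpa using h6

theorem Chart.dl_lower {Ω : Set (EC n)} (hne : (Ωᶜ).Nonempty) {p e : EC n} {c r : ℝ}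
    (h : Chart Ω p e c r) {z : EC n} (hz : z ∈ Ω) (hzr : dist z p < r) {s : ℝ} (hs0 : 0 ≤ s)
    (hsr : s ≤ r) : c * s ≤ dl Ω (z - s • e) := by
  rcases hs0.eq_or_lt with h0 | hpos
  · rw [← h0, mul_zero]
    exact Metric.infDist_nonneg
  refine le_dl hne fun y hy => ?_
  rw [Metric.mem_ball, dist_eq_norm] at hy
  set w : EC n := s⁻¹ • ((z - s • e) - y) with hw
  have h1 : ‖w‖ ≤ c := by
    rw [hw, norm_smul, norm_inv, Real.norm_of_nonneg hpos.le, norm_sub_rev, inv_mul_le_iff₀ hpos]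
    linarith
  have h2 := h.mem z hz hzr s hpos.le hsr w h1
  have h3 : z - s • (e + w) = y := by
    rw [hw, smul_add, smul_smul, mul_inv_cancel₀ hpos.ne', one_smul]
    abel
  rwa [h3] at h2

theorem Chart.mem' {Ω : Set (EC n)} {p e : EC n} {c r : ℝ}
    (h : Chart Ω p e c r) {z : EC n} (hz : z ∈ Ω) (hzr : dist z p < r) {s : ℝ} (hs0 : 0 ≤ s)
    (hsr : s ≤ r) : z - s • e ∈ Ω := by
  have := h.mem z hz hzr s hs0 hsr 0 (by rw [norm_zero]; exact h.hc.le)
  simpa using this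

/-- averages of `-log δ` along the chart direction -/
noncomputable def uu (Ω : Set (EC n)) (e : EC n) (s0 : ℝ) (z : EC n) : ℝ :=
  ∫ s in (0 : ℝ)..s0, -Real.log (dl Ω (z - s • e))

/-- the dominating function -/
noncomputable def bd (c A : ℝ) (s : ℝ) : ℝ := |Real.log c| + |Real.log s| + |Real.log A|

theorem bd_int (c A a b : ℝ) : IntervalIntegrable (bd c A) volume a b := by
  unfold bd
  refine (intervalIntegrable_const.add ?_).add intervalIntegrable_const
  exact intervalIntegral.intervalIntegrable_log'.abs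

theorem Chart.log_bound {Ω : Set (EC n)} (hne : (Ωᶜ).Nonempty) {p e : EC n} {c r A : ℝ}
    (h : Chart Ω p e c r) (hA : ∀ z, z ∈ Ω → dl Ω z ≤ A) {z : EC n} (hz : z ∈ Ω)
    (hzr : dist z p < r) {s : ℝ} (hs0 : 0 < s) (hsr : s ≤ r) :
    |(-Real.log (dl Ω (z - s • e)))| ≤ bd c A s := by
  have h1 := h.dl_lower hne hz hzr hs0.le hsr
  have h2 := hA _ (h.mem' hz hzr hs0.le hsr)
  have hcs : 0 < c * s := mul_pos h.hc hs0
  have hpos : 0 < dl Ω (z - s • e) := hcs.trans_le h1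
  have h3 : Real.log (c * s) ≤ Real.log (dl Ω (z - s • e)) := Real.log_le_log hcs h1
  have h4 : Real.log (dl Ω (z - s • e)) ≤ Real.log A := Real.log_le_log hpos h2
  rw [Real.log_mul h.hc.ne' hs0.ne'] at h3
  unfold bd
  rw [abs_neg, abs_le]
  have a1 := neg_abs_le (Real.log c)
  have a2 := neg_abs_le (Real.log s)
  have a3 := le_abs_self (Real.log A)
  have a4 := abs_nonneg (Real.log c)
  have a5 := abs_nonneg (Real.log s)
  have a6 := abs_nonneg (Real.log A)
  constructor <;> linarith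

theorem meas_log (Ω : Set (EC n)) (e z : EC n) :
    Measurable (fun s : ℝ => -Real.log (dl Ω (z - s • e))) := by
  refine (Real.measurable_log.comp ?_).neg
  exact (continuous_dl Ω).measurable.comp (by fun_prop)

theorem Chart.uu_int {Ω : Set (EC n)} (hne : (Ωᶜ).Nonempty) {p e : EC n} {c r A : ℝ}
    (h : Chart Ω p e c r) (hA : ∀ z, z ∈ Ω → dl Ω z ≤ A) {z : EC n} (hz : z ∈ Ω)
    (hzr : dist z p < r) {a b : ℝ} (ha : 0 ≤ a) (har : a ≤ r) (hb : 0 ≤ b) (hbr : b ≤ r) :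
    IntervalIntegrable (fun s => -Real.log (dl Ω (z - s • e))) volume a b := by
  refine (bd_int c A a b).mono_fun (meas_log Ω e z).aestronglyMeasurable ?_
  rw [EventuallyLE, ae_restrict_iff' measurableSet_uIoc]
  refine Eventually.of_forall fun s hs => ?_
  have h1 : 0 < s := (le_min ha hb).trans_lt hs.1
  have h2 : s ≤ r := hs.2.trans (max_le har hbr)
  have := h.log_bound hne hA hz hzr h1 h2
  rw [Real.norm_eq_abs]
  exact this.trans (le_abs_self _)

theorem Chart.uu_bdd {Ω : Set (EC n)} (hne : (Ωᶜ).Nonempty) {p e : EC n} {c r A s0 : ℝ}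
    (h : Chart Ω p e c r) (hA : ∀ z, z ∈ Ω → dl Ω z ≤ A) (hs0 : 0 ≤ s0) (hsr : s0 ≤ r)
    {z : EC n} (hz : z ∈ Ω) (hzr : dist z p < r) :
    |uu Ω e s0 z| ≤ ∫ s in (0 : ℝ)..s0, bd c A s := by
  unfold uu
  rw [← Real.norm_eq_abs]
  refine intervalIntegral.norm_integral_le_of_norm_le hs0 ?_ (bd_int c A 0 s0)
  refine Eventually.of_forall fun s hs => ?_
  rw [Real.norm_eq_abs]
  exact h.log_bound hne hA hz hzr hs.1 (hs.2.trans hsr)

end Pool.Agent.H92.Lip
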