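import Pool.Agent.H92.Lip.Geo

set_option autoImplicit false

open MeasureTheory Set Filter Topology
open scoped ContDiff ENNReal

namespace Pool.Agent.H92.Lip

variable {n : ℕ}

theorem Chart.uu_cont {Ω : Set (EC n)} (hΩ : IsOpen Ω) (hne : (Ωᶜ).Nonempty) {p e : EC n}
    {c r A s0 : ℝ}
    (h : Chart Ω p e c r) (hA : ∀ z, z ∈ Ω → dl Ω z ≤ A) (hs0 : 0 ≤ s0) (hsr : s0 ≤ r) :
    ContinuousOn (uu Ω e s0) (Ω ∩ Metric.ball p r) := by
  intro z hz
  unfold uu
  refine intervalIntegral.continuousWithinAt_of_dominated_interval (bound := bd c A) ?_ ?_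
    (bd_int c A 0 s0) ?_
  · exact Eventually.of_forall fun z => (meas_log Ω e z).aestronglyMeasurable
  · filter_upwards [self_mem_nhdsWithin] with z hz
    refine Eventually.of_forall fun s hs => ?_
    rw [uIoc_of_le hs0] at hs
    rw [Real.norm_eq_abs]
    exact h.log_bound hne hA hz.1 hz.2 hs.1 (hs.2.trans hsr)
  · refine Eventually.of_forall fun s hs => ?_
    rw [uIoc_of_le hs0] at hs
    have h1 := dl_pos hΩ hne (h.mem' hz.1 hz.2 hs.1.le (hs.2.trans hsr))
    refine ContinuousAt.continuousWithinAt ?_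
    refine ContinuousAt.neg (ContinuousAt.log ?_ h1.ne')
    exact ((continuous_dl Ω).comp (by fun_prop : Continuous fun z : EC n => z - s • e)).continuousAt

theorem Chart.uu_sub {Ω : Set (EC n)} (hΩ : IsOpen Ω) (hne : (Ωᶜ).Nonempty) {p e : EC n}
    {c r A s0 : ℝ}
    (h : Chart Ω p e c r) (hA : ∀ z, z ∈ Ω → dl Ω z ≤ A) (hs0 : 0 ≤ s0) (hsr : s0 ≤ r)
    (hoka : SubMean Ω (fun z => -Real.log (dl Ω z))) :
    SubMean (Ω ∩ Metric.ball p r) (uu Ω e s0) := by
  intro z hz w hw
  have hc : ∀ θ : ℝ, z + Complex.exp ((θ : ℂ) * Complex.I) • w ∈ Ω ∩ Metric.ball p r := by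
    intro θ
    refine hw _ ?_
    rw [Complex.norm_exp_ofReal_mul_I]
  -- integrability on the product
  have hm : Measurable (fun q : ℝ × ℝ =>
      -Real.log (dl Ω (z + Complex.exp ((q.2 : ℂ) * Complex.I) • w - q.1 • e))) := by
    refine (Real.measurable_log.comp ?_).neg
    exact (continuous_dl Ω).measurable.comp (by fun_prop)
  have hfin : IsFiniteMeasure (volume.restrict (Ioc (0 : ℝ) (2 * Real.pi))) := by
    refine ⟨?_⟩
    rw [Measure.restrict_apply MeasurableSet.univ, univ_inter, Real.volume_Ioc]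
    exact ENNReal.ofReal_lt_top
  have hbd : Integrable (fun q : ℝ × ℝ => bd c A q.1)
      ((volume.restrict (Ioc 0 s0)).prod (volume.restrict (Ioc (0 : ℝ) (2 * Real.pi)))) := by
    have h1 : Integrable (bd c A) (volume.restrict (Ioc 0 s0)) :=
      (intervalIntegrable_iff_integrableOn_Ioc_of_le hs0).1 (bd_int c A 0 s0)
    exact h1.comp_fst _
  have hI : Integrable (fun q : ℝ × ℝ =>
      -Real.log (dl Ω (z + Complex.exp ((q.2 : ℂ) * Complex.I) • w - q.1 • e)))
      ((volume.restrict (Ioc 0 s0)).prod (volume.restrict (Ioc (0 : ℝ) (2 * Real.pi)))) := by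
    refine hbd.mono' hm.aestronglyMeasurable ?_
    have hs : ∀ᵐ q : ℝ × ℝ ∂((volume.restrict (Ioc 0 s0)).prod
        (volume.restrict (Ioc (0 : ℝ) (2 * Real.pi)))), q.1 ∈ Ioc 0 s0 := by
      rw [Measure.prod_restrict]
      filter_upwards [ae_restrict_mem (measurableSet_Ioc.prod measurableSet_Ioc)] with q hq
      exact hq.1
    filter_upwards [hs] with q hq
    rw [Real.norm_eq_abs]
    exact h.log_bound hne hA (hc q.2).1 (hc q.2).2 hq.1 (hq.2.trans hsr)
  have e1 : uu Ω e s0 z ≤ ∫ s in Ioc 0 s0, (2 * Real.pi)⁻¹ *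
      ∫ θ in Ioc (0 : ℝ) (2 * Real.pi),
        -Real.log (dl Ω (z + Complex.exp ((θ : ℂ) * Complex.I) • w - s • e)) := by
    unfold uu
    rw [intervalIntegral.integral_of_le hs0]
    refine setIntegral_mono_on ?_ ?_ measurableSet_Ioc ?_
    · have := h.uu_int hne hA hz.1 hz.2 le_rfl h.hr.le hs0 hsr
      exact (intervalIntegrable_iff_integrableOn_Ioc_of_le hs0).1 this
    · exact (hI.integral_prod_left).const_mul _
    · intro s hs
      have h2 := hoka (z - s • e) (h.mem' hz.1 hz.2 hs.1.le (hs.2.trans hsr)) w (by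
        intro ζ hζ
        have h3 := hw ζ hζ
        have h4 := h.mem' h3.1 h3.2 hs.1.le (hs.2.trans hsr)
        have h5 : z - s • e + ζ • w = z + ζ • w - s • e := by abel
        rwa [h5])
      refine h2.trans (le_of_eq ?_)
      congr 1
      refine integral_congr_ae (Eventually.of_forall fun θ => ?_)
      beta_reduce
      congr 4
      abel
  refine e1.trans (le_of_eq ?_)
  rw [integral_const_mul]
  congr 1
  rw [integral_integral_swap hI]
  refine integral_congr_ae (Eventually.of_forall fun θ => ?_)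
  beta_reduce
  unfold uu
  rw [intervalIntegral.integral_of_le hs0]

/-- growth of the averages in the chart direction -/
theorem Chart.uu_growth {Ω : Set (EC n)} (hΩ : IsOpen Ω) (hne : (Ωᶜ).Nonempty) {p e : EC n}
    {c r A s0 : ℝ}
    (h : Chart Ω p e c r) (hA : ∀ z, z ∈ Ω → dl Ω z ≤ A) (hs0 : 0 < s0) {z : EC n}
    (hz : z ∈ Ω) (hzr : dist z p < r) {k : ℝ} (hk : 0 ≤ k) (hskr : s0 + k ≤ r) :
    k * (Real.log (c * s0) - Real.log (dl Ω z + k * ‖e‖)) ≤
      uu Ω e s0 z - uu Ω e s0 (z - k • e) := by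
  have hint : ∀ a b : ℝ, 0 ≤ a → a ≤ r → 0 ≤ b → b ≤ r →
      IntervalIntegrable (fun s => -Real.log (dl Ω (z - s • e))) volume a b :=
    fun a b ha har hb hbr => h.uu_int hne hA hz hzr ha har hb hbr
  have e1 : uu Ω e s0 (z - k • e) = ∫ s in k..(s0 + k), -Real.log (dl Ω (z - s • e)) := by
    unfold uu
    have := intervalIntegral.integral_comp_add_right (a := (0 : ℝ)) (b := s0)
      (fun s => -Real.log (dl Ω (z - s • e))) k
    rw [zero_add] at this
    rw [← this]
    refine intervalIntegral.integral_congr fun s _ => ?_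
    congr 3
    rw [add_smul]
    abel
  have e2 : uu Ω e s0 z - uu Ω e s0 (z - k • e) =
      (∫ s in (0 : ℝ)..k, -Real.log (dl Ω (z - s • e))) -
      ∫ s in s0..(s0 + k), -Real.log (dl Ω (z - s • e)) := by
    rw [e1]
    unfold uu
    have h1 := intervalIntegral.integral_add_adjacent_intervals
      (hint 0 k le_rfl h.hr.le hk (by linarith)) (hint k (s0 + k) hk (by linarith)
        (by linarith) hskr)
    have h2 := intervalIntegral.integral_add_adjacent_intervals
      (hint 0 s0 le_rfl h.hr.le hs0.le (by linarith)) (hint s0 (s0 + k) hs0.le (by linarith)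
        (by linarith) hskr)
    linarith
  rw [e2]
  have hdz := dl_pos hΩ hne hz
  have f1 : k * (-Real.log (dl Ω z + k * ‖e‖)) ≤
      ∫ s in (0 : ℝ)..k, -Real.log (dl Ω (z - s • e)) := by
    have h3 : ∫ _ in (0 : ℝ)..k, (-Real.log (dl Ω z + k * ‖e‖)) =
        k * (-Real.log (dl Ω z + k * ‖e‖)) := by
      rw [intervalIntegral.integral_const, smul_eq_mul, sub_zero]
    rw [← h3]
    refine intervalIntegral.integral_mono_on hk intervalIntegrable_const
      (hint 0 k le_rfl h.hr.le hk (by linarith)) fun s hs => ?_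
    refine neg_le_neg (Real.log_le_log (dl_pos hΩ hne (h.mem' hz hzr hs.1 (by linarith [hs.2])))
      ?_)
    refine (dl_lip Ω (z - s • e) z).trans ?_
    have : dist (z - s • e) z ≤ k * ‖e‖ := by
      rw [dist_eq_norm]
      have h4 : z - s • e - z = -(s • e) := by abel
      rw [h4, norm_neg, norm_smul, Real.norm_of_nonneg hs.1]
      exact mul_le_mul_of_nonneg_right hs.2 (norm_nonneg _)
    linarith
  have f2 : ∫ s in s0..(s0 + k), -Real.log (dl Ω (z - s • e)) ≤
      k * (-Real.log (c * s0)) := by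
    have h3 : ∫ _ in s0..(s0 + k), (-Real.log (c * s0)) = k * (-Real.log (c * s0)) := by
      rw [intervalIntegral.integral_const, smul_eq_mul]
      congr 1
      ring
    rw [← h3]
    refine intervalIntegral.integral_mono_on (by linarith)
      (hint s0 (s0 + k) hs0.le (by linarith) (by linarith) hskr) intervalIntegrable_const
      fun s hs => ?_
    refine neg_le_neg (Real.log_le_log (mul_pos h.hc hs0) ?_)
    refine le_trans ?_ (h.dl_lower hne hz hzr (hs0.le.trans hs.1) (hs.2.trans hskr))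
    exact mul_le_mul_of_nonneg_left hs.1 h.hc.le
  linarith

/-- comparison in the directions of another chart -/
theorem Chart.uu_compare {Ω : Set (EC n)} (hΩ : IsOpen Ω) (hne : (Ωᶜ).Nonempty)
    {p e q e' : EC n} {c r c' r' A s0 : ℝ}
    (h : Chart Ω p e c r) (h' : Chart Ω q e' c' r') (hA : ∀ z, z ∈ Ω → dl Ω z ≤ A)
    (hs0 : 0 < s0) {z : EC n} (hz : z ∈ Ω) (hzr : dist z p < r) {κ s : ℝ}
    (hκ : 0 ≤ κ) (hs : 0 ≤ s) (hsr' : s ≤ r') (hskr : s0 + κ * s ≤ r) {w : EC n}
    (hw : ‖w‖ + κ * ‖e‖ ≤ c') (hzq : dist z q + (s0 + κ * s) * ‖e‖ < r' / 2)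
    (hzv : dist (z - s • (e' + w)) p < r) (hzv' : z - s • (e' + w) ∈ Ω) :
    uu Ω e s0 (z - s • (e' + w)) ≤ uu Ω e s0 (z - (κ * s) • e) := by
  have hκs : 0 ≤ κ * s := mul_nonneg hκ hs
  have e1 : IntervalIntegrable (fun t => -Real.log (dl Ω (z - (κ * s) • e - t • e)))
      volume 0 s0 := by
    have h1 := h.uu_int hne hA hz hzr (a := 0 + κ * s) (b := s0 + κ * s) (by linarith)
      (by linarith) (by linarith) hskr
    have h2 := h1.comp_add_right (κ * s)
    simp only [add_sub_cancel_right] at h2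
    refine h2.congr fun t _ => ?_
    beta_reduce
    congr 3
    rw [add_smul]
    abel
  unfold uu
  refine intervalIntegral.integral_mono_on hs0.le
    (h.uu_int hne hA hzv' hzv le_rfl h.hr.le hs0.le (by linarith)) e1 fun t ht => ?_
  have hmem : z - (κ * s) • e - t • e ∈ Ω := by
    have := h.mem' hz hzr (s := κ * s + t) (by linarith [ht.1]) (by linarith [ht.2])
    have h2 : z - (κ * s + t) • e = z - (κ * s) • e - t • e := by
      rw [add_smul]
      abel
    rwa [h2] at this
  refine neg_le_neg (Real.log_le_log (dl_pos hΩ hne hmem) ?_)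
  have h3 : dist (z - (κ * s) • e - t • e) q < r' / 2 := by
    have h4 : dist (z - (κ * s) • e - t • e) z ≤ (s0 + κ * s) * ‖e‖ := by
      rw [dist_eq_norm]
      have h5 : z - (κ * s) • e - t • e - z = -((t + κ * s) • e) := by
        rw [add_smul]
        abel
      rw [h5, norm_neg, norm_smul, Real.norm_of_nonneg (by linarith [ht.1])]
      refine mul_le_mul_of_nonneg_right ?_ (norm_nonneg _)
      linarith [ht.2]
    have h6 := dist_triangle (z - (κ * s) • e - t • e) z q
    linarith
  have h7 := h'.dl_mono hne h3 hs hsr' (w := w - κ • e) (by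
    refine (norm_sub_le _ _).trans ?_
    rw [norm_smul, Real.norm_of_nonneg hκ]
    exact hw)
  have h8 : z - (κ * s) • e - t • e - s • (e' + (w - κ • e)) = z - s • (e' + w) - t • e := by
    rw [smul_add, smul_add, smul_sub, smul_smul, mul_comm s κ]
    abel
  rwa [h8] at h7

end Pool.Agent.H92.Lip
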