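import Pool.Agent.H92.Lip.Pou

set_option autoImplicit false

open MeasureTheory Set Filter Topology
open scoped ContDiff ENNReal

namespace Pool.Agent.H92.Lip

variable {n : ℕ}

theorem fd_comm {ψ : EC n → ℂ} (h : ContDiff ℝ ∞ ψ) (a b : EC n) (x : EC n) :
    fd a (fd b ψ) x = fd b (fd a ψ) x := by
  have h1 : ∀ v w : EC n, fd v (fd w ψ) x = fderiv ℝ (fderiv ℝ ψ) x v w := by
    intro v w
    have hd : DifferentiableAt ℝ (fderiv ℝ ψ) x :=
      (h.fderiv_right (m := ∞) (by simp)).differentiable (by simp) x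
    have h2 := (hd.hasFDerivAt).clm_apply (hasFDerivAt_const w x)
    have h3 : fderiv ℝ (fun y => fderiv ℝ ψ y w) x v = fderiv ℝ (fderiv ℝ ψ) x v w := by
      rw [h2.fderiv]
      simp
    exact h3
  rw [h1, h1]
  have hs : IsSymmSndFDerivAt ℝ ψ x := by
    refine ContDiffAt.isSymmSndFDerivAt (n := ∞) h.contDiffAt ?_
    rw [minSmoothness_of_isRCLikeNormedField]
    exact WithTop.coe_le_coe.2 le_top
  exact hs.eq a b

theorem fd_lin {ψ1 ψ2 : EC n → ℂ} (h1 : ContDiff ℝ ∞ ψ1) (h2 : ContDiff ℝ ∞ ψ2) (a b : ℂ)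
    (e x : EC n) : fd e (fun y => a * ψ1 y + b * ψ2 y) x = a * fd e ψ1 x + b * fd e ψ2 x := by
  have hT := FO.fd (n := n) e
  rw [hT.add _ _ (contDiff_const.mul h1) (contDiff_const.mul h2),
    hT.mul _ _ contDiff_const h1, hT.mul _ _ contDiff_const h2, hT.const, hT.const]
  ring

theorem comb_comm {T T' : (EC n → ℂ) → EC n → ℂ} {a b a' b' : ℂ} {e1 e2 e1' e2' : EC n}
    (hT : ∀ ψ x, T ψ x = a * fd e1 ψ x + b * fd e2 ψ x)
    (hT' : ∀ ψ x, T' ψ x = a' * fd e1' ψ x + b' * fd e2' ψ x) {ψ : EC n → ℂ}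
    (h : ContDiff ℝ ∞ ψ) (x : EC n) : T (T' ψ) x = T' (T ψ) x := by
  have e : T' ψ = fun y => a' * fd e1' ψ y + b' * fd e2' ψ y := funext fun y => hT' ψ y
  have e' : T ψ = fun y => a * fd e1 ψ y + b * fd e2 ψ y := funext fun y => hT ψ y
  rw [hT, hT', e, e', fd_lin (contDiff_fd' _ h) (contDiff_fd' _ h),
    fd_lin (contDiff_fd' _ h) (contDiff_fd' _ h), fd_lin (contDiff_fd' _ h) (contDiff_fd' _ h),
    fd_lin (contDiff_fd' _ h) (contDiff_fd' _ h), fd_comm h e1 e1', fd_comm h e1 e2',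
    fd_comm h e2 e1', fd_comm h e2 e2']
  ring

theorem db_db_comm {ψ : EC n → ℂ} (h : ContDiff ℝ ∞ ψ) (j k : Fin n) (x : EC n) :
    db j (db k ψ) x = db k (db j ψ) x := comb_comm (db_eq_fd j) (db_eq_fd k) h x

theorem wclosed_of_exact {Ω : Set (EC n)} {u : EC n → ℂ} {q : Fin n → EC n → ℂ}
    (h : ∀ k, WDo (db k) Ω u (q k)) : WClosed Ω q := by
  intro j k ψ hψ
  have h1 := h j (db k ψ) ((FO.db k).tst hψ)
  have h2 := h k (db j ψ) ((FO.db j).tst hψ)
  have h3 : ∫ x in Ω, u x * db j (db k ψ) x = ∫ x in Ω, u x * db k (db j ψ) x := by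
    refine integral_congr_ae (Eventually.of_forall fun x => ?_)
    beta_reduce
    rw [db_db_comm hψ.smooth]
  rw [h1, h2] at h3
  exact neg_inj.1 h3

theorem WClosed.sub {Ω : Set (EC n)} {f q : Fin n → EC n → ℂ}
    (hf : ∀ j, MemLp (f j) 2 (volume.restrict Ω)) (hq : ∀ j, MemLp (q j) 2 (volume.restrict Ω))
    (h1 : WClosed Ω f) (h2 : WClosed Ω q) : WClosed Ω (fun j x => f j x - q j x) := by
  intro j k ψ hψ
  have hk := (FO.db k).tst hψ
  have hj := (FO.db j).tst hψ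
  simp only [sub_mul]
  rw [integral_sub (integrable_mul_tst (hf j) hk) (integrable_mul_tst (hq j) hk),
    integral_sub (integrable_mul_tst (hf k) hj) (integrable_mul_tst (hq k) hj), h1 j k ψ hψ,
    h2 j k ψ hψ]

theorem WDo.neg {T : (EC n → ℂ) → EC n → ℂ} {S : Set (EC n)}
    {u g : EC n → ℂ} (h : WDo T S u g) : WDo T S (fun x => -u x) (fun x => -g x) := by
  have := h.const_mul (-1)
  simpa using this

theorem WDo.sub {T : (EC n → ℂ) → EC n → ℂ} (hT : FO T) {S : Set (EC n)}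
    {u g u' g' : EC n → ℂ} (hu : MemLp u 2 (volume.restrict S))
    (hg : MemLp g 2 (volume.restrict S)) (hu' : MemLp u' 2 (volume.restrict S))
    (hg' : MemLp g' 2 (volume.restrict S)) (h : WDo T S u g) (h' : WDo T S u' g') :
    WDo T S (fun x => u x - u' x) (fun x => g x - g' x) := by
  have := WDo.add hT hu hg hu'.neg hg'.neg h h'.neg
  simpa [sub_eq_add_neg] using this

/-- interior estimate for `θ u₀` -/
theorem interior (hD : DzOfDb n) {Ω : Set (EC n)} (hΩ : IsOpen Ω) {θ : EC n → ℂ}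
    (hθ : Tst Ω θ) {A : ℝ} (k : Fin n) (hA1 : ∀ x, ‖θ x‖ ≤ A)
    (hA2 : ∀ x, ‖db k θ x‖ ≤ A) {u f : EC n → ℂ} (hu : MemLp u 2 (volume.restrict Ω))
    (hf : MemLp f 2 (volume.restrict Ω)) (h : WDo (db k) Ω u f) :
    ∃ W : EC n → ℂ, MemLp W 2 volume ∧ WDo (dz k) Ω (fun x => θ x * u x) W ∧
      eLpNorm W 2 volume ≤ ENNReal.ofReal A *
        (eLpNorm f 2 (volume.restrict Ω) + eLpNorm u 2 (volume.restrict Ω)) := by
  have hz : ∀ x, x ∉ Ω → θ x = 0 := by
    intro x hx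
    by_contra h0
    exact hx (hθ.sub (subset_tsupport _ h0))
  have hz' : ∀ x, x ∉ Ω → db k θ x = 0 := by
    intro x hx
    by_contra h0
    exact hx (((FO.db k).tst hθ).sub (subset_tsupport _ h0))
  have hc1 := hθ.smooth.continuous
  have hc2 := continuous_db hθ.smooth k
  have hs2 := hcs_db hθ.cpt k
  have e1 : Ω.indicator (fun x => θ x * u x) = fun x => θ x * u x := by
    ext x
    by_cases hx : x ∈ Ω
    · rw [indicator_of_mem hx]
    · rw [indicator_of_notMem hx, hz x hx, zero_mul]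
  have e2 : Ω.indicator (fun x => θ x * f x + u x * db k θ x) =
      fun x => θ x * f x + u x * db k θ x := by
    ext x
    by_cases hx : x ∈ Ω
    · rw [indicator_of_mem hx]
    · rw [indicator_of_notMem hx, hz x hx, hz' x hx]
      ring
  have m1 : MemLp (fun x => θ x * u x) 2 (volume.restrict Ω) := memLp_mul_hcs hc1 hθ.cpt hu
  have m2 : MemLp (fun x => θ x * f x) 2 (volume.restrict Ω) := memLp_mul_hcs hc1 hθ.cpt hf
  have m3 : MemLp (fun x => u x * db k θ x) 2 (volume.restrict Ω) := by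
    have := memLp_mul_hcs hc2 hs2 hu
    simpa [mul_comm] using this
  have M1 : MemLp (fun x => θ x * u x) 2 volume := by
    rw [← e1]
    exact (memLp_indicator_iff_restrict hΩ.measurableSet).2 m1
  have M2 : MemLp (fun x => θ x * f x + u x * db k θ x) 2 volume := by
    rw [← e2]
    exact (memLp_indicator_iff_restrict hΩ.measurableSet).2 (m2.add m3)
  have hw : WDo (db k) univ (fun x => θ x * u x) (fun x => θ x * f x + u x * db k θ x) :=
    WDo.mul (FO.db k) MeasurableSet.univ (subset_univ Ω) hθ.smooth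
      (inter_subset_left.trans hθ.sub) hu hf h
  obtain ⟨W, hW1, hW2, hW3⟩ := hD k _ _ M1 (hθ.cpt.mul_right) M2 hw
  refine ⟨W, hW1, WDo.mono (FO.dz k) MeasurableSet.univ (subset_univ Ω) hW2, hW3.trans ?_⟩
  have e3 : eLpNorm (fun x => θ x * f x + u x * db k θ x) 2 volume =
      eLpNorm (fun x => θ x * f x + u x * db k θ x) 2 (volume.restrict Ω) := by
    conv_lhs => rw [← e2]
    exact eLpNorm_indicator_eq_eLpNorm_restrict hΩ.measurableSet
  rw [e3, mul_add]
  refine (eLpNorm_add_le m2.1 m3.1 (by norm_num)).trans (add_le_add ?_ ?_)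
  · refine eLpNorm_le_mul_eLpNorm_of_ae_le_mul (Eventually.of_forall fun x => ?_) 2
    rw [norm_mul]
    exact mul_le_mul_of_nonneg_right (hA1 x) (norm_nonneg _)
  · refine eLpNorm_le_mul_eLpNorm_of_ae_le_mul (Eventually.of_forall fun x => ?_) 2
    rw [norm_mul, mul_comm]
    exact mul_le_mul_of_nonneg_right (hA2 x) (norm_nonneg _)

end Pool.Agent.H92.Lip
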