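import Pool.Agent.H92.Lip.Glue

set_option autoImplicit false

open MeasureTheory Set Filter Topology
open scoped ContDiff ENNReal

namespace Pool.Agent.H92.Lip

variable {n : ℕ}

/-- data for patching local solutions -/
structure PD (Ω : Set (EC n)) (t : Finset (EC n)) (r : EC n → ℝ) (θ0 : EC n → ℂ)
    (θ : EC n → EC n → ℂ) (f : Fin n → EC n → ℂ) (D : Fin n → Fin n → EC n → ℂ)
    (u : EC n → ℂ) (v : EC n → EC n → ℂ) (P : EC n → Fin n → EC n → ℂ)
    (W0 : Fin n → EC n → ℂ) (W : Fin n → Fin n → EC n → ℂ) : Prop where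
  hΩ : IsOpen Ω
  h0 : Tst Ω θ0
  hθ : ∀ p ∈ t, Tst (Metric.ball p (r p)) (θ p)
  hsum : ∀ x ∈ Ω, θ0 x + ∑ p ∈ t, θ p x = 1
  X : XD Ω f D
  mu : MemLp u 2 (volume.restrict Ω)
  wu : ∀ k, WDo (db k) Ω u (f k)
  mv : ∀ p ∈ t, MemLp (v p) 2 volume
  mP : ∀ p ∈ t, ∀ k, MemLp (P p k) 2 volume
  wz : ∀ p ∈ t, ∀ k, WDo (dz k) univ (v p) (P p k)
  wb : ∀ p ∈ t, ∀ k, WDo (db k) (Ω ∩ Metric.ball p (r p)) (v p) (f k)
  mW0 : ∀ k, MemLp (W0 k) 2 volume
  wW0 : ∀ k, WDo (dz k) Ω (fun x => θ0 x * u x) (W0 k)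
  mW : ∀ k j, MemLp (W k j) 2 volume
  wW : ∀ k j, WDo (dz k) Ω (fun x => db j θ0 x * u x) (W k j)

namespace PD

variable {Ω : Set (EC n)} {t : Finset (EC n)} {r : EC n → ℝ} {θ0 : EC n → ℂ}
    {θ : EC n → EC n → ℂ} {f : Fin n → EC n → ℂ} {D : Fin n → Fin n → EC n → ℂ}
    {u : EC n → ℂ} {v : EC n → EC n → ℂ} {P : EC n → Fin n → EC n → ℂ}
    {W0 : Fin n → EC n → ℂ} {W : Fin n → Fin n → EC n → ℂ}

/-- glued function `θ₀ u + ∑ θ_p v_p` -/
noncomputable def gl (t : Finset (EC n)) (θ0 : EC n → ℂ) (θ : EC n → EC n → ℂ) (u : EC n → ℂ)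
    (v : EC n → EC n → ℂ) (x : EC n) : ℂ := θ0 x * u x + ∑ p ∈ t, θ p x * v p x

/-- its `∂_k` derivative -/
noncomputable def glz (t : Finset (EC n)) (θ : EC n → EC n → ℂ) (k : Fin n)
    (v : EC n → EC n → ℂ) (P : EC n → Fin n → EC n → ℂ) (W0 : EC n → ℂ) (x : EC n) : ℂ :=
  W0 x + ∑ p ∈ t, (θ p x * P p k x + v p x * dz k (θ p) x)

theorem mem_gl (h : PD Ω t r θ0 θ f D u v P W0 W) {α0 : EC n → ℂ} {α : EC n → EC n → ℂ}
    (h0 : Tst Ω α0) (hα : ∀ p ∈ t, Tst (Metric.ball p (r p)) (α p)) :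
    MemLp (gl t α0 α u v) 2 (volume.restrict Ω) := by
  refine (memLp_mul_hcs h0.smooth.continuous h0.cpt h.mu).add (memLp_finsetSum _ fun p hp => ?_)
  exact memLp_mul_hcs (hα p hp).smooth.continuous (hα p hp).cpt ((h.mv p hp).restrict Ω)

theorem mem_term (h : PD Ω t r θ0 θ f D u v P W0 W) {α : EC n → EC n → ℂ}
    (hα : ∀ p ∈ t, Tst (Metric.ball p (r p)) (α p)) (k : Fin n) (p : EC n) (hp : p ∈ t) :
    MemLp (fun x => α p x * P p k x + v p x * dz k (α p) x) 2 volume := by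
  refine (memLp_mul_hcs (hα p hp).smooth.continuous (hα p hp).cpt (h.mP p hp k)).add ?_
  have := memLp_mul_hcs ((FO.dz k).tst (hα p hp)).smooth.continuous
    ((FO.dz k).tst (hα p hp)).cpt (h.mv p hp)
  simpa [mul_comm] using this

theorem mem_glz (h : PD Ω t r θ0 θ f D u v P W0 W) {α : EC n → EC n → ℂ}
    (hα : ∀ p ∈ t, Tst (Metric.ball p (r p)) (α p)) (k : Fin n) {V : EC n → ℂ}
    (hV : MemLp V 2 volume) :
    MemLp (glz t α k v P V) 2 (volume.restrict Ω) := by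
  refine MemLp.restrict Ω (hV.add (memLp_finsetSum _ fun p hp => ?_))
  exact h.mem_term hα k p hp

/-- `∂_k` of a glued function -/
theorem wdz (h : PD Ω t r θ0 θ f D u v P W0 W) {α0 : EC n → ℂ} {α : EC n → EC n → ℂ}
    (h0 : Tst Ω α0) (hα : ∀ p ∈ t, Tst (Metric.ball p (r p)) (α p)) (k : Fin n) {V : EC n → ℂ}
    (hV : MemLp V 2 volume) (hw : WDo (dz k) Ω (fun x => α0 x * u x) V) :
    WDo (dz k) Ω (gl t α0 α u v) (glz t α k v P V) := by
  refine WDo.add (FO.dz k) (memLp_mul_hcs h0.smooth.continuous h0.cpt h.mu) (hV.restrict Ω)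
    (memLp_finsetSum _ fun p hp => memLp_mul_hcs (hα p hp).smooth.continuous (hα p hp).cpt
      ((h.mv p hp).restrict Ω))
    (memLp_finsetSum _ fun p hp => (h.mem_term hα k p hp).restrict Ω) hw ?_
  refine WDo.sum _ (FO.dz k) (fun p hp => memLp_mul_hcs (hα p hp).smooth.continuous
    (hα p hp).cpt ((h.mv p hp).restrict Ω)) (fun p hp => (h.mem_term hα k p hp).restrict Ω)
    fun p hp => ?_
  refine WDo.mono (FO.dz k) MeasurableSet.univ (subset_univ Ω) ?_
  exact WDo.mul (FO.dz k) MeasurableSet.univ (subset_univ univ) (hα p hp).smooth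
    (subset_univ _) ((h.mv p hp).restrict univ) ((h.mP p hp k).restrict univ) (h.wz p hp k)

/-- the error form -/
noncomputable def err (t : Finset (EC n)) (θ0 : EC n → ℂ) (θ : EC n → EC n → ℂ) (u : EC n → ℂ)
    (v : EC n → EC n → ℂ) (j : Fin n) (x : EC n) : ℂ :=
  -gl t (db j θ0) (fun p => db j (θ p)) u v x

/-- the derivatives of the error form -/
noncomputable def errz (t : Finset (EC n)) (θ : EC n → EC n → ℂ)
    (v : EC n → EC n → ℂ) (P : EC n → Fin n → EC n → ℂ) (W : Fin n → Fin n → EC n → ℂ)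
    (k j : Fin n) (x : EC n) : ℂ := -glz t (fun p => db j (θ p)) k v P (W k j) x

/-- `∂̄_k` of the glued solution -/
theorem wdb (h : PD Ω t r θ0 θ f D u v P W0 W) (k : Fin n) :
    WDo (db k) Ω (gl t θ0 θ u v) (fun x => f k x - err t θ0 θ u v k x) := by
  have hm1 : MemLp (fun x => θ0 x * f k x + u x * db k θ0 x) 2 (volume.restrict Ω) := by
    refine (memLp_mul_hcs h.h0.smooth.continuous h.h0.cpt (h.X.mf k)).add ?_
    have := memLp_mul_hcs ((FO.db k).tst h.h0).smooth.continuous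
      ((FO.db k).tst h.h0).cpt h.mu
    simpa [mul_comm] using this
  have hm2 : ∀ p ∈ t, MemLp (fun x => θ p x * f k x + v p x * db k (θ p) x) 2
      (volume.restrict Ω) := by
    intro p hp
    refine (memLp_mul_hcs (h.hθ p hp).smooth.continuous (h.hθ p hp).cpt (h.X.mf k)).add ?_
    have := memLp_mul_hcs ((FO.db k).tst (h.hθ p hp)).smooth.continuous
      ((FO.db k).tst (h.hθ p hp)).cpt ((h.mv p hp).restrict Ω)
    simpa [mul_comm] using this
  have h1 : WDo (db k) Ω (gl t θ0 θ u v) (fun x => (θ0 x * f k x + u x * db k θ0 x) +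
      ∑ p ∈ t, (θ p x * f k x + v p x * db k (θ p) x)) := by
    refine WDo.add (FO.db k) (memLp_mul_hcs h.h0.smooth.continuous h.h0.cpt h.mu) hm1
      (memLp_finsetSum _ fun p hp => memLp_mul_hcs (h.hθ p hp).smooth.continuous
        (h.hθ p hp).cpt ((h.mv p hp).restrict Ω)) (memLp_finsetSum _ hm2) ?_ ?_
    · exact WDo.mul (FO.db k) h.hΩ.measurableSet Subset.rfl h.h0.smooth inter_subset_right
        h.mu (h.X.mf k) (h.wu k)
    · refine WDo.sum _ (FO.db k) (fun p hp => memLp_mul_hcs (h.hθ p hp).smooth.continuous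
        (h.hθ p hp).cpt ((h.mv p hp).restrict Ω)) hm2 fun p hp => ?_
      refine WDo.mul (FO.db k) h.hΩ.measurableSet
        (inter_subset_left (s := Ω) (t := Metric.ball p (r p))) (h.hθ p hp).smooth ?_
        ((h.mv p hp).restrict _) ((h.X.mf k).mono_measure
          (Measure.restrict_mono inter_subset_left le_rfl)) (h.wb p hp k)
      intro x hx
      exact ⟨hx.2, (h.hθ p hp).sub hx.1⟩
  refine h1.congr h.hΩ.measurableSet (fun x _ => rfl) ?_
  intro x hx
  unfold err gl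
  have h2 := h.hsum x hx
  rw [Finset.sum_add_distrib, ← Finset.sum_mul]
  have h3 : ∑ p ∈ t, v p x * db k (θ p) x = ∑ p ∈ t, db k (θ p) x * v p x :=
    Finset.sum_congr rfl fun p _ => mul_comm _ _
  rw [h3]
  have h4 : θ0 x * f k x + (∑ p ∈ t, θ p x) * f k x = f k x := by
    rw [← add_mul, h2, one_mul]
  linear_combination -h4

/-- the new data are admissible -/
theorem newXD (h : PD Ω t r θ0 θ f D u v P W0 W) :
    XD Ω (err t θ0 θ u v) (errz t θ v P W) := by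
  have hb0 : ∀ j, Tst Ω (db j θ0) := fun j => (FO.db j).tst h.h0
  have hb : ∀ j, ∀ p ∈ t, Tst (Metric.ball p (r p)) (db j (θ p)) :=
    fun j p hp => (FO.db j).tst (h.hθ p hp)
  have hm : ∀ j, MemLp (err t θ0 θ u v j) 2 (volume.restrict Ω) := fun j =>
    (h.mem_gl (hb0 j) (α := fun p => db j (θ p)) (hb j)).neg
  refine ⟨hm, ?_, ?_, ?_⟩
  · intro k j
    exact (h.mem_glz (α := fun p => db j (θ p)) (hb j) k (h.mW k j)).neg
  · intro k j
    exact (h.wdz (hb0 j) (α := fun p => db j (θ p)) (hb j) k (h.mW k j) (h.wW k j)).neg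
  · have h1 : WClosed Ω (fun k x => f k x - err t θ0 θ u v k x) := wclosed_of_exact h.wdb
    have h2 := WClosed.sub h.X.mf (fun k => (h.X.mf k).sub (hm k)) h.X.cl h1
    simpa using h2

end PD

end Pool.Agent.H92.Lip
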