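import Pool.Agent.H92.Lip.Defs

set_option autoImplicit false

open MeasureTheory Set Filter Topology
open scoped ContDiff ENNReal

namespace Pool.Agent.H92.Lip

variable {n : ℕ}

/-- second derivative in the direction `w` -/
noncomputable def D2 (F : EC n → ℝ) (z w : EC n) : ℝ := fderiv ℝ (fderiv ℝ F) z w w

theorem Lev_eq (F : EC n → ℝ) (z w : EC n) : Lev F z w = D2 F z w + D2 F z (Complex.I • w) := rfl

theorem hasDerivAt_line {F : EC n → ℝ} (hF : ContDiff ℝ ∞ F) (z w : EC n) (s : ℝ) :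
    HasDerivAt (fun s : ℝ => F (z + s • w)) (fderiv ℝ F (z + s • w) w) s := by
  have h1 : HasDerivAt (fun s : ℝ => z + s • w) w s := by
    have := ((hasDerivAt_id s).smul_const w).const_add z
    simpa using this
  exact ((hF.differentiable (by simp) _).hasFDerivAt).comp_hasDerivAt s h1

theorem contDiff_fd {F : EC n → ℝ} (hF : ContDiff ℝ ∞ F) : ContDiff ℝ ∞ (fderiv ℝ F) :=
  hF.fderiv_right (m := ∞) (by simp)

theorem hasDerivAt_line2 {F : EC n → ℝ} (hF : ContDiff ℝ ∞ F) (z w : EC n) (s : ℝ) :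
    HasDerivAt (fun s : ℝ => fderiv ℝ F (z + s • w) w) (D2 F (z + s • w) w) s := by
  have h1 : HasDerivAt (fun s : ℝ => z + s • w) w s := by
    have := ((hasDerivAt_id s).smul_const w).const_add z
    simpa using this
  have h2 := (((contDiff_fd hF).differentiable (by simp) _).hasFDerivAt).comp_hasDerivAt s h1
  exact h2.clm_apply (hasDerivAt_const s w) |>.congr_deriv (by simp [D2])

/-- characterisation of `D2` by the one variable second derivative -/
theorem D2_eq_of {F : EC n → ℝ} (hF : ContDiff ℝ ∞ F) {z w : EC n} {g : ℝ → ℝ} {g' : ℝ}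
    (h1 : ∀ s, HasDerivAt (fun s : ℝ => F (z + s • w)) (g s) s) (h2 : HasDerivAt g g' 0) :
    D2 F z w = g' := by
  have e : g = fun s : ℝ => fderiv ℝ F (z + s • w) w := by
    ext s
    exact (h1 s).unique (hasDerivAt_line hF z w s)
  have h3 := hasDerivAt_line2 hF z w 0
  rw [← e] at h3
  have := h3.unique h2
  simpa using this

theorem D2_add {F G : EC n → ℝ} (hF : ContDiff ℝ ∞ F) (hG : ContDiff ℝ ∞ G) (z w : EC n) :
    D2 (fun x => F x + G x) z w = D2 F z w + D2 G z w := by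
  refine D2_eq_of (hF.add hG)
    (g := fun s => fderiv ℝ F (z + s • w) w + fderiv ℝ G (z + s • w) w) ?_ ?_
  · intro s
    exact (hasDerivAt_line hF z w s).fun_add (hasDerivAt_line hG z w s)
  · have := (hasDerivAt_line2 hF z w 0).fun_add (hasDerivAt_line2 hG z w 0)
    simpa using this

theorem D2_mul {F G : EC n → ℝ} (hF : ContDiff ℝ ∞ F) (hG : ContDiff ℝ ∞ G) (z w : EC n) :
    D2 (fun x => F x * G x) z w =
      D2 F z w * G z + 2 * (fderiv ℝ F z w * fderiv ℝ G z w) + F z * D2 G z w := by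
  refine D2_eq_of (hF.mul hG)
    (g := fun s => fderiv ℝ F (z + s • w) w * G (z + s • w) +
      F (z + s • w) * fderiv ℝ G (z + s • w) w) ?_ ?_
  · intro s
    exact (hasDerivAt_line hF z w s).mul (hasDerivAt_line hG z w s)
  · have h := ((hasDerivAt_line2 hF z w 0).mul (hasDerivAt_line hG z w 0)).add
      ((hasDerivAt_line hF z w 0).mul (hasDerivAt_line2 hG z w 0))
    refine h.congr_deriv ?_
    simp only [zero_smul, add_zero]
    ring

theorem D2_exp {F : EC n → ℝ} (hF : ContDiff ℝ ∞ F) (z w : EC n) :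
    D2 (fun x => Real.exp (F x)) z w =
      Real.exp (F z) * (D2 F z w + (fderiv ℝ F z w) ^ 2) := by
  refine D2_eq_of hF.exp
    (g := fun s => Real.exp (F (z + s • w)) * fderiv ℝ F (z + s • w) w) ?_ ?_
  · intro s
    exact (hasDerivAt_line hF z w s).exp
  · have h := ((hasDerivAt_line hF z w 0).exp).mul (hasDerivAt_line2 hF z w 0)
    refine h.congr_deriv ?_
    simp only [zero_smul, add_zero]
    ring

theorem fderiv_exp {F : EC n → ℝ} (hF : ContDiff ℝ ∞ F) (z w : EC n) :
    fderiv ℝ (fun x => Real.exp (F x)) z w = Real.exp (F z) * fderiv ℝ F z w := by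
  have := ((hF.differentiable (by simp) z).hasFDerivAt).exp
  rw [this.fderiv]
  simp

theorem D2_sum {ι : Type*} (t : Finset ι) {F : ι → EC n → ℝ} (hF : ∀ i, ContDiff ℝ ∞ (F i))
    (z w : EC n) : D2 (fun x => ∑ i ∈ t, F i x) z w = ∑ i ∈ t, D2 (F i) z w := by
  refine D2_eq_of (ContDiff.sum fun i _ => hF i)
    (g := fun s => ∑ i ∈ t, fderiv ℝ (F i) (z + s • w) w) ?_ ?_
  · intro s
    exact HasDerivAt.fun_sum fun i _ => hasDerivAt_line (hF i) z w s
  · have := HasDerivAt.fun_sum (u := t) fun i _ => hasDerivAt_line2 (hF i) z w 0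
    simpa using this

/-- lower bound for the second derivative of `ψ² e^F` -/
theorem D2_sq_exp {ψ F : EC n → ℝ} (hψ : ContDiff ℝ ∞ ψ) (hF : ContDiff ℝ ∞ F) (z w : EC n) :
    Real.exp (F z) * (D2 (fun x => ψ x * ψ x) z w - 4 * (fderiv ℝ ψ z w) ^ 2 +
      (ψ z) ^ 2 * D2 F z w) ≤ D2 (fun x => (ψ x * ψ x) * Real.exp (F x)) z w := by
  have hψ2 : ContDiff ℝ ∞ (fun x => ψ x * ψ x) := hψ.mul hψ
  rw [D2_mul hψ2 hF.exp, D2_exp hF, fderiv_exp hF]
  have h1 : fderiv ℝ (fun x => ψ x * ψ x) z w = 2 * ψ z * fderiv ℝ ψ z w := by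
    have h := (hψ.differentiable (by simp) z).hasFDerivAt
    have h2 := h.fun_mul h
    rw [h2.fderiv]
    simp
    ring
  rw [h1]
  have h3 : 0 < Real.exp (F z) := Real.exp_pos _
  have h4 : 0 ≤ (ψ z * fderiv ℝ F z w + 2 * fderiv ℝ ψ z w) ^ 2 := sq_nonneg _
  nlinarith

theorem nsq_nonneg (w : EC n) : 0 ≤ nsq w := Finset.sum_nonneg fun _ _ => by positivity

theorem norm_sq_le_nsq (w : EC n) : ‖w‖ ^ 2 ≤ nsq w := by
  by_cases hn : Nonempty (Fin n)
  · obtain ⟨j, _, hj⟩ := Finset.exists_max_image Finset.univ (fun j => ‖w j‖) Finset.univ_nonempty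
    have h1 : ‖w‖ ≤ ‖w j‖ := (pi_norm_le_iff_of_nonneg (norm_nonneg _)).2 fun i =>
      hj i (Finset.mem_univ i)
    calc ‖w‖ ^ 2 ≤ ‖w j‖ ^ 2 := by gcongr
      _ ≤ nsq w := Finset.single_le_sum (f := fun j => ‖w j‖ ^ 2) (fun _ _ => by positivity)
          (Finset.mem_univ j)
  · have : IsEmpty (Fin n) := not_nonempty_iff.1 hn
    have h : w = 0 := Subsingleton.elim _ _
    rw [h, norm_zero]
    simpa using nsq_nonneg (0 : EC n)

theorem norm_I_smul (w : EC n) : ‖Complex.I • w‖ = ‖w‖ := by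
  rw [norm_smul, Complex.norm_I, one_mul]

theorem nsq_I_smul (w : EC n) : nsq (Complex.I • w) = nsq w := by
  unfold nsq
  simp

theorem contDiff_nsq : ContDiff ℝ ∞ (nsq : EC n → ℝ) := by
  unfold nsq
  refine ContDiff.sum fun j _ => ?_
  exact (contDiff_apply ℝ ℂ j).norm_sq ℝ

theorem D2_nsq (z w : EC n) : D2 nsq z w = 2 * nsq w := by
  have hc : ∀ j, HasDerivAt (fun s : ℝ => ‖z j + s • w j‖ ^ 2)
      (2 * (inner ℝ (z j + (0 : ℝ) • w j) (w j))) 0 := by
    intro j
    have h1 : HasDerivAt (fun s : ℝ => z j + s • w j) (w j) 0 := by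
      have := ((hasDerivAt_id (0 : ℝ)).smul_const (w j)).const_add (z j)
      simpa using this
    exact h1.norm_sq
  refine D2_eq_of contDiff_nsq
    (g := fun s => ∑ j, 2 * (inner ℝ (z j + s • w j) (w j))) ?_ ?_
  · intro s
    unfold nsq
    have : ∀ j, HasDerivAt (fun s : ℝ => ‖(z + s • w) j‖ ^ 2)
        (2 * (inner ℝ (z j + s • w j) (w j))) s := by
      intro j
      have h1 : HasDerivAt (fun s : ℝ => z j + s • w j) (w j) s := by
        have := ((hasDerivAt_id s).smul_const (w j)).const_add (z j)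
        simpa using this
      exact h1.norm_sq
    exact HasDerivAt.fun_sum fun j _ => this j
  · have : ∀ j, HasDerivAt (fun s : ℝ => 2 * (inner ℝ (z j + s • w j) (w j)))
        (2 * ‖w j‖ ^ 2) 0 := by
      intro j
      have e : (fun s : ℝ => 2 * (inner ℝ (z j + s • w j) (w j))) =
          fun s : ℝ => 2 * (inner ℝ (z j) (w j)) + s * (2 * ‖w j‖ ^ 2) := by
        ext s
        rw [inner_add_left, real_inner_smul_left, real_inner_self_eq_norm_sq]
        ring
      rw [e]
      have := ((hasDerivAt_id (0 : ℝ)).mul_const (2 * ‖w j‖ ^ 2)).const_add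
        (2 * (inner ℝ (z j) (w j) : ℝ))
      simpa using this
    have h := HasDerivAt.fun_sum (u := Finset.univ) fun j _ => this j
    refine h.congr_deriv ?_
    unfold nsq
    rw [Finset.mul_sum]

theorem Lev_nsq (z w : EC n) : Lev nsq z w = 4 * nsq w := by
  rw [Lev_eq, D2_nsq, D2_nsq, nsq_I_smul]
  ring

end Pool.Agent.H92.Lip
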