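import Pool.Agent.H92.Lip.Nm

set_option autoImplicit false

open MeasureTheory Set Filter Topology
open scoped ContDiff ENNReal

namespace Pool.Agent.H92.Lip

variable {n : ℕ}

/-- the weighted norm -/
noncomputable abbrev nm (Φ : EC n → ℝ) (t : ℝ) (S : Set (EC n)) (f : EC n → ℂ) : ℝ≥0∞ :=
  eLpNorm f 2 (wm Φ t S)

theorem ker_smooth {ζ : EC n → ℂ} (h : ContDiff ℝ ∞ ζ) (l : Fin n) :
    ContDiff ℝ ∞ (fun v => ζ v * v l) := h.mul (contDiff_apply ℝ ℂ l)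

theorem ker_smooth' {ζ : EC n → ℂ} (h : ContDiff ℝ ∞ ζ) (l : Fin n) :
    ContDiff ℝ ∞ (fun v => ζ v * (starRingEnd ℂ) (v l)) := by
  refine h.mul ?_
  exact (Complex.conjCLE.contDiff (n := ∞)).comp (contDiff_apply ℝ ℂ l)

theorem ofReal_mul_le {a C ρ : ℝ} (hρ : 0 ≤ ρ) (h : a ≤ C) (x : ℝ≥0∞) :
    ENNReal.ofReal (ρ * a) * x ≤ ENNReal.ofReal C * (ENNReal.ofReal ρ * x) := by
  rw [ENNReal.ofReal_mul hρ]
  calc ENNReal.ofReal ρ * ENNReal.ofReal a * x ≤ ENNReal.ofReal ρ * ENNReal.ofReal C * x := by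
        gcongr
    _ = _ := by ring

theorem locSol_bound (hK : KopBound n) (hA : AopBound n) {Ω : Set (EC n)} {Φ : EC n → ℝ}
    {M t : ℝ} {p e : EC n} {c r : ℝ} {ζ : EC n → ℂ} {ρ : ℝ} {u : EC n → ℂ}
    {g f : Fin n → EC n → ℂ} (hΩ : IsOpen Ω) (hΦ : Measurable Φ) (hM : ∀ z ∈ Ω, |Φ z| ≤ M)
    (ht : 0 ≤ t) (hr : 0 < r) (hcone : ConeMono Ω Φ p e c r) (hζ : ContDiff ℝ ∞ ζ)
    (hζc : HasCompactSupport ζ) (hζs : tsupport ζ ⊆ Metric.closedBall e c) (hρ : 0 < ρ)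
    (hρr : ρ ≤ r) (hu : MemLp u 2 (volume.restrict Ω))
    (hg : ∀ l, MemLp (g l) 2 (volume.restrict Ω)) (hf : ∀ l, MemLp (f l) 2 (volume.restrict Ω)) :
    MemLp (locSol ζ ρ Ω u g f) 2 volume ∧
    nm Φ t (Ω ∩ Metric.ball p r) (locSol ζ ρ Ω u g f) ≤
      ENNReal.ofReal ((∫ v, ‖ζ v‖) + ∑ l, ((∫ v, ‖ζ v * v l‖) +
        ∫ v, ‖ζ v * (starRingEnd ℂ) (v l)‖)) *
        (nm Φ t Ω u + ENNReal.ofReal ρ * ((∑ l, nm Φ t Ω (g l)) + ∑ l, nm Φ t Ω (f l))) := by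
  obtain ⟨a1, a2, -⟩ := hA Ω Φ M t p e c r ζ ρ u hΩ hΦ hM ht hr hcone hζ hζc hζs hρ hρr hu
  have hk : ∀ l, _ := fun l => hK Ω Φ M t p e c r (fun v => ζ v * v l) ρ (g l) hΩ hΦ hM ht hr
    hcone (ker_smooth hζ l).continuous hζc.mul_right
    ((tsupport_mul_subset_left).trans hζs) hρ hρr (hg l)
  have hk' : ∀ l, _ := fun l => hK Ω Φ M t p e c r (fun v => ζ v * (starRingEnd ℂ) (v l)) ρ (f l)
    hΩ hΦ hM ht hr
    hcone (ker_smooth' hζ l).continuous hζc.mul_right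
    ((tsupport_mul_subset_left).trans hζs) hρ hρr (hf l)
  have hml : ∀ l, MemLp (fun x => Kop (fun v => ζ v * v l) ρ (Ω.indicator (g l)) x +
    Kop (fun v => ζ v * (starRingEnd ℂ) (v l)) ρ (Ω.indicator (f l)) x) 2 volume :=
    fun l => (hk l).1.add (hk' l).1
  have hms : MemLp (fun x => ∑ l, (Kop (fun v => ζ v * v l) ρ (Ω.indicator (g l)) x +
    Kop (fun v => ζ v * (starRingEnd ℂ) (v l)) ρ (Ω.indicator (f l)) x)) 2 volume :=
    memLp_finsetSum _ fun l _ => hml l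
  refine ⟨a1.add hms, ?_⟩
  set P := Ω ∩ Metric.ball p r
  set c0 : ℝ := ∫ v, ‖ζ v‖ with hc0
  set cl : Fin n → ℝ := fun l => (∫ v, ‖ζ v * v l‖) with hcl
  set cl' : Fin n → ℝ := fun l => (∫ v, ‖ζ v * (starRingEnd ℂ) (v l)‖) with hcl'
  have hc00 : 0 ≤ c0 := integral_nonneg fun _ => norm_nonneg _
  have hcl0 : ∀ l, 0 ≤ cl l := fun l => integral_nonneg fun _ => norm_nonneg _
  have hcl0' : ∀ l, 0 ≤ cl' l := fun l => integral_nonneg fun _ => norm_nonneg _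
  set C : ℝ := c0 + ∑ l, (cl l + cl' l) with hC
  have hsum0 : 0 ≤ ∑ l, (cl l + cl' l) :=
    Finset.sum_nonneg fun l _ => add_nonneg (hcl0 l) (hcl0' l)
  have hc0C : c0 ≤ C := by linarith
  have hsl : ∀ l, cl l + cl' l ≤ C := by
    intro l
    have := Finset.single_le_sum (f := fun l => cl l + cl' l)
      (fun l _ => add_nonneg (hcl0 l) (hcl0' l)) (Finset.mem_univ l)
    linarith
  have hclC : ∀ l, cl l ≤ C := fun l => by linarith [hsl l, hcl0' l]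
  have hclC' : ∀ l, cl' l ≤ C := fun l => by linarith [hsl l, hcl0 l]
  have b1 : nm Φ t P (locSol ζ ρ Ω u g f) ≤ nm Φ t P (Aop ζ ρ (Ω.indicator u)) +
      ∑ l, (nm Φ t P (Kop (fun v => ζ v * v l) ρ (Ω.indicator (g l))) +
        nm Φ t P (Kop (fun v => ζ v * (starRingEnd ℂ) (v l)) ρ (Ω.indicator (f l)))) := by
    refine (nm_add_le (Φ := Φ) (t := t) (a1.restrict P).aestronglyMeasurable
      (hms.restrict P).aestronglyMeasurable).trans ?_
    refine add_le_add_right ?_ _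
    refine (nm_sum_le _ fun l _ => ((hml l).restrict P).aestronglyMeasurable).trans ?_
    refine Finset.sum_le_sum fun l _ => ?_
    exact nm_add_le ((hk l).1.restrict P).aestronglyMeasurable
      ((hk' l).1.restrict P).aestronglyMeasurable
  refine b1.trans ?_
  rw [mul_add]
  refine add_le_add ?_ ?_
  · refine a2.trans ?_
    exact mul_le_mul_left (ENNReal.ofReal_le_ofReal hc0C) _
  · rw [← Finset.sum_add_distrib, Finset.mul_sum, Finset.mul_sum]
    refine Finset.sum_le_sum fun l _ => ?_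
    rw [mul_add, mul_add]
    exact add_le_add ((hk l).2.trans (ofReal_mul_le hρ.le (hclC l) _))
      ((hk' l).2.trans (ofReal_mul_le hρ.le (hclC' l) _))

theorem fd_ker_supp {ζ : EC n → ℂ} (e' : EC n) :
    tsupport (fun v => fderiv ℝ ζ v e') ⊆ tsupport ζ := (FO.fd e').supp ζ

theorem fd_ker_cpt {ζ : EC n → ℂ} (h : HasCompactSupport ζ) (e' : EC n) :
    HasCompactSupport (fun v => fderiv ℝ ζ v e') :=
  h.of_isClosed_subset (isClosed_tsupport _) (fd_ker_supp e')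

theorem locSol_dir (hA : AopBound n) (hG : KopGrad n) {ζ : EC n → ℂ} (hζ : ContDiff ℝ ∞ ζ)
    (hζc : HasCompactSupport ζ) : ∃ C : ℝ, 0 ≤ C ∧ ∀ {Ω : Set (EC n)} {Φ : EC n → ℝ}
    {M t : ℝ} {p e : EC n} {c r : ℝ} {ρ : ℝ} {u : EC n → ℂ}
    {g f : Fin n → EC n → ℂ} (_ : IsOpen Ω) (_ : Measurable Φ) (_ : ContinuousOn Φ Ω)
    (_ : ∀ z ∈ Ω, |Φ z| ≤ M)
    (_ : 0 ≤ t) (_ : 0 < r) (_ : ConeMono Ω Φ p e c r)
    (_ : tsupport ζ ⊆ Metric.closedBall e c) (_ : 0 < ρ)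
    (_ : ρ ≤ r) (_ : MemLp u 2 (volume.restrict Ω))
    (_ : ∀ l, MemLp (g l) 2 (volume.restrict Ω)) (_ : ∀ l, MemLp (f l) 2 (volume.restrict Ω))
    (_ : MemLp (locSol ζ ρ Ω u g f) 2 volume)
    (_ : MemLp (Aop ζ ρ (Ω.indicator u)) 2 volume)
    (_ : ∀ l, MemLp (Kop (fun v => ζ v * v l) ρ (Ω.indicator (g l))) 2 volume)
    (_ : ∀ l, MemLp (Kop (fun v => ζ v * (starRingEnd ℂ) (v l)) ρ (Ω.indicator (f l))) 2 volume)
    (e' : EC n) (_ : ‖e'‖ ≤ 1), ∃ H : EC n → ℂ, MemLp H 2 volume ∧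
      WDo (fd e') univ (locSol ζ ρ Ω u g f) H ∧
      nm Φ t (Ω ∩ Metric.ball p r) H ≤ ENNReal.ofReal C *
        (ENNReal.ofReal (1 / ρ) * nm Φ t Ω u +
          ((∑ l, nm Φ t Ω (g l)) + ∑ l, nm Φ t Ω (f l))) := by
  have hk : ∀ l : Fin n, _ := fun l => hG (fun v => ζ v * v l) (ker_smooth hζ l) hζc.mul_right
  have hk' : ∀ l : Fin n, _ := fun l => hG (fun v => ζ v * (starRingEnd ℂ) (v l))
    (ker_smooth' hζ l) hζc.mul_right
  choose c1 hc1 hk using hk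
  choose c2 hc2 hk' using hk'
  set c0 : ℝ := ∫ v, ‖fderiv ℝ ζ v‖ with hc0
  have hc00 : 0 ≤ c0 := integral_nonneg fun _ => norm_nonneg _
  have hsum0 : 0 ≤ ∑ l, (c1 l + c2 l) := Finset.sum_nonneg fun l _ => add_nonneg (hc1 l) (hc2 l)
  refine ⟨c0 + ∑ l, (c1 l + c2 l), by positivity, ?_⟩
  intro Ω Φ M t p e c r ρ u g f hΩ hΦ hΦc hM ht hr hcone hζs hρ hρr hu hg hf hmS hmA hmK hmK'
    e' he'
  set C : ℝ := c0 + ∑ l, (c1 l + c2 l) with hC
  have hc0C : c0 ≤ C := by linarith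
  have hsl : ∀ l, c1 l + c2 l ≤ C := by
    intro l
    have := Finset.single_le_sum (f := fun l => c1 l + c2 l)
      (fun l _ => add_nonneg (hc1 l) (hc2 l)) (Finset.mem_univ l)
    linarith
  have hclC : ∀ l, c1 l ≤ C := fun l => by linarith [hsl l, hc2 l]
  have hclC' : ∀ l, c2 l ≤ C := fun l => by linarith [hsl l, hc1 l]
  obtain ⟨-, -, a3⟩ := hA Ω Φ M t p e c r ζ ρ u hΩ hΦ hM ht hr hcone hζ hζc hζs hρ hρr hu
  obtain ⟨b1, b2, -⟩ := hA Ω Φ M t p e c r (fun v => fderiv ℝ ζ v e') ρ u hΩ hΦ hM ht hr hcone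
    (contDiff_fd' e' hζ) (fd_ker_cpt hζc e') ((fd_ker_supp e').trans hζs) hρ hρr hu
  have h1 : ∀ l, _ := fun l => hk l Ω Φ M t p e c r hΩ hΦ hΦc hM ht hr hcone
    ((tsupport_mul_subset_left).trans hζs) ρ hρ hρr e' he' (g l) (hg l)
  have h2 : ∀ l, _ := fun l => hk' l Ω Φ M t p e c r hΩ hΦ hΦc hM ht hr hcone
    ((tsupport_mul_subset_left).trans hζs) ρ hρ hρr e' he' (f l) (hf l)
  choose H1 hH1 hW1 hB1 using h1
  choose H2 hH2 hW2 hB2 using h2
  set P := Ω ∩ Metric.ball p r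
  set H0 : EC n → ℂ := fun x => ((1 / ρ : ℝ) : ℂ) *
    Aop (fun v => fderiv ℝ ζ v e') ρ (Ω.indicator u) x with hH0
  have hmH0 : MemLp H0 2 volume := b1.const_mul _
  have hms : MemLp (fun x => ∑ l, (H1 l x + H2 l x)) 2 volume :=
    memLp_finsetSum _ fun l _ => (hH1 l).add (hH2 l)
  have hru : ∀ {F : EC n → ℂ}, MemLp F 2 volume → MemLp F 2 (volume.restrict univ) :=
    fun h => h.restrict univ
  refine ⟨fun x => H0 x + ∑ l, (H1 l x + H2 l x), hmH0.add hms, ?_, ?_⟩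
  · have w0 : WDo (fd e') univ (Aop ζ ρ (Ω.indicator u)) H0 := by
      intro ψ hψ
      rw [Measure.restrict_univ]
      exact a3 e' ψ hψ.smooth hψ.cpt
    have w1 : ∀ l, WDo (fd e') univ (Kop (fun v => ζ v * v l) ρ (Ω.indicator (g l))) (H1 l) := by
      intro l ψ hψ
      rw [Measure.restrict_univ]
      exact hW1 l ψ hψ.smooth hψ.cpt
    have w2 : ∀ l, WDo (fd e') univ (Kop (fun v => ζ v * (starRingEnd ℂ) (v l)) ρ
        (Ω.indicator (f l))) (H2 l) := by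
      intro l ψ hψ
      rw [Measure.restrict_univ]
      exact hW2 l ψ hψ.smooth hψ.cpt
    refine WDo.add (FO.fd e') (hru hmA) (hru hmH0) (hru (memLp_finsetSum _ fun l _ =>
      (hmK l).add (hmK' l))) (hru hms) w0 ?_
    refine WDo.sum _ (FO.fd e') (fun l _ => hru ((hmK l).add (hmK' l)))
      (fun l _ => hru ((hH1 l).add (hH2 l))) fun l _ => ?_
    exact WDo.add (FO.fd e') (hru (hmK l)) (hru (hH1 l)) (hru (hmK' l)) (hru (hH2 l)) (w1 l) (w2 l)
  · have b3 : nm Φ t P (fun x => H0 x + ∑ l, (H1 l x + H2 l x)) ≤ nm Φ t P H0 +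
        ∑ l, (nm Φ t P (H1 l) + nm Φ t P (H2 l)) := by
      refine (nm_add_le (Φ := Φ) (t := t) (hmH0.restrict P).aestronglyMeasurable
        (hms.restrict P).aestronglyMeasurable).trans ?_
      refine add_le_add_right ?_ _
      refine (nm_sum_le _ fun l _ =>
        (((hH1 l).add (hH2 l)).restrict P).aestronglyMeasurable).trans ?_
      refine Finset.sum_le_sum fun l _ => ?_
      exact nm_add_le ((hH1 l).restrict P).aestronglyMeasurable
        ((hH2 l).restrict P).aestronglyMeasurable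
    refine b3.trans ?_
    rw [mul_add]
    refine add_le_add ?_ ?_
    · have e1 : nm Φ t P H0 = ENNReal.ofReal (1 / ρ) *
          nm Φ t P (Aop (fun v => fderiv ℝ ζ v e') ρ (Ω.indicator u)) := by
        have := eLpNorm_const_smul ((1 / ρ : ℝ) : ℂ)
          (Aop (fun v => fderiv ℝ ζ v e') ρ (Ω.indicator u)) 2 (wm Φ t P)
        have e2 : H0 = ((1 / ρ : ℝ) : ℂ) • (Aop (fun v => fderiv ℝ ζ v e') ρ (Ω.indicator u)) := by
          ext x
          simp [hH0]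
        show eLpNorm H0 2 (wm Φ t P) = _
        rw [e2, this]
        congr 1
        rw [← ofReal_norm, Complex.norm_real, Real.norm_of_nonneg (by positivity)]
      rw [e1]
      have e3 : (∫ v, ‖fderiv ℝ ζ v e'‖) ≤ c0 := by
        have hi : Integrable (fun v => ‖fderiv ℝ ζ v‖) :=
          ((hζ.continuous_fderiv (by simp)).norm).integrable_of_hasCompactSupport
            (hζc.fderiv (𝕜 := ℝ)).norm
        have hi2 : Integrable (fun v => ‖fderiv ℝ ζ v e'‖) :=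
          ((contDiff_fd' e' hζ).continuous.norm).integrable_of_hasCompactSupport
            (fd_ker_cpt hζc e').norm
        refine integral_mono hi2 hi fun v => ?_
        refine (ContinuousLinearMap.le_opNorm _ _).trans ?_
        calc _ ≤ ‖fderiv ℝ ζ v‖ * 1 := by gcongr
          _ = _ := mul_one _
      calc _ ≤ ENNReal.ofReal (1 / ρ) * (ENNReal.ofReal (∫ v, ‖fderiv ℝ ζ v e'‖) *
            nm Φ t Ω u) := mul_le_mul_right b2 _
        _ ≤ ENNReal.ofReal (1 / ρ) * (ENNReal.ofReal C * nm Φ t Ω u) := by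
            have := ENNReal.ofReal_le_ofReal (e3.trans hc0C)
            gcongr
        _ = _ := by ring
    · rw [← Finset.sum_add_distrib, Finset.mul_sum]
      refine Finset.sum_le_sum fun l _ => ?_
      rw [mul_add]
      refine add_le_add ((hB1 l).trans ?_) ((hB2 l).trans ?_)
      · exact mul_le_mul_left (ENNReal.ofReal_le_ofReal (hclC l)) _
      · exact mul_le_mul_left (ENNReal.ofReal_le_ofReal (hclC' l)) _

end Pool.Agent.H92.Lip
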