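import Pool.Agent.H92.Lip.Local

set_option autoImplicit false

open MeasureTheory Set Filter Topology
open scoped ContDiff ENNReal

namespace Pool.Agent.H92.Lip

variable {n : ℕ}

/-- normalised bump -/
theorem exists_kernel (e : EC n) {c : ℝ} (hc : 0 < c) : ∃ ζ : EC n → ℂ, ContDiff ℝ ∞ ζ ∧
    HasCompactSupport ζ ∧ tsupport ζ ⊆ Metric.closedBall e c ∧ ∫ v, ζ v = 1 := by
  let b : ContDiffBump e := ⟨c / 2, c, by positivity, by linarith⟩
  have hs : tsupport (fun v => ((b.normed volume v : ℝ) : ℂ)) ⊆ tsupport (b.normed volume) := by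
    refine closure_mono fun x hx => ?_
    rw [Function.mem_support] at hx ⊢
    intro h0
    rw [h0] at hx
    simp at hx
  refine ⟨fun v => ((b.normed volume v : ℝ) : ℂ), ?_, ?_, ?_, ?_⟩
  · exact Complex.ofRealCLM.contDiff.comp b.contDiff_normed
  · exact (b.hasCompactSupport_normed (μ := volume)).of_isClosed_subset (isClosed_tsupport _) hs
  · rw [b.tsupport_normed_eq] at hs
    exact hs
  · rw [integral_complex_ofReal, b.integral_normed]
    simp

/-- the local solution theorem on one patch -/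
theorem exists_local (hK : KopBound n) (hA : AopBound n) (hG : KopGrad n) (hL : LocalDbar n)
    {Ω : Set (EC n)} (hΩ : IsOpen Ω) (hb : Bornology.IsBounded Ω) {Φ : EC n → ℝ}
    (hΦ : Measurable Φ) (hΦc : ContinuousOn Φ Ω) {M : ℝ} (hM : ∀ z ∈ Ω, |Φ z| ≤ M)
    {p e : EC n} {c r : ℝ} (hc : 0 < c) (hr : 0 < r) (hcone : ConeMono Ω Φ p e c r) :
    ∃ C : ℝ, 0 ≤ C ∧ ∀ (t ρ : ℝ) (f : Fin n → EC n → ℂ) (D : Fin n → Fin n → EC n → ℂ)
      (u : EC n → ℂ) (g : Fin n → EC n → ℂ), 0 ≤ t → 0 < ρ → ρ ≤ r → XD Ω f D →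
      MemLp u 2 (volume.restrict Ω) → (∀ k, WDo (db k) Ω u (f k)) →
      (∀ l, MemLp (g l) 2 (volume.restrict Ω)) → (∀ l k, WDo (db k) Ω (g l) (D l k)) →
      ∃ (v : EC n → ℂ) (P : Fin n → EC n → ℂ), MemLp v 2 volume ∧ (∀ k, MemLp (P k) 2 volume) ∧
        (∀ k, WDo (dz k) univ v (P k)) ∧ (∀ k, WDo (db k) (Ω ∩ Metric.ball p r) v (f k)) ∧
        nm Φ t (Ω ∩ Metric.ball p r) v ≤ ENNReal.ofReal C *
          (nm Φ t Ω u + ENNReal.ofReal ρ * ((∑ l, nm Φ t Ω (g l)) + ∑ l, nm Φ t Ω (f l))) ∧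
        ∀ k, nm Φ t (Ω ∩ Metric.ball p r) (P k) ≤ ENNReal.ofReal C *
          (ENNReal.ofReal (1 / ρ) * nm Φ t Ω u +
            ((∑ l, nm Φ t Ω (g l)) + ∑ l, nm Φ t Ω (f l))) := by
  obtain ⟨ζ, hζ, hζc, hζs, hζ1⟩ := exists_kernel e hc
  obtain ⟨C1, hC1, hdir⟩ := locSol_dir hA hG hζ hζc
  set C0 : ℝ := (∫ v, ‖ζ v‖) + ∑ l, ((∫ v, ‖ζ v * v l‖) +
        ∫ v, ‖ζ v * (starRingEnd ℂ) (v l)‖) with hC0
  have hC00 : 0 ≤ C0 := by
    refine add_nonneg (integral_nonneg fun _ => norm_nonneg _)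
      (Finset.sum_nonneg fun l _ => add_nonneg (integral_nonneg fun _ => norm_nonneg _)
        (integral_nonneg fun _ => norm_nonneg _))
  refine ⟨C0 + C1, by positivity, ?_⟩
  intro t ρ f D u g ht hρ hρr hX hu hub hg hgb
  obtain ⟨m1, m2⟩ := locSol_bound hK hA hΩ hΦ hM ht hr hcone hζ hζc hζs hρ hρr hu hg hX.mf
  have hmA := (hA Ω Φ M t p e c r ζ ρ u hΩ hΦ hM ht hr hcone hζ hζc hζs hρ hρr hu).1
  have hmK : ∀ l, MemLp (Kop (fun v => ζ v * v l) ρ (Ω.indicator (g l))) 2 volume :=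
    fun l => (hK Ω Φ M t p e c r (fun v => ζ v * v l) ρ (g l) hΩ hΦ hM ht hr
    hcone (ker_smooth hζ l).continuous hζc.mul_right
    ((tsupport_mul_subset_left).trans hζs) hρ hρr (hg l)).1
  have hmK' : ∀ l, MemLp (Kop (fun v => ζ v * (starRingEnd ℂ) (v l)) ρ (Ω.indicator (f l)))
    2 volume := fun l => (hK Ω Φ M t p e c r (fun v => ζ v * (starRingEnd ℂ) (v l)) ρ (f l)
    hΩ hΦ hM ht hr
    hcone (ker_smooth' hζ l).continuous hζc.mul_right
    ((tsupport_mul_subset_left).trans hζs) hρ hρr (hX.mf l)).1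
  have hd : ∀ e' : EC n, ‖e'‖ ≤ 1 → _ := fun e' he' => hdir hΩ hΦ hΦc hM ht hr hcone hζs hρ hρr hu
    hg hX.mf m1 hmA hmK hmK' e' he'
  have he1 : ∀ k : Fin n, ‖(Pi.single k (1 : ℂ) : EC n)‖ ≤ 1 := by
    intro k
    rw [Pi.norm_single, norm_one]
  have heI : ∀ k : Fin n, ‖(Pi.single k Complex.I : EC n)‖ ≤ 1 := by
    intro k
    rw [Pi.norm_single, Complex.norm_I]
  have h1 : ∀ k : Fin n, _ := fun k => hd (Pi.single k (1 : ℂ)) (he1 k)
  have h2 : ∀ k : Fin n, _ := fun k => hd (Pi.single k Complex.I) (heI k)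
  choose H1 hm1 hw1 hb1 using h1
  choose H2 hm2 hw2 hb2 using h2
  refine ⟨locSol ζ ρ Ω u g f, fun k x => (1 / 2 : ℂ) * H1 k x + (-(Complex.I / 2)) * H2 k x, m1,
    fun k => ((hm1 k).const_mul _).add ((hm2 k).const_mul _), ?_, ?_, ?_, ?_⟩
  · intro k ψ hψ
    have e1 : ∀ x, locSol ζ ρ Ω u g f x * dz k ψ x =
        (1 / 2 : ℂ) * (locSol ζ ρ Ω u g f x * fd (Pi.single k (1 : ℂ)) ψ x) +
        (-(Complex.I / 2)) * (locSol ζ ρ Ω u g f x * fd (Pi.single k Complex.I) ψ x) := by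
      intro x
      rw [dz_eq_fd]
      ring
    have e2 : ∀ x, ((1 / 2 : ℂ) * H1 k x + (-(Complex.I / 2)) * H2 k x) * ψ x =
        (1 / 2 : ℂ) * (H1 k x * ψ x) + (-(Complex.I / 2)) * (H2 k x * ψ x) := by
      intro x
      ring
    simp only [e1, e2]
    have i0 := fun e' : EC n => integrable_mul_tst (m1.restrict univ) ((FO.fd e').tst hψ)
    have i1 := integrable_mul_tst ((hm1 k).restrict univ) hψ
    have i2 := integrable_mul_tst ((hm2 k).restrict univ) hψ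
    rw [integral_add ((i0 _).const_mul _) ((i0 _).const_mul _),
      integral_add (i1.const_mul _) (i2.const_mul _), integral_const_mul, integral_const_mul,
      integral_const_mul, integral_const_mul, hw1 k ψ hψ, hw2 k ψ hψ]
    ring
  · exact hL Ω Φ p e c r ζ ρ f D u g hΩ hb hr hcone hζ hζc hζs hζ1 hρ hρr hX hu hub hg hgb
  · refine m2.trans ?_
    exact mul_le_mul_left (ENNReal.ofReal_le_ofReal (by linarith)) _
  · intro k
    set P := Ω ∩ Metric.ball p r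
    set B : ℝ≥0∞ := ENNReal.ofReal (1 / ρ) * nm Φ t Ω u +
            ((∑ l, nm Φ t Ω (g l)) + ∑ l, nm Φ t Ω (f l)) with hB
    have c1 : nm Φ t P (fun x => (1 / 2 : ℂ) * H1 k x + (-(Complex.I / 2)) * H2 k x) ≤
        nm Φ t P (fun x => (1 / 2 : ℂ) * H1 k x) +
        nm Φ t P (fun x => (-(Complex.I / 2)) * H2 k x) :=
      nm_add_le (((hm1 k).const_mul _).restrict P).aestronglyMeasurable
        (((hm2 k).const_mul _).restrict P).aestronglyMeasurable
    have c2 : nm Φ t P (fun x => (1 / 2 : ℂ) * H1 k x) = ENNReal.ofReal (1 / 2) *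
        nm Φ t P (H1 k) := by
      have := eLpNorm_const_smul (1 / 2 : ℂ) (H1 k) 2 (wm Φ t P)
      have e2 : (fun x => (1 / 2 : ℂ) * H1 k x) = (1 / 2 : ℂ) • H1 k := by
        ext x
        simp
      show eLpNorm _ 2 (wm Φ t P) = _
      rw [e2, this]
      congr 1
      rw [← ofReal_norm]
      norm_num
    have c3 : nm Φ t P (fun x => (-(Complex.I / 2)) * H2 k x) = ENNReal.ofReal (1 / 2) *
        nm Φ t P (H2 k) := by
      have := eLpNorm_const_smul (-(Complex.I / 2) : ℂ) (H2 k) 2 (wm Φ t P)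
      have e2 : (fun x => (-(Complex.I / 2)) * H2 k x) = (-(Complex.I / 2) : ℂ) • H2 k := by
        ext x
        simp
      show eLpNorm _ 2 (wm Φ t P) = _
      rw [e2, this]
      congr 1
      rw [← ofReal_norm]
      norm_num
    refine c1.trans ?_
    rw [c2, c3]
    have c4 : ENNReal.ofReal (1 / 2) + ENNReal.ofReal (1 / 2) = 1 := by
      rw [← ENNReal.ofReal_add (by norm_num) (by norm_num)]
      norm_num
    calc _ ≤ ENNReal.ofReal (1 / 2) * (ENNReal.ofReal C1 * B) +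
          ENNReal.ofReal (1 / 2) * (ENNReal.ofReal C1 * B) := by
          have := hb1 k
          have := hb2 k
          gcongr
      _ = (ENNReal.ofReal (1 / 2) + ENNReal.ofReal (1 / 2)) * (ENNReal.ofReal C1 * B) := by ring
      _ = ENNReal.ofReal C1 * B := by rw [c4, one_mul]
      _ ≤ _ := mul_le_mul_left (ENNReal.ofReal_le_ofReal (by linarith)) _

end Pool.Agent.H92.Lip
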