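import Mathlib
import Pool.Agent.H92.Lip.Defs

/-!
Module M1: the basic (Morrey-Kohn-Hörmander) estimate (helper66).
-/

set_option autoImplicit false

open MeasureTheory Set Filter Topology
open scoped ContDiff ENNReal ComplexConjugate

namespace Pool.Agent.H92.Lip
namespace M1

variable {n : ℕ}

/-! ### calculus rules -/

theorem diff_of {f : EC n → ℂ} (hf : ContDiff ℝ ∞ f) : Differentiable ℝ f :=
  hf.differentiable (by simp)

theorem cd_dir {f : EC n → ℂ} (hf : ContDiff ℝ ∞ f) (v : EC n) :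
    ContDiff ℝ ∞ (fun x => fderiv ℝ f x v) :=
  (hf.fderiv_right (m := ∞) (by simp)).clm_apply contDiff_const

theorem cd_dz {f : EC n → ℂ} (hf : ContDiff ℝ ∞ f) (j : Fin n) :
    ContDiff ℝ ∞ (fun x => dz j f x) := by
  unfold dz
  exact ((cd_dir hf _).sub (contDiff_const.mul (cd_dir hf _))).div_const 2

theorem cd_db {f : EC n → ℂ} (hf : ContDiff ℝ ∞ f) (j : Fin n) :
    ContDiff ℝ ∞ (fun x => db j f x) := by
  unfold db
  exact ((cd_dir hf _).add (contDiff_const.mul (cd_dir hf _))).div_const 2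

theorem dz_mul {f g : EC n → ℂ} {x : EC n} (hf : DifferentiableAt ℝ f x)
    (hg : DifferentiableAt ℝ g x) (j : Fin n) :
    dz j (fun y => f y * g y) x = dz j f x * g x + f x * dz j g x := by
  unfold dz
  rw [fderiv_fun_mul hf hg]
  simp only [_root_.add_apply, _root_.smul_apply, smul_eq_mul]
  ring

theorem db_mul {f g : EC n → ℂ} {x : EC n} (hf : DifferentiableAt ℝ f x)
    (hg : DifferentiableAt ℝ g x) (j : Fin n) :
    db j (fun y => f y * g y) x = db j f x * g x + f x * db j g x := by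
  unfold db
  rw [fderiv_fun_mul hf hg]
  simp only [_root_.add_apply, _root_.smul_apply, smul_eq_mul]
  ring

theorem dz_sub {f g : EC n → ℂ} {x : EC n} (hf : DifferentiableAt ℝ f x)
    (hg : DifferentiableAt ℝ g x) (j : Fin n) :
    dz j (fun y => f y - g y) x = dz j f x - dz j g x := by
  unfold dz
  rw [fderiv_fun_sub hf hg]
  simp only [_root_.sub_apply]
  ring

theorem db_sub {f g : EC n → ℂ} {x : EC n} (hf : DifferentiableAt ℝ f x)
    (hg : DifferentiableAt ℝ g x) (j : Fin n) :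
    db j (fun y => f y - g y) x = db j f x - db j g x := by
  unfold db
  rw [fderiv_fun_sub hf hg]
  simp only [_root_.sub_apply]
  ring

theorem fderiv_conj {f : EC n → ℂ} {x : EC n} (hf : DifferentiableAt ℝ f x) (v : EC n) :
    fderiv ℝ (fun y => conj (f y)) x v = conj (fderiv ℝ f x v) := by
  have h : HasFDerivAt (fun y => conj (f y))
      ((Complex.conjCLE : ℂ →L[ℝ] ℂ).comp (fderiv ℝ f x)) x :=
    (Complex.conjCLE : ℂ →L[ℝ] ℂ).hasFDerivAt.comp x hf.hasFDerivAt
  rw [h.fderiv]; rfl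

theorem dz_conj {f : EC n → ℂ} {x : EC n} (hf : DifferentiableAt ℝ f x) (j : Fin n) :
    dz j (fun y => conj (f y)) x = conj (db j f x) := by
  unfold dz db
  rw [fderiv_conj hf, fderiv_conj hf]
  simp only [map_div₀, map_add, map_mul, Complex.conj_I, map_ofNat]
  ring

theorem db_conj {f : EC n → ℂ} {x : EC n} (hf : DifferentiableAt ℝ f x) (j : Fin n) :
    db j (fun y => conj (f y)) x = conj (dz j f x) := by
  unfold dz db
  rw [fderiv_conj hf, fderiv_conj hf]
  simp only [map_div₀, map_sub, map_mul, Complex.conj_I, map_ofNat]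
  ring

theorem cd_conj {f : EC n → ℂ} (hf : ContDiff ℝ ∞ f) : ContDiff ℝ ∞ (fun y => conj (f y)) :=
  (Complex.conjCLE : ℂ →L[ℝ] ℂ).contDiff.comp hf

theorem cd_ofReal {φ : EC n → ℝ} (hφ : ContDiff ℝ ∞ φ) : ContDiff ℝ ∞ (fun y => (φ y : ℂ)) :=
  Complex.ofRealCLM.contDiff.comp hφ

theorem fderiv_ofReal {φ : EC n → ℝ} {x : EC n} (hφ : DifferentiableAt ℝ φ x) (v : EC n) :
    fderiv ℝ (fun y => (φ y : ℂ)) x v = (fderiv ℝ φ x v : ℂ) := by
  have h : HasFDerivAt (fun y => (φ y : ℂ)) (Complex.ofRealCLM.comp (fderiv ℝ φ x)) x :=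
    Complex.ofRealCLM.hasFDerivAt.comp x hφ.hasFDerivAt
  rw [h.fderiv]; rfl

/-- the weight -/
noncomputable def Wt (φ : EC n → ℝ) (y : EC n) : ℂ := Complex.exp (-(φ y : ℂ))

theorem Wt_eq (φ : EC n → ℝ) (y : EC n) : Wt φ y = (Real.exp (-φ y) : ℂ) := by
  unfold Wt; push_cast; rfl

theorem cd_Wt {φ : EC n → ℝ} (hφ : ContDiff ℝ ∞ φ) : ContDiff ℝ ∞ (Wt φ) :=
  ((cd_ofReal hφ).neg).cexp

theorem fderiv_Wt {φ : EC n → ℝ} (hφ : ContDiff ℝ ∞ φ) (x v : EC n) :
    fderiv ℝ (Wt φ) x v = -(fderiv ℝ (fun y => (φ y : ℂ)) x v) * Wt φ x := by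
  have h1 : HasFDerivAt (fun y => -(φ y : ℂ)) (-(fderiv ℝ (fun y => (φ y : ℂ)) x)) x :=
    ((diff_of (cd_ofReal hφ)) x).hasFDerivAt.neg
  have h2 := h1.cexp
  have h3 : fderiv ℝ (Wt φ) x = _ := h2.fderiv
  rw [h3]
  simp only [_root_.smul_apply, _root_.neg_apply, smul_eq_mul, Wt]
  ring

theorem dz_Wt {φ : EC n → ℝ} (hφ : ContDiff ℝ ∞ φ) (j : Fin n) (x : EC n) :
    dz j (Wt φ) x = -(dz j (fun y => (φ y : ℂ)) x) * Wt φ x := by
  unfold dz; rw [fderiv_Wt hφ, fderiv_Wt hφ]; ring

theorem db_Wt {φ : EC n → ℝ} (hφ : ContDiff ℝ ∞ φ) (j : Fin n) (x : EC n) :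
    db j (Wt φ) x = -(db j (fun y => (φ y : ℂ)) x) * Wt φ x := by
  unfold db; rw [fderiv_Wt hφ, fderiv_Wt hφ]; ring

/-! ### second derivatives -/

/-- Hessian -/
noncomputable def Hs (f : EC n → ℂ) (x : EC n) (u v : EC n) : ℂ := fderiv ℝ (fderiv ℝ f) x u v

theorem fderiv_dir {f : EC n → ℂ} (hf : ContDiff ℝ ∞ f) (u v x : EC n) :
    fderiv ℝ (fun y => fderiv ℝ f y v) x u = Hs f x u v := by
  have h1 : Differentiable ℝ (fderiv ℝ f) :=
    (hf.fderiv_right (m := ∞) (by simp)).differentiable (by simp)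
  have h2 := (h1 x).hasFDerivAt.clm_apply (hasFDerivAt_const v x)
  rw [h2.fderiv]
  simp [Hs]

theorem Hs_symm {f : EC n → ℂ} (hf : ContDiff ℝ ∞ f) (x u v : EC n) :
    Hs f x u v = Hs f x v u := by
  have h : IsSymmSndFDerivAt ℝ f x := (contDiff_infty.1 hf 2).contDiffAt.isSymmSndFDerivAt (by
    rw [minSmoothness_of_isRCLikeNormedField]; simp)
  exact h u v

theorem dz_db {f : EC n → ℂ} (hf : ContDiff ℝ ∞ f) (j k : Fin n) (x : EC n) :
    dz j (fun y => db k f y) x = (Hs f x (Pi.single j 1) (Pi.single k 1)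
      + Complex.I * Hs f x (Pi.single j 1) (Pi.single k Complex.I)
      - Complex.I * Hs f x (Pi.single j Complex.I) (Pi.single k 1)
      + Hs f x (Pi.single j Complex.I) (Pi.single k Complex.I)) / 4 := by
  have h1 : ∀ v, Differentiable ℝ (fun y => fderiv ℝ f y v) := fun v => diff_of (cd_dir hf v)
  have h2 : ∀ u, fderiv ℝ (fun y => db k f y) x u = (Hs f x u (Pi.single k 1)
      + Complex.I * Hs f x u (Pi.single k Complex.I)) / 2 := by
    intro u
    have h3 : HasFDerivAt (fun y => db k f y) ((2 : ℂ)⁻¹ •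
        (fderiv ℝ (fun y => fderiv ℝ f y (Pi.single k 1)) x
          + Complex.I • fderiv ℝ (fun y => fderiv ℝ f y (Pi.single k Complex.I)) x)) x := by
      have h4 := (((h1 (Pi.single k 1)) x).hasFDerivAt.add
        (((h1 (Pi.single k Complex.I)) x).hasFDerivAt.const_mul Complex.I)).const_mul (2 : ℂ)⁻¹
      refine h4.congr_of_eventuallyEq (Eventually.of_forall fun y => ?_)
      simp only [db, Pi.add_apply]
      ring
    rw [h3.fderiv]
    simp only [_root_.smul_apply, _root_.add_apply, smul_eq_mul,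
      fderiv_dir hf]
    ring
  conv_lhs => unfold dz
  rw [h2, h2]
  linear_combination (Hs f x (Pi.single j Complex.I) (Pi.single k Complex.I) / 4 * (-1)) *
    Complex.I_mul_I

theorem db_dz {f : EC n → ℂ} (hf : ContDiff ℝ ∞ f) (j k : Fin n) (x : EC n) :
    db j (fun y => dz k f y) x = (Hs f x (Pi.single j 1) (Pi.single k 1)
      - Complex.I * Hs f x (Pi.single j 1) (Pi.single k Complex.I)
      + Complex.I * Hs f x (Pi.single j Complex.I) (Pi.single k 1)
      + Hs f x (Pi.single j Complex.I) (Pi.single k Complex.I)) / 4 := by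
  have h1 : ∀ v, Differentiable ℝ (fun y => fderiv ℝ f y v) := fun v => diff_of (cd_dir hf v)
  have h2 : ∀ u, fderiv ℝ (fun y => dz k f y) x u = (Hs f x u (Pi.single k 1)
      - Complex.I * Hs f x u (Pi.single k Complex.I)) / 2 := by
    intro u
    have h3 : HasFDerivAt (fun y => dz k f y) ((2 : ℂ)⁻¹ •
        (fderiv ℝ (fun y => fderiv ℝ f y (Pi.single k 1)) x
          - Complex.I • fderiv ℝ (fun y => fderiv ℝ f y (Pi.single k Complex.I)) x)) x := by
      have h4 := (((h1 (Pi.single k 1)) x).hasFDerivAt.sub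
        (((h1 (Pi.single k Complex.I)) x).hasFDerivAt.const_mul Complex.I)).const_mul (2 : ℂ)⁻¹
      refine h4.congr_of_eventuallyEq (Eventually.of_forall fun y => ?_)
      simp only [dz, Pi.sub_apply]
      ring
    rw [h3.fderiv]
    simp only [_root_.smul_apply, _root_.sub_apply, smul_eq_mul,
      fderiv_dir hf]
    ring
  conv_lhs => unfold db
  rw [h2, h2]
  linear_combination (Hs f x (Pi.single j Complex.I) (Pi.single k Complex.I) / 4 * (-1)) *
    Complex.I_mul_I

theorem db_dz_comm {f : EC n → ℂ} (hf : ContDiff ℝ ∞ f) (j k : Fin n) (x : EC n) :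
    db j (fun y => dz k f y) x = dz k (fun y => db j f y) x := by
  rw [db_dz hf, dz_db hf, Hs_symm hf x (Pi.single k 1) (Pi.single j 1),
    Hs_symm hf x (Pi.single k 1) (Pi.single j Complex.I),
    Hs_symm hf x (Pi.single k Complex.I) (Pi.single j 1),
    Hs_symm hf x (Pi.single k Complex.I) (Pi.single j Complex.I)]
  ring

theorem Hs_ofReal {φ : EC n → ℝ} (hφ : ContDiff ℝ ∞ φ) (x u v : EC n) :
    Hs (fun y => (φ y : ℂ)) x u v = (fderiv ℝ (fderiv ℝ φ) x u v : ℂ) := by
  have hd : Differentiable ℝ φ := hφ.differentiable (by simp)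
  have h1 : Differentiable ℝ (fderiv ℝ φ) :=
    (hφ.fderiv_right (m := ∞) (by simp)).differentiable (by simp)
  rw [← fderiv_dir (cd_ofReal hφ)]
  have h2 : (fun y => fderiv ℝ (fun y => (φ y : ℂ)) y v) = fun y => ((fderiv ℝ φ y v : ℝ) : ℂ) := by
    funext y; exact fderiv_ofReal (hd y) v
  rw [h2]
  have h3 := (h1 x).hasFDerivAt.clm_apply (hasFDerivAt_const v x)
  rw [fderiv_ofReal (φ := fun y => fderiv ℝ φ y v) h3.differentiableAt u, h3.fderiv]
  simp

/-! ### the Levi form in coordinates -/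

theorem w_expand (w : EC n) : w = ∑ j, ((w j).re • (Pi.single j (1 : ℂ) : EC n)
    + (w j).im • (Pi.single j Complex.I : EC n)) := by
  funext i
  rw [Finset.sum_apply]
  rw [Finset.sum_eq_single i]
  · simp
  · intro b _ hb
    simp [Ne.symm hb]
  · simp

theorem Lev_eq {φ : EC n → ℝ} (hφ : ContDiff ℝ ∞ φ) (x w : EC n) :
    Lev φ x w = 4 * (∑ j, ∑ k, w j * conj (w k) *
      dz j (fun y => db k (fun y => (φ y : ℂ)) y) x).re := by
  set H := fderiv ℝ (fderiv ℝ φ) x with hH
  have hB : ∀ a b : Fin n → ℝ, H (∑ j, (a j • (Pi.single j (1 : ℂ) : EC n)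
      + b j • (Pi.single j Complex.I : EC n))) (∑ j, (a j • (Pi.single j (1 : ℂ) : EC n)
      + b j • (Pi.single j Complex.I : EC n))) = ∑ j, ∑ k,
      (a j * a k * H (Pi.single j 1) (Pi.single k 1)
        + a j * b k * H (Pi.single j 1) (Pi.single k Complex.I)
        + b j * a k * H (Pi.single j Complex.I) (Pi.single k 1)
        + b j * b k * H (Pi.single j Complex.I) (Pi.single k Complex.I)) := by
    intro a b
    have hs : ∀ (u : Fin n → EC n) (y : EC n), H (∑ j, u j) y = ∑ j, H (u j) y := by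
      intro u y
      rw [map_sum, _root_.sum_apply]
    rw [hs]
    refine Finset.sum_congr rfl fun j _ => ?_
    rw [map_sum]
    refine Finset.sum_congr rfl fun k _ => ?_
    simp only [map_add, map_smul, _root_.add_apply, _root_.smul_apply, smul_eq_mul]
    ring
  have h1 : H w w = ∑ j, ∑ k,
      ((w j).re * (w k).re * H (Pi.single j 1) (Pi.single k 1)
        + (w j).re * (w k).im * H (Pi.single j 1) (Pi.single k Complex.I)
        + (w j).im * (w k).re * H (Pi.single j Complex.I) (Pi.single k 1)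
        + (w j).im * (w k).im * H (Pi.single j Complex.I) (Pi.single k Complex.I)) := by
    conv_lhs => rw [w_expand w]
    exact hB (fun j => (w j).re) (fun j => (w j).im)
  have h2 : H (Complex.I • w) (Complex.I • w) = ∑ j, ∑ k,
      ((-(w j).im) * (-(w k).im) * H (Pi.single j 1) (Pi.single k 1)
        + (-(w j).im) * (w k).re * H (Pi.single j 1) (Pi.single k Complex.I)
        + (w j).re * (-(w k).im) * H (Pi.single j Complex.I) (Pi.single k 1)
        + (w j).re * (w k).re * H (Pi.single j Complex.I) (Pi.single k Complex.I)) := by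
    have h3 := hB (fun j => -(w j).im) (fun j => (w j).re)
    rw [← h3]
    have h4 : Complex.I • w = ∑ j, ((-(w j).im) • (Pi.single j (1 : ℂ) : EC n)
      + (w j).re • (Pi.single j Complex.I : EC n)) := by
      conv_lhs => rw [w_expand (Complex.I • w)]
      refine Finset.sum_congr rfl fun j _ => ?_
      simp
    rw [h4]
  unfold Lev
  rw [← hH, h1, h2, ← Finset.sum_add_distrib, Complex.re_sum, Finset.mul_sum]
  refine Finset.sum_congr rfl fun j _ => ?_
  rw [← Finset.sum_add_distrib, Complex.re_sum, Finset.mul_sum]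
  refine Finset.sum_congr rfl fun k _ => ?_
  rw [dz_db (cd_ofReal hφ)]
  simp only [Hs_ofReal hφ]
  rw [← hH]
  generalize H (Pi.single j 1) (Pi.single k 1) = p
  generalize H (Pi.single j 1) (Pi.single k Complex.I) = q
  generalize H (Pi.single j Complex.I) (Pi.single k 1) = r
  generalize H (Pi.single j Complex.I) (Pi.single k Complex.I) = s
  have h5 : (w j * conj (w k) * (((p : ℂ) + Complex.I * q - Complex.I * r + s) / 4)).re
      = (((w j).re * (w k).re + (w j).im * (w k).im) * (p + s)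
        - ((w j).im * (w k).re - (w j).re * (w k).im) * (q - r)) / 4 := by
    have h6 : (((p : ℂ) + Complex.I * q - Complex.I * r + s) / 4)
        = (((p + s) / 4 : ℝ) : ℂ) + (((q - r) / 4 : ℝ) : ℂ) * Complex.I := by
      push_cast; ring
    rw [h6]
    simp only [Complex.mul_re, Complex.mul_im, Complex.add_re, Complex.add_im, Complex.ofReal_re,
      Complex.ofReal_im, Complex.I_re, Complex.I_im, Complex.conj_re, Complex.conj_im]
    ring
  rw [h5]
  ring

/-! ### the pointwise identity -/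

/-- the operator `δ_k h = ∂_k h - h ∂_k φ` -/
noncomputable def P (φ : EC n → ℝ) (k : Fin n) (h : EC n → ℂ) (x : EC n) : ℂ :=
  dz k h x - h x * dz k (fun y => (φ y : ℂ)) x

theorem cd_P {φ : EC n → ℝ} (hφ : ContDiff ℝ ∞ φ) {h : EC n → ℂ} (hh : ContDiff ℝ ∞ h)
    (k : Fin n) : ContDiff ℝ ∞ (P φ k h) :=
  (cd_dz hh k).sub (hh.mul (cd_dz (cd_ofReal hφ) k))

theorem conj_dz_phi {φ : EC n → ℝ} (hφ : ContDiff ℝ ∞ φ) (k : Fin n) (x : EC n) :
    conj (dz k (fun y => (φ y : ℂ)) x) = db k (fun y => (φ y : ℂ)) x := by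
  rw [← db_conj ((diff_of (cd_ofReal hφ)) x) k]
  simp

theorem key {φ : EC n → ℝ} (hφ : ContDiff ℝ ∞ φ) {g h : EC n → ℂ} (hg : ContDiff ℝ ∞ g)
    (hh : ContDiff ℝ ∞ h) (j k : Fin n) (x : EC n) :
    dz j (fun y => g y * conj (P φ k h y) * Wt φ y) x
      - db k (fun y => g y * conj (db j h y) * Wt φ y) x
    = P φ j g x * conj (P φ k h x) * Wt φ x
      - g x * conj (h x) * dz j (fun y => db k (fun y => (φ y : ℂ)) y) x * Wt φ x
      - db k g x * conj (db j h x) * Wt φ x := by
  have dg := diff_of hg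
  have dP := diff_of (cd_P hφ hh k)
  have dcP := diff_of (cd_conj (cd_P hφ hh k))
  have dW := diff_of (cd_Wt hφ)
  have ddb := diff_of (cd_db hh j)
  have dcdb := diff_of (cd_conj (cd_db hh j))
  have hφC := cd_ofReal hφ
  rw [dz_mul (f := fun y => g y * conj (P φ k h y)) ((dg x).mul (dcP x)) (dW x),
    dz_mul (g := fun y => conj (P φ k h y)) (dg x) (dcP x), dz_conj (dP x), dz_Wt hφ,
    db_mul (f := fun y => g y * conj (db j h y)) ((dg x).mul (dcdb x)) (dW x),
    db_mul (g := fun y => conj (db j h y)) (dg x) (dcdb x), db_conj (ddb x), db_Wt hφ]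
  have h1 : db j (P φ k h) x = dz k (fun y => db j h y) x
      - (db j h x * dz k (fun y => (φ y : ℂ)) x
        + h x * db j (fun y => dz k (fun y => (φ y : ℂ)) y) x) := by
    have h2 : db j (P φ k h) x = db j (fun y => dz k h y
        - h y * dz k (fun y => (φ y : ℂ)) y) x := rfl
    rw [h2, db_sub (g := fun y => h y * dz k (fun y => (φ y : ℂ)) y) ((diff_of (cd_dz hh k)) x)
      (((diff_of hh) x).mul ((diff_of (cd_dz hφC k)) x)),
      db_mul (g := fun y => dz k (fun y => (φ y : ℂ)) y) ((diff_of hh) x)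
        ((diff_of (cd_dz hφC k)) x), db_dz_comm hh]
  have h3 : conj (db j (fun y => dz k (fun y => (φ y : ℂ)) y) x)
      = dz j (fun y => db k (fun y => (φ y : ℂ)) y) x := by
    rw [← dz_conj ((diff_of (cd_dz hφC k)) x)]
    congr 1
    funext y
    exact conj_dz_phi hφ k y
  rw [h1]
  simp only [map_sub, map_add, map_mul, h3, conj_dz_phi hφ]
  unfold P
  simp only [map_sub, map_mul, conj_dz_phi hφ]
  ring

/-! ### integration -/

theorem integral_fderiv_zero {F : EC n → ℂ} (hF : ContDiff ℝ ∞ F) (hc : HasCompactSupport F)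
    (v : EC n) : ∫ x, fderiv ℝ F x v = 0 := by
  have h1 : Integrable F := hF.continuous.integrable_of_hasCompactSupport hc
  have h2 : Integrable (fun x => fderiv ℝ F x v) := by
    refine (cd_dir hF v).continuous.integrable_of_hasCompactSupport ?_
    exact hc.fderiv_apply (𝕜 := ℝ) v
  have h := integral_mul_fderiv_eq_neg_fderiv_mul_of_integrable (μ := volume)
    (f := fun _ : EC n => (1 : ℂ)) (g := F) (v := v) (by simp) (by simpa using h2)
    (by simpa using h1) (fun x _ => differentiableAt_const _) (fun x _ => diff_of hF x)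
  simpa using h

theorem integrable_dir {F : EC n → ℂ} (hF : ContDiff ℝ ∞ F) (hc : HasCompactSupport F)
    (v : EC n) : Integrable (fun x => fderiv ℝ F x v) := by
  refine (cd_dir hF v).continuous.integrable_of_hasCompactSupport ?_
  exact hc.fderiv_apply (𝕜 := ℝ) v

theorem integral_dz_zero {F : EC n → ℂ} (hF : ContDiff ℝ ∞ F) (hc : HasCompactSupport F)
    (j : Fin n) : ∫ x, dz j F x = 0 := by
  unfold dz
  rw [integral_div, integral_sub (integrable_dir hF hc _) ((integrable_dir hF hc _).const_mul _),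
    integral_const_mul, integral_fderiv_zero hF hc, integral_fderiv_zero hF hc]
  simp

theorem integral_db_zero {F : EC n → ℂ} (hF : ContDiff ℝ ∞ F) (hc : HasCompactSupport F)
    (j : Fin n) : ∫ x, db j F x = 0 := by
  unfold db
  rw [integral_div, integral_add (integrable_dir hF hc _) ((integrable_dir hF hc _).const_mul _),
    integral_const_mul, integral_fderiv_zero hF hc, integral_fderiv_zero hF hc]
  simp

theorem integrable_dz {F : EC n → ℂ} (hF : ContDiff ℝ ∞ F) (hc : HasCompactSupport F)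
    (j : Fin n) : Integrable (fun x => dz j F x) := by
  unfold dz
  exact ((integrable_dir hF hc _).sub ((integrable_dir hF hc _).const_mul _)).div_const _

theorem integrable_db {F : EC n → ℂ} (hF : ContDiff ℝ ∞ F) (hc : HasCompactSupport F)
    (j : Fin n) : Integrable (fun x => db j F x) := by
  unfold db
  exact ((integrable_dir hF hc _).add ((integrable_dir hF hc _).const_mul _)).div_const _

theorem fderiv_zero_of_notMem {F : EC n → ℂ} {x : EC n} (hx : x ∉ tsupport F) :
    fderiv ℝ F x = 0 := by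
  have h := notMem_tsupport_iff_eventuallyEq.1 hx
  rw [h.fderiv_eq]
  simp

theorem dz_zero {F : EC n → ℂ} {x : EC n} (hx : x ∉ tsupport F) (j : Fin n) : dz j F x = 0 := by
  unfold dz; rw [fderiv_zero_of_notMem hx]; simp

theorem db_zero {F : EC n → ℂ} {x : EC n} (hx : x ∉ tsupport F) (j : Fin n) : db j F x = 0 := by
  unfold db; rw [fderiv_zero_of_notMem hx]; simp

theorem sq_sum_identity (a : Fin n → Fin n → ℂ) :
    (1 / 2 : ℝ) * ∑ j, ∑ k, ‖a j k - a k j‖ ^ 2
      = ∑ j, ∑ k, ‖a j k‖ ^ 2 - (∑ j, ∑ k, a k j * conj (a j k)).re := by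
  have h1 : ∀ j k, ‖a j k - a k j‖ ^ 2
      = ‖a j k‖ ^ 2 + ‖a k j‖ ^ 2 - 2 * (a k j * conj (a j k)).re := by
    intro j k
    rw [← Complex.normSq_eq_norm_sq, ← Complex.normSq_eq_norm_sq, ← Complex.normSq_eq_norm_sq,
      Complex.normSq_sub]
    have : (a j k * conj (a k j)).re = (a k j * conj (a j k)).re := by
      simp [Complex.mul_re]; ring
    rw [this]
  simp only [h1, Finset.sum_sub_distrib, Finset.sum_add_distrib, ← Finset.mul_sum]
  rw [Finset.sum_comm (f := fun j k => ‖a k j‖ ^ 2), Complex.re_sum]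
  simp only [Complex.re_sum]
  ring

theorem sum_identity (p : Fin n → ℂ) :
    ‖∑ j, p j‖ ^ 2 = (∑ j, ∑ k, p j * conj (p k)).re := by
  have h : (∑ j, ∑ k, p j * conj (p k)) = (∑ j, p j) * conj (∑ j, p j) := by
    rw [map_sum, Finset.sum_mul_sum]
  rw [h, Complex.mul_conj, Complex.ofReal_re, Complex.normSq_eq_norm_sq]

theorem main (φ : EC n → ℝ) (L : EC n → ℝ) (γ : Fin n → EC n → ℂ) (hφ : ContDiff ℝ ∞ φ)
    (hL : Continuous L) (hγ : ∀ j, ContDiff ℝ ∞ (γ j)) (hc : ∀ j, HasCompactSupport (γ j))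
    (hLev : ∀ j, ∀ z ∈ tsupport (γ j), ∀ w, 4 * (L z * nsq w) ≤ Lev φ z w) :
    ∫ x, L x * (∑ j, ‖γ j x‖ ^ 2) * Real.exp (-φ x) ≤
      (∫ x, ‖∑ j, (dz j (γ j) x - γ j x * dz j (fun y => (φ y : ℂ)) x)‖ ^ 2 * Real.exp (-φ x)) +
      (1 / 2) * ∑ j, ∑ k, ∫ x, ‖db j (γ k) x - db k (γ j) x‖ ^ 2 * Real.exp (-φ x) := by
  have hexp : Continuous fun x => Real.exp (-φ x) :=
    Real.continuous_exp.comp hφ.continuous.neg
  -- integrability
  have hK : IsCompact (⋃ j, tsupport (γ j)) := isCompact_iUnion fun j => hc j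
  have integ : ∀ f : EC n → ℝ, Continuous f → (∀ x ∉ ⋃ j, tsupport (γ j), f x = 0) →
      Integrable f := fun f hf h0 =>
    hf.integrable_of_hasCompactSupport (HasCompactSupport.intro hK h0)
  have hC : Integrable fun x => L x * (∑ j, ‖γ j x‖ ^ 2) * Real.exp (-φ x) := by
    refine integ _ ((hL.mul (continuous_finsetSum _ fun j _ =>
      ((hγ j).continuous.norm.pow 2))).mul hexp) fun x hx => ?_
    have h0 : ∀ j, γ j x = 0 := fun j =>
      image_eq_zero_of_notMem_tsupport fun h => hx (mem_iUnion.2 ⟨j, h⟩)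
    simp [h0]
  have hA : Integrable fun x => ‖∑ j, P φ j (γ j) x‖ ^ 2 * Real.exp (-φ x) := by
    refine integ _ (((continuous_finsetSum _ fun j _ =>
      (cd_P hφ (hγ j) j).continuous).norm.pow 2).mul hexp) fun x hx => ?_
    have h0 : ∀ j, P φ j (γ j) x = 0 := by
      intro j
      have hxj : x ∉ tsupport (γ j) := fun h => hx (mem_iUnion.2 ⟨j, h⟩)
      unfold P
      rw [dz_zero hxj, image_eq_zero_of_notMem_tsupport hxj]; simp
    simp [h0]
  have hB : ∀ j k, Integrable fun x => ‖db j (γ k) x - db k (γ j) x‖ ^ 2 * Real.exp (-φ x) := by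
    intro j k
    refine integ _ ((((cd_db (hγ k) j).continuous.sub (cd_db (hγ j) k).continuous).norm.pow 2).mul
      hexp) fun x hx => ?_
    have hxj : ∀ j, x ∉ tsupport (γ j) := fun j h => hx (mem_iUnion.2 ⟨j, h⟩)
    rw [db_zero (hxj k), db_zero (hxj j)]; simp
  -- the divergence terms
  let F1 : Fin n → Fin n → EC n → ℂ := fun j k y => γ j y * conj (P φ k (γ k) y) * Wt φ y
  let F2 : Fin n → Fin n → EC n → ℂ := fun j k y => γ j y * conj (db j (γ k) y) * Wt φ y
  have cF1 : ∀ j k, ContDiff ℝ ∞ (F1 j k) := fun j k =>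
    ((hγ j).mul (cd_conj (cd_P hφ (hγ k) k))).mul (cd_Wt hφ)
  have cF2 : ∀ j k, ContDiff ℝ ∞ (F2 j k) := fun j k =>
    ((hγ j).mul (cd_conj (cd_db (hγ k) j))).mul (cd_Wt hφ)
  have sF1 : ∀ j k, HasCompactSupport (F1 j k) := fun j k => ((hc j).mul_right).mul_right
  have sF2 : ∀ j k, HasCompactSupport (F2 j k) := fun j k => ((hc j).mul_right).mul_right
  let D : EC n → ℂ := fun x => ∑ j, ∑ k, (dz j (F1 j k) x - db k (F2 j k) x)
  have hd : ∀ j k, Integrable (fun x => dz j (F1 j k) x - db k (F2 j k) x) := fun j k =>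
    (integrable_dz (cF1 j k) (sF1 j k) j).sub (integrable_db (cF2 j k) (sF2 j k) k)
  have hd2 : ∀ j, Integrable (fun x => ∑ k, (dz j (F1 j k) x - db k (F2 j k) x)) := fun j =>
    integrable_finsetSum _ fun k _ => hd j k
  have hDi : Integrable D := integrable_finsetSum _ fun j _ => hd2 j
  have hD0 : ∫ x, D x = 0 := by
    show ∫ x, ∑ j, ∑ k, (dz j (F1 j k) x - db k (F2 j k) x) = 0
    rw [integral_finsetSum _ fun j _ => hd2 j]
    refine Finset.sum_eq_zero fun j _ => ?_
    rw [integral_finsetSum _ fun k _ => hd j k]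
    refine Finset.sum_eq_zero fun k _ => ?_
    rw [integral_sub (integrable_dz (cF1 j k) (sF1 j k) j) (integrable_db (cF2 j k) (sF2 j k) k),
      integral_dz_zero (cF1 j k) (sF1 j k), integral_db_zero (cF2 j k) (sF2 j k), sub_zero]
  have hDre : ∫ x, (D x).re = 0 := by
    have h1 := integral_re hDi
    have h2 : ∫ x, (D x).re = (∫ x, D x).re := by
      simpa using! h1
    rw [h2, hD0, Complex.zero_re]
  -- pointwise identity
  have hpt : ∀ x, L x * (∑ j, ‖γ j x‖ ^ 2) * Real.exp (-φ x) ≤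
      ‖∑ j, P φ j (γ j) x‖ ^ 2 * Real.exp (-φ x) +
      (1 / 2) * ∑ j, ∑ k, ‖db j (γ k) x - db k (γ j) x‖ ^ 2 * Real.exp (-φ x) - (D x).re := by
    intro x
    have hW : Wt φ x = (Real.exp (-φ x) : ℂ) := Wt_eq φ x
    have hpos : 0 < Real.exp (-φ x) := Real.exp_pos _
    set e := Real.exp (-φ x) with he
    have h1 : D x = ((∑ j, ∑ k, P φ j (γ j) x * conj (P φ k (γ k) x))
        - (∑ j, ∑ k, γ j x * conj (γ k x) * dz j (fun y => db k (fun y => (φ y : ℂ)) y) x)
        - (∑ j, ∑ k, db k (γ j) x * conj (db j (γ k) x))) * (e : ℂ) := by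
      show ∑ j, ∑ k, (dz j (F1 j k) x - db k (F2 j k) x) = _
      rw [sub_mul, sub_mul, Finset.sum_mul, Finset.sum_mul, Finset.sum_mul,
        ← Finset.sum_sub_distrib, ← Finset.sum_sub_distrib]
      refine Finset.sum_congr rfl fun j _ => ?_
      rw [Finset.sum_mul, Finset.sum_mul, Finset.sum_mul,
        ← Finset.sum_sub_distrib, ← Finset.sum_sub_distrib]
      refine Finset.sum_congr rfl fun k _ => ?_
      rw [← hW]
      exact key hφ (hγ j) (hγ k) j k x
    have h2 : (D x).re = (‖∑ j, P φ j (γ j) x‖ ^ 2 - Lev φ x (fun j => γ j x) / 4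
        - (∑ j, ∑ k, db k (γ j) x * conj (db j (γ k) x)).re) * e := by
      rw [h1, Complex.re_mul_ofReal, Complex.sub_re, Complex.sub_re, sum_identity,
        Lev_eq hφ x (fun j => γ j x)]
      ring
    have h3 := sq_sum_identity (fun j k => db j (γ k) x)
    have h4 : (1 / 2) * ∑ j, ∑ k, ‖db j (γ k) x - db k (γ j) x‖ ^ 2 * e
        = (∑ j, ∑ k, ‖db j (γ k) x‖ ^ 2
          - (∑ j, ∑ k, db k (γ j) x * conj (db j (γ k) x)).re) * e := by
      rw [← h3]
      simp only [← Finset.sum_mul]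
      ring
    rw [h4, h2]
    have h5 : 0 ≤ ∑ j, ∑ k, ‖db j (γ k) x‖ ^ 2 :=
      Finset.sum_nonneg fun j _ => Finset.sum_nonneg fun k _ => by positivity
    have h6 : L x * (∑ j, ‖γ j x‖ ^ 2) ≤ Lev φ x (fun j => γ j x) / 4 := by
      by_cases hx : ∃ j, x ∈ tsupport (γ j)
      · obtain ⟨j, hj⟩ := hx
        have := hLev j x hj (fun j => γ j x)
        unfold nsq at this
        linarith
      · push Not at hx
        have h0 : ∀ j, γ j x = 0 := fun j => image_eq_zero_of_notMem_tsupport (hx j)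
        have h7 : (fun j => γ j x) = (0 : EC n) := by funext j; exact h0 j
        rw [h7]
        simp [h0, Lev]
    nlinarith [mul_le_mul_of_nonneg_right h6 hpos.le, mul_nonneg h5 hpos.le]
  -- integrate
  have hBsum : Integrable fun x => (1 / 2 : ℝ) * ∑ j, ∑ k,
      ‖db j (γ k) x - db k (γ j) x‖ ^ 2 * Real.exp (-φ x) :=
    (integrable_finsetSum _ fun j _ => integrable_finsetSum _ fun k _ => hB j k).const_mul _
  have hDr : Integrable fun x => (D x).re := hDi.re
  have hAB : Integrable fun x => ‖∑ j, P φ j (γ j) x‖ ^ 2 * Real.exp (-φ x) +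
      (1 / 2) * ∑ j, ∑ k, ‖db j (γ k) x - db k (γ j) x‖ ^ 2 * Real.exp (-φ x) := hA.add hBsum
  have h1 := integral_mono hC (hAB.sub hDr) hpt
  have h2 : ∫ x, (‖∑ j, P φ j (γ j) x‖ ^ 2 * Real.exp (-φ x) +
      (1 / 2) * ∑ j, ∑ k, ‖db j (γ k) x - db k (γ j) x‖ ^ 2 * Real.exp (-φ x) - (D x).re)
      = (∫ x, ‖∑ j, P φ j (γ j) x‖ ^ 2 * Real.exp (-φ x)) +
      (1 / 2) * ∑ j, ∑ k, ∫ x, ‖db j (γ k) x - db k (γ j) x‖ ^ 2 * Real.exp (-φ x) := by
    have hB2 : ∀ j, Integrable fun x => ∑ k,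
      ‖db j (γ k) x - db k (γ j) x‖ ^ 2 * Real.exp (-φ x) := fun j =>
      integrable_finsetSum _ fun k _ => hB j k
    rw [integral_sub hAB hDr, hDre, sub_zero, integral_add hA hBsum,
      integral_const_mul, integral_finsetSum _ fun j _ => hB2 j]
    congr 2
    refine Finset.sum_congr rfl fun j _ => ?_
    rw [integral_finsetSum _ fun k _ => hB j k]
  calc _ ≤ _ := h1
    _ = _ := h2

end M1

/-- Module M1. -/
theorem basicEst (n : ℕ) : BasicEst n := fun φ L γ hφ hL hγ hc hLev =>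
  M1.main φ L γ hφ hL hγ hc hLev

end Pool.Agent.H92.Lip
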