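import Pool.Agent.H92.Lip.M2Main

/-!
M2: the Hörmander a priori inequality.
-/

set_option autoImplicit false
set_option linter.unusedSectionVars false

open MeasureTheory Set Filter Topology
open scoped ContDiff ENNReal ComplexConjugate

namespace Pool.Agent.H92.Lip

variable {n : ℕ}

open M2 in
/-- M2: the Hörmander a priori inequality follows from the basic estimate -/
theorem apriori (n : ℕ) (hB : BasicEst n) : AprioriIneq n := by
  intro Ω Φ M t f a hΩ hExh hΦ hΦM hS ht hf hfc ha
  -- the compact set of the supports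
  set K : Set (EC n) := ⋃ j, tsupport (a j) with hK
  have hKc : IsCompact K := isCompact_iUnion fun j => (ha j).cpt
  have hKΩ : K ⊆ Ω := iUnion_subset fun j => (ha j).sub
  obtain ⟨p, D, hp, hD, hKD, hcl, hclΩ, hpL, hneg, hfr⟩ := hExh K hKc hKΩ
  have hDΩ : D ⊆ Ω := subset_closure.trans hclΩ
  have haD : ∀ j, Tst D (a j) := fun j =>
    ⟨(ha j).smooth, (ha j).cpt, (subset_iUnion (fun j => tsupport (a j)) j).trans hKD⟩
  have hfD : ∀ j, MemLp (f j) 2 (volume.restrict D) := fun j =>
    (hf j).mono_measure (Measure.restrict_mono hDΩ le_rfl)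
  have hfcD : WClosed D f := by
    intro j k ψ hψ
    have h1 := hfc j k ψ (tst_mono hDΩ hψ)
    have h2 : ∀ j k, ∫ x in D, f j x * db k ψ x = ∫ x in Ω, f j x * db k ψ x := by
      intro j k
      rw [integral_of_tst (fun x hx => by rw [db_zero hx, mul_zero]) hψ,
        integral_of_tst (fun x hx => by rw [db_zero hx, mul_zero]) (tst_mono hDΩ hψ)]
    rw [h2, h2]
    exact h1
  have hlhs : ∑ j, ∫ x in D, f j x * a j x = ∑ j, ∫ x in Ω, f j x * a j x := by
    refine Finset.sum_congr rfl fun j _ => ?_
    rw [integral_of_tst (fun x hx => by rw [image_eq_zero_of_notMem_tsupport hx, mul_zero]) (haD j),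
      integral_of_tst (fun x hx => by rw [image_eq_zero_of_notMem_tsupport hx, mul_zero]) (ha j)]
  set b : EC n → ℂ := fun x => ∑ j, db j (a j) x with hb
  have hbT : Tst D b := tst_sum _ fun j _ => tst_db (haD j) j
  have hbm : MemLp b 2 volume := hbT.smooth.continuous.memLp_of_hasCompactSupport hbT.cpt
  have hb0 : ∀ x, x ∉ tsupport b → b x = 0 := fun x hx => image_eq_zero_of_notMem_tsupport hx
  set I1 := ∫ x in Ω, (∑ j, ‖f j x‖ ^ 2) * Real.exp (-(t * Φ x)) with hI1
  set I2 := ∫ x in Ω, ‖b x‖ ^ 2 * Real.exp (t * Φ x) with hI2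
  -- integrability on `Ω`
  have iΩ : Integrable (fun x => (∑ j, ‖f j x‖ ^ 2) * Real.exp (-(t * Φ x)))
      (volume.restrict Ω) := by
    have h1 : Integrable (fun x => ∑ j, ‖f j x‖ ^ 2) (volume.restrict Ω) :=
      integrable_finsetSum _ fun j _ => (memLp_two_iff_integrable_sq_norm (hf j).1).1 (hf j)
    have h2 : Integrable (fun x => Real.exp (-(t * Φ x)) * ∑ j, ‖f j x‖ ^ 2)
        (volume.restrict Ω) := by
      refine h1.bdd_mul ?_ (c := Real.exp (t * M)) ?_
      · have h3 : ContinuousOn (fun x => Real.exp (-(t * Φ x))) Ω :=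
          Real.continuous_exp.comp_continuousOn (continuousOn_const.mul hΦ).neg
        exact h3.aestronglyMeasurable hΩ.measurableSet
      · filter_upwards [ae_restrict_mem hΩ.measurableSet] with x hx
        rw [Real.norm_of_nonneg (Real.exp_pos _).le]
        refine Real.exp_le_exp.2 ?_
        have h4 := hΦM x hx
        have h5 : -Φ x ≤ M := (neg_le_abs _).trans h4
        nlinarith
    simpa only [mul_comm] using h2
  have iΩb : IntegrableOn (fun x => ‖b x‖ ^ 2 * Real.exp (t * Φ x)) Ω := by
    have h3 : ContinuousOn (fun x => Real.exp (t * Φ x)) Ω :=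
      Real.continuous_exp.comp_continuousOn (continuousOn_const.mul hΦ)
    exact (intW hbT.cpt (h3.mono (hbT.sub.trans hDΩ)) hbm hb0).integrableOn
  have h10 : 0 ≤ I1 := integral_nonneg fun x =>
    mul_nonneg (Finset.sum_nonneg fun j _ => by positivity) (Real.exp_pos _).le
  have h20 : 0 ≤ I2 := integral_nonneg fun x => by positivity
  -- the inequality with `ε`
  have key : ∀ ε : ℝ, 0 < ε → ‖∑ j, ∫ x in Ω, f j x * a j x‖ ^ 2 ≤
      Real.exp (2 * t * ε) * ((1 / t) * I1 * I2) := by
    intro ε hε
    obtain ⟨F, hF, hFΦ, hFL⟩ := hS (closure D) hcl hclΩ ε hε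
    have hG : ContDiff ℝ ∞ (fun x => t * F x) := contDiff_const.mul hF
    have h1 := core hB hD hcl hp hpL hneg hfr hG ht (by
      intro z hz w
      rw [Lev_const_mul t hF.contDiffAt]
      have := hFL z (subset_closure hz) w
      nlinarith) hfD hfcD haD
    rw [hlhs] at h1
    have c1 : ∫ x in D, (∑ j, ‖f j x‖ ^ 2) * Real.exp (-(t * F x)) ≤ Real.exp (t * ε) * I1 := by
      have h2 : ∫ x in D, (∑ j, ‖f j x‖ ^ 2) * Real.exp (-(t * F x)) ≤
          ∫ x in D, Real.exp (t * ε) * ((∑ j, ‖f j x‖ ^ 2) * Real.exp (-(t * Φ x))) := by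
        refine setIntegral_mono_on ?_ ?_ hD.measurableSet ?_
        · have h3 : Integrable (fun x => ∑ j, ‖f j x‖ ^ 2) (volume.restrict D) :=
            integrable_finsetSum _ fun j _ =>
              (memLp_two_iff_integrable_sq_norm (hfD j).1).1 (hfD j)
          obtain ⟨C, hC⟩ := hcl.exists_bound_of_continuousOn
            ((Real.continuous_exp.comp hG.continuous.neg).continuousOn (s := closure D))
          have h4 : Integrable (fun x => Real.exp (-(t * F x)) * ∑ j, ‖f j x‖ ^ 2)
              (volume.restrict D) := by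
            refine h3.bdd_mul ?_ (c := C) ?_
            · exact (Real.continuous_exp.comp hG.continuous.neg).aestronglyMeasurable
            · filter_upwards [ae_restrict_mem hD.measurableSet] with x hx
              exact hC x (subset_closure hx)
          have h8 : Integrable (fun x => (∑ j, ‖f j x‖ ^ 2) * Real.exp (-(t * F x)))
              (volume.restrict D) := by simpa only [mul_comm] using h4
          exact h8
        · exact ((iΩ.mono_measure (Measure.restrict_mono hDΩ le_rfl))).const_mul _
        · intro x hx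
          have h5 := hFΦ x (subset_closure hx)
          have h6 : Real.exp (-(t * F x)) ≤ Real.exp (t * ε) * Real.exp (-(t * Φ x)) := by
            rw [← Real.exp_add]
            refine Real.exp_le_exp.2 ?_
            have h7 : Φ x - F x ≤ ε := by
              have := neg_le_of_abs_le h5
              linarith
            nlinarith
          calc (∑ j, ‖f j x‖ ^ 2) * Real.exp (-(t * F x)) ≤
              (∑ j, ‖f j x‖ ^ 2) * (Real.exp (t * ε) * Real.exp (-(t * Φ x))) :=
                mul_le_mul_of_nonneg_left h6 (Finset.sum_nonneg fun j _ => by positivity)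
            _ = _ := by ring
      refine h2.trans ?_
      rw [integral_const_mul]
      refine mul_le_mul_of_nonneg_left ?_ (Real.exp_pos _).le
      exact setIntegral_mono_set iΩ (Eventually.of_forall fun x =>
        mul_nonneg (Finset.sum_nonneg fun j _ => by positivity) (Real.exp_pos _).le)
        (LE.le.eventuallyLE hDΩ)
    have c2 : ∫ x in D, ‖b x‖ ^ 2 * Real.exp (t * F x) ≤ Real.exp (t * ε) * I2 := by
      have h2 : ∫ x in D, ‖b x‖ ^ 2 * Real.exp (t * F x) ≤
          ∫ x in D, Real.exp (t * ε) * (‖b x‖ ^ 2 * Real.exp (t * Φ x)) := by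
        refine setIntegral_mono_on ?_ ?_ hD.measurableSet ?_
        · exact (intW hbT.cpt (Real.continuous_exp.comp hG.continuous).continuousOn hbm
            hb0).integrableOn
        · exact (iΩb.mono_set hDΩ).const_mul _
        · intro x hx
          have h5 := hFΦ x (subset_closure hx)
          have h6 : Real.exp (t * F x) ≤ Real.exp (t * ε) * Real.exp (t * Φ x) := by
            rw [← Real.exp_add]
            refine Real.exp_le_exp.2 ?_
            have h7 : F x - Φ x ≤ ε := (le_abs_self _).trans h5
            nlinarith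
          calc ‖b x‖ ^ 2 * Real.exp (t * F x) ≤
              ‖b x‖ ^ 2 * (Real.exp (t * ε) * Real.exp (t * Φ x)) := by gcongr
            _ = _ := by ring
      refine h2.trans ?_
      rw [integral_const_mul]
      refine mul_le_mul_of_nonneg_left ?_ (Real.exp_pos _).le
      exact setIntegral_mono_set iΩb (Eventually.of_forall fun x => by positivity)
        (LE.le.eventuallyLE hDΩ)
    have c1' : 0 ≤ ∫ x in D, ‖b x‖ ^ 2 * Real.exp (t * F x) :=
      integral_nonneg fun x => by positivity
    calc ‖∑ j, ∫ x in Ω, f j x * a j x‖ ^ 2 ≤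
        (1 / t) * (∫ x in D, (∑ j, ‖f j x‖ ^ 2) * Real.exp (-(t * F x))) *
          ∫ x in D, ‖b x‖ ^ 2 * Real.exp (t * F x) := h1
      _ ≤ (1 / t) * (Real.exp (t * ε) * I1) * (Real.exp (t * ε) * I2) := by gcongr
      _ = Real.exp (t * ε) * Real.exp (t * ε) * ((1 / t) * I1 * I2) := by ring
      _ = _ := by
        rw [← Real.exp_add]
        congr 2
        ring
  -- limit
  have h1 : Tendsto (fun ε : ℝ => Real.exp (2 * t * ε) * ((1 / t) * I1 * I2)) (𝓝[>] 0)
      (𝓝 (Real.exp (2 * t * 0) * ((1 / t) * I1 * I2))) := by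
    refine Tendsto.mono_left ?_ nhdsWithin_le_nhds
    exact ((Real.continuous_exp.comp (continuous_const.mul continuous_id)).mul
      continuous_const).tendsto 0
  rw [mul_zero, Real.exp_zero, one_mul] at h1
  refine ge_of_tendsto h1 ?_
  filter_upwards [self_mem_nhdsWithin] with ε hε
  exact key ε hε

end Pool.Agent.H92.Lip
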