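import Pool.Agent.H92.Lip.M2Proj

/-!
The closed representative of a functional.
-/

set_option autoImplicit false
set_option linter.unusedSectionVars false

open MeasureTheory Set Filter Topology
open scoped ContDiff ENNReal ComplexConjugate

namespace Pool.Agent.H92.Lip.M2

variable {n : ℕ}

theorem cont_extC {D : Set (EC n)} (hD : IsOpen D) {g χ : EC n → ℂ} (hg : ContinuousOn g D)
    (hχ : Tst D χ) : Continuous (fun x => g x * χ x) := by
  rw [continuous_iff_continuousAt]
  intro x
  by_cases hx : x ∈ D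
  · exact (hg.continuousAt (hD.mem_nhds hx)).mul hχ.smooth.continuous.continuousAt
  · have h1 : x ∉ tsupport χ := fun h => hx (hχ.sub h)
    have h2 : (fun x => g x * χ x) =ᶠ[𝓝 x] fun _ => 0 := by
      filter_upwards [notMem_tsupport_iff_eventuallyEq.1 h1] with y hy
      simp [hy]
    exact continuousAt_const.congr h2.symm

theorem memLp_cont {D : Set (EC n)} (hD : IsOpen D) {g χ : EC n → ℂ} (hg : ContinuousOn g D)
    (hχ : Tst D χ) : MemLp (fun x => g x * χ x) 2 (volume.restrict D) :=
  ((cont_extC hD hg hχ).memLp_of_hasCompactSupport hχ.cpt.mul_left).restrict D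

theorem exists_alpha {D : Set (EC n)} (hD : IsOpen D) {om : EC n → ℝ} (hom : ContinuousOn om D)
    (hom0 : ∀ x ∈ D, 0 < om x) {f : Fin n → EC n → ℂ}
    (hf : ∀ j, MemLp (fun x => (Real.sqrt (om x) : ℂ) * f j x) 2 (volume.restrict D))
    (hfc : WClosed D f) {a : Fin n → EC n → ℂ} (ha : ∀ j, Tst D (a j)) :
    ∃ α : Fin n → EC n → ℂ,
      (∀ j, MemLp (fun x => (Real.sqrt (om x) : ℂ) * α j x) 2 (volume.restrict D)) ∧
      WClosed D α ∧
      (∀ v, Tst D v → ∑ j, ∫ x in D, α j x * (om x : ℂ) * dz j v x =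
        ∑ j, ∫ x in D, conj (a j x) * dz j v x) ∧
      ‖∑ j, ∫ x in D, f j x * a j x‖ ^ 2 ≤
        (∑ j, ∫ x in D, ‖(Real.sqrt (om x) : ℂ) * f j x‖ ^ 2) *
        ∑ j, ∫ x in D, ‖(Real.sqrt (om x) : ℂ) * α j x‖ ^ 2 := by
  set μ := (volume : Measure (EC n)).restrict D with hμ
  set s : EC n → ℂ := fun x => (Real.sqrt (om x) : ℂ) with hs
  set r : EC n → ℂ := fun x => ((Real.sqrt (om x))⁻¹ : ℂ) with hr
  have hs0 : ∀ x ∈ D, Real.sqrt (om x) ≠ 0 := fun x hx => (Real.sqrt_pos.2 (hom0 x hx)).ne'
  have hscr : ContinuousOn (fun x => Real.sqrt (om x)) D := hom.sqrt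
  have hsc : ContinuousOn s D := Complex.continuous_ofReal.comp_continuousOn hscr
  have hrc : ContinuousOn r D := hsc.inv₀ fun x hx => by
    simp only [hs]
    exact_mod_cast hs0 x hx
  have hsr : ∀ x ∈ D, s x * r x = 1 := by
    intro x hx
    simp only [hs, hr]
    exact mul_inv_cancel₀ (by exact_mod_cast hs0 x hx)
  have hss : ∀ x ∈ D, s x * s x = (om x : ℂ) := by
    intro x hx
    simp only [hs]
    rw [← Complex.ofReal_mul, Real.mul_self_sqrt (hom0 x hx).le]
  have hrconj : ∀ x, conj (r x) = r x := by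
    intro x
    simp only [hr]
    rw [← Complex.ofReal_inv, Complex.conj_ofReal]
  have hsconj : ∀ x, conj (s x) = s x := by
    intro x
    simp only [hs]
    rw [Complex.conj_ofReal]
  have congrD : ∀ {u v : EC n → ℂ}, (∀ x ∈ D, u x = v x) → ∫ x, u x ∂μ = ∫ x, v x ∂μ := by
    intro u v h
    exact setIntegral_congr_fun hD.measurableSet h
  -- test vectors
  have hmr : ∀ {χ : EC n → ℂ}, Tst D χ → MemLp (fun x => r x * χ x) 2 μ :=
    fun hχ => memLp_cont hD hrc hχ
  have hms : ∀ {χ : EC n → ℂ}, Tst D χ → MemLp (fun x => s x * χ x) 2 μ :=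
    fun hχ => memLp_cont hD hsc hχ
  have key : ∀ (h : Fin n → EC n → ℂ), (∀ l, MemLp (h l) 2 μ) → ∀ ψ, Tst D ψ → ∀ j k,
      ∑ l, ∫ x, h l x * (r x * ((if l = j then db k ψ x else 0) -
        (if l = k then db j ψ x else 0))) ∂μ =
      ∫ x, h j x * (r x * db k ψ x) ∂μ - ∫ x, h k x * (r x * db j ψ x) ∂μ := by
    intro h hh ψ hψ j k
    have hi : ∀ l m, Integrable (fun x => h l x * (r x * db m ψ x)) μ := fun l m =>
      (hh l).integrable_mul (hmr (tst_db hψ m))
    have e1 : ∀ l, ∫ x, h l x * (r x * ((if l = j then db k ψ x else 0) -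
        (if l = k then db j ψ x else 0))) ∂μ =
        (if l = j then ∫ x, h l x * (r x * db k ψ x) ∂μ else 0) -
        (if l = k then ∫ x, h l x * (r x * db j ψ x) ∂μ else 0) := by
      intro l
      have e2 : ∀ x, h l x * (r x * ((if l = j then db k ψ x else 0) -
        (if l = k then db j ψ x else 0))) =
        (if l = j then h l x * (r x * db k ψ x) else 0) -
        (if l = k then h l x * (r x * db j ψ x) else 0) := by
        intro x
        split_ifs <;> ring
      simp only [e2]
      rw [integral_sub]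
      · congr 1
        · split_ifs <;> simp
        · split_ifs <;> simp
      · split_ifs
        · exact hi l k
        · exact integrable_zero _ _ _
      · split_ifs
        · exact hi l j
        · exact integrable_zero _ _ _
    simp only [e1]
    rw [Finset.sum_sub_distrib, Finset.sum_ite_eq', Finset.sum_ite_eq']
    simp
  have hmS : ∀ ψ, Tst D ψ → ∀ j k l, MemLp (fun x => conj (r x *
      ((if l = j then db k ψ x else 0) - (if l = k then db j ψ x else 0)))) 2 μ := by
    intro ψ hψ j k l
    have h1 : MemLp (fun x => r x * (if l = j then db k ψ x else 0)) 2 μ := by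
      split_ifs
      · exact hmr (tst_db hψ k)
      · simp
    have h2 : MemLp (fun x => r x * (if l = k then db j ψ x else 0)) 2 μ := by
      split_ifs
      · exact hmr (tst_db hψ j)
      · simp
    have h3 := (h1.sub h2).star
    refine h3.congr_norm ?_ ?_
    · have := h3.1
      refine this.congr (Eventually.of_forall fun x => ?_)
      simp only [Pi.star_apply, Pi.sub_apply, mul_sub]
      rfl
    · refine Eventually.of_forall fun x => ?_
      simp only [Pi.star_apply, Pi.sub_apply, mul_sub]
      rfl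
  set S : Set (HH μ) := {u | ∃ (ψ : EC n → ℂ) (hψ : Tst D ψ) (j k : Fin n),
    u = vec (fun l x => conj (r x * ((if l = j then db k ψ x else 0) -
      (if l = k then db j ψ x else 0)))) (hmS ψ hψ j k)} with hS
  have innerS : ∀ (h : Fin n → EC n → ℂ) (hh : ∀ l, MemLp (h l) 2 μ) (ψ : EC n → ℂ)
      (hψ : Tst D ψ) (j k : Fin n),
      inner ℂ (vec (fun l x => conj (r x * ((if l = j then db k ψ x else 0) -
      (if l = k then db j ψ x else 0)))) (hmS ψ hψ j k)) (vec h hh) =
      ∫ x, h j x * (r x * db k ψ x) ∂μ - ∫ x, h k x * (r x * db j ψ x) ∂μ := by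
    intro h hh ψ hψ j k
    rw [inner_vec]
    simp only [Complex.conj_conj]
    exact key h hh ψ hψ j k
  -- the vectors
  have hA : ∀ j, MemLp (fun x => r x * conj (a j x)) 2 μ := fun j => hmr (tst_conj (ha j))
  obtain ⟨y, hy1, hy2⟩ := proj_abs S (vec (fun j x => r x * conj (a j x)) hA)
  obtain ⟨g, hg, rfl⟩ := exists_vec y
  refine ⟨fun j x => r x * g j x, ?_, ?_, ?_, ?_⟩
  · intro j
    refine (memLp_congr_ae ?_).1 (hg j)
    rw [hμ]
    filter_upwards [ae_restrict_mem hD.measurableSet] with x hx
    have := hsr x hx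
    simp only [← mul_assoc]
    rw [show ((Real.sqrt (om x) : ℝ) : ℂ) * r x = 1 from this, one_mul]
  · intro j k ψ hψ
    have h1 := hy1 _ ⟨ψ, hψ, j, k, rfl⟩
    rw [innerS g hg ψ hψ j k, sub_eq_zero] at h1
    refine Eq.trans ?_ (h1.trans ?_)
    · congr 1; ext x; ring
    · congr 1; ext x; ring
  · intro v hv
    have hv' := tst_conj hv
    have hT : ∀ j, MemLp (fun x => s x * db j (fun y => conj (v y)) x) 2 μ :=
      fun j => hms (tst_db hv' j)
    have h1 := hy2 (vec (fun j x => s x * db j (fun y => conj (v y)) x) hT) (by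
      rintro _ ⟨ψ, hψ, j, k, rfl⟩
      rw [innerS _ hT ψ hψ j k, sub_eq_zero]
      have e1 : ∀ j k, ∫ x, s x * db j (fun y => conj (v y)) x * (r x * db k ψ x) ∂μ =
          ∫ x, db j (fun y => conj (v y)) x * db k ψ x := by
        intro j k
        rw [← integral_of_tst (f := fun x => db j (fun y => conj (v y)) x * db k ψ x)
          (fun x hx => by rw [db_zero hx, mul_zero]) hψ]
        refine congrD fun x hx => ?_
        calc s x * db j (fun y => conj (v y)) x * (r x * db k ψ x) =
            (s x * r x) * (db j (fun y => conj (v y)) x * db k ψ x) := by ring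
          _ = _ := by rw [hsr x hx, one_mul]
      rw [e1, e1]
      exact ibp_cross hv'.smooth hv'.cpt hψ.smooth j k)
    rw [inner_vec, inner_vec] at h1
    have hdv : ∀ j x, conj (db j (fun y => conj (v y)) x) = dz j v x := by
      intro j x
      rw [← conj_dz j (hv.smooth.differentiable (by simp) x), Complex.conj_conj]
    simp only [map_mul, hsconj, hdv] at h1
    refine Eq.trans ?_ (h1.trans ?_)
    · refine Finset.sum_congr rfl fun j _ => congrD fun x hx => ?_
      rw [← hss x hx]
      calc r x * g j x * (s x * s x) * dz j v x = (s x * r x) * (g j x * (s x * dz j v x)) := by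
            ring
        _ = _ := by rw [hsr x hx, one_mul]
    · refine Finset.sum_congr rfl fun j _ => congrD fun x hx => ?_
      calc r x * conj (a j x) * (s x * dz j v x) = (s x * r x) * (conj (a j x) * dz j v x) := by
            ring
        _ = _ := by rw [hsr x hx, one_mul]
  · have hF : ∀ j, MemLp (fun x => s x * f j x) 2 μ := hf
    have h1 := hy2 (vec (fun j x => s x * f j x) hF) (by
      rintro _ ⟨ψ, hψ, j, k, rfl⟩
      rw [innerS _ hF ψ hψ j k, sub_eq_zero]
      have e1 : ∀ j k, ∫ x, s x * f j x * (r x * db k ψ x) ∂μ = ∫ x, f j x * db k ψ x ∂μ := by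
        intro j k
        refine congrD fun x hx => ?_
        calc s x * f j x * (r x * db k ψ x) = (s x * r x) * (f j x * db k ψ x) := by ring
          _ = _ := by rw [hsr x hx, one_mul]
      rw [e1, e1]
      exact hfc j k ψ hψ)
    have h2 : inner ℂ (vec (fun j x => s x * f j x) hF)
        (vec (fun j x => r x * conj (a j x)) hA) = conj (∑ j, ∫ x, f j x * a j x ∂μ) := by
      rw [inner_vec, map_sum]
      refine Finset.sum_congr rfl fun j _ => ?_
      rw [← integral_conj]
      refine congrD fun x hx => ?_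
      rw [map_mul, map_mul, hsconj]
      calc r x * conj (a j x) * (s x * conj (f j x)) =
          (s x * r x) * (conj (f j x) * conj (a j x)) := by ring
        _ = _ := by rw [hsr x hx, one_mul]
    rw [h2] at h1
    have h3 := norm_inner_le_norm (𝕜 := ℂ) (vec (fun j x => s x * f j x) hF) (vec g hg)
    rw [h1, RCLike.norm_conj] at h3
    have h4 : ‖∑ j, ∫ x, f j x * a j x ∂μ‖ ^ 2 ≤
        ‖vec (fun j x => s x * f j x) hF‖ ^ 2 * ‖vec g hg‖ ^ 2 := by
      rw [← mul_pow]
      exact pow_le_pow_left₀ (norm_nonneg _) h3 2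
    rw [norm_sq_vec, norm_sq_vec] at h4
    refine h4.trans (le_of_eq ?_)
    congr 1
    refine Finset.sum_congr rfl fun j _ => ?_
    refine setIntegral_congr_fun hD.measurableSet fun x hx => ?_
    simp only
    rw [← mul_assoc, hsr x hx, one_mul]

end Pool.Agent.H92.Lip.M2
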