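import Pool.Agent.H92.Lip.M2L2

/-!
The basic estimate for compactly supported `L²` forms.
-/

set_option autoImplicit false
set_option linter.unusedSectionVars false

open MeasureTheory Set Filter Topology
open scoped ContDiff ENNReal Manifold

namespace Pool.Agent.H92.Lip.M2

variable {n : ℕ}

theorem exists_cut {D K : Set (EC n)} (hD : IsOpen D) (hK : IsCompact K) (hKD : K ⊆ D) :
    ∃ θ : EC n → ℝ, ContDiff ℝ ∞ θ ∧ HasCompactSupport θ ∧ tsupport θ ⊆ D ∧
      (∀ᶠ x in 𝓝ˢ K, θ x = 1) := by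
  obtain ⟨R, hR⟩ := hK.isBounded.subset_ball (0 : EC n)
  have hU : IsOpen (D ∩ Metric.ball (0 : EC n) R) := hD.inter Metric.isOpen_ball
  obtain ⟨f, h0, h1, _⟩ := exists_contMDiffMap_zero_one_nhds_of_isClosed
    (n := (⊤ : ℕ∞)) 𝓘(ℝ, EC n) (s := (D ∩ Metric.ball (0 : EC n) R)ᶜ) (t := K)
    hU.isClosed_compl hK.isClosed (by
      rw [Set.disjoint_left]
      intro x hx hxK
      exact hx ⟨hKD hxK, hR hxK⟩)
  have hsub : tsupport f ⊆ D ∩ Metric.ball (0 : EC n) R := by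
    intro x hx
    by_contra hxs
    have h2 : ∀ᶠ y in 𝓝 x, f y = 0 := h0.filter_mono (nhds_le_nhdsSet hxs)
    exact (notMem_tsupport_iff_eventuallyEq.2 h2) hx
  refine ⟨f, f.contMDiff.contDiff, ?_, hsub.trans inter_subset_left, h1⟩
  have hb : tsupport f ⊆ Metric.closedBall (0 : EC n) R :=
    hsub.trans (inter_subset_right.trans Metric.ball_subset_closedBall)
  exact (isCompact_closedBall (0 : EC n) R).of_isClosed_subset (isClosed_tsupport _) hb

theorem smooth_ext {D : Set (EC n)} (hD : IsOpen D) {θ g : EC n → ℝ} (hθ : ContDiff ℝ ∞ θ)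
    (hs : tsupport θ ⊆ D) (hg : ContDiffOn ℝ ∞ g D) : ContDiff ℝ ∞ (fun x => θ x * g x) := by
  rw [contDiff_iff_contDiffAt]
  intro x
  by_cases hx : x ∈ D
  · exact hθ.contDiffAt.mul (hg.contDiffAt (hD.mem_nhds hx))
  · have h1 : x ∉ tsupport θ := fun h => hx (hs h)
    have h2 : (fun x => θ x * g x) =ᶠ[𝓝 x] fun _ => 0 := by
      filter_upwards [notMem_tsupport_iff_eventuallyEq.1 h1] with y hy
      simp [hy]
    exact contDiffAt_const.congr_of_eventuallyEq h2

theorem cont_ext {D : Set (EC n)} (hD : IsOpen D) {θ g : EC n → ℝ} (hθ : Continuous θ)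
    (hs : tsupport θ ⊆ D) (hg : ContinuousOn g D) : Continuous (fun x => θ x * g x) := by
  rw [continuous_iff_continuousAt]
  intro x
  by_cases hx : x ∈ D
  · exact hθ.continuousAt.mul (hg.continuousAt (hD.mem_nhds hx))
  · have h1 : x ∉ tsupport θ := fun h => hx (hs h)
    have h2 : (fun x => θ x * g x) =ᶠ[𝓝 x] fun _ => 0 := by
      filter_upwards [notMem_tsupport_iff_eventuallyEq.1 h1] with y hy
      simp [hy]
    exact continuousAt_const.congr h2.symm

theorem Lev_congr {F F' : EC n → ℝ} {z : EC n} (h : F =ᶠ[𝓝 z] F') (w : EC n) :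
    Lev F z w = Lev F' z w := by
  unfold Lev
  rw [(h.fderiv (𝕜 := ℝ)).fderiv_eq]

theorem ofReal_contDiff {g : EC n → ℝ} (hg : ContDiff ℝ ∞ g) :
    ContDiff ℝ ∞ (fun x => (g x : ℂ)) := Complex.ofRealCLM.contDiff.comp hg

theorem dz_congr {f g : EC n → ℂ} {x : EC n} (h : f =ᶠ[𝓝 x] g) (j : Fin n) :
    dz j f x = dz j g x := by
  rw [dz_eq, dz_eq, h.fderiv_eq]

theorem basicL2 (hB : BasicEst n) {D : Set (EC n)} (hD : IsOpen D) {φ L : EC n → ℝ}
    (hφ : ContDiffOn ℝ ∞ φ D) (hL : ContinuousOn L D)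
    (hLev : ∀ z ∈ D, ∀ w, 4 * (L z * nsq w) ≤ Lev φ z w)
    {K : Set (EC n)} (hK : IsCompact K) (hKD : K ⊆ D)
    {γ : Fin n → EC n → ℂ} (hγ : ∀ j, MemLp (γ j) 2 volume) (hγK : ∀ j, ∀ x, x ∉ K → γ j x = 0)
    {d : EC n → ℂ} (hd : MemLp d 2 volume) (hdK : ∀ x, x ∉ K → d x = 0)
    {c : Fin n → Fin n → EC n → ℂ} (hc : ∀ j k, MemLp (c j k) 2 volume)
    (hcK : ∀ j k, ∀ x, x ∉ K → c j k x = 0)
    (h1 : ∀ χ, Tst univ χ → ∑ j, ∫ x, γ j x * dz j χ x = - ∫ x, d x * χ x)
    (h2 : ∀ j k χ, Tst univ χ →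
      (∫ x, γ k x * db j χ x) - (∫ x, γ j x * db k χ x) = - ∫ x, c j k x * χ x) :
    ∫ x, L x * (∑ j, ‖γ j x‖ ^ 2) * Real.exp (-φ x) ≤
      (∫ x, ‖d x - ∑ j, γ j x * dz j (fun y => (φ y : ℂ)) x‖ ^ 2 * Real.exp (-φ x)) +
      (1 / 2) * ∑ j, ∑ k, ∫ x, ‖c j k x‖ ^ 2 * Real.exp (-φ x) := by
  obtain ⟨δ, hδ0, hδ⟩ := hK.exists_cthickening_subset_open hD hKD
  set K' := Metric.cthickening δ K with hK'
  have hK'c : IsCompact K' := hK.cthickening
  obtain ⟨θ, hθs, hθc, hθD, hθ1⟩ := exists_cut hD hK'c hδ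
  set φ' : EC n → ℝ := fun x => θ x * φ x with hφ'
  set L' : EC n → ℝ := fun x => θ x * L x with hL'
  have hφ's : ContDiff ℝ ∞ φ' := smooth_ext hD hθs hθD hφ
  have hL'c : Continuous L' := cont_ext hD hθs.continuous hθD hL
  have hev : ∀ z ∈ K', φ' =ᶠ[𝓝 z] φ := by
    intro z hz
    filter_upwards [hθ1.filter_mono (nhds_le_nhdsSet hz)] with y hy
    simp [hφ', hy]
  have hθK : ∀ z ∈ K', θ z = 1 := by
    intro z hz
    exact (hθ1.filter_mono (nhds_le_nhdsSet hz)).self_of_nhds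
  -- bounds
  obtain ⟨Cφ, hCφ⟩ := hφ's.continuous.bounded_above_of_compact_support
    (hθc.mul_right : HasCompactSupport φ')
  obtain ⟨CL, hCL⟩ := hL'c.bounded_above_of_compact_support
    (hθc.mul_right : HasCompactSupport L')
  set W1 : EC n → ℝ := fun x => Real.exp (-φ' x) with hW1
  have hW1c : Continuous W1 := Real.continuous_exp.comp hφ's.continuous.neg
  have hW1b : ∀ x, |W1 x| ≤ Real.exp Cφ := by
    intro x
    rw [hW1, abs_of_pos (Real.exp_pos _)]
    refine Real.exp_le_exp.2 ?_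
    have := hCφ x
    rw [Real.norm_eq_abs] at this
    exact (neg_le_abs _).trans this
  set W0 : EC n → ℝ := fun x => L' x * W1 x with hW0
  have hW0c : Continuous W0 := hL'c.mul hW1c
  have hW0b : ∀ x, |W0 x| ≤ CL * Real.exp Cφ := by
    intro x
    rw [hW0, abs_mul]
    have h3 : |L' x| ≤ CL := hCL x
    exact mul_le_mul h3 (hW1b x) (abs_nonneg _) ((abs_nonneg _).trans h3)
  set P : Fin n → EC n → ℂ := fun j => dz j (fun y => (φ' y : ℂ)) with hP
  have hφ'C := ofReal_contDiff hφ's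
  have hPc : ∀ j, Continuous (P j) := fun j => continuous_dz j hφ'C
  have hPb : ∀ j, ∃ C, ∀ x, ‖P j x‖ ≤ C := by
    intro j
    refine (hPc j).bounded_above_of_compact_support ?_
    have h5 : HasCompactSupport (fun y => (φ' y : ℂ)) :=
      (hθc.mul_right : HasCompactSupport φ').comp_left (g := fun r : ℝ => (r : ℂ)) (by simp)
    exact IsCompact.of_isClosed_subset h5 (isClosed_tsupport _) (tsupport_dz j _)
  -- local integrability
  have hγl : ∀ j, LocallyIntegrable (γ j) volume := fun j => (hγ j).locallyIntegrable (by norm_num)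
  have hdl : LocallyIntegrable d volume := hd.locallyIntegrable (by norm_num)
  have hcl : ∀ j k, LocallyIntegrable (c j k) volume :=
    fun j k => (hc j k).locallyIntegrable (by norm_num)
  -- the mollified equations
  have hdiv : ∀ m x, ∑ j, dz j (mol (rh n m) (γ j)) x = mol (rh n m) d x := by
    intro m x
    have h3 := h1 _ (tst_refl (m := m) x)
    rw [mol_eq_test]
    simp only [dz_mol (hγl _)]
    rw [Finset.sum_neg_distrib, h3, neg_neg]
  have hcurl : ∀ m x j k, db j (mol (rh n m) (γ k)) x - db k (mol (rh n m) (γ j)) x =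
      mol (rh n m) (c j k) x := by
    intro m x j k
    have h3 := h2 j k _ (tst_refl (m := m) x)
    rw [mol_eq_test, db_mol (hγl _), db_mol (hγl _)]
    rw [sub_neg_eq_add, neg_add_eq_sub, ← neg_sub, h3, neg_neg]
  -- the inequality for the mollified forms
  have hlim : Tendsto (fun m : ℕ => 1 / ((m : ℝ) + 1)) atTop (𝓝 0) :=
    tendsto_one_div_add_atTop_nhds_zero_nat
  have hI : ∀ᶠ m in atTop, ∑ j, ∫ x, W0 x * ‖mol (rh n m) (γ j) x‖ ^ 2 ≤
      (∫ x, W1 x * ‖mol (rh n m) d x - ∑ j, mol (rh n m) (γ j) x * P j x‖ ^ 2) +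
      (1 / 2) * ∑ j, ∑ k, ∫ x, W1 x * ‖mol (rh n m) (c j k) x‖ ^ 2 := by
    filter_upwards [hlim.eventually (gt_mem_nhds hδ0)] with m hm
    have hz : ∀ j x, x ∉ K' → mol (rh n m) (γ j) x = 0 := by
      intro j x hx
      refine mol_eq_zero (hγK j) fun h => hx ?_
      exact Metric.cthickening_mono hm.le K h
    have hts : ∀ j, tsupport (mol (rh n m) (γ j)) ⊆ K' := by
      intro j
      refine closure_minimal ?_ hK'c.isClosed
      intro x hx
      by_contra h
      exact hx (hz j x h)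
    have h3 := hB φ' L' (fun j => mol (rh n m) (γ j)) hφ's hL'c
      (fun j => contDiff_mol (rh_smooth m) (rh_cpt m) (hγl j))
      (fun j => hK'c.of_isClosed_subset (isClosed_tsupport _) (hts j)) (by
        intro j z hzz w
        have hzK := hts j hzz
        rw [Lev_congr (hev z hzK) w]
        have : L' z = L z := by simp [hL', hθK z hzK]
        rw [this]
        exact hLev z (hδ hzK) w)
    have e1 : ∀ x, ∑ j, (dz j (mol (rh n m) (γ j)) x -
        mol (rh n m) (γ j) x * dz j (fun y => (φ' y : ℂ)) x) =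
        mol (rh n m) d x - ∑ j, mol (rh n m) (γ j) x * P j x := by
      intro x
      rw [Finset.sum_sub_distrib, hdiv]
    simp only [e1, hcurl] at h3
    have e2 : ∫ x, L' x * (∑ j, ‖mol (rh n m) (γ j) x‖ ^ 2) * Real.exp (-φ' x) =
        ∑ j, ∫ x, W0 x * ‖mol (rh n m) (γ j) x‖ ^ 2 := by
      rw [← integral_finsetSum]
      · congr 1
        ext x
        rw [← Finset.mul_sum]
        simp only [hW0, hW1]
        ring
      · intro j _
        have h4 : Integrable (fun x => ‖mol (rh n m) (γ j) x‖ ^ 2) :=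
          (memLp_two_iff_integrable_sq_norm (memLp_mol (hγ j) m).1).1 (memLp_mol (hγ j) m)
        exact h4.bdd_mul hW0c.aestronglyMeasurable (Eventually.of_forall hW0b)
    rw [e2] at h3
    have e3 : ∀ u : EC n → ℂ, ∫ x, ‖u x‖ ^ 2 * Real.exp (-φ' x) = ∫ x, W1 x * ‖u x‖ ^ 2 := by
      intro u
      congr 1
      ext x
      rw [mul_comm]
    simp only [e3] at h3
    exact h3
  -- passage to the limit
  have t0 : Tendsto (fun m => ∑ j, ∫ x, W0 x * ‖mol (rh n m) (γ j) x‖ ^ 2) atTop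
      (𝓝 (∑ j, ∫ x, W0 x * ‖γ j x‖ ^ 2)) :=
    tendsto_finsetSum _ fun j _ => (TL.mol (hγ j)).int_sq hW0c hW0b
  have t1 : Tendsto (fun m => ∫ x, W1 x *
      ‖mol (rh n m) d x - ∑ j, mol (rh n m) (γ j) x * P j x‖ ^ 2) atTop
      (𝓝 (∫ x, W1 x * ‖d x - ∑ j, γ j x * P j x‖ ^ 2)) := by
    refine TL.int_sq ?_ hW1c hW1b
    refine (TL.mol hd).sub (TL.sum _ fun j _ => ?_)
    obtain ⟨C, hC⟩ := hPb j
    exact (TL.mol (hγ j)).mul (hPc j) hC
  have t2 : Tendsto (fun m => (1 / 2 : ℝ) * ∑ j, ∑ k, ∫ x, W1 x * ‖mol (rh n m) (c j k) x‖ ^ 2)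
      atTop (𝓝 ((1 / 2 : ℝ) * ∑ j, ∑ k, ∫ x, W1 x * ‖c j k x‖ ^ 2)) := by
    refine Tendsto.const_mul _ ?_
    refine tendsto_finsetSum _ fun j _ => tendsto_finsetSum _ fun k _ => ?_
    exact (TL.mol (hc j k)).int_sq hW1c hW1b
  have hfin := le_of_tendsto_of_tendsto t0 (t1.add t2) hI
  -- back to `φ`, `L`
  have hKK' : K ⊆ K' := Metric.self_subset_cthickening K
  have hφK : ∀ x ∈ K, φ' x = φ x := fun x hx => by simp [hφ', hθK x (hKK' hx)]
  have f0 : ∫ x, L x * (∑ j, ‖γ j x‖ ^ 2) * Real.exp (-φ x) =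
      ∑ j, ∫ x, W0 x * ‖γ j x‖ ^ 2 := by
    rw [← integral_finsetSum]
    · congr 1
      ext x
      by_cases hx : x ∈ K
      · rw [← Finset.mul_sum]
        simp only [hW0, hW1, hL', hφK x hx, hθK x (hKK' hx), one_mul]
        ring
      · simp [hγK _ x hx]
    · intro j _
      have h4 : Integrable (fun x => ‖γ j x‖ ^ 2) :=
        (memLp_two_iff_integrable_sq_norm (hγ j).1).1 (hγ j)
      exact h4.bdd_mul hW0c.aestronglyMeasurable (Eventually.of_forall hW0b)
  have f1 : ∫ x, ‖d x - ∑ j, γ j x * dz j (fun y => (φ y : ℂ)) x‖ ^ 2 * Real.exp (-φ x) =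
      ∫ x, W1 x * ‖d x - ∑ j, γ j x * P j x‖ ^ 2 := by
    congr 1
    ext x
    by_cases hx : x ∈ K
    · have h5 : ∀ j, P j x = dz j (fun y => (φ y : ℂ)) x := by
        intro j
        refine dz_congr ?_ j
        filter_upwards [hev x (hKK' hx)] with y hy
        rw [hy]
      simp only [hW1, hφK x hx, h5]
      ring
    · simp [hγK _ x hx, hdK x hx]
  have f2 : ∀ j k, ∫ x, ‖c j k x‖ ^ 2 * Real.exp (-φ x) = ∫ x, W1 x * ‖c j k x‖ ^ 2 := by
    intro j k
    congr 1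
    ext x
    by_cases hx : x ∈ K
    · simp only [hW1, hφK x hx]
      ring
    · simp [hcK j k x hx]
  rw [f0, f1]
  simp only [f2]
  exact hfin

end Pool.Agent.H92.Lip.M2
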