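import Pool.Agent.H92.Lip.M2Moll

/-!
Calculus of the Wirtinger operators `dz`, `db`.
-/

set_option autoImplicit false
set_option linter.unusedSectionVars false

open MeasureTheory Set Filter Topology
open scoped ContDiff ENNReal

namespace Pool.Agent.H92.Lip.M2

variable {n : ℕ}

/-- `dz` as a function of the derivative -/
noncomputable def zL (j : Fin n) (T : EC n →L[ℝ] ℂ) : ℂ :=
  (T (Pi.single j (1 : ℂ)) - Complex.I * T (Pi.single j Complex.I)) / 2

/-- `db` as a function of the derivative -/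
noncomputable def bL (j : Fin n) (T : EC n →L[ℝ] ℂ) : ℂ :=
  (T (Pi.single j (1 : ℂ)) + Complex.I * T (Pi.single j Complex.I)) / 2

theorem dz_eq (j : Fin n) (f : EC n → ℂ) (x : EC n) : dz j f x = zL j (fderiv ℝ f x) := rfl

theorem db_eq (j : Fin n) (f : EC n → ℂ) (x : EC n) : db j f x = bL j (fderiv ℝ f x) := rfl

theorem norm_single_le (j : Fin n) (c : ℂ) : ‖(Pi.single j c : EC n)‖ ≤ ‖c‖ := by
  rw [pi_norm_le_iff_of_nonneg (norm_nonneg _)]
  intro i
  by_cases h : i = j
  · subst h; simp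
  · simp [Pi.single_eq_of_ne h]

theorem norm_zL_le (j : Fin n) (T : EC n →L[ℝ] ℂ) : ‖zL j T‖ ≤ ‖T‖ := by
  unfold zL
  have h1 : ‖T (Pi.single j (1 : ℂ))‖ ≤ ‖T‖ := by
    refine (T.le_opNorm _).trans ?_
    have := norm_single_le j (1 : ℂ)
    rw [norm_one] at this
    exact mul_le_of_le_one_right (norm_nonneg _) this
  have h2 : ‖T (Pi.single j Complex.I)‖ ≤ ‖T‖ := by
    refine (T.le_opNorm _).trans ?_
    have := norm_single_le j Complex.I
    rw [Complex.norm_I] at this
    exact mul_le_of_le_one_right (norm_nonneg _) this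
  rw [norm_div]
  have h3 : ‖T (Pi.single j (1 : ℂ)) - Complex.I * T (Pi.single j Complex.I)‖ ≤ ‖T‖ + ‖T‖ := by
    refine (norm_sub_le _ _).trans ?_
    rw [norm_mul, Complex.norm_I, one_mul]
    exact add_le_add h1 h2
  have : ‖(2 : ℂ)‖ = 2 := by simp
  rw [this]
  linarith

theorem norm_bL_le (j : Fin n) (T : EC n →L[ℝ] ℂ) : ‖bL j T‖ ≤ ‖T‖ := by
  unfold bL
  have h1 : ‖T (Pi.single j (1 : ℂ))‖ ≤ ‖T‖ := by
    refine (T.le_opNorm _).trans ?_
    have := norm_single_le j (1 : ℂ)
    rw [norm_one] at this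
    exact mul_le_of_le_one_right (norm_nonneg _) this
  have h2 : ‖T (Pi.single j Complex.I)‖ ≤ ‖T‖ := by
    refine (T.le_opNorm _).trans ?_
    have := norm_single_le j Complex.I
    rw [Complex.norm_I] at this
    exact mul_le_of_le_one_right (norm_nonneg _) this
  rw [norm_div]
  have h3 : ‖T (Pi.single j (1 : ℂ)) + Complex.I * T (Pi.single j Complex.I)‖ ≤ ‖T‖ + ‖T‖ := by
    refine (norm_add_le _ _).trans ?_
    rw [norm_mul, Complex.norm_I, one_mul]
    exact add_le_add h1 h2
  have : ‖(2 : ℂ)‖ = 2 := by simp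
  rw [this]
  linarith

theorem dz_mul (j : Fin n) {f g : EC n → ℂ} {x : EC n} (hf : DifferentiableAt ℝ f x)
    (hg : DifferentiableAt ℝ g x) :
    dz j (fun y => f y * g y) x = f x * dz j g x + dz j f x * g x := by
  rw [dz_eq, dz_eq, dz_eq, fderiv_fun_mul hf hg]
  simp only [zL, add_apply, smul_apply, smul_eq_mul]
  ring

theorem db_mul (j : Fin n) {f g : EC n → ℂ} {x : EC n} (hf : DifferentiableAt ℝ f x)
    (hg : DifferentiableAt ℝ g x) :
    db j (fun y => f y * g y) x = f x * db j g x + db j f x * g x := by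
  rw [db_eq, db_eq, db_eq, fderiv_fun_mul hf hg]
  simp only [bL, add_apply, smul_apply, smul_eq_mul]
  ring

theorem continuous_dz (j : Fin n) {f : EC n → ℂ} (hf : ContDiff ℝ ∞ f) : Continuous (dz j f) := by
  have h := hf.continuous_fderiv (by simp)
  unfold dz
  have h1 : Continuous fun x => fderiv ℝ f x (Pi.single j (1 : ℂ)) := h.clm_apply continuous_const
  have h2 : Continuous fun x => fderiv ℝ f x (Pi.single j Complex.I) := h.clm_apply continuous_const
  exact (h1.sub (continuous_const.mul h2)).div_const _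

theorem continuous_db (j : Fin n) {f : EC n → ℂ} (hf : ContDiff ℝ ∞ f) : Continuous (db j f) := by
  have h := hf.continuous_fderiv (by simp)
  unfold db
  have h1 : Continuous fun x => fderiv ℝ f x (Pi.single j (1 : ℂ)) := h.clm_apply continuous_const
  have h2 : Continuous fun x => fderiv ℝ f x (Pi.single j Complex.I) := h.clm_apply continuous_const
  exact (h1.add (continuous_const.mul h2)).div_const _

theorem contDiff_dz (j : Fin n) {f : EC n → ℂ} (hf : ContDiff ℝ ∞ f) : ContDiff ℝ ∞ (dz j f) := by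
  have h := hf.fderiv_right (m := ∞) (by simp)
  unfold dz
  have h1 : ContDiff ℝ ∞ fun x => fderiv ℝ f x (Pi.single j (1 : ℂ)) := h.clm_apply contDiff_const
  have h2 : ContDiff ℝ ∞ fun x => fderiv ℝ f x (Pi.single j Complex.I) :=
    h.clm_apply contDiff_const
  exact (h1.sub (contDiff_const.mul h2)).div_const _

theorem contDiff_db (j : Fin n) {f : EC n → ℂ} (hf : ContDiff ℝ ∞ f) : ContDiff ℝ ∞ (db j f) := by
  have h := hf.fderiv_right (m := ∞) (by simp)
  unfold db
  have h1 : ContDiff ℝ ∞ fun x => fderiv ℝ f x (Pi.single j (1 : ℂ)) := h.clm_apply contDiff_const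
  have h2 : ContDiff ℝ ∞ fun x => fderiv ℝ f x (Pi.single j Complex.I) :=
    h.clm_apply contDiff_const
  exact (h1.add (contDiff_const.mul h2)).div_const _

theorem fderiv_zero_of_notMem {f : EC n → ℂ} {x : EC n} (hx : x ∉ tsupport f) :
    fderiv ℝ f x = 0 := by
  by_contra h
  exact hx (support_fderiv_subset ℝ h)

theorem dz_zero {j : Fin n} {f : EC n → ℂ} {x : EC n} (hx : x ∉ tsupport f) : dz j f x = 0 := by
  rw [dz_eq, fderiv_zero_of_notMem hx]; simp [zL]

theorem db_zero {j : Fin n} {f : EC n → ℂ} {x : EC n} (hx : x ∉ tsupport f) : db j f x = 0 := by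
  rw [db_eq, fderiv_zero_of_notMem hx]; simp [bL]

theorem tsupport_dz (j : Fin n) (f : EC n → ℂ) : tsupport (dz j f) ⊆ tsupport f := by
  refine closure_minimal ?_ (isClosed_tsupport f)
  intro x hx
  by_contra h
  exact hx (dz_zero h)

theorem tsupport_db (j : Fin n) (f : EC n → ℂ) : tsupport (db j f) ⊆ tsupport f := by
  refine closure_minimal ?_ (isClosed_tsupport f)
  intro x hx
  by_contra h
  exact hx (db_zero h)

theorem tst_dz {Ω : Set (EC n)} {f : EC n → ℂ} (hf : Tst Ω f) (j : Fin n) : Tst Ω (dz j f) :=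
  ⟨contDiff_dz j hf.smooth, hf.cpt.of_isClosed_subset (isClosed_tsupport _) (tsupport_dz j f),
    (tsupport_dz j f).trans hf.sub⟩

theorem tst_db {Ω : Set (EC n)} {f : EC n → ℂ} (hf : Tst Ω f) (j : Fin n) : Tst Ω (db j f) :=
  ⟨contDiff_db j hf.smooth, hf.cpt.of_isClosed_subset (isClosed_tsupport _) (tsupport_db j f),
    (tsupport_db j f).trans hf.sub⟩

theorem tst_mono {U V : Set (EC n)} (h : U ⊆ V) {f : EC n → ℂ} (hf : Tst U f) : Tst V f :=
  ⟨hf.smooth, hf.cpt, hf.sub.trans h⟩

/-- a product of a function which is smooth on `Ω` with a test function is a test function -/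
theorem tst_mul {Ω : Set (EC n)} (hΩ : IsOpen Ω) {g χ : EC n → ℂ} (hg : ContDiffOn ℝ ∞ g Ω)
    (hχ : Tst Ω χ) : Tst Ω (fun x => g x * χ x) := by
  refine ⟨?_, hχ.cpt.mul_left, tsupport_mul_subset_right.trans hχ.sub⟩
  rw [contDiff_iff_contDiffAt]
  intro x
  by_cases hx : x ∈ Ω
  · exact (hg.contDiffAt (hΩ.mem_nhds hx)).mul hχ.smooth.contDiffAt
  · have h1 : x ∉ tsupport χ := fun h => hx (hχ.sub h)
    have h2 : (fun x => g x * χ x) =ᶠ[𝓝 x] fun _ => 0 := by
      filter_upwards [notMem_tsupport_iff_eventuallyEq.1 h1] with y hy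
      simp [hy]
    exact contDiffAt_const.congr_of_eventuallyEq h2

theorem integral_of_tst {Ω : Set (EC n)} {f χ : EC n → ℂ}
    (h : ∀ x, x ∉ tsupport χ → f x = 0) (hχ : Tst Ω χ) : ∫ x in Ω, f x = ∫ x, f x := by
  refine setIntegral_eq_integral_of_forall_compl_eq_zero fun x hx => h x fun h' => hx (hχ.sub h')

/-- derivatives of mollified functions -/
theorem hasFDeriv_refl {ρ : EC n → ℝ} (hρ : ContDiff ℝ ∞ ρ) (x t v : EC n) :
    fderiv ℝ (fun t => ((ρ (x - t) : ℝ) : ℂ)) t v = - ((fderiv ℝ ρ (x - t) v : ℝ) : ℂ) := by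
  have h1 : HasFDerivAt (fun t => ρ (x - t)) ((fderiv ℝ ρ (x - t)) ∘L
      (-(ContinuousLinearMap.id ℝ (EC n)))) t :=
    ((hρ.differentiable (by simp) _).hasFDerivAt).comp t
      ((hasFDerivAt_id t).const_sub x)
  have h2 := (Complex.ofRealCLM.hasFDerivAt (x := ρ (x - t))).comp t h1
  have h3 : HasFDerivAt (fun t => ((ρ (x - t) : ℝ) : ℂ)) _ t := h2
  rw [h3.fderiv]
  simp

theorem tst_refl {m : ℕ} (x : EC n) : Tst (univ : Set (EC n))
    (fun t => ((rh n m (x - t) : ℝ) : ℂ)) := by
  refine ⟨?_, ?_, subset_univ _⟩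
  · exact Complex.ofRealCLM.contDiff.comp ((rh_smooth m).comp (contDiff_const.sub contDiff_id))
  · have h1 : HasCompactSupport (fun t => rh n m (x - t)) :=
      (rh_cpt m).comp_homeomorph (Homeomorph.subLeft x)
    exact h1.comp_left (g := fun r : ℝ => (r : ℂ)) (by simp)

theorem int_test {m : ℕ} {g : EC n → ℂ} (hg : LocallyIntegrable g) (x v : EC n) :
    Integrable (fun t => (fderiv ℝ (rh n m) (x - t) v) • g t) := by
  refine hg.integrable_smul_left_of_hasCompactSupport ?_ ?_
  · exact (((rh_smooth m).continuous_fderiv (by simp)).comp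
      (continuous_const.sub continuous_id)).clm_apply continuous_const
  · have h1 : HasCompactSupport (fun t => fderiv ℝ (rh n m) (x - t)) :=
      ((rh_cpt m).fderiv (𝕜 := ℝ)).comp_homeomorph (Homeomorph.subLeft x)
    exact h1.comp_left (g := fun T : EC n →L[ℝ] ℝ => T v) (by simp)

theorem dz_mol {m : ℕ} {g : EC n → ℂ} (hg : LocallyIntegrable g) (j : Fin n) (x : EC n) :
    dz j (mol (rh n m) g) x = - ∫ t, g t * dz j (fun t => ((rh n m (x - t) : ℝ) : ℂ)) t := by
  unfold dz
  rw [fderiv_mol (rh_smooth m) (rh_cpt m) hg, fderiv_mol (rh_smooth m) (rh_cpt m) hg]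
  simp only [hasFDeriv_refl (rh_smooth m)]
  rw [← integral_const_mul, ← integral_sub (int_test hg x _) ((int_test hg x _).const_mul _),
    ← integral_neg, ← integral_div]
  congr 1
  ext t
  rw [Complex.real_smul, Complex.real_smul]
  ring

theorem db_mol {m : ℕ} {g : EC n → ℂ} (hg : LocallyIntegrable g) (j : Fin n) (x : EC n) :
    db j (mol (rh n m) g) x = - ∫ t, g t * db j (fun t => ((rh n m (x - t) : ℝ) : ℂ)) t := by
  unfold db
  rw [fderiv_mol (rh_smooth m) (rh_cpt m) hg, fderiv_mol (rh_smooth m) (rh_cpt m) hg]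
  simp only [hasFDeriv_refl (rh_smooth m)]
  rw [← integral_const_mul, ← integral_add (int_test hg x _) ((int_test hg x _).const_mul _),
    ← integral_neg, ← integral_div]
  congr 1
  ext t
  rw [Complex.real_smul, Complex.real_smul]
  ring

theorem mol_eq_test {m : ℕ} {g : EC n → ℂ} (x : EC n) :
    mol (rh n m) g x = ∫ t, g t * ((rh n m (x - t) : ℝ) : ℂ) := by
  rw [mol_eq]
  congr 1
  ext t
  rw [Complex.real_smul, mul_comm]

end Pool.Agent.H92.Lip.M2
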