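import Pool.Agent.H92.Lip.M2Weight

/-!
The cut-off functions and the core inequality.
-/

set_option autoImplicit false
set_option linter.unusedSectionVars false

open MeasureTheory Set Filter Topology
open scoped ContDiff ENNReal ComplexConjugate

namespace Pool.Agent.H92.Lip.M2

variable {n : ℕ}

theorem exists_deriv_bound : ∃ C : ℝ, 0 ≤ C ∧ ∀ t, |deriv Real.smoothTransition t| ≤ C := by
  have hc : Continuous (deriv Real.smoothTransition) :=
    (Real.smoothTransition.contDiff (n := 1)).continuous_deriv le_rfl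
  have hs : HasCompactSupport (deriv Real.smoothTransition) := by
    refine HasCompactSupport.intro (isCompact_Icc (a := (0 : ℝ)) (b := 1)) ?_
    intro t ht
    rw [mem_Icc, not_and_or, not_le, not_le] at ht
    rcases ht with ht | ht
    · have : Real.smoothTransition =ᶠ[𝓝 t] fun _ => 0 := by
        filter_upwards [gt_mem_nhds ht] with s hs
        exact Real.smoothTransition.zero_of_nonpos hs.le
      rw [this.deriv_eq]
      simp
    · have : Real.smoothTransition =ᶠ[𝓝 t] fun _ => 1 := by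
        filter_upwards [lt_mem_nhds ht] with s hs
        exact Real.smoothTransition.one_of_one_le hs.le
      rw [this.deriv_eq]
      simp
  obtain ⟨C, hC⟩ := hc.bounded_above_of_compact_support hs
  exact ⟨C, (norm_nonneg _).trans (hC 0), hC⟩

open Classical in
/-- cut-off functions -/
noncomputable def cutm (D : Set (EC n)) (p : EC n → ℝ) (m : ℕ) (x : EC n) : ℝ :=
  if x ∈ D then Real.smoothTransition ((m : ℝ) * (-p x) - 1) else 0

section cut

variable {D : Set (EC n)} {p : EC n → ℝ} (hD : IsOpen D) (hcl : IsCompact (closure D))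
  (hp : ContDiff ℝ ∞ p) (hneg : ∀ z ∈ D, p z < 0) (hfr : ∀ z ∈ frontier D, p z = 0)

include hD hcl hp hneg hfr

theorem cutm_in (m : ℕ) {z : EC n} (hz : z ∈ D) :
    cutm D p m =ᶠ[𝓝 z] fun x => Real.smoothTransition ((m : ℝ) * (-p x) - 1) := by
  filter_upwards [hD.mem_nhds hz] with x hx
  simp [cutm, hx]

theorem cutm_out (m : ℕ) {z : EC n} (hz : z ∉ D) : cutm D p m =ᶠ[𝓝 z] fun _ => 0 := by
  by_cases hzc : z ∈ closure D
  · have hf : z ∈ frontier D := by
      rw [frontier, hD.interior_eq]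
      exact ⟨hzc, hz⟩
    have h1 : (m : ℝ) * (-p z) - 1 < 0 := by rw [hfr z hf]; simp
    have h2 : ContinuousAt (fun x => (m : ℝ) * (-p x) - 1) z :=
      ((continuous_const.mul hp.continuous.neg).sub continuous_const).continuousAt
    filter_upwards [h2.eventually (gt_mem_nhds h1)] with x hx
    unfold cutm
    split_ifs
    · exact Real.smoothTransition.zero_of_nonpos hx.le
    · rfl
  · filter_upwards [isClosed_closure.isOpen_compl.mem_nhds hzc] with x hx
    have : x ∉ D := fun h => hx (subset_closure h)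
    simp [cutm, this]

theorem cutm_smooth (m : ℕ) : ContDiff ℝ ∞ (cutm D p m) := by
  rw [contDiff_iff_contDiffAt]
  intro z
  by_cases hz : z ∈ D
  · refine ContDiffAt.congr_of_eventuallyEq ?_ (cutm_in hD hcl hp hneg hfr m hz)
    refine (Real.smoothTransition.contDiff.comp ?_).contDiffAt
    exact (contDiff_const.mul hp.neg).sub contDiff_const
  · exact contDiffAt_const.congr_of_eventuallyEq (cutm_out hD hcl hp hneg hfr m hz)

theorem cutm_tsupport (m : ℕ) : tsupport (cutm D p m) ⊆ D := by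
  intro z hz
  by_contra h
  exact (notMem_tsupport_iff_eventuallyEq.2 (cutm_out hD hcl hp hneg hfr m h)) hz

theorem cutm_cpt (m : ℕ) : HasCompactSupport (cutm D p m) :=
  hcl.of_isClosed_subset (isClosed_tsupport _)
    ((cutm_tsupport hD hcl hp hneg hfr m).trans subset_closure)

theorem cutm_abs (m : ℕ) (x : EC n) : |cutm D p m x| ≤ 1 := by
  unfold cutm
  split_ifs
  · rw [abs_of_nonneg (Real.smoothTransition.nonneg _)]
    exact Real.smoothTransition.le_one _
  · simp

theorem cutm_one {m : ℕ} {z : EC n} (hz : z ∈ D) (h : 2 ≤ (m : ℝ) * (-p z)) :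
    cutm D p m z = 1 := by
  simp only [cutm, hz, if_true]
  exact Real.smoothTransition.one_of_one_le (by linarith)

theorem cutm_fderiv_zero {m : ℕ} {z : EC n} (hz : z ∈ D) (h : 2 < (m : ℝ) * (-p z)) :
    fderiv ℝ (cutm D p m) z = 0 := by
  have h2 : ContinuousAt (fun x => (m : ℝ) * (-p x)) z :=
    (continuous_const.mul hp.continuous.neg).continuousAt
  have h3 : cutm D p m =ᶠ[𝓝 z] fun _ => 1 := by
    filter_upwards [h2.eventually (lt_mem_nhds h), hD.mem_nhds hz] with x hx hxD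
    exact cutm_one hD hcl hp hneg hfr hxD hx.le
  rw [h3.fderiv_eq]
  simp

theorem cutm_fderiv {C P : ℝ} (hC0 : 0 ≤ C) (hC : ∀ t, |deriv Real.smoothTransition t| ≤ C)
    (hP : ∀ z ∈ D, ‖fderiv ℝ p z‖ ≤ P) (m : ℕ) {z : EC n} (hz : z ∈ D) :
    ‖fderiv ℝ (cutm D p m) z‖ * (-p z) ≤ 2 * C * P := by
  have hpz := hneg z hz
  have hP0 : 0 ≤ P := (norm_nonneg _).trans (hP z hz)
  by_cases h : 2 < (m : ℝ) * (-p z)
  · rw [cutm_fderiv_zero hD hcl hp hneg hfr hz h]
    simp
    positivity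
  · push Not at h
    have hd : HasDerivAt Real.smoothTransition
        (deriv Real.smoothTransition ((m : ℝ) * (-p z) - 1)) ((m : ℝ) * (-p z) - 1) :=
      ((Real.smoothTransition.contDiff (n := 1)).differentiable (by simp) _).hasDerivAt
    have hpd : HasFDerivAt p (fderiv ℝ p z) z := (hp.differentiable (by simp) z).hasFDerivAt
    have h1 : HasFDerivAt (fun x => (m : ℝ) * (-p x) - 1) ((m : ℝ) • (-fderiv ℝ p z)) z :=
      (hpd.neg.const_mul (m : ℝ)).sub_const 1
    have h2 := hd.comp_hasFDerivAt z h1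
    have h3 : fderiv ℝ (cutm D p m) z = deriv Real.smoothTransition ((m : ℝ) * (-p z) - 1) •
        ((m : ℝ) • (-fderiv ℝ p z)) := by
      rw [(cutm_in hD hcl hp hneg hfr m hz).fderiv_eq]
      exact h2.fderiv
    rw [h3, norm_smul, norm_smul, norm_neg, Real.norm_eq_abs, Real.norm_of_nonneg (Nat.cast_nonneg m)]
    calc |deriv Real.smoothTransition ((m : ℝ) * (-p z) - 1)| * ((m : ℝ) * ‖fderiv ℝ p z‖) * (-p z)
        = |deriv Real.smoothTransition ((m : ℝ) * (-p z) - 1)| * ‖fderiv ℝ p z‖ *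
          ((m : ℝ) * (-p z)) := by ring
      _ ≤ C * P * 2 := by
        have := hC ((m : ℝ) * (-p z) - 1)
        have := hP z hz
        have : 0 ≤ (m : ℝ) * (-p z) := mul_nonneg (Nat.cast_nonneg m) (by linarith)
        gcongr
      _ = _ := by ring

end cut

theorem tst_sum {Ω : Set (EC n)} {ι : Type*} (s : Finset ι) {f : ι → EC n → ℂ}
    (hf : ∀ i ∈ s, Tst Ω (f i)) : Tst Ω (fun x => ∑ i ∈ s, f i x) := by
  classical
  induction s using Finset.induction_on with
  | empty =>
    simp only [Finset.sum_empty]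
    exact ⟨contDiff_const, HasCompactSupport.zero, by
      rw [show (fun _ : EC n => (0 : ℂ)) = 0 from rfl, tsupport_zero]; exact empty_subset _⟩
  | insert a s ha ih =>
    simp only [Finset.sum_insert ha]
    have h1 := hf a (Finset.mem_insert_self _ _)
    have h2 := ih fun i hi => hf i (Finset.mem_insert_of_mem hi)
    have hs : tsupport (fun x => f a x + ∑ i ∈ s, f i x) ⊆
        tsupport (f a) ∪ tsupport (fun x => ∑ i ∈ s, f i x) := tsupport_add _ _
    exact ⟨h1.smooth.add h2.smooth,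
      (h1.cpt.union h2.cpt).of_isClosed_subset (isClosed_tsupport _) hs,
      hs.trans (union_subset h1.sub h2.sub)⟩

/-- the algebraic inequality behind the choice of the weights -/
theorem weight_ineq {e u t A P0 N : ℝ} (he : 0 < e) (he1 : e ≤ 1) (hu : 0 < u) (ht : 0 < t)
    (hP0 : 1 ≤ u * P0) (hN : 0 ≤ N) (h : e * (t * P0 + 4 * N) ≤ 2 * A) :
    t * (1 + e ^ 2 * u ^ 2) + N * (2 * e ^ 2 * u ^ 3 / (1 + e ^ 2 * u ^ 2)) ^ 2 ≤
      t + 2 * A * u ^ 3 := by
  have h1 : (2 * e ^ 2 * u ^ 3 / (1 + e ^ 2 * u ^ 2)) ^ 2 ≤ 4 * e * u ^ 3 := by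
    rw [div_pow, div_le_iff₀ (by positivity)]
    have hx : 0 < e * u := by positivity
    have h2 : (e * u) ^ 3 ≤ (1 + (e * u) ^ 2) ^ 2 := by
      nlinarith [sq_nonneg (e * u * (e * u) - e * u), sq_nonneg (e * u), sq_nonneg (e * u * (e * u)),
        sq_nonneg (e * u - 1)]
    calc (2 * e ^ 2 * u ^ 3) ^ 2 = 4 * e * u ^ 3 * (e * u) ^ 3 := by ring
      _ ≤ 4 * e * u ^ 3 * (1 + (e * u) ^ 2) ^ 2 := by gcongr
      _ = _ := by ring
  have h3 : e ^ 2 * u ^ 2 ≤ e * P0 * u ^ 3 := by
    have h4 : e ^ 2 ≤ e := by nlinarith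
    calc e ^ 2 * u ^ 2 ≤ e * u ^ 2 := by gcongr
      _ = e * u ^ 2 * 1 := by ring
      _ ≤ e * u ^ 2 * (u * P0) := by gcongr
      _ = _ := by ring
  calc t * (1 + e ^ 2 * u ^ 2) + N * (2 * e ^ 2 * u ^ 3 / (1 + e ^ 2 * u ^ 2)) ^ 2
      ≤ t * (1 + e * P0 * u ^ 3) + N * (4 * e * u ^ 3) := by gcongr
    _ = t + e * (t * P0 + 4 * N) * u ^ 3 := by ring
    _ ≤ t + 2 * A * u ^ 3 := by gcongr

theorem norm_dz_at (j : Fin n) {u : EC n → ℝ} {x : EC n} (hu : DifferentiableAt ℝ u x) :
    ‖dz j (fun y => (u y : ℂ)) x‖ ≤ ‖fderiv ℝ u x‖ := by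
  have h1 : HasFDerivAt (fun y => (u y : ℂ)) (Complex.ofRealCLM.comp (fderiv ℝ u x)) x :=
    (Complex.ofRealCLM.hasFDerivAt).comp x hu.hasFDerivAt
  rw [dz_eq, h1.fderiv]
  refine (norm_zL_le _ _).trans ?_
  refine (ContinuousLinearMap.opNorm_comp_le _ _).trans ?_
  rw [Complex.ofRealCLM_norm, one_mul]

theorem nsq_nonneg (w : EC n) : 0 ≤ nsq w := Finset.sum_nonneg fun j _ => by positivity

end Pool.Agent.H92.Lip.M2
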