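import Pool.Agent.H92.Lip.M2Alpha

/-!
The cut-off step of the three weights argument.
-/

set_option autoImplicit false
set_option linter.unusedSectionVars false

open MeasureTheory Set Filter Topology
open scoped ContDiff ENNReal ComplexConjugate

namespace Pool.Agent.H92.Lip.M2

variable {n : ℕ}

theorem cont_extC' {D : Set (EC n)} (hD : IsOpen D) {g χ : EC n → ℂ} (hg : ContinuousOn g D)
    (hχ : Continuous χ) (hs : tsupport χ ⊆ D) : Continuous (fun x => g x * χ x) := by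
  rw [continuous_iff_continuousAt]
  intro x
  by_cases hx : x ∈ D
  · exact (hg.continuousAt (hD.mem_nhds hx)).mul hχ.continuousAt
  · have h1 : x ∉ tsupport χ := fun h => hx (hs h)
    have h2 : (fun x => g x * χ x) =ᶠ[𝓝 x] fun _ => 0 := by
      filter_upwards [notMem_tsupport_iff_eventuallyEq.1 h1] with y hy
      simp [hy]
    exact continuousAt_const.congr h2.symm

theorem int_of_memLp {K : Set (EC n)} (hK : IsCompact K) {U : EC n → ℂ} (hU : MemLp U 2 volume)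
    (h0 : ∀ x, x ∉ K → U x = 0) : Integrable U volume := by
  have h1 : MemLp U 2 (volume.restrict K) := hU.restrict K
  have : IsFiniteMeasure (volume.restrict K : Measure (EC n)) :=
    ⟨by rw [Measure.restrict_apply_univ]; exact hK.measure_lt_top⟩
  have h2 : Integrable U (volume.restrict K) := h1.integrable (by norm_num)
  refine (integrableOn_iff_integrable_of_support_subset ?_).1 h2
  intro x hx
  by_contra h
  exact hx (h0 x h)

theorem intW {K : Set (EC n)} (hK : IsCompact K) {W : EC n → ℝ} (hW : ContinuousOn W K)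
    {U : EC n → ℂ} (hU : MemLp U 2 volume) (h0 : ∀ x, x ∉ K → U x = 0) :
    Integrable (fun x => ‖U x‖ ^ 2 * W x) := by
  obtain ⟨C, hC⟩ := hK.exists_bound_of_continuousOn hW
  have h1 : Integrable (fun x => ‖U x‖ ^ 2) (volume.restrict K) :=
    ((memLp_two_iff_integrable_sq_norm hU.1).1 hU).restrict
  have h2 : Integrable (fun x => W x * ‖U x‖ ^ 2) (volume.restrict K) := by
    refine h1.bdd_mul (hW.aestronglyMeasurable hK.measurableSet) (c := C) ?_
    filter_upwards [ae_restrict_mem hK.measurableSet] with x hx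
    exact hC x hx
  have h3 : Integrable (fun x => W x * ‖U x‖ ^ 2) := by
    refine (integrableOn_iff_integrable_of_support_subset ?_).1 h2
    intro x hx
    by_contra h
    apply hx
    simp [h0 x h]
  simpa only [mul_comm] using h3

theorem memLp_cut {D : Set (EC n)} (hD : IsOpen D) {om : EC n → ℝ} (hom : ContinuousOn om D)
    (hom0 : ∀ x ∈ D, 0 < om x) {u : EC n → ℂ}
    (hu : MemLp (fun x => (Real.sqrt (om x) : ℂ) * u x) 2 (volume.restrict D)) {g : EC n → ℂ}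
    (hg : Continuous g) (hgc : HasCompactSupport g) (hgD : tsupport g ⊆ D) :
    MemLp (fun x => g x * u x) 2 volume := by
  have hz : ∀ x, x ∉ D → g x = 0 := fun x hx =>
    image_eq_zero_of_notMem_tsupport fun h => hx (hgD h)
  have e : (fun x => g x * u x) = D.indicator (fun x => g x * u x) := by
    ext x
    by_cases hx : x ∈ D
    · rw [indicator_of_mem hx]
    · rw [indicator_of_notMem hx, hz x hx, zero_mul]
  rw [e, memLp_indicator_iff_restrict hD.measurableSet]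
  have hs0 : ∀ x ∈ D, ((Real.sqrt (om x) : ℝ) : ℂ) ≠ 0 := fun x hx => by
    exact_mod_cast (Real.sqrt_pos.2 (hom0 x hx)).ne'
  have hscr : ContinuousOn (fun x => Real.sqrt (om x)) D := hom.sqrt
  have hsc : ContinuousOn (fun x => ((Real.sqrt (om x) : ℝ) : ℂ)) D :=
    Complex.continuous_ofReal.comp_continuousOn hscr
  have hrc : ContinuousOn (fun x => ((Real.sqrt (om x) : ℝ) : ℂ)⁻¹) D := hsc.inv₀ hs0
  have hc := cont_extC' hD hrc hg hgD
  obtain ⟨C, hC⟩ := hc.bounded_above_of_compact_support (hgc.mul_left)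
  have h1 : (fun x => (((Real.sqrt (om x) : ℝ) : ℂ)⁻¹ * g x) *
      (((Real.sqrt (om x) : ℝ) : ℂ) * u x)) =ᵐ[volume.restrict D] fun x => g x * u x := by
    filter_upwards [ae_restrict_mem hD.measurableSet] with x hx
    have := hs0 x hx
    field_simp
  refine (memLp_congr_ae h1).1 ?_
  refine MemLp.of_le_mul (c := C) hu (hc.aestronglyMeasurable.mul hu.1) ?_
  refine Eventually.of_forall fun x => ?_
  rw [norm_mul]
  gcongr
  exact hC x

/-- elementary inequality -/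
theorem sq3 {κ : ℝ} (hκ : 0 < κ) (X Y Z : ℂ) :
    ‖X + Y + Z‖ ^ 2 ≤ (1 + κ) ^ 2 * ‖X‖ ^ 2 + (1 + κ) * (1 + 1 / κ) * ‖Y‖ ^ 2 +
      (1 + 1 / κ) * ‖Z‖ ^ 2 := by
  have h2 : ∀ a b : ℝ, (a + b) ^ 2 ≤ (1 + κ) * a ^ 2 + (1 + 1 / κ) * b ^ 2 := by
    intro a b
    have : 0 ≤ (κ * a - b) ^ 2 / κ := by positivity
    have e : (κ * a - b) ^ 2 / κ = κ * a ^ 2 - 2 * a * b + 1 / κ * b ^ 2 := by
      field_simp
      ring
    rw [e] at this
    nlinarith
  have h3 : ‖X + Y + Z‖ ≤ ‖X‖ + ‖Y‖ + ‖Z‖ := norm_add₃_le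
  calc ‖X + Y + Z‖ ^ 2 ≤ (‖X‖ + ‖Y‖ + ‖Z‖) ^ 2 := by gcongr
    _ ≤ (1 + κ) * (‖X‖ + ‖Y‖) ^ 2 + (1 + 1 / κ) * ‖Z‖ ^ 2 := h2 _ _
    _ ≤ (1 + κ) * ((1 + κ) * ‖X‖ ^ 2 + (1 + 1 / κ) * ‖Y‖ ^ 2) + (1 + 1 / κ) * ‖Z‖ ^ 2 := by
        gcongr
        exact h2 _ _
    _ = _ := by ring

/-- Cauchy-Schwarz for finite sums -/
theorem csum (g u : Fin n → ℂ) : ‖∑ j, g j * u j‖ ^ 2 ≤ (∑ j, ‖g j‖ ^ 2) * ∑ j, ‖u j‖ ^ 2 := by
  have h1 : ‖∑ j, g j * u j‖ ≤ ∑ j, ‖g j‖ * ‖u j‖ := by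
    refine (norm_sum_le _ _).trans (le_of_eq ?_)
    simp only [norm_mul]
  calc ‖∑ j, g j * u j‖ ^ 2 ≤ (∑ j, ‖g j‖ * ‖u j‖) ^ 2 := by gcongr
    _ ≤ _ := Finset.sum_mul_sq_le_sq_mul_sq _ _ _

theorem norm_dz_real (j : Fin n) {u : EC n → ℝ} (hu : Differentiable ℝ u) (x : EC n) :
    ‖dz j (fun y => (u y : ℂ)) x‖ ≤ ‖fderiv ℝ u x‖ := by
  have h1 : HasFDerivAt (fun y => (u y : ℂ)) (Complex.ofRealCLM.comp (fderiv ℝ u x)) x :=
    (Complex.ofRealCLM.hasFDerivAt).comp x (hu x).hasFDerivAt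
  rw [dz_eq, h1.fderiv]
  refine (norm_zL_le _ _).trans ?_
  refine (ContinuousLinearMap.opNorm_comp_le _ _).trans ?_
  rw [Complex.ofRealCLM_norm, one_mul]

theorem norm_db_real (j : Fin n) {u : EC n → ℝ} (hu : Differentiable ℝ u) (x : EC n) :
    ‖db j (fun y => (u y : ℂ)) x‖ ≤ ‖fderiv ℝ u x‖ := by
  have h1 : HasFDerivAt (fun y => (u y : ℂ)) (Complex.ofRealCLM.comp (fderiv ℝ u x)) x :=
    (Complex.ofRealCLM.hasFDerivAt).comp x (hu x).hasFDerivAt
  rw [db_eq, h1.fderiv]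
  refine (norm_bL_le _ _).trans ?_
  refine (ContinuousLinearMap.opNorm_comp_le _ _).trans ?_
  rw [Complex.ofRealCLM_norm, one_mul]

/-- derivative of `η exp(λ)` -/
theorem dz_mul_exp (j : Fin n) {η lam : EC n → ℝ} {x : EC n} (hη : DifferentiableAt ℝ η x)
    (hl : DifferentiableAt ℝ lam x) :
    dz j (fun y => ((η y * Real.exp (lam y) : ℝ) : ℂ)) x =
      (dz j (fun y => (η y : ℂ)) x + (η x : ℂ) * dz j (fun y => (lam y : ℂ)) x) *
        (Real.exp (lam x) : ℂ) := by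
  have h1 : HasFDerivAt (fun y => (η y : ℂ)) (Complex.ofRealCLM.comp (fderiv ℝ η x)) x :=
    (Complex.ofRealCLM.hasFDerivAt).comp x hη.hasFDerivAt
  have h2 : HasFDerivAt (fun y => (lam y : ℂ)) (Complex.ofRealCLM.comp (fderiv ℝ lam x)) x :=
    (Complex.ofRealCLM.hasFDerivAt).comp x hl.hasFDerivAt
  have h3 : HasFDerivAt (fun y => η y * Real.exp (lam y))
      (η x • (Real.exp (lam x) • fderiv ℝ lam x) + Real.exp (lam x) • fderiv ℝ η x) x :=
    hη.hasFDerivAt.mul hl.hasFDerivAt.exp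
  have h4 : HasFDerivAt (fun y => ((η y * Real.exp (lam y) : ℝ) : ℂ)) _ x :=
    (Complex.ofRealCLM.hasFDerivAt).comp x h3
  rw [dz_eq, dz_eq, dz_eq, h1.fderiv, h2.fderiv, h4.fderiv]
  simp only [zL, ContinuousLinearMap.comp_apply, Complex.ofRealCLM_apply, add_apply, smul_apply,
    smul_eq_mul, Complex.ofReal_add, Complex.ofReal_mul]
  ring

end Pool.Agent.H92.Lip.M2
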