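import Pool.Agent.H92.Lip.M2Calc

/-!
The basic estimate for compactly supported `L²` forms.
-/

set_option autoImplicit false
set_option linter.unusedSectionVars false

open MeasureTheory Set Filter Topology
open scoped ContDiff ENNReal Manifold

namespace Pool.Agent.H92.Lip.M2

variable {n : ℕ}

/-- convergence in `L²` -/
structure TL (u : ℕ → EC n → ℂ) (v : EC n → ℂ) : Prop where
  mem : ∀ m, MemLp (u m) 2 volume
  lim : MemLp v 2 volume
  tend : Tendsto (fun m => eLpNorm (fun x => u m x - v x) 2 volume) atTop (𝓝 0)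

theorem TL.mol {u : EC n → ℂ} (hu : MemLp u 2 volume) :
    TL (fun m => M2.mol (rh n m) u) u :=
  ⟨fun m => memLp_mol hu m, hu, mol_tendsto hu⟩

theorem TL.sub {u u' : ℕ → EC n → ℂ} {v v' : EC n → ℂ} (h : TL u v) (h' : TL u' v') :
    TL (fun m x => u m x - u' m x) (fun x => v x - v' x) := by
  refine ⟨fun m => (h.mem m).sub (h'.mem m), h.lim.sub h'.lim, ?_⟩
  have h0 := h.tend.add h'.tend
  rw [add_zero] at h0
  refine tendsto_of_tendsto_of_tendsto_of_le_of_le tendsto_const_nhds h0 (fun _ => zero_le) ?_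
  intro m
  have e : (fun x => u m x - u' m x - (v x - v' x)) =
      (fun x => u m x - v x) - (fun x => u' m x - v' x) := by
    ext x
    simp only [Pi.sub_apply]
    ring
  simp only [e]
  exact eLpNorm_sub_le ((h.mem m).sub h.lim).1 ((h'.mem m).sub h'.lim).1 (by norm_num)

theorem TL.zero : TL (fun _ _ => (0 : ℂ)) (fun _ : EC n => 0) := by
  refine ⟨fun _ => MemLp.zero', MemLp.zero', ?_⟩
  simp

theorem TL.add {u u' : ℕ → EC n → ℂ} {v v' : EC n → ℂ} (h : TL u v) (h' : TL u' v') :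
    TL (fun m x => u m x + u' m x) (fun x => v x + v' x) := by
  have := h.sub (TL.zero.sub h')
  simpa using this

theorem TL.sum {ι : Type*} (s : Finset ι) {u : ι → ℕ → EC n → ℂ} {v : ι → EC n → ℂ}
    (h : ∀ i ∈ s, TL (u i) (v i)) :
    TL (fun m x => ∑ i ∈ s, u i m x) (fun x => ∑ i ∈ s, v i x) := by
  classical
  induction s using Finset.induction_on with
  | empty => simpa using TL.zero
  | insert a s ha ih =>
    simp only [Finset.sum_insert ha]
    exact (h a (Finset.mem_insert_self _ _)).add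
      (ih fun i hi => h i (Finset.mem_insert_of_mem hi))

theorem memLp_mul_bdd {u P : EC n → ℂ} (hu : MemLp u 2 volume) (hP : Continuous P) {C : ℝ}
    (hC : ∀ x, ‖P x‖ ≤ C) : MemLp (fun x => u x * P x) 2 volume := by
  have := hu.const_mul (C : ℂ)
  refine this.mono (hu.1.mul hP.aestronglyMeasurable) (Eventually.of_forall fun x => ?_)
  rw [norm_mul, norm_mul, Complex.norm_real, mul_comm]
  have h0 : 0 ≤ C := (norm_nonneg _).trans (hC x)
  rw [Real.norm_of_nonneg h0]
  gcongr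
  exact hC x

theorem TL.mul {u : ℕ → EC n → ℂ} {v P : EC n → ℂ} (h : TL u v) (hP : Continuous P) {C : ℝ}
    (hC : ∀ x, ‖P x‖ ≤ C) : TL (fun m x => u m x * P x) (fun x => v x * P x) := by
  refine ⟨fun m => memLp_mul_bdd (h.mem m) hP hC, memLp_mul_bdd h.lim hP hC, ?_⟩
  have h0 := ENNReal.Tendsto.const_mul (a := ENNReal.ofReal C) h.tend (Or.inr ENNReal.ofReal_ne_top)
  rw [mul_zero] at h0
  refine tendsto_of_tendsto_of_tendsto_of_le_of_le tendsto_const_nhds h0 (fun _ => zero_le) ?_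
  intro m
  refine eLpNorm_le_mul_eLpNorm_of_ae_le_mul (Eventually.of_forall fun x => ?_) 2
  rw [← sub_mul, norm_mul, mul_comm]
  gcongr
  exact hC x

theorem cs_e {a b : EC n → ℂ} (ha : AEStronglyMeasurable a volume)
    (hb : AEStronglyMeasurable b volume) :
    ∫⁻ x, ‖a x‖ₑ * ‖b x‖ₑ ≤ eLpNorm a 2 volume * eLpNorm b 2 volume := by
  have h := eLpNorm_smul_le_mul_eLpNorm (p := 2) (q := 2) (r := 1) hb ha
  rw [eLpNorm_one_eq_lintegral_enorm] at h
  simpa [enorm_mul] using h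

theorem TL.int_sq {u : ℕ → EC n → ℂ} {v : EC n → ℂ} (h : TL u v) {W : EC n → ℝ}
    (hW : Continuous W) {C : ℝ} (hC : ∀ x, |W x| ≤ C) :
    Tendsto (fun m => ∫ x, W x * ‖u m x‖ ^ 2) atTop (𝓝 (∫ x, W x * ‖v x‖ ^ 2)) := by
  have hint : ∀ {w : EC n → ℂ}, MemLp w 2 volume → Integrable (fun x => W x * ‖w x‖ ^ 2) := by
    intro w hw
    have h1 : Integrable (fun x => ‖w x‖ ^ 2) := (memLp_two_iff_integrable_sq_norm hw.1).1 hw
    exact h1.bdd_mul hW.aestronglyMeasurable (Eventually.of_forall hC)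
  refine tendsto_integral_of_L1 _ (hint h.lim).1
    (Eventually.of_forall fun m => hint (h.mem m)) ?_
  have hlim : Tendsto (fun m => ENNReal.ofReal C *
      (eLpNorm (fun x => u m x - v x) 2 volume * eLpNorm (fun x => u m x - v x) 2 volume +
        2 * (eLpNorm v 2 volume * eLpNorm (fun x => u m x - v x) 2 volume))) atTop (𝓝 0) := by
    have h1 : Tendsto (fun m => eLpNorm (fun x => u m x - v x) 2 volume *
        eLpNorm (fun x => u m x - v x) 2 volume) atTop (𝓝 (0 * 0)) :=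
      ENNReal.Tendsto.mul h.tend (Or.inr (by simp)) h.tend (Or.inr (by simp))
    have h2 : Tendsto (fun m => 2 * (eLpNorm v 2 volume *
        eLpNorm (fun x => u m x - v x) 2 volume)) atTop (𝓝 (2 * (eLpNorm v 2 volume * 0))) :=
      ENNReal.Tendsto.const_mul (ENNReal.Tendsto.const_mul h.tend (Or.inr h.lim.2.ne))
        (Or.inr (by simp))
    have h3 := ENNReal.Tendsto.const_mul (a := ENNReal.ofReal C) (h1.add h2)
      (Or.inr ENNReal.ofReal_ne_top)
    simpa using h3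
  refine tendsto_of_tendsto_of_tendsto_of_le_of_le tendsto_const_nhds hlim (fun _ => zero_le) ?_
  intro m
  set a : EC n → ℂ := fun x => u m x - v x with ha
  have hm : AEStronglyMeasurable a volume := ((h.mem m).sub h.lim).1
  have hb : ∀ x, ‖W x * ‖u m x‖ ^ 2 - W x * ‖v x‖ ^ 2‖ₑ ≤
      ENNReal.ofReal C * (‖a x‖ₑ * ‖a x‖ₑ + 2 * (‖v x‖ₑ * ‖a x‖ₑ)) := by
    intro x
    have h0 : 0 ≤ C := (abs_nonneg _).trans (hC x)
    have e1 : ‖W x * ‖u m x‖ ^ 2 - W x * ‖v x‖ ^ 2‖ ≤ C * (‖a x‖ * ‖a x‖ + 2 * (‖v x‖ * ‖a x‖)) := by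
      have e2 : W x * ‖u m x‖ ^ 2 - W x * ‖v x‖ ^ 2 =
          W x * ((‖u m x‖ - ‖v x‖) * (‖u m x‖ + ‖v x‖)) := by ring
      rw [e2, norm_mul, Real.norm_eq_abs]
      refine mul_le_mul (hC x) ?_ (norm_nonneg _) h0
      rw [norm_mul, Real.norm_eq_abs, Real.norm_eq_abs]
      have e3 : |‖u m x‖ - ‖v x‖| ≤ ‖a x‖ := abs_norm_sub_norm_le _ _
      have e4 : |‖u m x‖ + ‖v x‖| ≤ ‖a x‖ + 2 * ‖v x‖ := by
        rw [abs_of_nonneg (by positivity)]
        have : ‖u m x‖ ≤ ‖a x‖ + ‖v x‖ := by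
          have := norm_add_le (a x) (v x)
          simpa [ha] using this
        linarith
      calc |‖u m x‖ - ‖v x‖| * |‖u m x‖ + ‖v x‖| ≤ ‖a x‖ * (‖a x‖ + 2 * ‖v x‖) :=
            mul_le_mul e3 e4 (abs_nonneg _) (norm_nonneg _)
        _ = _ := by ring
    have e5 := ENNReal.ofReal_le_ofReal e1
    rw [ofReal_norm, ENNReal.ofReal_mul h0, ENNReal.ofReal_add (by positivity)
      (by positivity), ENNReal.ofReal_mul (norm_nonneg _), ENNReal.ofReal_mul (by norm_num),
      ENNReal.ofReal_mul (norm_nonneg _), ofReal_norm, ofReal_norm,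
      ENNReal.ofReal_ofNat] at e5
    exact e5
  refine (lintegral_mono hb).trans ?_
  rw [lintegral_const_mul' _ _ ENNReal.ofReal_ne_top,
    lintegral_add_left' (f := fun x => ‖a x‖ₑ * ‖a x‖ₑ) (hm.enorm.mul hm.enorm),
    lintegral_const_mul' _ _ (by simp)]
  change _ ≤ ENNReal.ofReal C * (eLpNorm a 2 volume * eLpNorm a 2 volume +
    2 * (eLpNorm v 2 volume * eLpNorm a 2 volume))
  gcongr
  · exact cs_e hm hm
  · exact cs_e h.lim.1 hm

end Pool.Agent.H92.Lip.M2
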