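import Pool.Agent.H92.Lip.M2Step

/-!
The limit of the cut-off step.
-/

set_option autoImplicit false
set_option linter.unusedSectionVars false

open MeasureTheory Set Filter Topology
open scoped ContDiff ENNReal ComplexConjugate

namespace Pool.Agent.H92.Lip.M2

variable {n : ℕ}

theorem lim_step (hB : BasicEst n) {D : Set (EC n)} (hD : IsOpen D) {φ ψ : EC n → ℝ}
    (hφ : ContDiffOn ℝ ∞ φ D) (hψ : ContDiffOn ℝ ∞ ψ D) (hψ0 : ∀ x ∈ D, 0 ≤ ψ x) {t κ : ℝ}
    (hκ : 0 < κ)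
    (hLev : ∀ z ∈ D, ∀ w, 4 * ((t * Real.exp (ψ z) +
      (1 + 1 / κ) * ∑ j, ‖dz j (fun y => (ψ y : ℂ)) z‖ ^ 2) * nsq w) ≤ Lev φ z w)
    {η : ℕ → EC n → ℝ} (hη : ∀ m, ContDiff ℝ ∞ (η m)) (hηc : ∀ m, HasCompactSupport (η m))
    (hηD : ∀ m, tsupport (η m) ⊆ D) (hη1 : ∀ m x, |η m x| ≤ 1)
    (hηl : ∀ x ∈ D, Tendsto (fun m => η m x) atTop (𝓝 1))
    (hηd : ∀ x ∈ D, Tendsto (fun m => ‖fderiv ℝ (η m) x‖) atTop (𝓝 0)) {C : ℝ}
    (hηb : ∀ m, ∀ x ∈ D, ‖fderiv ℝ (η m) x‖ ^ 2 ≤ C * Real.exp (ψ x))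
    {α : Fin n → EC n → ℂ}
    (hα : ∀ j, MemLp (fun x => (Real.sqrt (Real.exp (ψ x - φ x)) : ℂ) * α j x) 2
      (volume.restrict D))
    (hαc : WClosed D α) {b : EC n → ℂ} (hb : Tst D b)
    (hαb : ∀ v, Tst D v → ∑ j, ∫ x in D, α j x * (Real.exp (ψ x - φ x) : ℂ) * dz j v x =
      - ∫ x in D, conj (b x) * v x) :
    t * ∑ j, ∫ x in D, ‖(Real.sqrt (Real.exp (ψ x - φ x)) : ℂ) * α j x‖ ^ 2 ≤
      (1 + κ) ^ 2 * (∫ x in D, ‖b x‖ ^ 2 * Real.exp (φ x)) := by
  set G : EC n → ℝ := fun x => Real.exp (ψ x - φ x) * ∑ j, ‖α j x‖ ^ 2 with hG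
  have hGe : ∀ x, G x = ∑ j, ‖(Real.sqrt (Real.exp (ψ x - φ x)) : ℂ) * α j x‖ ^ 2 := by
    intro x
    simp only [hG, Finset.mul_sum]
    refine Finset.sum_congr rfl fun j _ => ?_
    rw [norm_mul, Complex.norm_real, mul_pow, Real.norm_eq_abs, sq_abs,
      Real.sq_sqrt (Real.exp_pos _).le]
  have hi : ∀ j, Integrable (fun x => ‖(Real.sqrt (Real.exp (ψ x - φ x)) : ℂ) * α j x‖ ^ 2)
      (volume.restrict D) := fun j => (memLp_two_iff_integrable_sq_norm (hα j).1).1 (hα j)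
  have hGi : Integrable G (volume.restrict D) := by
    refine (integrable_finsetSum Finset.univ fun j _ => hi j).congr
      (Eventually.of_forall fun x => ?_)
    rw [hGe x]
  have hG0 : ∀ x, 0 ≤ G x := fun x => by
    rw [hGe]
    exact Finset.sum_nonneg fun j _ => by positivity
  have hGs : ∑ j, ∫ x in D, ‖(Real.sqrt (Real.exp (ψ x - φ x)) : ℂ) * α j x‖ ^ 2 =
      ∫ x in D, G x := by
    rw [← integral_finsetSum _ fun j _ => hi j]
    congr 1
    ext x
    rw [hGe x]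
  rw [hGs]
  set c₁ : ℝ := (1 + κ) * (1 + 1 / κ) * n + 2 * n ^ 2 with hc₁
  set H : EC n → ℝ := fun x => (∑ j, ‖α j x‖ ^ 2) * Real.exp (-φ x) with hH
  have hHG : ∀ x, G x = Real.exp (ψ x) * H x := by
    intro x
    simp only [hG, hH]
    rw [sub_eq_add_neg, Real.exp_add]
    ring
  have hH0 : ∀ x, 0 ≤ H x := fun x => by
    simp only [hH]
    exact mul_nonneg (Finset.sum_nonneg fun j _ => by positivity) (Real.exp_pos _).le
  have key : ∀ m, ∫ x in D, t * (η m x ^ 2 * G x) ≤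
      (1 + κ) ^ 2 * (∫ x in D, ‖b x‖ ^ 2 * Real.exp (φ x)) +
      c₁ * ∫ x in D, ‖fderiv ℝ (η m) x‖ ^ 2 * H x := fun m =>
    cut_step hB hD hφ hψ hψ0 hκ hLev (hη m) (hηc m) (hηD m) (hη1 m) hα hαc hb hαb
  have hmD : ∀ᵐ x ∂(volume.restrict D), x ∈ D := ae_restrict_mem hD.measurableSet
  -- left side
  have t1 : Tendsto (fun m => ∫ x in D, t * (η m x ^ 2 * G x)) atTop
      (𝓝 (∫ x in D, t * (1 ^ 2 * G x))) := by
    refine tendsto_integral_of_dominated_convergence (fun x => |t| * G x) ?_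
      (hGi.const_mul _) ?_ ?_
    · intro m
      exact ((((hη m).continuous.pow 2).aestronglyMeasurable).mul hGi.1).const_mul t
    · intro m
      refine Eventually.of_forall fun x => ?_
      rw [norm_mul, norm_mul, Real.norm_eq_abs, Real.norm_eq_abs, Real.norm_eq_abs,
        abs_of_nonneg (hG0 x), abs_of_nonneg (sq_nonneg (η m x))]
      have h1 : η m x ^ 2 ≤ 1 := by
        rw [← sq_abs]
        exact pow_le_one₀ (abs_nonneg _) (hη1 m x)
      have h2 : η m x ^ 2 * G x ≤ G x := mul_le_of_le_one_left (hG0 x) h1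
      exact mul_le_mul_of_nonneg_left h2 (abs_nonneg t)
    · filter_upwards [hmD] with x hx
      exact (((hηl x hx).pow 2).mul_const _).const_mul _
  -- remainder
  have hφc : ContinuousOn (fun x => Real.exp (-ψ x)) D :=
    Real.continuous_exp.comp_continuousOn hψ.continuousOn.neg
  have hHm : AEStronglyMeasurable H (volume.restrict D) := by
    have h1 : AEStronglyMeasurable (fun x => Real.exp (-ψ x) * G x) (volume.restrict D) :=
      (hφc.aestronglyMeasurable hD.measurableSet).mul hGi.1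
    refine h1.congr (Eventually.of_forall fun x => ?_)
    simp only
    rw [hHG, ← mul_assoc, ← Real.exp_add]
    simp
  have t2 : Tendsto (fun m => ∫ x in D, ‖fderiv ℝ (η m) x‖ ^ 2 * H x) atTop
      (𝓝 (∫ x in D, (0 : ℝ) ^ 2 * H x)) := by
    refine tendsto_integral_of_dominated_convergence (fun x => C * G x) ?_
      (hGi.const_mul _) ?_ ?_
    · intro m
      exact ((((hη m).continuous_fderiv (by simp)).norm.pow 2).aestronglyMeasurable).mul hHm
    · intro m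
      filter_upwards [hmD] with x hx
      rw [norm_mul, Real.norm_eq_abs, Real.norm_eq_abs, abs_of_nonneg (hH0 x),
        abs_of_nonneg (sq_nonneg _), hHG x]
      calc ‖fderiv ℝ (η m) x‖ ^ 2 * H x ≤ (C * Real.exp (ψ x)) * H x :=
            mul_le_mul_of_nonneg_right (hηb m x hx) (hH0 x)
        _ = _ := by ring
    · filter_upwards [hmD] with x hx
      exact ((hηd x hx).pow 2).mul_const _
  have t3 : Tendsto (fun m => (1 + κ) ^ 2 * (∫ x in D, ‖b x‖ ^ 2 * Real.exp (φ x)) +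
      c₁ * ∫ x in D, ‖fderiv ℝ (η m) x‖ ^ 2 * H x) atTop
      (𝓝 ((1 + κ) ^ 2 * (∫ x in D, ‖b x‖ ^ 2 * Real.exp (φ x)) +
        c₁ * ∫ x in D, (0 : ℝ) ^ 2 * H x)) := tendsto_const_nhds.add (t2.const_mul _)
  have h := le_of_tendsto_of_tendsto' t1 t3 key
  simpa [integral_const_mul] using h

end Pool.Agent.H92.Lip.M2
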