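import Pool.Agent.H92.Lip.M2Core

/-!
The core inequality on a smooth strictly pseudoconvex sublevel set.
-/

set_option autoImplicit false
set_option linter.unusedSectionVars false

open MeasureTheory Set Filter Topology
open scoped ContDiff ENNReal ComplexConjugate

namespace Pool.Agent.H92.Lip.M2

variable {n : ℕ}

theorem core_kappa (hB : BasicEst n) {D : Set (EC n)} (hD : IsOpen D)
    (hcl : IsCompact (closure D)) {p : EC n → ℝ} (hp : ContDiff ℝ ∞ p)
    (hpL : ∀ z ∈ closure D, ∀ w, 4 * nsq w ≤ Lev p z w) (hneg : ∀ z ∈ D, p z < 0)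
    (hfr : ∀ z ∈ frontier D, p z = 0) {G : EC n → ℝ} (hG : ContDiff ℝ ∞ G) {t : ℝ} (ht : 0 < t)
    (hGL : ∀ z ∈ D, ∀ w, 4 * (t * nsq w) ≤ Lev G z w) {f a : Fin n → EC n → ℂ}
    (hf : ∀ j, MemLp (f j) 2 (volume.restrict D)) (hfc : WClosed D f) (ha : ∀ j, Tst D (a j))
    {κ : ℝ} (hκ : 0 < κ) :
    ‖∑ j, ∫ x in D, f j x * a j x‖ ^ 2 ≤
      (1 + κ) ^ 3 * ((1 / t) * (∫ x in D, (∑ j, ‖f j x‖ ^ 2) * Real.exp (-G x)) *
        ∫ x in D, ‖∑ j, db j (a j) x‖ ^ 2 * Real.exp (G x)) := by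
  -- the function `b`
  set b : EC n → ℂ := fun x => ∑ j, db j (a j) x with hb
  have hbT : Tst D b := tst_sum _ fun j _ => tst_db (ha j) j
  -- constants
  have hpne : ∀ z ∈ D, p z ≠ 0 := fun z hz => (hneg z hz).ne
  have hpiC : ContinuousOn (fun x => p x ^ (-2 : ℤ)) D :=
    hp.continuous.continuousOn.zpow₀ _ fun x hx => Or.inl (hpne x hx)
  obtain ⟨C1, hC1⟩ := IsCompact.exists_bound_of_continuousOn hbT.cpt (hpiC.mono hbT.sub)
  obtain ⟨P0, hP0⟩ := hcl.exists_bound_of_continuousOn (hp.continuous.continuousOn)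
  obtain ⟨P1, hP1⟩ := hcl.exists_bound_of_continuousOn
    ((hp.continuous_fderiv (by simp)).continuousOn (s := closure D))
  set C1' : ℝ := |C1| + 1 with hC1'
  set P0' : ℝ := |P0| with hP0'
  set N : ℝ := (1 + 1 / κ) * (n * P1 ^ 2) with hN
  have hN0 : 0 ≤ N := by positivity
  have hlog : 0 < Real.log (1 + κ) := Real.log_pos (by linarith)
  set A : ℝ := Real.log (1 + κ) / C1' with hA
  have hA0 : 0 < A := by positivity
  set e : ℝ := min A 1 / (t * P0' + 4 * N + 1) with he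
  have hden : 1 ≤ t * P0' + 4 * N + 1 := by
    have : 0 ≤ t * P0' := by positivity
    linarith
  have hmin0 : 0 < min A 1 := lt_min hA0 one_pos
  have he0 : 0 < e := by positivity
  have hemin : e ≤ min A 1 := div_le_self hmin0.le hden
  have he1 : e ≤ 1 := hemin.trans (min_le_right _ _)
  have heA : e ≤ A := hemin.trans (min_le_left _ _)
  have he2A : e ^ 2 ≤ A := by nlinarith
  have heq : e * (t * P0' + 4 * N) ≤ 2 * A := by
    have h1 : e * (t * P0' + 4 * N + 1) = min A 1 := by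
      rw [he]
      field_simp
    have h2 : min A 1 ≤ A := min_le_left _ _
    nlinarith
  -- the weights
  set φ : EC n → ℝ := fun x => G x + A * p x ^ (-2 : ℤ) with hφ
  set E : EC n → ℝ := fun x => 1 + e ^ 2 * p x ^ (-2 : ℤ) with hE
  set ψ : EC n → ℝ := fun x => Real.log (E x) with hψ
  have hpi : ContDiffOn ℝ ∞ (fun x => p x ^ (-2 : ℤ)) D := by
    have h1 : ContDiffOn ℝ ∞ (fun x => (p x ^ 2)⁻¹) D :=
      (hp.pow 2).contDiffOn.inv fun x hx => pow_ne_zero _ (hpne x hx)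
    refine h1.congr fun x _ => ?_
    rw [zpow_neg]
    norm_cast
  have hpi0 : ∀ x, 0 ≤ p x ^ (-2 : ℤ) := fun x => by
    rw [zpow_neg]
    have : p x ^ (2 : ℤ) = p x ^ 2 := by norm_cast
    rw [this]
    positivity
  have hE1 : ∀ x, 1 ≤ E x := fun x => by
    have := hpi0 x
    have h2 : 0 ≤ e ^ 2 * p x ^ (-2 : ℤ) := by positivity
    simp only [hE]
    linarith
  have hE0 : ∀ x, 0 < E x := fun x => lt_of_lt_of_le one_pos (hE1 x)
  have hES : ContDiffOn ℝ ∞ E D := contDiffOn_const.add (contDiffOn_const.mul hpi)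
  have hφS : ContDiffOn ℝ ∞ φ D := hG.contDiffOn.add (contDiffOn_const.mul hpi)
  have hψS : ContDiffOn ℝ ∞ ψ D := hES.log fun x _ => (hE0 x).ne'
  have hψ0 : ∀ x ∈ D, 0 ≤ ψ x := fun x _ => Real.log_nonneg (hE1 x)
  have hexpψ : ∀ x, Real.exp (ψ x) = E x := fun x => Real.exp_log (hE0 x)
  -- in terms of `u = 1 / (-p)`
  have hpu : ∀ x ∈ D, p x ^ (-2 : ℤ) = (-p x)⁻¹ ^ 2 := by
    intro x _
    rw [zpow_neg, inv_pow, neg_sq]
    norm_cast
  -- derivative of `ψ`
  have hψd : ∀ z ∈ D, ‖fderiv ℝ ψ z‖ ≤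
      2 * e ^ 2 * (-p z)⁻¹ ^ 3 / (1 + e ^ 2 * (-p z)⁻¹ ^ 2) * P1 := by
    intro z hz
    have hne := hpne z hz
    have hpd : HasFDerivAt p (fderiv ℝ p z) z := (hp.differentiable (by simp) z).hasFDerivAt
    have h1 : HasDerivAt (fun s : ℝ => s ^ (-2 : ℤ)) ((-2 : ℝ) * (p z) ^ (-3 : ℤ)) (p z) :=
      (hasDerivAt_zpow (-2) (p z) (Or.inl hne)).congr_deriv (by norm_num)
    have h2 : HasDerivAt (fun s : ℝ => 1 + e ^ 2 * s ^ (-2 : ℤ))
        (e ^ 2 * ((-2 : ℝ) * (p z) ^ (-3 : ℤ))) (p z) := (h1.const_mul _).const_add 1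
    have h3 := h2.log (hE0 z).ne'
    have h4 := h3.comp_hasFDerivAt z hpd
    have h5 : fderiv ℝ ψ z = (e ^ 2 * ((-2 : ℝ) * (p z) ^ (-3 : ℤ)) /
        (1 + e ^ 2 * p z ^ (-2 : ℤ))) • fderiv ℝ p z := h4.fderiv
    rw [h5, norm_smul]
    have h6 : ‖e ^ 2 * ((-2 : ℝ) * (p z) ^ (-3 : ℤ)) / (1 + e ^ 2 * p z ^ (-2 : ℤ))‖ =
        2 * e ^ 2 * (-p z)⁻¹ ^ 3 / (1 + e ^ 2 * (-p z)⁻¹ ^ 2) := by
      have h7 : e ^ 2 * ((-2 : ℝ) * (p z) ^ (-3 : ℤ)) / (1 + e ^ 2 * p z ^ (-2 : ℤ)) =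
          2 * e ^ 2 * (-p z)⁻¹ ^ 3 / (1 + e ^ 2 * (-p z)⁻¹ ^ 2) := by
        rw [hpu z hz]
        congr 1
        rw [zpow_neg]
        have : (p z) ^ (3 : ℤ) = (p z) ^ 3 := by norm_cast
        rw [this]
        field_simp
      rw [h7]
      have h8 : 0 < -p z := by linarith [hneg z hz]
      exact Real.norm_of_nonneg (by positivity)
    rw [h6]
    have h9 : 0 < -p z := by linarith [hneg z hz]
    gcongr
    exact hP1 z (subset_closure hz)
  -- the Levi form
  have hLev : ∀ z ∈ D, ∀ w, 4 * ((t * Real.exp (ψ z) +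
      (1 + 1 / κ) * ∑ j, ‖dz j (fun y => (ψ y : ℂ)) z‖ ^ 2) * nsq w) ≤ Lev φ z w := by
    intro z hz w
    have hu0 : 0 < (-p z)⁻¹ := by
      have : 0 < -p z := by linarith [hneg z hz]
      positivity
    set u : ℝ := (-p z)⁻¹ with hu
    have hGz : ContDiffAt ℝ ∞ G z := hG.contDiffAt
    have hpiz : ContDiffAt ℝ ∞ (fun x => p x ^ (-2 : ℤ)) z := hpi.contDiffAt (hD.mem_nhds hz)
    have h1 : Lev φ z w = Lev G z w + A * Lev (fun x => p x ^ (-2 : ℤ)) z w := by
      rw [hφ, Lev_add hGz (contDiffAt_const.mul hpiz), Lev_const_mul A hpiz]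
    have h2 := Lev_inv_sq hp (hneg z hz) (hpL z (subset_closure hz) w)
    have h3 := hGL z hz w
    have hψdz : DifferentiableAt ℝ ψ z :=
      (hψS.contDiffAt (hD.mem_nhds hz)).differentiableAt (by simp)
    have h4 : ∑ j, ‖dz j (fun y => (ψ y : ℂ)) z‖ ^ 2 ≤
        n * P1 ^ 2 * (2 * e ^ 2 * u ^ 3 / (1 + e ^ 2 * u ^ 2)) ^ 2 := by
      have h5 : ∀ j : Fin n, ‖dz j (fun y => (ψ y : ℂ)) z‖ ^ 2 ≤
          (2 * e ^ 2 * u ^ 3 / (1 + e ^ 2 * u ^ 2) * P1) ^ 2 := by
        intro j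
        have h6 := (norm_dz_at j hψdz).trans (hψd z hz)
        gcongr
      refine (Finset.sum_le_sum fun j _ => h5 j).trans (le_of_eq ?_)
      simp
      ring
    have hP0z : 1 ≤ u * P0' := by
      have h7 : -p z ≤ P0' := by
        have h8 := hP0 z (subset_closure hz)
        rw [Real.norm_eq_abs] at h8
        exact (neg_le_abs _).trans (h8.trans (le_abs_self _))
      have h9 : 0 < -p z := by linarith [hneg z hz]
      calc 1 = u * (-p z) := by rw [hu, inv_mul_cancel₀ h9.ne']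
        _ ≤ u * P0' := by gcongr
    have h10 := weight_ineq he0 he1 hu0 ht hP0z hN0 heq
    have h11 : t * Real.exp (ψ z) + (1 + 1 / κ) * ∑ j, ‖dz j (fun y => (ψ y : ℂ)) z‖ ^ 2 ≤
        t + 2 * A * u ^ 3 := by
      refine le_trans ?_ h10
      rw [hexpψ, hE]
      simp only
      rw [hpu z hz]
      have h12 : (1 + 1 / κ) * ∑ j, ‖dz j (fun y => (ψ y : ℂ)) z‖ ^ 2 ≤
          N * (2 * e ^ 2 * u ^ 3 / (1 + e ^ 2 * u ^ 2)) ^ 2 := by
        rw [hN, mul_assoc]
        gcongr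
      linarith
    have hn0 := nsq_nonneg w
    calc 4 * ((t * Real.exp (ψ z) +
        (1 + 1 / κ) * ∑ j, ‖dz j (fun y => (ψ y : ℂ)) z‖ ^ 2) * nsq w) ≤
        4 * ((t + 2 * A * u ^ 3) * nsq w) := by gcongr
      _ = 4 * (t * nsq w) + A * (8 * u ^ 3 * nsq w) := by ring
      _ ≤ Lev G z w + A * Lev (fun x => p x ^ (-2 : ℤ)) z w := by gcongr
      _ = _ := h1.symm
  -- the weight `om`
  set om : EC n → ℝ := fun x => Real.exp (ψ x - φ x) with hom
  have homc : ContinuousOn om D :=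
    Real.continuous_exp.comp_continuousOn (hψS.continuousOn.sub hφS.continuousOn)
  have hom0 : ∀ x ∈ D, 0 < om x := fun x _ => Real.exp_pos _
  have homG : ∀ x, om x ≤ Real.exp (-G x) := by
    intro x
    refine Real.exp_le_exp.2 ?_
    have h1 : ψ x ≤ A * p x ^ (-2 : ℤ) := by
      have h2 : ψ x ≤ E x - 1 := Real.log_le_sub_one_of_pos (hE0 x)
      have h3 : e ^ 2 * p x ^ (-2 : ℤ) ≤ A * p x ^ (-2 : ℤ) :=
        mul_le_mul_of_nonneg_right he2A (hpi0 x)
      have h4 : E x - 1 = e ^ 2 * p x ^ (-2 : ℤ) := by simp [hE]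
      linarith
    simp only [hφ]
    linarith
  -- square integrability of `√om f`
  obtain ⟨CG, hCG⟩ := hcl.exists_bound_of_continuousOn
    ((Real.continuous_exp.comp hG.continuous.neg).continuousOn (s := closure D))
  have hsom : ∀ x ∈ D, ‖((Real.sqrt (om x) : ℝ) : ℂ)‖ ≤ Real.sqrt CG := by
    intro x hx
    rw [Complex.norm_real, Real.norm_of_nonneg (Real.sqrt_nonneg _)]
    refine Real.sqrt_le_sqrt ((homG x).trans ?_)
    have := hCG x (subset_closure hx)
    exact (le_abs_self _).trans this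
  have hfm : ∀ j, MemLp (fun x => ((Real.sqrt (om x) : ℝ) : ℂ) * f j x) 2 (volume.restrict D) := by
    intro j
    refine MemLp.of_le_mul (c := Real.sqrt CG) (hf j) ?_ ?_
    · have h1 : ContinuousOn (fun x => ((Real.sqrt (om x) : ℝ) : ℂ)) D :=
        Complex.continuous_ofReal.comp_continuousOn homc.sqrt
      exact (h1.aestronglyMeasurable hD.measurableSet).mul (hf j).1
    · filter_upwards [ae_restrict_mem hD.measurableSet] with x hx
      rw [norm_mul]
      exact mul_le_mul_of_nonneg_right (hsom x hx) (norm_nonneg _)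
  obtain ⟨α, hα1, hα2, hα3, hα4⟩ := exists_alpha hD homc hom0 hfm hfc ha
  -- the equation for `α`
  have hαb : ∀ v, Tst D v → ∑ j, ∫ x in D, α j x * (Real.exp (ψ x - φ x) : ℂ) * dz j v x =
      - ∫ x in D, conj (b x) * v x := by
    intro v hv
    have h1 := hα3 v hv
    refine h1.trans ?_
    have h2 : ∀ j, ∫ x in D, conj (a j x) * dz j v x = - ∫ x, conj (db j (a j) x) * v x := by
      intro j
      rw [integral_of_tst (fun x hx => by rw [dz_zero hx, mul_zero]) hv]
      have h3 := ibp_dz (tst_conj (ha j)).smooth (tst_conj (ha j)).cpt hv.smooth j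
      rw [h3]
      congr 2
      ext x
      rw [conj_db j ((ha j).smooth.differentiable (by simp) x)]
    rw [Finset.sum_congr rfl fun j _ => h2 j]
    rw [integral_of_tst (f := fun x => conj (b x) * v x)
      (fun x hx => by rw [image_eq_zero_of_notMem_tsupport hx, mul_zero]) hv,
      Finset.sum_neg_distrib, ← integral_finsetSum]
    · congr 2
      ext x
      simp only [hb, map_sum, Finset.sum_mul]
    · intro j _
      have h4 : Continuous (fun x => conj (db j (a j) x)) :=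
        Complex.continuous_conj.comp (tst_db (ha j) j).smooth.continuous
      exact (h4.mul hv.smooth.continuous).integrable_of_hasCompactSupport hv.cpt.mul_left
  -- cut-off functions
  obtain ⟨C, hC0, hC⟩ := exists_deriv_bound
  have hP1D : ∀ z ∈ D, ‖fderiv ℝ p z‖ ≤ P1 := fun z hz => hP1 z (subset_closure hz)
  have main := lim_step hB hD hφS hψS hψ0 hκ hLev (η := cutm D p)
    (cutm_smooth hD hcl hp hneg hfr) (cutm_cpt hD hcl hp hneg hfr)
    (cutm_tsupport hD hcl hp hneg hfr) (cutm_abs hD hcl hp hneg hfr)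
    (by
      intro x hx
      refine tendsto_const_nhds.congr' ?_
      have hpx : 0 < -p x := by linarith [hneg x hx]
      obtain ⟨m0, hm0⟩ := exists_nat_ge (2 / (-p x))
      filter_upwards [eventually_ge_atTop m0] with m hm
      refine (cutm_one hD hcl hp hneg hfr hx ?_).symm
      have h1 : (m0 : ℝ) ≤ m := by exact_mod_cast hm
      calc 2 = 2 / (-p x) * (-p x) := (div_mul_cancel₀ 2 hpx.ne').symm
        _ ≤ (m : ℝ) * (-p x) := by gcongr; linarith)
    (by
      intro x hx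
      refine tendsto_const_nhds.congr' ?_
      have hpx : 0 < -p x := by linarith [hneg x hx]
      obtain ⟨m0, hm0⟩ := exists_nat_gt (2 / (-p x))
      filter_upwards [eventually_ge_atTop m0] with m hm
      have h1 : (m0 : ℝ) ≤ m := by exact_mod_cast hm
      have h2 : 2 < (m : ℝ) * (-p x) := by
        calc 2 = 2 / (-p x) * (-p x) := (div_mul_cancel₀ 2 hpx.ne').symm
          _ < (m : ℝ) * (-p x) := by
            refine mul_lt_mul_of_pos_right ?_ hpx
            linarith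
      rw [cutm_fderiv_zero hD hcl hp hneg hfr hx h2, norm_zero])
    (C := (2 * C * P1) ^ 2 / e ^ 2)
    (by
      intro m x hx
      have h1 := cutm_fderiv hD hcl hp hneg hfr hC0 hC hP1D m hx
      have hpx : 0 < -p x := by linarith [hneg x hx]
      have h2 : (‖fderiv ℝ (cutm D p m) x‖ * (-p x)) ^ 2 ≤ (2 * C * P1) ^ 2 := by
        gcongr
      rw [hexpψ]
      have h3 : e ^ 2 * (-p x)⁻¹ ^ 2 ≤ E x := by
        simp only [hE]
        rw [hpu x hx]
        linarith
      calc ‖fderiv ℝ (cutm D p m) x‖ ^ 2 =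
          (‖fderiv ℝ (cutm D p m) x‖ * (-p x)) ^ 2 / e ^ 2 * (e ^ 2 * (-p x)⁻¹ ^ 2) := by
            have := hpne x hx
            field_simp
        _ ≤ (2 * C * P1) ^ 2 / e ^ 2 * E x := by gcongr)
    hα1 hα2 hbT hαb
  -- comparison of the integrals
  have hbm : MemLp b 2 volume := hbT.smooth.continuous.memLp_of_hasCompactSupport hbT.cpt
  have hb0 : ∀ x, x ∉ tsupport b → b x = 0 := fun x hx => image_eq_zero_of_notMem_tsupport hx
  have hexpG : Continuous (fun x => Real.exp (G x)) := Real.continuous_exp.comp hG.continuous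
  have hexpφ : ContinuousOn (fun x => Real.exp (φ x)) D :=
    Real.continuous_exp.comp_continuousOn hφS.continuousOn
  have ib1 : IntegrableOn (fun x => ‖b x‖ ^ 2 * Real.exp (φ x)) D :=
    (intW hbT.cpt (hexpφ.mono hbT.sub) hbm hb0).integrableOn
  have ib2 : IntegrableOn (fun x => ‖b x‖ ^ 2 * Real.exp (G x)) D :=
    (intW hbT.cpt hexpG.continuousOn hbm hb0).integrableOn
  have cmp1 : ∫ x in D, ‖b x‖ ^ 2 * Real.exp (φ x) ≤
      (1 + κ) * ∫ x in D, ‖b x‖ ^ 2 * Real.exp (G x) := by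
    rw [← integral_const_mul]
    refine setIntegral_mono_on ib1 (ib2.const_mul _) hD.measurableSet fun x hx => ?_
    by_cases hxb : x ∈ tsupport b
    · have h1 : Real.exp (φ x) ≤ (1 + κ) * Real.exp (G x) := by
        have h2 : A * p x ^ (-2 : ℤ) ≤ Real.log (1 + κ) := by
          have h3 : p x ^ (-2 : ℤ) ≤ C1' := by
            have h4 := hC1 x hxb
            rw [Real.norm_eq_abs, abs_of_nonneg (hpi0 x)] at h4
            have h5 := le_abs_self C1
            rw [hC1']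
            linarith
          calc A * p x ^ (-2 : ℤ) ≤ A * C1' := by gcongr
            _ = Real.log (1 + κ) := by
              rw [hA]
              have : C1' ≠ 0 := by positivity
              field_simp
        calc Real.exp (φ x) = Real.exp (G x) * Real.exp (A * p x ^ (-2 : ℤ)) := by
              rw [← Real.exp_add]
          _ ≤ Real.exp (G x) * Real.exp (Real.log (1 + κ)) := by
              gcongr
          _ = _ := by rw [Real.exp_log (by linarith)]; ring
      calc ‖b x‖ ^ 2 * Real.exp (φ x) ≤ ‖b x‖ ^ 2 * ((1 + κ) * Real.exp (G x)) := by gcongr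
        _ = _ := by ring
    · rw [hb0 x hxb]
      simp
  have ifj : ∀ j, Integrable (fun x => ‖f j x‖ ^ 2) (volume.restrict D) := fun j =>
    (memLp_two_iff_integrable_sq_norm (hf j).1).1 (hf j)
  have cmp2 : ∑ j, ∫ x in D, ‖((Real.sqrt (om x) : ℝ) : ℂ) * f j x‖ ^ 2 ≤
      ∫ x in D, (∑ j, ‖f j x‖ ^ 2) * Real.exp (-G x) := by
    have i1 : ∀ j, Integrable (fun x => ‖((Real.sqrt (om x) : ℝ) : ℂ) * f j x‖ ^ 2)
        (volume.restrict D) := fun j => (memLp_two_iff_integrable_sq_norm (hfm j).1).1 (hfm j)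
    rw [← integral_finsetSum _ fun j _ => i1 j]
    have i2 : Integrable (fun x => (∑ j, ‖f j x‖ ^ 2) * Real.exp (-G x)) (volume.restrict D) := by
      have h1 : Integrable (fun x => ∑ j, ‖f j x‖ ^ 2) (volume.restrict D) :=
        integrable_finsetSum _ fun j _ => ifj j
      have h2 : Integrable (fun x => Real.exp (-G x) * ∑ j, ‖f j x‖ ^ 2) (volume.restrict D) := by
        refine h1.bdd_mul ?_ (c := CG) ?_
        · exact (Real.continuous_exp.comp hG.continuous.neg).aestronglyMeasurable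
        · filter_upwards [ae_restrict_mem hD.measurableSet] with x hx
          exact hCG x (subset_closure hx)
      simpa only [mul_comm] using h2
    refine integral_mono (integrable_finsetSum _ fun j _ => i1 j) i2 fun x => ?_
    simp only [Finset.sum_mul]
    refine Finset.sum_le_sum fun j _ => ?_
    rw [norm_mul, Complex.norm_real, mul_pow, Real.norm_eq_abs, sq_abs,
      Real.sq_sqrt (Real.exp_pos _).le, mul_comm]
    exact mul_le_mul_of_nonneg_left (homG x) (by positivity)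
  -- conclusion
  set I1 := ∫ x in D, (∑ j, ‖f j x‖ ^ 2) * Real.exp (-G x) with hI1
  set I2 := ∫ x in D, ‖b x‖ ^ 2 * Real.exp (G x) with hI2
  set Sα := ∑ j, ∫ x in D, ‖((Real.sqrt (om x) : ℝ) : ℂ) * α j x‖ ^ 2 with hSα
  have hSα0 : 0 ≤ Sα := Finset.sum_nonneg fun j _ => integral_nonneg fun x => by positivity
  have hI10 : 0 ≤ I1 := integral_nonneg fun x =>
    mul_nonneg (Finset.sum_nonneg fun j _ => by positivity) (Real.exp_pos _).le
  have h1 : Sα ≤ (1 / t) * ((1 + κ) ^ 2 * ((1 + κ) * I2)) := by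
    have h2 : t * Sα ≤ (1 + κ) ^ 2 * ((1 + κ) * I2) := main.trans (by gcongr)
    rw [one_div, ← div_eq_inv_mul, le_div_iff₀ ht]
    linarith
  calc ‖∑ j, ∫ x in D, f j x * a j x‖ ^ 2 ≤
      (∑ j, ∫ x in D, ‖((Real.sqrt (om x) : ℝ) : ℂ) * f j x‖ ^ 2) * Sα := hα4
    _ ≤ I1 * ((1 / t) * ((1 + κ) ^ 2 * ((1 + κ) * I2))) := by gcongr
    _ = _ := by ring

theorem core (hB : BasicEst n) {D : Set (EC n)} (hD : IsOpen D)
    (hcl : IsCompact (closure D)) {p : EC n → ℝ} (hp : ContDiff ℝ ∞ p)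
    (hpL : ∀ z ∈ closure D, ∀ w, 4 * nsq w ≤ Lev p z w) (hneg : ∀ z ∈ D, p z < 0)
    (hfr : ∀ z ∈ frontier D, p z = 0) {G : EC n → ℝ} (hG : ContDiff ℝ ∞ G) {t : ℝ} (ht : 0 < t)
    (hGL : ∀ z ∈ D, ∀ w, 4 * (t * nsq w) ≤ Lev G z w) {f a : Fin n → EC n → ℂ}
    (hf : ∀ j, MemLp (f j) 2 (volume.restrict D)) (hfc : WClosed D f) (ha : ∀ j, Tst D (a j)) :
    ‖∑ j, ∫ x in D, f j x * a j x‖ ^ 2 ≤
      (1 / t) * (∫ x in D, (∑ j, ‖f j x‖ ^ 2) * Real.exp (-G x)) *
        ∫ x in D, ‖∑ j, db j (a j) x‖ ^ 2 * Real.exp (G x) := by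
  set I := (1 / t) * (∫ x in D, (∑ j, ‖f j x‖ ^ 2) * Real.exp (-G x)) *
        ∫ x in D, ‖∑ j, db j (a j) x‖ ^ 2 * Real.exp (G x) with hI
  have h1 : Tendsto (fun κ : ℝ => (1 + κ) ^ 3 * I) (𝓝[>] 0) (𝓝 ((1 + 0) ^ 3 * I)) := by
    refine Tendsto.mono_left ?_ nhdsWithin_le_nhds
    exact (((continuous_const.add continuous_id).pow 3).mul continuous_const).tendsto 0
  rw [add_zero, one_pow, one_mul] at h1
  refine ge_of_tendsto h1 ?_
  filter_upwards [self_mem_nhdsWithin] with κ hκ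
  exact core_kappa hB hD hcl hp hpL hneg hfr hG ht hGL hf hfc ha hκ

end Pool.Agent.H92.Lip.M2
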