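import Pool.Agent.H92.Lip.M2Basic

/-!
The orthogonal projection onto weakly closed forms in a weighted `L²` space.
-/

set_option autoImplicit false
set_option linter.unusedSectionVars false

open MeasureTheory Set Filter Topology
open scoped ContDiff ENNReal ComplexConjugate

namespace Pool.Agent.H92.Lip.M2

variable {n : ℕ}

theorem proj_abs {H : Type*} [NormedAddCommGroup H] [InnerProductSpace ℂ H] [CompleteSpace H]
    (S : Set H) (A : H) : ∃ y : H, (∀ s ∈ S, inner ℂ s y = 0) ∧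
      ∀ v, (∀ s ∈ S, inner ℂ s v = 0) → inner ℂ v y = inner ℂ v A := by
  set K : Submodule ℂ H := (Submodule.span ℂ S)ᗮ with hK
  have hmem : ∀ v, (∀ s ∈ S, inner ℂ s v = 0) → v ∈ K := by
    intro v hv
    rw [hK, Submodule.mem_orthogonal]
    intro u hu
    induction hu using Submodule.span_induction with
    | mem x hx => exact hv x hx
    | zero => simp
    | add x y _ _ hx hy => rw [inner_add_left, hx, hy, add_zero]
    | smul c x _ hx => rw [inner_smul_left, hx, mul_zero]
  have hmem' : ∀ v ∈ K, ∀ s ∈ S, inner ℂ s v = 0 := by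
    intro v hv s hs
    rw [hK, Submodule.mem_orthogonal] at hv
    exact hv s (Submodule.subset_span hs)
  obtain ⟨y, hy, z, hz, hyz⟩ := K.exists_add_mem_mem_orthogonal A
  refine ⟨y, hmem' y hy, fun v hv => ?_⟩
  have h1 : inner ℂ v z = 0 := (Submodule.mem_orthogonal K z).1 hz v (hmem v hv)
  rw [hyz, inner_add_right, h1, add_zero]

/-- the Hilbert space of square integrable vector functions -/
abbrev HH (μ : Measure (EC n)) := PiLp 2 (fun _ : Fin n => Lp ℂ 2 μ)

/-- the vector of `HH` given by square integrable components -/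
noncomputable def vec {μ : Measure (EC n)} (g : Fin n → EC n → ℂ) (hg : ∀ j, MemLp (g j) 2 μ) :
    HH μ := WithLp.toLp 2 (fun j => (hg j).toLp (g j))

theorem inner_vec {μ : Measure (EC n)} (g h : Fin n → EC n → ℂ) (hg : ∀ j, MemLp (g j) 2 μ)
    (hh : ∀ j, MemLp (h j) 2 μ) :
    inner ℂ (vec g hg) (vec h hh) = ∑ j, ∫ x, h j x * conj (g j x) ∂μ := by
  rw [PiLp.inner_apply]
  refine Finset.sum_congr rfl fun j _ => ?_
  rw [L2.inner_def]
  refine integral_congr_ae ?_
  filter_upwards [(hg j).coeFn_toLp, (hh j).coeFn_toLp] with x h1 h2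
  simp only [vec]
  rw [h1, h2]
  rfl

theorem exists_vec {μ : Measure (EC n)} (y : HH μ) :
    ∃ (g : Fin n → EC n → ℂ) (hg : ∀ j, MemLp (g j) 2 μ), y = vec g hg := by
  refine ⟨fun j => y j, fun j => Lp.memLp (y j), ?_⟩
  unfold vec
  ext j
  simp

theorem norm_sq_vec {μ : Measure (EC n)} (g : Fin n → EC n → ℂ) (hg : ∀ j, MemLp (g j) 2 μ) :
    ‖vec g hg‖ ^ 2 = ∑ j, ∫ x, ‖g j x‖ ^ 2 ∂μ := by
  have h1 := inner_self_eq_norm_sq_to_K (𝕜 := ℂ) (vec g hg)
  rw [inner_vec] at h1
  have h2 : ∀ j, ∫ x, g j x * conj (g j x) ∂μ = ((∫ x, ‖g j x‖ ^ 2 ∂μ : ℝ) : ℂ) := by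
    intro j
    rw [← integral_complex_ofReal]
    congr 1
    ext x
    rw [Complex.mul_conj, Complex.normSq_eq_norm_sq]
  simp only [h2] at h1
  have h3 : (((∑ j, ∫ x, ‖g j x‖ ^ 2 ∂μ : ℝ)) : ℂ) = ((‖vec g hg‖ ^ 2 : ℝ) : ℂ) := by
    push_cast
    exact h1
  exact (Complex.ofReal_injective h3).symm

theorem int_fderiv_mul {f g : EC n → ℂ} (hf : ContDiff ℝ ∞ f) (hfc : HasCompactSupport f)
    (hg : ContDiff ℝ ∞ g) (v : EC n) :
    ∫ x, f x * fderiv ℝ g x v = - ∫ x, fderiv ℝ f x v * g x := by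
  refine integral_mul_fderiv_eq_neg_fderiv_mul_of_integrable ?_ ?_ ?_
    (fun x _ => hf.differentiable (by simp) x) (fun x _ => hg.differentiable (by simp) x)
  · have h1 : Continuous fun x => fderiv ℝ f x v :=
      (hf.continuous_fderiv (by simp)).clm_apply continuous_const
    have h2 : HasCompactSupport (fun x => fderiv ℝ f x v) :=
      (hfc.fderiv (𝕜 := ℝ)).comp_left (g := fun T : EC n →L[ℝ] ℂ => T v) (by simp)
    exact (h1.mul hg.continuous).integrable_of_hasCompactSupport h2.mul_right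
  · have h1 : Continuous fun x => fderiv ℝ g x v :=
      (hg.continuous_fderiv (by simp)).clm_apply continuous_const
    exact (hf.continuous.mul h1).integrable_of_hasCompactSupport hfc.mul_right
  · exact (hf.continuous.mul hg.continuous).integrable_of_hasCompactSupport hfc.mul_right

theorem int_mul_fderiv {f g : EC n → ℂ} (hf : ContDiff ℝ ∞ f) (hfc : HasCompactSupport f)
    (hg : ContDiff ℝ ∞ g) (v : EC n) : Integrable (fun x => f x * fderiv ℝ g x v) := by
  have h1 : Continuous fun x => fderiv ℝ g x v :=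
    (hg.continuous_fderiv (by simp)).clm_apply continuous_const
  exact (hf.continuous.mul h1).integrable_of_hasCompactSupport hfc.mul_right

theorem int_fderiv_mul' {f g : EC n → ℂ} (hf : ContDiff ℝ ∞ f) (hfc : HasCompactSupport f)
    (hg : ContDiff ℝ ∞ g) (v : EC n) : Integrable (fun x => fderiv ℝ f x v * g x) := by
  have h1 : Continuous fun x => fderiv ℝ f x v :=
    (hf.continuous_fderiv (by simp)).clm_apply continuous_const
  have h2 : HasCompactSupport (fun x => fderiv ℝ f x v) :=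
    (hfc.fderiv (𝕜 := ℝ)).comp_left (g := fun T : EC n →L[ℝ] ℂ => T v) (by simp)
  exact (h1.mul hg.continuous).integrable_of_hasCompactSupport h2.mul_right

theorem ibp_db {f g : EC n → ℂ} (hf : ContDiff ℝ ∞ f) (hfc : HasCompactSupport f)
    (hg : ContDiff ℝ ∞ g) (j : Fin n) : ∫ x, f x * db j g x = - ∫ x, db j f x * g x := by
  have e1 : ∀ x, f x * db j g x = (f x * fderiv ℝ g x (Pi.single j (1 : ℂ)) +
      Complex.I * (f x * fderiv ℝ g x (Pi.single j Complex.I))) / 2 := by
    intro x; unfold db; ring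
  have e2 : ∀ x, db j f x * g x = (fderiv ℝ f x (Pi.single j (1 : ℂ)) * g x +
      Complex.I * (fderiv ℝ f x (Pi.single j Complex.I) * g x)) / 2 := by
    intro x; unfold db; ring
  simp only [e1, e2]
  rw [integral_div, integral_div, integral_add (int_mul_fderiv hf hfc hg _)
    ((int_mul_fderiv hf hfc hg _).const_mul _), integral_add (int_fderiv_mul' hf hfc hg _)
    ((int_fderiv_mul' hf hfc hg _).const_mul _), integral_const_mul, integral_const_mul,
    int_fderiv_mul hf hfc hg, int_fderiv_mul hf hfc hg]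
  ring

theorem ibp_dz {f g : EC n → ℂ} (hf : ContDiff ℝ ∞ f) (hfc : HasCompactSupport f)
    (hg : ContDiff ℝ ∞ g) (j : Fin n) : ∫ x, f x * dz j g x = - ∫ x, dz j f x * g x := by
  have e1 : ∀ x, f x * dz j g x = (f x * fderiv ℝ g x (Pi.single j (1 : ℂ)) -
      Complex.I * (f x * fderiv ℝ g x (Pi.single j Complex.I))) / 2 := by
    intro x; unfold dz; ring
  have e2 : ∀ x, dz j f x * g x = (fderiv ℝ f x (Pi.single j (1 : ℂ)) * g x -
      Complex.I * (fderiv ℝ f x (Pi.single j Complex.I) * g x)) / 2 := by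
    intro x; unfold dz; ring
  simp only [e1, e2]
  rw [integral_div, integral_div, integral_sub (int_mul_fderiv hf hfc hg _)
    ((int_mul_fderiv hf hfc hg _).const_mul _), integral_sub (int_fderiv_mul' hf hfc hg _)
    ((int_fderiv_mul' hf hfc hg _).const_mul _), integral_const_mul, integral_const_mul,
    int_fderiv_mul hf hfc hg, int_fderiv_mul hf hfc hg]
  ring

theorem fderiv_db {ψ : EC n → ℂ} (hψ : ContDiff ℝ ∞ ψ) (k : Fin n) (x v : EC n) :
    fderiv ℝ (db k ψ) x v = (fderiv ℝ (fderiv ℝ ψ) x v (Pi.single k (1 : ℂ)) +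
      Complex.I * fderiv ℝ (fderiv ℝ ψ) x v (Pi.single k Complex.I)) / 2 := by
  have hd : DifferentiableAt ℝ (fderiv ℝ ψ) x :=
    (hψ.fderiv_right (m := ∞) (by simp)).differentiable (by simp) x
  have h1 : ∀ w : EC n, HasFDerivAt (fun y => fderiv ℝ ψ y w)
      ((ContinuousLinearMap.apply ℝ ℂ w).comp (fderiv ℝ (fderiv ℝ ψ) x)) x := fun w =>
    ((ContinuousLinearMap.apply ℝ ℂ w).hasFDerivAt.comp x hd.hasFDerivAt)
  have h2 : HasFDerivAt (db k ψ) _ x :=
    (((h1 (Pi.single k (1 : ℂ))).add ((h1 (Pi.single k Complex.I)).const_mul Complex.I)).mul_const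
      ((2 : ℂ)⁻¹)).congr_of_eventuallyEq (Eventually.of_forall fun y => by
        simp only [db, div_eq_mul_inv, Pi.add_apply])
  rw [h2.fderiv]
  simp only [smul_apply, add_apply, ContinuousLinearMap.comp_apply,
    ContinuousLinearMap.apply_apply, smul_eq_mul]
  ring

theorem db_comm {ψ : EC n → ℂ} (hψ : ContDiff ℝ ∞ ψ) (j k : Fin n) (x : EC n) :
    db j (db k ψ) x = db k (db j ψ) x := by
  have hsym : IsSymmSndFDerivAt ℝ ψ x :=
    (hψ.contDiffAt (x := x)).isSymmSndFDerivAt (by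
      rw [minSmoothness_of_isRCLikeNormedField]
      exact WithTop.coe_le_coe.2 le_top)
  have h : ∀ v w, fderiv ℝ (fderiv ℝ ψ) x v w = fderiv ℝ (fderiv ℝ ψ) x w v := fun v w =>
    hsym.eq v w
  rw [db, db, fderiv_db hψ, fderiv_db hψ, fderiv_db hψ, fderiv_db hψ,
    h (Pi.single k (1 : ℂ)) (Pi.single j (1 : ℂ)),
    h (Pi.single k (1 : ℂ)) (Pi.single j Complex.I),
    h (Pi.single k Complex.I) (Pi.single j (1 : ℂ)),
    h (Pi.single k Complex.I) (Pi.single j Complex.I)]
  ring

theorem ibp_cross {v ψ : EC n → ℂ} (hv : ContDiff ℝ ∞ v) (hvc : HasCompactSupport v)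
    (hψ : ContDiff ℝ ∞ ψ) (j k : Fin n) :
    ∫ x, db j v x * db k ψ x = ∫ x, db k v x * db j ψ x := by
  have h1 := ibp_db hv hvc (contDiff_db k hψ) j
  have h2 := ibp_db hv hvc (contDiff_db j hψ) k
  have h3 : ∫ x, v x * db j (db k ψ) x = ∫ x, v x * db k (db j ψ) x := by
    congr 1
    ext x
    rw [db_comm hψ]
  rw [h1, h2] at h3
  exact neg_injective h3

theorem conj_dz (j : Fin n) {f : EC n → ℂ} {x : EC n} (hf : DifferentiableAt ℝ f x) :
    conj (dz j f x) = db j (fun y => conj (f y)) x := by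
  have h1 : HasFDerivAt (fun y => conj (f y))
      ((Complex.conjCLE : ℂ →L[ℝ] ℂ).comp (fderiv ℝ f x)) x :=
    (Complex.conjCLE.hasFDerivAt).comp x hf.hasFDerivAt
  unfold dz db
  rw [h1.fderiv]
  have h2 : conj (2 : ℂ) = 2 := map_ofNat _ 2
  simp [h2]

theorem conj_db (j : Fin n) {f : EC n → ℂ} {x : EC n} (hf : DifferentiableAt ℝ f x) :
    conj (db j f x) = dz j (fun y => conj (f y)) x := by
  have h1 : HasFDerivAt (fun y => conj (f y))
      ((Complex.conjCLE : ℂ →L[ℝ] ℂ).comp (fderiv ℝ f x)) x :=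
    (Complex.conjCLE.hasFDerivAt).comp x hf.hasFDerivAt
  unfold dz db
  rw [h1.fderiv]
  have h2 : conj (2 : ℂ) = 2 := map_ofNat _ 2
  simp [sub_eq_add_neg, h2]

theorem tst_conj {Ω : Set (EC n)} {f : EC n → ℂ} (hf : Tst Ω f) : Tst Ω (fun y => conj (f y)) := by
  have hs : tsupport (fun y => conj (f y)) ⊆ tsupport f := by
    refine closure_mono ?_
    intro x hx h
    apply hx
    simp only
    have : f x = 0 := h
    rw [this, map_zero]
  exact ⟨Complex.conjCLE.contDiff.comp hf.smooth,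
    IsCompact.of_isClosed_subset hf.cpt (isClosed_tsupport _) hs, hs.trans hf.sub⟩

end Pool.Agent.H92.Lip.M2
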