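import Pool.Agent.H92.Lip.M2Cut

/-!
The cut-off step of the three weights argument.
-/

set_option autoImplicit false
set_option linter.unusedSectionVars false

open MeasureTheory Set Filter Topology
open scoped ContDiff ENNReal ComplexConjugate

namespace Pool.Agent.H92.Lip.M2

variable {n : ℕ}

theorem continuousOn_fd {D : Set (EC n)} (hD : IsOpen D) {g : EC n → ℝ} (hg : ContDiffOn ℝ ∞ g D) :
    ContinuousOn (fun x => fderiv ℝ g x) D := hg.continuousOn_fderiv_of_isOpen hD (by simp)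

theorem fderiv_real_C {D : Set (EC n)} (hD : IsOpen D) {g : EC n → ℝ} (hg : ContDiffOn ℝ ∞ g D)
    {x : EC n} (hx : x ∈ D) :
    fderiv ℝ (fun y => (g y : ℂ)) x = Complex.ofRealCLM.comp (fderiv ℝ g x) := by
  have h0 : DifferentiableAt ℝ g x :=
    (hg.contDiffAt (hD.mem_nhds hx)).differentiableAt (by simp)
  exact ((Complex.ofRealCLM.hasFDerivAt).comp x h0.hasFDerivAt).fderiv

theorem continuousOn_dz {D : Set (EC n)} (hD : IsOpen D) {g : EC n → ℝ} (hg : ContDiffOn ℝ ∞ g D)
    (j : Fin n) : ContinuousOn (dz j (fun y => (g y : ℂ))) D := by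
  have h1 := continuousOn_fd hD hg
  have h2 : ContinuousOn (fun x => fderiv ℝ (fun y => (g y : ℂ)) x) D := by
    have h3 : ContinuousOn (fun x => Complex.ofRealCLM.comp (fderiv ℝ g x)) D :=
      continuousOn_const.clm_comp h1
    exact h3.congr fun x hx => fderiv_real_C hD hg hx
  unfold dz
  exact ((h2.clm_apply continuousOn_const).sub
    (continuousOn_const.mul (h2.clm_apply continuousOn_const))).div_const _

theorem cut_step (hB : BasicEst n) {D : Set (EC n)} (hD : IsOpen D) {φ ψ : EC n → ℝ}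
    (hφ : ContDiffOn ℝ ∞ φ D) (hψ : ContDiffOn ℝ ∞ ψ D) (hψ0 : ∀ x ∈ D, 0 ≤ ψ x) {t κ : ℝ}
    (hκ : 0 < κ)
    (hLev : ∀ z ∈ D, ∀ w, 4 * ((t * Real.exp (ψ z) +
      (1 + 1 / κ) * ∑ j, ‖dz j (fun y => (ψ y : ℂ)) z‖ ^ 2) * nsq w) ≤ Lev φ z w)
    {η : EC n → ℝ} (hη : ContDiff ℝ ∞ η) (hηc : HasCompactSupport η) (hηD : tsupport η ⊆ D)
    (hη1 : ∀ x, |η x| ≤ 1) {α : Fin n → EC n → ℂ}
    (hα : ∀ j, MemLp (fun x => (Real.sqrt (Real.exp (ψ x - φ x)) : ℂ) * α j x) 2
      (volume.restrict D))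
    (hαc : WClosed D α) {b : EC n → ℂ} (hb : Tst D b)
    (hαb : ∀ v, Tst D v → ∑ j, ∫ x in D, α j x * (Real.exp (ψ x - φ x) : ℂ) * dz j v x =
      - ∫ x in D, conj (b x) * v x) :
    ∫ x in D, t * (η x ^ 2 * (Real.exp (ψ x - φ x) * ∑ j, ‖α j x‖ ^ 2)) ≤
      (1 + κ) ^ 2 * (∫ x in D, ‖b x‖ ^ 2 * Real.exp (φ x)) +
      ((1 + κ) * (1 + 1 / κ) * n + 2 * n ^ 2) *
        ∫ x in D, ‖fderiv ℝ η x‖ ^ 2 * ((∑ j, ‖α j x‖ ^ 2) * Real.exp (-φ x)) := by
  set om : EC n → ℝ := fun x => Real.exp (ψ x - φ x) with hom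
  have homc : ContinuousOn om D :=
    Real.continuous_exp.comp_continuousOn (hψ.continuousOn.sub hφ.continuousOn)
  have hom0 : ∀ x ∈ D, 0 < om x := fun x _ => Real.exp_pos _
  set ηC : EC n → ℂ := fun x => (η x : ℂ) with hηC
  have hηCs : ContDiff ℝ ∞ ηC := ofReal_contDiff hη
  have hηCc : HasCompactSupport ηC := hηc.comp_left (g := fun r : ℝ => (r : ℂ)) (by simp)
  have hηCt : tsupport ηC ⊆ tsupport η := by
    refine closure_mono ?_
    intro x hx h
    apply hx
    simp only [hηC]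
    rw [h]
    simp
  have hηT : Tst D ηC := ⟨hηCs, hηCc, hηCt.trans hηD⟩
  set K := tsupport η with hKdef
  have hK : IsCompact K := hηc
  have hη0 : ∀ x, x ∉ K → η x = 0 := fun x hx => image_eq_zero_of_notMem_tsupport hx
  have hηC0 : ∀ x, x ∉ K → ηC x = 0 := fun x hx => by simp [hηC, hη0 x hx]
  have hdzη0 : ∀ j x, x ∉ K → dz j ηC x = 0 := fun j x hx => dz_zero fun h => hx (hηCt h)
  have hdbη0 : ∀ j x, x ∉ K → db j ηC x = 0 := fun j x hx => db_zero fun h => hx (hηCt h)
  -- coefficient functions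
  set Q : Fin n → EC n → ℂ := fun j x => dz j ηC x +
    (dz j (fun y => (φ y : ℂ)) x - dz j (fun y => (ψ y : ℂ)) x) * ηC x with hQ
  have hQ0 : ∀ j x, x ∉ K → Q j x = 0 := fun j x hx => by
    simp [hQ, hdzη0 j x hx, hηC0 x hx]
  have hQc : ∀ j, Continuous (Q j) := by
    intro j
    refine (continuous_dz j hηCs).add ?_
    exact cont_extC hD ((continuousOn_dz hD hφ j).sub (continuousOn_dz hD hψ j)) hηT
  set q : EC n → ℂ := fun x => (Real.exp (φ x - ψ x) : ℂ) * ηC x with hq
  have hexpS : ContDiffOn ℝ ∞ (fun x => (Real.exp (φ x - ψ x) : ℂ)) D :=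
    Complex.ofRealCLM.contDiff.comp_contDiffOn (Real.contDiff_exp.comp_contDiffOn (hφ.sub hψ))
  have hqT : Tst D q := tst_mul hD hexpS hηT
  have hq0 : ∀ x, x ∉ K → q x = 0 := fun x hx => by simp [hq, hηC0 x hx]
  -- supports of cut functions
  have tsup : ∀ {g : EC n → ℂ}, (∀ x, x ∉ K → g x = 0) → tsupport g ⊆ K := by
    intro g hg
    refine closure_minimal ?_ (isClosed_tsupport η)
    intro x hx
    by_contra h
    exact hx (hg x h)
  have hcomp : ∀ {g : EC n → ℂ}, (∀ x, x ∉ K → g x = 0) → HasCompactSupport g := fun hg =>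
    hK.of_isClosed_subset (isClosed_tsupport _) (tsup hg)
  have mcut : ∀ {g : EC n → ℂ} (j : Fin n), Continuous g → (∀ x, x ∉ K → g x = 0) →
      MemLp (fun x => g x * α j x) 2 volume := fun j hg hg0 =>
    memLp_cut hD homc hom0 (hα j) hg (hcomp hg0) ((tsup hg0).trans hηD)
  have icut : ∀ {g : EC n → ℂ} (j : Fin n), Continuous g → (∀ x, x ∉ K → g x = 0) →
      Integrable (fun x => g x * α j x) volume := fun j hg hg0 =>
    int_of_memLp hK (mcut j hg hg0) fun x hx => by rw [hg0 x hx, zero_mul]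
  have toD : ∀ {F : Type} [NormedAddCommGroup F] [NormedSpace ℝ F] {g : EC n → F},
      (∀ x, x ∉ K → g x = 0) → ∫ x in D, g x = ∫ x, g x := fun hg =>
    setIntegral_eq_integral_of_forall_compl_eq_zero fun x hx => hg x fun h => hx (hηD h)
  have congrD : ∀ {F : Type} [NormedAddCommGroup F] [NormedSpace ℝ F] {u v : EC n → F},
      (∀ x ∈ D, u x = v x) → ∫ x in D, u x = ∫ x in D, v x := fun h =>
    setIntegral_congr_fun hD.measurableSet h
  -- the form
  set γ : Fin n → EC n → ℂ := fun j x => ηC x * α j x with hγ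
  have hγm : ∀ j, MemLp (γ j) 2 volume := fun j => mcut j hηCs.continuous hηC0
  set d : EC n → ℂ := fun x => q x * conj (b x) + ∑ j, Q j x * α j x with hd
  have hconjb : Continuous (fun x => conj (b x)) := Complex.continuous_conj.comp hb.smooth.continuous
  have hdm : MemLp d 2 volume := by
    refine MemLp.add ?_ (memLp_finsetSum _ fun j _ => mcut j (hQc j) (hQ0 j))
    refine (hqT.smooth.continuous.mul hconjb).memLp_of_hasCompactSupport ?_
    exact hqT.cpt.mul_right
  have hd0 : ∀ x, x ∉ K → d x = 0 := fun x hx => by simp [hd, hq0 x hx, hQ0 _ x hx]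
  set c : Fin n → Fin n → EC n → ℂ := fun j k x => db j ηC x * α k x - db k ηC x * α j x with hc
  have hcm : ∀ j k, MemLp (c j k) 2 volume := fun j k =>
    (mcut k (continuous_db j hηCs) (hdbη0 j)).sub (mcut j (continuous_db k hηCs) (hdbη0 k))
  have hc0 : ∀ j k x, x ∉ K → c j k x = 0 := fun j k x hx => by
    simp [hc, hdbη0 _ x hx]
  -- first equation
  have eq1 : ∀ χ, Tst univ χ → ∑ j, ∫ x, γ j x * dz j χ x = - ∫ x, d x * χ x := by
    intro χ hχ
    have hv : Tst D (fun x => q x * χ x) := by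
      refine ⟨hqT.smooth.mul hχ.smooth, hqT.cpt.mul_right, tsupport_mul_subset_left.trans hqT.sub⟩
    have h1 := hαb _ hv
    have e1 : ∀ j, ∫ x in D, α j x * (Real.exp (ψ x - φ x) : ℂ) * dz j (fun x => q x * χ x) x =
        (∫ x, γ j x * dz j χ x) + ∫ x, (Q j x * χ x) * α j x := by
      intro j
      rw [← integral_add]
      · rw [← toD (g := fun x => γ j x * dz j χ x + (Q j x * χ x) * α j x)]
        · refine congrD fun x hx => ?_
          rw [dz_mul j (hqT.smooth.differentiable (by simp) x) (hχ.smooth.differentiable (by simp) x)]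
          have hηx : DifferentiableAt ℝ η x := hη.differentiable (by simp) x
          have hφx : DifferentiableAt ℝ φ x :=
            (hφ.contDiffAt (hD.mem_nhds hx)).differentiableAt (by simp)
          have hψx : DifferentiableAt ℝ ψ x :=
            (hψ.contDiffAt (hD.mem_nhds hx)).differentiableAt (by simp)
          have e2 : dz j q x = Q j x * (Real.exp (φ x - ψ x) : ℂ) := by
            have e3 : q = fun y => ((η y * Real.exp ((fun z => φ z - ψ z) y) : ℝ) : ℂ) := by
              ext y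
              simp only [hq, hηC]
              push_cast
              ring
            rw [e3, dz_mul_exp (lam := fun z => φ z - ψ z) j hηx (hφx.sub hψx)]
            have e4 : dz j (fun y => (((fun z => φ z - ψ z) y : ℝ) : ℂ)) x =
                dz j (fun y => (φ y : ℂ)) x - dz j (fun y => (ψ y : ℂ)) x := by
              have e5 : (fun y => (((fun z => φ z - ψ z) y : ℝ) : ℂ)) =
                  fun y => (φ y : ℂ) - (ψ y : ℂ) := by
                ext y
                push_cast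
                rfl
              have hφx' : DifferentiableAt ℝ (fun y => (φ y : ℂ)) x :=
                (Complex.ofRealCLM.differentiableAt).comp x hφx
              have hψx' : DifferentiableAt ℝ (fun y => (ψ y : ℂ)) x :=
                (Complex.ofRealCLM.differentiableAt).comp x hψx
              rw [e5, dz_eq, dz_eq, dz_eq, fderiv_fun_sub hφx' hψx']
              simp only [zL, sub_apply]
              ring
            rw [e4]
            simp only [hQ, hηC]
            ring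
          have e6 : ((Real.exp (ψ x - φ x) : ℝ) : ℂ) * (Real.exp (φ x - ψ x) : ℂ) = 1 := by
            rw [← Complex.ofReal_mul, ← Real.exp_add]
            simp
          rw [e2]
          simp only [hq, hγ]
          calc α j x * (Real.exp (ψ x - φ x) : ℂ) *
              ((Real.exp (φ x - ψ x) : ℂ) * ηC x * dz j χ x +
                Q j x * (Real.exp (φ x - ψ x) : ℂ) * χ x) =
              (((Real.exp (ψ x - φ x) : ℝ) : ℂ) * (Real.exp (φ x - ψ x) : ℂ)) *
                (ηC x * α j x * dz j χ x + Q j x * χ x * α j x) := by ring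
            _ = _ := by rw [e6, one_mul]
        · intro x hx
          simp [hγ, hηC0 x hx, hQ0 j x hx]
      · have := icut j (hηCs.continuous.mul (continuous_dz j hχ.smooth))
          (fun x hx => by simp [hηC0 x hx])
        refine this.congr (Eventually.of_forall fun x => ?_)
        simp only [hγ, Pi.mul_apply]
        ring
      · exact icut j ((hQc j).mul hχ.smooth.continuous)
          (fun x hx => by simp [hQ0 j x hx])
    simp only [e1] at h1
    rw [Finset.sum_add_distrib] at h1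
    have e7 : ∫ x, d x * χ x = (∫ x in D, conj (b x) * (q x * χ x)) +
        ∑ j, ∫ x, (Q j x * χ x) * α j x := by
      rw [toD (g := fun x => conj (b x) * (q x * χ x)) (fun x hx => by simp [hq0 x hx])]
      have hi : ∀ j, Integrable (fun x => (Q j x * χ x) * α j x) := fun j =>
        icut j ((hQc j).mul hχ.smooth.continuous)
          (fun x hx => by simp [hQ0 j x hx])
      rw [← integral_finsetSum _ fun j _ => hi j, ← integral_add]
      · congr 1
        ext x
        simp only [hd]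
        rw [add_mul, Finset.sum_mul]
        congr 1
        · ring
        · refine Finset.sum_congr rfl fun j _ => ?_
          ring
      · refine (hconjb.mul (hqT.smooth.continuous.mul
          hχ.smooth.continuous)).integrable_of_hasCompactSupport ?_
        exact (hqT.cpt.mul_right).mul_left
      · exact integrable_finsetSum _ fun j _ => hi j
    rw [e7]
    linear_combination h1
  -- second equation
  have eq2 : ∀ j k χ, Tst univ χ →
      (∫ x, γ k x * db j χ x) - (∫ x, γ j x * db k χ x) = - ∫ x, c j k x * χ x := by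
    intro j k χ hχ
    have hv : Tst D (fun x => ηC x * χ x) := by
      refine ⟨hηCs.mul hχ.smooth, hηCc.mul_right, tsupport_mul_subset_left.trans hηT.sub⟩
    have h1 := hαc j k _ hv
    have e1 : ∀ j k, ∫ x in D, α j x * db k (fun x => ηC x * χ x) x =
        (∫ x, γ j x * db k χ x) + ∫ x, (db k ηC x * χ x) * α j x := by
      intro j k
      rw [← integral_add]
      · rw [← toD (g := fun x => γ j x * db k χ x + (db k ηC x * χ x) * α j x)]
        · refine congrD fun x hx => ?_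
          rw [db_mul k (hηCs.differentiable (by simp) x) (hχ.smooth.differentiable (by simp) x)]
          simp only [hγ]
          ring
        · intro x hx
          simp [hγ, hηC0 x hx, hdbη0 k x hx]
      · have := icut j (hηCs.continuous.mul (continuous_db k hχ.smooth))
          (fun x hx => by simp [hηC0 x hx])
        refine this.congr (Eventually.of_forall fun x => ?_)
        simp only [hγ, Pi.mul_apply]
        ring
      · exact icut j ((continuous_db k hηCs).mul hχ.smooth.continuous)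
          (fun x hx => by simp [hdbη0 k x hx])
    rw [e1, e1] at h1
    have e7 : ∫ x, c j k x * χ x = (∫ x, (db j ηC x * χ x) * α k x) -
        ∫ x, (db k ηC x * χ x) * α j x := by
      rw [← integral_sub]
      · congr 1
        ext x
        simp only [hc]
        ring
      · exact icut k ((continuous_db j hηCs).mul hχ.smooth.continuous)
          (fun x hx => by simp [hdbη0 j x hx])
      · exact icut j ((continuous_db k hηCs).mul hχ.smooth.continuous)
          (fun x hx => by simp [hdbη0 k x hx])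
    rw [e7]
    linear_combination -h1
  -- the basic estimate
  set M : EC n → ℝ := fun x => (1 + 1 / κ) * ∑ j, ‖dz j (fun y => (ψ y : ℂ)) x‖ ^ 2 with hM
  have hMc : ContinuousOn M D := by
    refine continuousOn_const.mul (continuousOn_finsetSum _ fun j _ => ?_)
    exact (continuousOn_dz hD hψ j).norm.pow 2
  have hEc : ContinuousOn (fun x => Real.exp (ψ x)) D :=
    Real.continuous_exp.comp_continuousOn hψ.continuousOn
  have hφe : ContinuousOn (fun x => Real.exp (-φ x)) D :=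
    Real.continuous_exp.comp_continuousOn hφ.continuousOn.neg
  have main := basicL2 hB hD (L := fun x => t * Real.exp (ψ x) + M x) hφ
    ((continuousOn_const.mul hEc).add hMc) hLev hK hηD hγm
    (fun j x hx => by simp [hγ, hηC0 x hx]) hdm hd0 hcm hc0 eq1 eq2
  -- rewriting the first term on the right
  set X : EC n → ℂ := fun x => q x * conj (b x) with hX
  set Y : EC n → ℂ := fun x => ∑ j, dz j ηC x * α j x with hY
  set Z : EC n → ℂ := fun x => - ∑ j, dz j (fun y => (ψ y : ℂ)) x * (ηC x * α j x) with hZ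
  have hXYZ : ∀ x, d x - ∑ j, γ j x * dz j (fun y => (φ y : ℂ)) x = X x + Y x + Z x := by
    intro x
    simp only [hd, hX, hY, hZ, hQ, hγ]
    rw [← sub_eq_zero]
    have : ∑ j, (dz j ηC x + (dz j (fun y => (φ y : ℂ)) x - dz j (fun y => (ψ y : ℂ)) x) * ηC x) *
        α j x = ∑ j, dz j ηC x * α j x + ∑ j, ηC x * α j x * dz j (fun y => (φ y : ℂ)) x -
        ∑ j, dz j (fun y => (ψ y : ℂ)) x * (ηC x * α j x) := by
      rw [← Finset.sum_add_distrib, ← Finset.sum_sub_distrib]
      refine Finset.sum_congr rfl fun j _ => ?_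
      ring
    rw [this]
    ring
  simp only [hXYZ] at main
  -- memberships
  have hUm : MemLp (fun x => X x + Y x + Z x) 2 volume := by
    have h1 : MemLp (fun x => d x - ∑ j, (dz j (fun y => (φ y : ℂ)) x * ηC x) * α j x) 2 volume :=
      hdm.sub (memLp_finsetSum _ fun j _ => mcut j
        (cont_extC hD (continuousOn_dz hD hφ j) hηT) (fun x hx => by simp [hηC0 x hx]))
    refine (memLp_congr_ae (Eventually.of_forall fun x => ?_)).1 h1
    rw [← hXYZ x]
    simp only [hγ]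
    congr 1
    refine Finset.sum_congr rfl fun j _ => ?_
    ring
  have hU0 : ∀ x, x ∉ K → X x + Y x + Z x = 0 := fun x hx => by
    simp [hX, hY, hZ, hq0 x hx, hdzη0 _ x hx, hηC0 x hx]
  have hγ0 : ∀ j x, x ∉ K → γ j x = 0 := fun j x hx => by simp [hγ, hηC0 x hx]
  -- everything on `D`
  set e : EC n → ℝ := fun x => Real.exp (-φ x) with he
  have iγ : ∀ {W : EC n → ℝ}, ContinuousOn W D → Integrable (fun x => (∑ j, ‖γ j x‖ ^ 2) * W x) := by
    intro W hW
    have h1 : ∀ j, Integrable (fun x => ‖γ j x‖ ^ 2 * W x) := fun j =>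
      intW hK (hW.mono hηD) (hγm j) (hγ0 j)
    have h2 := integrable_finsetSum Finset.univ fun j _ => h1 j
    refine h2.congr (Eventually.of_forall fun x => ?_)
    simp only [Finset.sum_mul]
  have iU : Integrable (fun x => ‖X x + Y x + Z x‖ ^ 2 * e x) := intW hK (hφe.mono hηD) hUm hU0
  have ic : ∀ j k, Integrable (fun x => ‖c j k x‖ ^ 2 * e x) := fun j k =>
    intW hK (hφe.mono hηD) (hcm j k) (hc0 j k)
  have iLHS1 : Integrable (fun x => (∑ j, ‖γ j x‖ ^ 2) * (t * (Real.exp (ψ x) * e x))) :=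
    iγ ((continuousOn_const (c := t)).mul (hEc.mul hφe))
  have iLHS2 : Integrable (fun x => (∑ j, ‖γ j x‖ ^ 2) * (M x * e x)) := iγ (hMc.mul hφe)
  -- the combined inequality
  have step1 : ∫ x, (∑ j, ‖γ j x‖ ^ 2) * (t * (Real.exp (ψ x) * e x)) ≤
      ∫ x, (‖X x + Y x + Z x‖ ^ 2 * e x - (∑ j, ‖γ j x‖ ^ 2) * (M x * e x) +
        (1 / 2) * ∑ j, ∑ k, ‖c j k x‖ ^ 2 * e x) := by
    have i3 : Integrable (fun x => (1 / 2 : ℝ) * ∑ j, ∑ k, ‖c j k x‖ ^ 2 * e x) :=
      (integrable_finsetSum _ fun j _ => integrable_finsetSum _ fun k _ => ic j k).const_mul _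
    have e0 : ∫ x, (‖X x + Y x + Z x‖ ^ 2 * e x - (∑ j, ‖γ j x‖ ^ 2) * (M x * e x) +
        (1 / 2) * ∑ j, ∑ k, ‖c j k x‖ ^ 2 * e x) = (∫ x, ‖X x + Y x + Z x‖ ^ 2 * e x) -
        (∫ x, (∑ j, ‖γ j x‖ ^ 2) * (M x * e x)) +
        (1 / 2) * ∑ j, ∑ k, ∫ x, ‖c j k x‖ ^ 2 * e x := by
      rw [integral_add (f := fun x => ‖X x + Y x + Z x‖ ^ 2 * e x -
        (∑ j, ‖γ j x‖ ^ 2) * (M x * e x)) (iU.sub iLHS2) i3, integral_sub iU iLHS2,
        integral_const_mul, integral_finsetSum _ fun j _ => integrable_finsetSum _ fun k _ => ic j k]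
      congr 2
      refine Finset.sum_congr rfl fun j _ => ?_
      rw [integral_finsetSum _ fun k _ => ic j k]
    rw [e0]
    have e1 : ∫ x, (t * Real.exp (ψ x) + M x) * (∑ j, ‖γ j x‖ ^ 2) * Real.exp (-φ x) =
        (∫ x, (∑ j, ‖γ j x‖ ^ 2) * (t * (Real.exp (ψ x) * e x))) +
        ∫ x, (∑ j, ‖γ j x‖ ^ 2) * (M x * e x) := by
      rw [← integral_add iLHS1 iLHS2]
      congr 1
      ext x
      simp only [he]
      ring
    rw [e1] at main
    linarith
  -- pointwise bound
  set S : EC n → ℝ := fun x => ∑ j, ‖α j x‖ ^ 2 with hS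
  have hS0 : ∀ x, 0 ≤ S x := fun x => Finset.sum_nonneg fun j _ => by positivity
  have hηd : Differentiable ℝ η := hη.differentiable (by simp)
  have pt : ∀ x ∈ D, ‖X x + Y x + Z x‖ ^ 2 * e x - (∑ j, ‖γ j x‖ ^ 2) * (M x * e x) +
        (1 / 2) * ∑ j, ∑ k, ‖c j k x‖ ^ 2 * e x ≤
      (1 + κ) ^ 2 * (‖b x‖ ^ 2 * Real.exp (φ x)) +
      ((1 + κ) * (1 + 1 / κ) * n + 2 * n ^ 2) * (‖fderiv ℝ η x‖ ^ 2 * (S x * e x)) := by
    intro x hx
    have he0 : 0 < e x := Real.exp_pos _
    have b1 := sq3 hκ (X x) (Y x) (Z x)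
    have bX : ‖X x‖ ^ 2 * e x ≤ ‖b x‖ ^ 2 * Real.exp (φ x) := by
      have h1 : ‖X x‖ = Real.exp (φ x - ψ x) * |η x| * ‖b x‖ := by
        simp only [hX, hq, hηC]
        rw [norm_mul, norm_mul, Complex.norm_real, Complex.norm_real, RCLike.norm_conj,
          Real.norm_of_nonneg (Real.exp_pos _).le, Real.norm_eq_abs]
      have h2 : ‖X x‖ ≤ Real.exp (φ x) * ‖b x‖ := by
        rw [h1]
        have h3 : Real.exp (φ x - ψ x) * |η x| ≤ Real.exp (φ x) * 1 := by
          refine mul_le_mul (Real.exp_le_exp.2 ?_) (hη1 x) (abs_nonneg _) (Real.exp_pos _).le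
          linarith [hψ0 x hx]
        calc Real.exp (φ x - ψ x) * |η x| * ‖b x‖ ≤ Real.exp (φ x) * 1 * ‖b x‖ := by gcongr
          _ = _ := by ring
      calc ‖X x‖ ^ 2 * e x ≤ (Real.exp (φ x) * ‖b x‖) ^ 2 * e x := by gcongr
        _ = ‖b x‖ ^ 2 * Real.exp (φ x) * (Real.exp (φ x) * Real.exp (-φ x)) := by
            simp only [he]; ring
        _ = _ := by rw [← Real.exp_add]; simp
    have bdz : ∀ j, ‖dz j ηC x‖ ^ 2 ≤ ‖fderiv ℝ η x‖ ^ 2 := fun j => by
      have := norm_dz_real j hηd x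
      gcongr
    have bdb : ∀ j, ‖db j ηC x‖ ^ 2 ≤ ‖fderiv ℝ η x‖ ^ 2 := fun j => by
      have := norm_db_real j hηd x
      gcongr
    have bY : ‖Y x‖ ^ 2 ≤ n * ‖fderiv ℝ η x‖ ^ 2 * S x := by
      refine (csum _ _).trans ?_
      have h1 : ∑ j, ‖dz j ηC x‖ ^ 2 ≤ n * ‖fderiv ℝ η x‖ ^ 2 := by
        refine (Finset.sum_le_sum fun j _ => bdz j).trans ?_
        simp
      exact mul_le_mul_of_nonneg_right h1 (hS0 x)
    have bZ : (1 + 1 / κ) * ‖Z x‖ ^ 2 ≤ (∑ j, ‖γ j x‖ ^ 2) * M x := by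
      have h1 : ‖Z x‖ ^ 2 ≤ (∑ j, ‖dz j (fun y => (ψ y : ℂ)) x‖ ^ 2) * ∑ j, ‖γ j x‖ ^ 2 := by
        simp only [hZ, norm_neg]
        exact csum _ _
      have h2 : 0 ≤ 1 + 1 / κ := by positivity
      calc (1 + 1 / κ) * ‖Z x‖ ^ 2 ≤ (1 + 1 / κ) *
          ((∑ j, ‖dz j (fun y => (ψ y : ℂ)) x‖ ^ 2) * ∑ j, ‖γ j x‖ ^ 2) := by gcongr
        _ = _ := by simp only [hM]; ring
    have bc : ∀ j k, ‖c j k x‖ ^ 2 ≤ 2 * ‖fderiv ℝ η x‖ ^ 2 * (‖α k x‖ ^ 2 + ‖α j x‖ ^ 2) := by
      intro j k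
      have h1 : ‖c j k x‖ ≤ ‖db j ηC x‖ * ‖α k x‖ + ‖db k ηC x‖ * ‖α j x‖ := by
        simp only [hc]
        refine (norm_sub_le _ _).trans ?_
        rw [norm_mul, norm_mul]
      calc ‖c j k x‖ ^ 2 ≤ (‖db j ηC x‖ * ‖α k x‖ + ‖db k ηC x‖ * ‖α j x‖) ^ 2 := by gcongr
        _ ≤ 2 * (‖db j ηC x‖ ^ 2 * ‖α k x‖ ^ 2 + ‖db k ηC x‖ ^ 2 * ‖α j x‖ ^ 2) := by
            nlinarith [sq_nonneg (‖db j ηC x‖ * ‖α k x‖ - ‖db k ηC x‖ * ‖α j x‖)]
        _ ≤ 2 * (‖fderiv ℝ η x‖ ^ 2 * ‖α k x‖ ^ 2 + ‖fderiv ℝ η x‖ ^ 2 * ‖α j x‖ ^ 2) := by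
            have := bdb j
            have := bdb k
            gcongr
        _ = _ := by ring
    have bcs : (1 / 2) * ∑ j, ∑ k, ‖c j k x‖ ^ 2 * e x ≤
        2 * n ^ 2 * ‖fderiv ℝ η x‖ ^ 2 * (S x * e x) := by
      have h1 : ∑ j : Fin n, ∑ k : Fin n, ‖c j k x‖ ^ 2 * e x ≤
          ∑ j : Fin n, ∑ k : Fin n, 2 * ‖fderiv ℝ η x‖ ^ 2 * (‖α k x‖ ^ 2 + ‖α j x‖ ^ 2) * e x := by
        refine Finset.sum_le_sum fun j _ => Finset.sum_le_sum fun k _ => ?_
        have := bc j k
        gcongr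
      have h2 : ∑ j : Fin n, ∑ k : Fin n, 2 * ‖fderiv ℝ η x‖ ^ 2 *
          (‖α k x‖ ^ 2 + ‖α j x‖ ^ 2) * e x = 4 * n * ‖fderiv ℝ η x‖ ^ 2 * (S x * e x) := by
        simp only [← Finset.sum_mul, ← Finset.mul_sum, Finset.sum_add_distrib, Finset.sum_const,
          Finset.card_univ, Fintype.card_fin, nsmul_eq_mul]
        simp only [hS]
        ring
      have hn : (n : ℝ) ≤ (n : ℝ) ^ 2 := by
        rcases Nat.eq_zero_or_pos n with h | h
        · subst h; simp
        · have : (1 : ℝ) ≤ n := by exact_mod_cast h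
          nlinarith
      have h3 : 0 ≤ ‖fderiv ℝ η x‖ ^ 2 * (S x * e x) := by
        have := hS0 x
        positivity
      rw [h2] at h1
      calc (1 / 2) * ∑ j : Fin n, ∑ k : Fin n, ‖c j k x‖ ^ 2 * e x ≤
          (1 / 2) * (4 * n * ‖fderiv ℝ η x‖ ^ 2 * (S x * e x)) := by gcongr
        _ = 2 * n * (‖fderiv ℝ η x‖ ^ 2 * (S x * e x)) := by ring
        _ ≤ 2 * n ^ 2 * (‖fderiv ℝ η x‖ ^ 2 * (S x * e x)) := by gcongr
        _ = _ := by ring
    have t1 : ‖X x + Y x + Z x‖ ^ 2 * e x ≤ (1 + κ) ^ 2 * (‖X x‖ ^ 2 * e x) +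
        (1 + κ) * (1 + 1 / κ) * (‖Y x‖ ^ 2 * e x) + ((1 + 1 / κ) * ‖Z x‖ ^ 2) * e x := by
      calc ‖X x + Y x + Z x‖ ^ 2 * e x ≤ ((1 + κ) ^ 2 * ‖X x‖ ^ 2 +
          (1 + κ) * (1 + 1 / κ) * ‖Y x‖ ^ 2 + (1 + 1 / κ) * ‖Z x‖ ^ 2) * e x := by gcongr
        _ = _ := by ring
    have t2 : (1 + κ) ^ 2 * (‖X x‖ ^ 2 * e x) ≤ (1 + κ) ^ 2 * (‖b x‖ ^ 2 * Real.exp (φ x)) := by
      gcongr
    have t3 : (1 + κ) * (1 + 1 / κ) * (‖Y x‖ ^ 2 * e x) ≤
        (1 + κ) * (1 + 1 / κ) * (n * ‖fderiv ℝ η x‖ ^ 2 * S x * e x) := by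
      gcongr
    have t4 : ((1 + 1 / κ) * ‖Z x‖ ^ 2) * e x ≤ ((∑ j, ‖γ j x‖ ^ 2) * M x) * e x := by
      gcongr
    nlinarith [t1, t2, t3, t4, bcs]
  -- integrability of the bound
  have hexpφ : ContinuousOn (fun x => Real.exp (φ x)) D :=
    Real.continuous_exp.comp_continuousOn hφ.continuousOn
  have ib : IntegrableOn (fun x => ‖b x‖ ^ 2 * Real.exp (φ x)) D := by
    have h1 : MemLp b 2 volume := hb.smooth.continuous.memLp_of_hasCompactSupport hb.cpt
    exact (intW hb.cpt (hexpφ.mono hb.sub) h1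
      (fun x hx => image_eq_zero_of_notMem_tsupport hx)).integrableOn
  have iS : IntegrableOn (fun x => ‖fderiv ℝ η x‖ ^ 2 * (S x * e x)) D := by
    have hfd : Continuous (fun x => ((‖fderiv ℝ η x‖ : ℝ) : ℂ)) :=
      Complex.continuous_ofReal.comp (hη.continuous_fderiv (by simp)).norm
    have hfd0 : ∀ x, x ∉ K → ((‖fderiv ℝ η x‖ : ℝ) : ℂ) = 0 := by
      intro x hx
      have : fderiv ℝ η x = 0 := by
        by_contra h
        exact hx (support_fderiv_subset ℝ h)
      simp [this]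
    have h1 : ∀ j, Integrable (fun x => ‖((‖fderiv ℝ η x‖ : ℝ) : ℂ) * α j x‖ ^ 2 * e x) := fun j =>
      intW hK (hφe.mono hηD) (mcut j hfd hfd0) (fun x hx => by rw [hfd0 x hx, zero_mul])
    have h2 := integrable_finsetSum Finset.univ fun j _ => h1 j
    refine (h2.congr (Eventually.of_forall fun x => ?_)).integrableOn
    simp only [hS, Finset.sum_mul, Finset.mul_sum]
    refine Finset.sum_congr rfl fun j _ => ?_
    rw [norm_mul, Complex.norm_real, norm_norm]
    ring
  -- conclusion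
  have fin1 : ∫ x in D, t * (η x ^ 2 * (om x * S x)) =
      ∫ x, (∑ j, ‖γ j x‖ ^ 2) * (t * (Real.exp (ψ x) * e x)) := by
    rw [← toD (g := fun x => (∑ j, ‖γ j x‖ ^ 2) * (t * (Real.exp (ψ x) * e x)))
      (fun x hx => by simp [hγ0 _ x hx])]
    refine congrD fun x hx => ?_
    have h1 : ∑ j, ‖γ j x‖ ^ 2 = η x ^ 2 * S x := by
      simp only [hγ, hηC, hS, Finset.mul_sum]
      refine Finset.sum_congr rfl fun j _ => ?_
      rw [norm_mul, Complex.norm_real, mul_pow, Real.norm_eq_abs, sq_abs]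
    have h2 : om x = Real.exp (ψ x) * e x := by
      simp only [hom, he]
      rw [← Real.exp_add, sub_eq_add_neg]
    rw [h1, h2]
    ring
  rw [fin1]
  refine step1.trans ?_
  rw [← toD (g := fun x => ‖X x + Y x + Z x‖ ^ 2 * e x - (∑ j, ‖γ j x‖ ^ 2) * (M x * e x) +
        (1 / 2) * ∑ j, ∑ k, ‖c j k x‖ ^ 2 * e x)
      (fun x hx => by simp [hU0 x hx, hγ0 _ x hx, hc0 _ _ x hx])]
  rw [← integral_const_mul, ← integral_const_mul, ← integral_add (ib.const_mul _) (iS.const_mul _)]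
  refine setIntegral_mono_on ?_ ((ib.const_mul _).add (iS.const_mul _)) hD.measurableSet pt
  exact ((iU.sub iLHS2).add ((integrable_finsetSum _ fun j _ =>
      integrable_finsetSum _ fun k _ => ic j k).const_mul _)).integrableOn

end Pool.Agent.H92.Lip.M2
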