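import Pool.Agent.H92.Lip.M2Lim

/-!
The explicit weights.
-/

set_option autoImplicit false
set_option linter.unusedSectionVars false

open MeasureTheory Set Filter Topology
open scoped ContDiff ENNReal ComplexConjugate

namespace Pool.Agent.H92.Lip.M2

variable {n : ℕ}

/-- second derivative of a composition -/
theorem fd2_comp {g : EC n → ℝ} (hg : ContDiff ℝ ∞ g) {h h' : ℝ → ℝ} {h2 : ℝ} {z : EC n}
    (h1 : ∀ᶠ s in 𝓝 (g z), HasDerivAt h (h' s) s) (h3 : HasDerivAt h' h2 (g z)) (w : EC n) :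
    fderiv ℝ (fderiv ℝ (fun y => h (g y))) z w w =
      h2 * (fderiv ℝ g z w) ^ 2 + h' (g z) * fderiv ℝ (fderiv ℝ g) z w w := by
  have hgd : Differentiable ℝ g := hg.differentiable (by simp)
  have hgd2 : DifferentiableAt ℝ (fderiv ℝ g) z :=
    (hg.fderiv_right (m := ∞) (by simp)).differentiable (by simp) z
  have e1 : fderiv ℝ (fun y => h (g y)) =ᶠ[𝓝 z] fun y => h' (g y) • fderiv ℝ g y := by
    have h4 : ∀ᶠ y in 𝓝 z, HasDerivAt h (h' (g y)) (g y) :=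
      hg.continuous.continuousAt.eventually h1
    filter_upwards [h4] with y hy
    exact (hy.comp_hasFDerivAt y (hgd y).hasFDerivAt).fderiv
  rw [e1.fderiv_eq]
  have h5 : HasFDerivAt (fun y => h' (g y)) (h2 • fderiv ℝ g z) z :=
    h3.comp_hasFDerivAt z (hgd z).hasFDerivAt
  have h6 := h5.smul hgd2.hasFDerivAt
  have h7 : HasFDerivAt (fun y => h' (g y) • fderiv ℝ g y) _ z := h6
  rw [h7.fderiv]
  simp only [add_apply, smul_apply, ContinuousLinearMap.smulRight_apply, smul_eq_mul]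
  ring

theorem Lev_comp {g : EC n → ℝ} (hg : ContDiff ℝ ∞ g) {h h' : ℝ → ℝ} {h2 : ℝ} {z : EC n}
    (h1 : ∀ᶠ s in 𝓝 (g z), HasDerivAt h (h' s) s) (h3 : HasDerivAt h' h2 (g z)) (w : EC n) :
    Lev (fun y => h (g y)) z w =
      h2 * ((fderiv ℝ g z w) ^ 2 + (fderiv ℝ g z (Complex.I • w)) ^ 2) +
        h' (g z) * Lev g z w := by
  unfold Lev
  rw [fd2_comp hg h1 h3, fd2_comp hg h1 h3]
  ring

theorem Lev_add {F H : EC n → ℝ} {z : EC n} (hF : ContDiffAt ℝ ∞ F z) (hH : ContDiffAt ℝ ∞ H z)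
    (w : EC n) : Lev (fun y => F y + H y) z w = Lev F z w + Lev H z w := by
  have e1 : fderiv ℝ (fun y => F y + H y) =ᶠ[𝓝 z] fun y => fderiv ℝ F y + fderiv ℝ H y := by
    have h1 : ∀ᶠ y in 𝓝 z, ContDiffAt ℝ 1 F y :=
      (hF.of_le (by simp)).eventually (by simp)
    have h2 : ∀ᶠ y in 𝓝 z, ContDiffAt ℝ 1 H y :=
      (hH.of_le (by simp)).eventually (by simp)
    filter_upwards [h1, h2] with y hy1 hy2
    exact fderiv_fun_add (hy1.differentiableAt (by simp)) (hy2.differentiableAt (by simp))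
  have d1 : DifferentiableAt ℝ (fderiv ℝ F) z :=
    (hF.fderiv_right (m := ∞) (by simp)).differentiableAt (by simp)
  have d2 : DifferentiableAt ℝ (fderiv ℝ H) z :=
    (hH.fderiv_right (m := ∞) (by simp)).differentiableAt (by simp)
  unfold Lev
  rw [e1.fderiv_eq, fderiv_fun_add d1 d2]
  simp only [add_apply]
  ring

theorem Lev_const_mul {F : EC n → ℝ} {z : EC n} (c : ℝ) (hF : ContDiffAt ℝ ∞ F z)
    (w : EC n) : Lev (fun y => c * F y) z w = c * Lev F z w := by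
  have e1 : fderiv ℝ (fun y => c * F y) =ᶠ[𝓝 z] fun y => c • fderiv ℝ F y := by
    have h1 : ∀ᶠ y in 𝓝 z, ContDiffAt ℝ 1 F y :=
      (hF.of_le (by simp)).eventually (by simp)
    filter_upwards [h1] with y hy1
    exact fderiv_const_mul (hy1.differentiableAt (by simp)) c
  have d1 : DifferentiableAt ℝ (fderiv ℝ F) z :=
    (hF.fderiv_right (m := ∞) (by simp)).differentiableAt (by simp)
  unfold Lev
  rw [e1.fderiv_eq, fderiv_fun_const_smul d1]
  simp only [smul_apply, smul_eq_mul]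
  ring

/-- the Levi form of `p⁻²` -/
theorem Lev_inv_sq {p : EC n → ℝ} (hp : ContDiff ℝ ∞ p) {z w : EC n} (hz : p z < 0)
    (hL : 4 * nsq w ≤ Lev p z w) :
    8 * (-p z)⁻¹ ^ 3 * nsq w ≤ Lev (fun y => p y ^ (-2 : ℤ)) z w := by
  have hne : p z ≠ 0 := hz.ne
  have h1 : ∀ᶠ s in 𝓝 (p z), HasDerivAt (fun s : ℝ => s ^ (-2 : ℤ)) ((-2 : ℝ) * s ^ (-3 : ℤ)) s := by
    filter_upwards [isOpen_ne.mem_nhds hne] with s hs
    exact (hasDerivAt_zpow (-2) s (Or.inl hs)).congr_deriv (by norm_num)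
  have h3 : HasDerivAt (fun s : ℝ => (-2 : ℝ) * s ^ (-3 : ℤ)) (6 * (p z) ^ (-4 : ℤ)) (p z) := by
    refine ((hasDerivAt_zpow (-3) (p z) (Or.inl hne)).const_mul (-2 : ℝ)).congr_deriv ?_
    norm_num
    ring
  rw [Lev_comp (h := fun s : ℝ => s ^ (-2 : ℤ)) (h' := fun s : ℝ => (-2 : ℝ) * s ^ (-3 : ℤ))
    hp h1 h3 w]
  have e1 : (-2 : ℝ) * (p z) ^ (-3 : ℤ) = 2 * (-p z)⁻¹ ^ 3 := by
    rw [zpow_neg]
    have : (p z) ^ (3 : ℤ) = (p z) ^ 3 := by norm_cast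
    rw [this]
    field_simp
  have e2 : 0 ≤ 6 * (p z) ^ (-4 : ℤ) := by
    rw [zpow_neg]
    have : (p z) ^ (4 : ℤ) = (p z) ^ 4 := by norm_cast
    rw [this]
    positivity
  have h4 : 0 < (-p z)⁻¹ ^ 3 := by
    have : 0 < -p z := by linarith
    positivity
  rw [e1]
  have h5 : 0 ≤ 6 * (p z) ^ (-4 : ℤ) * ((fderiv ℝ p z w) ^ 2 + (fderiv ℝ p z (Complex.I • w)) ^ 2) :=
    mul_nonneg e2 (by positivity)
  have h6 : 2 * (-p z)⁻¹ ^ 3 * (4 * nsq w) ≤ 2 * (-p z)⁻¹ ^ 3 * Lev p z w := by gcongr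
  linarith

end Pool.Agent.H92.Lip.M2
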