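import Mathlib
import Pool.Agent.H92.Lip.Defs

set_option autoImplicit false

open MeasureTheory Set Filter Topology
open scoped ContDiff ENNReal

namespace Pool.Agent.H92.Lip
namespace M3ab

/-- second order Taylor upper bound -/
lemma taylor_le {g g' g'' : ℝ → ℝ} {M T : ℝ} (hT : 0 ≤ T)
    (h1 : ∀ s, HasDerivAt g (g' s) s) (h2 : ∀ s, HasDerivAt g' (g'' s) s)
    (hM : ∀ s ∈ Icc (0 : ℝ) T, g'' s ≤ M) :
    g T ≤ g 0 + g' 0 * T + M * T ^ 2 / 2 := by
  have hk' : ∀ s ∈ Icc (0 : ℝ) T, g' s ≤ g' 0 + M * s := by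
    have hd : ∀ s, HasDerivAt (fun s => g' s - M * s) (g'' s - M) s := by
      intro s
      have e1 : HasDerivAt (fun s : ℝ => M * s) M s := by
        simpa using (hasDerivAt_id s).const_mul M
      exact (h2 s).sub e1
    have hmono : AntitoneOn (fun s => g' s - M * s) (Icc (0 : ℝ) T) := by
      apply antitoneOn_of_deriv_nonpos (convex_Icc _ _)
      · exact fun s _ => (hd s).continuousAt.continuousWithinAt
      · exact fun s _ => (hd s).differentiableAt.differentiableWithinAt
      · intro s hs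
        rw [(hd s).deriv]
        linarith [hM s (interior_subset hs)]
    intro s hs
    have := hmono (left_mem_Icc.2 hT) hs hs.1
    linarith
  have hmono : AntitoneOn (fun s => g s - (g' 0 * s + M * s ^ 2 / 2)) (Icc (0 : ℝ) T) := by
    have hd : ∀ s, HasDerivAt (fun s => g s - (g' 0 * s + M * s ^ 2 / 2)) (g' s - (g' 0 + M * s)) s := by
      intro s
      have e1 : HasDerivAt (fun s : ℝ => g' 0 * s) (g' 0) s := by
        simpa using (hasDerivAt_id s).const_mul (g' 0)
      have e2 : HasDerivAt (fun s : ℝ => M * s ^ 2 / 2) (M * s) s := by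
        refine (((hasDerivAt_pow 2 s).const_mul M).div_const 2).congr_deriv ?_
        norm_num
        ring
      exact (h1 s).sub (e1.add e2)
    apply antitoneOn_of_deriv_nonpos (convex_Icc _ _)
    · exact fun s _ => (hd s).continuousAt.continuousWithinAt
    · exact fun s _ => (hd s).differentiableAt.differentiableWithinAt
    · intro s hs
      rw [(hd s).deriv]
      linarith [hk' s (interior_subset hs)]
  have := hmono (left_mem_Icc.2 hT) (right_mem_Icc.2 hT) hT
  nlinarith [this]

variable {n : ℕ}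

lemma hasDerivAt_line {F : EC n → ℝ} (hF : ContDiff ℝ ∞ F) (z v : EC n) (s : ℝ) :
    HasDerivAt (fun s : ℝ => F (z + s • v)) (fderiv ℝ F (z + s • v) v) s := by
  have h1 : HasFDerivAt F (fderiv ℝ F (z + s • v)) (z + s • v) :=
    (hF.differentiable (by simp) _).hasFDerivAt
  have h2 : HasDerivAt (fun s : ℝ => z + s • v) v s := by
    simpa using ((hasDerivAt_id s).smul_const v).const_add z
  exact h1.comp_hasDerivAt s h2

lemma hasDerivAt_line2 {F : EC n → ℝ} (hF : ContDiff ℝ ∞ F) (z v : EC n) (s : ℝ) :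
    HasDerivAt (fun s : ℝ => fderiv ℝ F (z + s • v) v)
      (fderiv ℝ (fderiv ℝ F) (z + s • v) v v) s := by
  have hF' : ContDiff ℝ ∞ (fderiv ℝ F) := hF.fderiv_right (by simp)
  have h1 : HasFDerivAt (fderiv ℝ F) (fderiv ℝ (fderiv ℝ F) (z + s • v)) (z + s • v) :=
    (hF'.differentiable (by simp) _).hasFDerivAt
  have h2 : HasDerivAt (fun s : ℝ => z + s • v) v s := by
    simpa using ((hasDerivAt_id s).smul_const v).const_add z
  have h3 := h1.comp_hasDerivAt s h2
  exact h3.clm_apply (hasDerivAt_const s v) |>.congr_deriv (by simp)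

lemma exp_smul (θ : ℝ) (w : EC n) :
    Complex.exp ((θ : ℂ) * Complex.I) • w = Real.cos θ • w + Real.sin θ • (Complex.I • w) := by
  ext j
  simp only [Pi.smul_apply, Pi.add_apply, smul_eq_mul, Complex.real_smul, Complex.exp_mul_I,
    Complex.ofReal_cos, Complex.ofReal_sin]
  ring

/-- a smooth function which satisfies the sub mean value inequality for small radii has a
nonnegative Levi form -/
lemma lev_nonneg {F : EC n → ℝ} (hF : ContDiff ℝ ∞ F) (z w : EC n) {t₀ : ℝ} (ht₀ : 0 < t₀)
    (h : ∀ t : ℝ, 0 < t → t ≤ t₀ → F z ≤ (2 * Real.pi)⁻¹ *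
      ∫ θ in Set.Ioc (0 : ℝ) (2 * Real.pi), F (z + Complex.exp ((θ : ℂ) * Complex.I) • (t • w))) :
    0 ≤ Lev F z w := by
  by_contra hneg
  push Not at hneg
  set A := fderiv ℝ (fderiv ℝ F) z with hA
  set L := Lev F z w with hL
  have hLe : L = A w w + A (Complex.I • w) (Complex.I • w) := rfl
  set v : ℝ → EC n := fun θ => Real.cos θ • w + Real.sin θ • (Complex.I • w) with hvdef
  have hvc : Continuous v := by
    rw [hvdef]; fun_prop
  have hcont : Continuous (fderiv ℝ (fderiv ℝ F)) :=
    ((hF.fderiv_right (m := ∞) (by simp)).fderiv_right (m := ∞) (by simp)).continuous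
  have hΦ : Continuous (fun p : ℝ × ℝ =>
      fderiv ℝ (fderiv ℝ F) (z + p.1 • v p.2) (v p.2) (v p.2)) := by
    have h1 : Continuous (fun p : ℝ × ℝ => fderiv ℝ (fderiv ℝ F) (z + p.1 • v p.2)) :=
      hcont.comp (by fun_prop)
    exact (h1.clm_apply (by fun_prop)).clm_apply (by fun_prop)
  set η : ℝ := -L / 8 with hη
  have hηpos : 0 < η := by rw [hη]; linarith
  have hev : ∀ᶠ s in 𝓝 (0 : ℝ), ∀ θ ∈ Icc (0 : ℝ) (2 * Real.pi),
      fderiv ℝ (fderiv ℝ F) (z + s • v θ) (v θ) (v θ) < A (v θ) (v θ) + η := by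
    apply isCompact_Icc.eventually_forall_of_forall_eventually
    intro θ _
    have h2 : Continuous (fun p : ℝ × ℝ => A (v p.2) (v p.2) + η -
        fderiv ℝ (fderiv ℝ F) (z + p.1 • v p.2) (v p.2) (v p.2)) := by
      refine Continuous.sub ?_ hΦ
      have h3 : Continuous (fun p : ℝ × ℝ => A (v p.2)) := A.continuous.comp (by fun_prop)
      exact (h3.clm_apply (by fun_prop)).add continuous_const
    have h4 : (0 : ℝ) < A (v θ) (v θ) + η -
        fderiv ℝ (fderiv ℝ F) (z + (0 : ℝ) • v θ) (v θ) (v θ) := by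
      rw [zero_smul, add_zero, ← hA]
      linarith
    filter_upwards [h2.continuousAt.eventually (lt_mem_nhds (a := (0 : ℝ)) h4)] with p hp
    linarith
  obtain ⟨δ, hδ, hδs⟩ := Metric.eventually_nhds_iff.1 hev
  set t : ℝ := min t₀ (δ / 2) with ht
  have htpos : 0 < t := by rw [ht]; positivity
  have htt₀ : t ≤ t₀ := min_le_left _ _
  have htδ : t < δ := lt_of_le_of_lt (min_le_right _ _) (by linarith)
  have key : ∀ θ ∈ Ioc (0 : ℝ) (2 * Real.pi),
      F (z + Complex.exp ((θ : ℂ) * Complex.I) • (t • w)) ≤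
      F z + t * fderiv ℝ F z (v θ) + (A (v θ) (v θ) + η) * t ^ 2 / 2 := by
    intro θ hθ
    have h0 : Complex.exp ((θ : ℂ) * Complex.I) • (t • w) = t • v θ := by
      rw [hvdef]
      simp only
      rw [← exp_smul θ w, smul_comm]
    rw [h0]
    have := taylor_le (g := fun s : ℝ => F (z + s • v θ))
      (g' := fun s => fderiv ℝ F (z + s • v θ) (v θ))
      (g'' := fun s => fderiv ℝ (fderiv ℝ F) (z + s • v θ) (v θ) (v θ))
      (M := A (v θ) (v θ) + η)
      (T := t) htpos.le (hasDerivAt_line hF z (v θ)) (hasDerivAt_line2 hF z (v θ)) ?_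
    · simp only [zero_smul, add_zero] at this
      linarith
    · intro s hs
      have hx : dist s 0 < δ := by
        rw [Real.dist_eq, sub_zero, abs_of_nonneg hs.1]
        exact lt_of_le_of_lt hs.2 htδ
      exact (hδs hx θ (Ioc_subset_Icc_self hθ)).le
  have hh := h t htpos htt₀
  have hπ := Real.pi_pos
  -- integrate key
  have hIc : ∀ f : ℝ → ℝ, Continuous f → IntegrableOn f (Ioc (0 : ℝ) (2 * Real.pi)) := by
    intro f hf
    exact (hf.integrableOn_Icc (a := 0) (b := 2 * Real.pi)).mono_set Ioc_subset_Icc_self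
  have hcl : Continuous (fun θ : ℝ => F (z + Complex.exp ((θ : ℂ) * Complex.I) • (t • w))) := by
    have := hF.continuous
    fun_prop
  have hcr : Continuous (fun θ : ℝ => F z + t * fderiv ℝ F z (v θ) +
      (A (v θ) (v θ) + η) * t ^ 2 / 2) := by
    fun_prop
  have hint := setIntegral_mono_on (hIc _ hcl) (hIc _ hcr) measurableSet_Ioc key
  have hval : ∫ θ in Ioc (0 : ℝ) (2 * Real.pi), (F z + t * fderiv ℝ F z (v θ) +
      (A (v θ) (v θ) + η) * t ^ 2 / 2) =
      2 * Real.pi * F z + (Real.pi * L + 2 * Real.pi * η) * t ^ 2 / 2 := by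
    rw [← intervalIntegral.integral_of_le (by positivity)]
    have e1 : ∀ θ : ℝ, (F z + t * fderiv ℝ F z (v θ) + (A (v θ) (v θ) + η) * t ^ 2 / 2) =
        (F z + η * t ^ 2 / 2) + (t * fderiv ℝ F z w) * Real.cos θ +
        (t * fderiv ℝ F z (Complex.I • w)) * Real.sin θ +
        (A w w * t ^ 2 / 2) * Real.cos θ ^ 2 +
        (A (Complex.I • w) (Complex.I • w) * t ^ 2 / 2) * Real.sin θ ^ 2 +
        ((A w (Complex.I • w) + A (Complex.I • w) w) * t ^ 2 / 2) * (Real.sin θ * Real.cos θ) := by
      intro θ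
      simp only [hvdef, map_add, map_smul, smul_eq_mul, add_apply, smul_apply]
      ring
    simp_rw [e1]
    rw [intervalIntegral.integral_add (by apply Continuous.intervalIntegrable; fun_prop)
      (by apply Continuous.intervalIntegrable; fun_prop),
      intervalIntegral.integral_add (by apply Continuous.intervalIntegrable; fun_prop)
      (by apply Continuous.intervalIntegrable; fun_prop),
      intervalIntegral.integral_add (by apply Continuous.intervalIntegrable; fun_prop)
      (by apply Continuous.intervalIntegrable; fun_prop),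
      intervalIntegral.integral_add (by apply Continuous.intervalIntegrable; fun_prop)
      (by apply Continuous.intervalIntegrable; fun_prop),
      intervalIntegral.integral_add (by apply Continuous.intervalIntegrable; fun_prop)
      (by apply Continuous.intervalIntegrable; fun_prop)]
    simp only [intervalIntegral.integral_const_mul, intervalIntegral.integral_const, integral_cos,
      integral_sin, integral_cos_sq, integral_sin_sq, integral_sin_mul_cos₁]
    simp [hLe]
    ring
  rw [hval] at hint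
  have h5 : 2 * Real.pi * F z ≤ ∫ θ in Ioc (0 : ℝ) (2 * Real.pi),
      F (z + Complex.exp ((θ : ℂ) * Complex.I) • (t • w)) := by
    have := mul_le_mul_of_nonneg_left hh (show 0 ≤ 2 * Real.pi by positivity)
    rwa [← mul_assoc, mul_inv_cancel₀ (by positivity), one_mul] at this
  have h6 : 0 ≤ (Real.pi * L + 2 * Real.pi * η) * t ^ 2 / 2 := by linarith
  have h7 : Real.pi * L + 2 * Real.pi * η < 0 := by
    have : Real.pi * (L + 2 * η) < 0 := by
      apply mul_neg_of_pos_of_neg hπ
      rw [hη]
      linarith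
    linarith
  have h8 : (Real.pi * L + 2 * Real.pi * η) * t ^ 2 / 2 < 0 := by
    have : 0 < t ^ 2 := by positivity
    nlinarith
  linarith

/-- mollification of a continuous function: averaging over circles commutes with it -/
lemma moll_submean {g : EC n → ℝ} (hg : Continuous g) {r δ : ℝ} (hrδ : r ≤ δ / 2)
    (φ : ContDiffBump (0 : EC n)) (hφ : φ.rOut = r) {z w : EC n} {t : ℝ} (ht : 0 < t)
    (htw : t * ‖w‖ ≤ δ / 2)
    (hsub : ∀ y : EC n, ‖y‖ ≤ r → (∀ ζ : ℂ, ‖ζ‖ ≤ 1 → ‖-y + ζ • (t • w)‖ ≤ δ) →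
      g (z - y) ≤ (2 * Real.pi)⁻¹ * ∫ θ in Set.Ioc (0 : ℝ) (2 * Real.pi),
        g (z - y + Complex.exp ((θ : ℂ) * Complex.I) • (t • w))) :
    (convolution (φ.normed volume) g (ContinuousLinearMap.lsmul ℝ ℝ) volume) z ≤
      (2 * Real.pi)⁻¹ * ∫ θ in Set.Ioc (0 : ℝ) (2 * Real.pi),
        (convolution (φ.normed volume) g (ContinuousLinearMap.lsmul ℝ ℝ) volume)
          (z + Complex.exp ((θ : ℂ) * Complex.I) • (t • w)) := by
  set ρ : EC n → ℝ := φ.normed volume with hρ
  have hρc : Continuous ρ := φ.continuous_normed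
  have hρ0 : ∀ y, 0 ≤ ρ y := fun y => φ.nonneg_normed y
  have hρz : ∀ y, y ∉ Metric.closedBall (0 : EC n) r → ρ y = 0 := by
    intro y hy
    have h1 : y ∉ Function.support ρ := by
      rw [hρ, φ.support_normed_eq, hφ]
      intro h
      exact hy (Metric.ball_subset_closedBall h)
    simpa using h1
  have hconv : ∀ x, (convolution ρ g (ContinuousLinearMap.lsmul ℝ ℝ) volume) x =
      ∫ y in Metric.closedBall (0 : EC n) r, ρ y * g (x - y) := by
    intro x
    rw [convolution_def]
    simp only [ContinuousLinearMap.lsmul_apply, smul_eq_mul]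
    symm
    apply setIntegral_eq_integral_of_forall_compl_eq_zero
    intro y hy
    rw [hρz y hy, zero_mul]
  have hB : IsCompact (Metric.closedBall (0 : EC n) r) := isCompact_closedBall _ _
  simp only [hconv]
  have hswap : ∫ θ in Set.Ioc (0 : ℝ) (2 * Real.pi), ∫ y in Metric.closedBall (0 : EC n) r,
      ρ y * g (z + Complex.exp ((θ : ℂ) * Complex.I) • (t • w) - y) =
      ∫ y in Metric.closedBall (0 : EC n) r, ∫ θ in Set.Ioc (0 : ℝ) (2 * Real.pi),
      ρ y * g (z + Complex.exp ((θ : ℂ) * Complex.I) • (t • w) - y) := by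
    apply integral_integral_swap
    rw [Measure.prod_restrict]
    have hc : Continuous (Function.uncurry fun (θ : ℝ) (y : EC n) =>
        ρ y * g (z + Complex.exp ((θ : ℂ) * Complex.I) • (t • w) - y)) := by
      unfold Function.uncurry
      fun_prop
    have : IntegrableOn (Function.uncurry fun (θ : ℝ) (y : EC n) =>
        ρ y * g (z + Complex.exp ((θ : ℂ) * Complex.I) • (t • w) - y))
        (Icc (0 : ℝ) (2 * Real.pi) ×ˢ Metric.closedBall (0 : EC n) r)
        ((volume : Measure ℝ).prod (volume : Measure (EC n))) :=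
      hc.continuousOn.integrableOn_compact (isCompact_Icc.prod hB)
    exact this.mono_set (Set.prod_mono Ioc_subset_Icc_self subset_rfl)
  rw [hswap, ← integral_const_mul]
  have hθc : Continuous (fun y : EC n => ∫ θ in Set.Ioc (0 : ℝ) (2 * Real.pi),
      ρ y * g (z + Complex.exp ((θ : ℂ) * Complex.I) • (t • w) - y)) := by
    simp_rw [← intervalIntegral.integral_of_le (show (0 : ℝ) ≤ 2 * Real.pi by positivity)]
    apply intervalIntegral.continuous_parametric_intervalIntegral_of_continuous'
    unfold Function.uncurry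
    fun_prop
  apply setIntegral_mono_on
  · exact (Continuous.continuousOn (by fun_prop)).integrableOn_compact hB
  · exact (continuous_const.mul hθc).continuousOn.integrableOn_compact hB
  · exact measurableSet_closedBall
  intro y hy
  have hy' : ‖y‖ ≤ r := by simpa using hy
  have h1 := hsub y hy' (fun ζ hζ => by
    calc ‖-y + ζ • (t • w)‖ ≤ ‖-y‖ + ‖ζ • (t • w)‖ := norm_add_le _ _
      _ ≤ r + 1 * (t * ‖w‖) := by
          rw [norm_neg, norm_smul, norm_smul, Real.norm_eq_abs, abs_of_pos ht]
          gcongr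
      _ ≤ δ := by linarith)
  rw [integral_const_mul]
  have h2 := mul_le_mul_of_nonneg_left h1 (hρ0 y)
  have h3 : ∀ θ : ℝ, z + Complex.exp ((θ : ℂ) * Complex.I) • (t • w) - y =
      z - y + Complex.exp ((θ : ℂ) * Complex.I) • (t • w) := by intro θ; abel
  simp only [h3]
  calc ρ y * g (z - y) ≤ _ := h2
    _ = _ := by ring

end M3ab

open M3ab in
/-- module M3a -/
theorem smoothApprox (n : ℕ) : SmoothApprox n := by
  intro O u hO hu hsub K hK hKO ε hε
  obtain ⟨δ, hδ, hδO⟩ := hK.exists_cthickening_subset_open hO hKO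
  set A := Metric.cthickening δ K with hA
  have hAc : IsCompact A := hK.cthickening
  have hAcl : IsClosed A := hAc.isClosed
  obtain ⟨g, hgA⟩ := ContinuousMap.exists_restrict_eq hAcl
    (⟨A.domRestrict u, (hu.mono hδO).domRestrict⟩ : C(A, ℝ))
  have hgu : ∀ x ∈ A, g x = u x := by
    intro x hx
    exact congrArg (fun f : C(A, ℝ) => f ⟨x, hx⟩) hgA
  have hunif := hAc.uniformContinuousOn_of_continuous g.continuous.continuousOn
  obtain ⟨δ', hδ', hg'⟩ := Metric.uniformContinuousOn_iff.1 hunif ε hε
  set r : ℝ := min (δ' / 2) (δ / 2) with hr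
  have hrpos : 0 < r := by rw [hr]; positivity
  let φ : ContDiffBump (0 : EC n) := ⟨r / 2, r, by positivity, by linarith⟩
  have hmem : ∀ z ∈ K, ∀ y : EC n, ‖y‖ ≤ δ → z + y ∈ A := by
    intro z hz y hy
    apply Metric.mem_cthickening_of_dist_le _ z _ _ hz
    rw [dist_eq_norm, add_sub_cancel_left]
    exact hy
  refine ⟨convolution (φ.normed volume) g (ContinuousLinearMap.lsmul ℝ ℝ) volume, ?_, ?_, ?_⟩
  · exact φ.hasCompactSupport_normed.contDiff_convolution_left _ φ.contDiff_normed
      g.continuous.locallyIntegrable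
  · intro z hz
    have hzA : z ∈ A := by simpa using hmem z hz 0 (by simpa using hδ.le)
    have := φ.dist_normed_convolution_le (μ := volume) (g := g) (x₀ := z) (ε := ε)
      g.continuous.aestronglyMeasurable ?_
    · rw [hgu z hzA, Real.dist_eq] at this
      exact this
    · intro x hx
      have hx' : dist x z < r := by simpa using hx
      have hxA : x ∈ A := by
        have := hmem z hz (x - z) ?_
        · simpa using this
        · rw [← dist_eq_norm]
          have : r ≤ δ / 2 := min_le_right _ _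
          linarith
      have hlt : dist x z < δ' := by
        have : r ≤ δ' / 2 := min_le_left _ _
        linarith
      exact (hg' x hxA z hzA hlt).le
  · intro z hz w
    have ht₀ : 0 < δ / (2 * (‖w‖ + 1)) := by positivity
    refine lev_nonneg ?_ z w ht₀ ?_
    · exact φ.hasCompactSupport_normed.contDiff_convolution_left _ φ.contDiff_normed
        g.continuous.locallyIntegrable
    · intro t ht htt₀
      have htw : t * ‖w‖ ≤ δ / 2 := by
        calc t * ‖w‖ ≤ δ / (2 * (‖w‖ + 1)) * (‖w‖ + 1) := by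
              gcongr
              linarith
          _ = δ / 2 := by field_simp
      apply moll_submean g.continuous (min_le_right _ _) φ rfl ht htw
      intro y hy hdisc
      have hin : ∀ ζ : ℂ, ‖ζ‖ ≤ 1 → z - y + ζ • (t • w) ∈ A := by
        intro ζ hζ
        have := hmem z hz _ (hdisc ζ hζ)
        rwa [← add_assoc, ← sub_eq_add_neg] at this
      have hy0 : z - y ∈ A := by simpa using hin 0 (by simp)
      rw [hgu _ hy0]
      have h1 := hsub (z - y) (hδO hy0) (t • w) (fun ζ hζ => hδO (hin ζ hζ))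
      refine h1.trans_eq ?_
      congr 1
      apply setIntegral_congr_fun measurableSet_Ioc
      intro θ _
      exact (hgu _ (hin _ (by rw [Complex.norm_exp_ofReal_mul_I]))).symm

namespace M3ab

variable {n : ℕ}

lemma nsq_nonneg (w : EC n) : 0 ≤ nsq w := Finset.sum_nonneg fun _ _ => by positivity

lemma contDiff_nsq : ContDiff ℝ ∞ (nsq : EC n → ℝ) := by
  unfold nsq
  apply ContDiff.sum
  intro j _
  exact (contDiff_norm_sq ℝ).comp (contDiff_apply ℝ ℂ j)

/-- the real inner product form attached to `nsq` -/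
lemma hasFDerivAt_nsq (z : EC n) : fderiv ℝ (nsq : EC n → ℝ) z =
    ∑ j, (2 • (innerSL ℝ (z j))).comp (ContinuousLinearMap.proj (R := ℝ) (φ := fun _ : Fin n => ℂ) j) := by
  have : HasFDerivAt (nsq : EC n → ℝ) (∑ j, (2 • (innerSL ℝ (z j))).comp
      (ContinuousLinearMap.proj (R := ℝ) (φ := fun _ : Fin n => ℂ) j)) z := by
    unfold nsq
    apply HasFDerivAt.fun_sum
    intro j _
    have h1 := (hasStrictFDerivAt_norm_sq (z j)).hasFDerivAt
    exact h1.comp z (ContinuousLinearMap.hasFDerivAt
      (ContinuousLinearMap.proj (R := ℝ) (φ := fun _ : Fin n => ℂ) j))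
  exact this.fderiv

lemma lev_nsq (z w : EC n) : Lev (nsq : EC n → ℝ) z w = 4 * nsq w := by
  have h1 : ∀ v : EC n, fderiv ℝ (fderiv ℝ (nsq : EC n → ℝ)) z v v = 2 * nsq v := by
    intro v
    have e1 := (hasDerivAt_line2 (contDiff_nsq (n := n)) z v 0)
    simp only [zero_smul, add_zero] at e1
    have e2 : HasDerivAt (fun s : ℝ => fderiv ℝ (nsq : EC n → ℝ) (z + s • v) v) (2 * nsq v) 0 := by
      have e3 : (fun s : ℝ => fderiv ℝ (nsq : EC n → ℝ) (z + s • v) v) =
          fun s : ℝ => fderiv ℝ (nsq : EC n → ℝ) z v + s * (2 * nsq v) := by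
        funext s
        rw [hasFDerivAt_nsq, hasFDerivAt_nsq]
        simp only [nsq, sum_apply, ContinuousLinearMap.comp_apply,
          ContinuousLinearMap.proj_apply, smul_apply, innerSL_apply_apply,
          Pi.add_apply, Pi.smul_apply, inner_add_left, real_inner_smul_left,
          real_inner_self_eq_norm_sq, Finset.mul_sum, ← Finset.sum_add_distrib]
        apply Finset.sum_congr rfl
        intro j _
        simp only [nsmul_eq_mul, Nat.cast_ofNat]
        ring
      rw [e3]
      simpa using ((hasDerivAt_id (0 : ℝ)).mul_const (2 * nsq v)).const_add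
        (fderiv ℝ (nsq : EC n → ℝ) z v)
    exact e1.unique e2
  unfold Lev
  rw [h1, h1]
  have : nsq (Complex.I • w) = nsq w := by
    unfold nsq
    simp
  rw [this]
  ring

lemma lev_add_smul {F : EC n → ℝ} (hF : ContDiff ℝ ∞ F) (A c : ℝ) (z w : EC n) :
    Lev (fun x => A * F x + nsq x - c) z w = A * Lev F z w + 4 * nsq w := by
  rw [← lev_nsq z w]
  have h0 : ContDiff ℝ ∞ (fun x => A * F x + nsq x - c) :=
    ((contDiff_const.mul hF).add contDiff_nsq).sub contDiff_const
  have h1 : ∀ v : EC n, fderiv ℝ (fderiv ℝ (fun x => A * F x + nsq x - c)) z v v =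
      A * fderiv ℝ (fderiv ℝ F) z v v + fderiv ℝ (fderiv ℝ (nsq : EC n → ℝ)) z v v := by
    intro v
    have e1 := (hasDerivAt_line2 h0 z v 0)
    have e2 := (hasDerivAt_line2 hF z v 0)
    have e3 := (hasDerivAt_line2 (contDiff_nsq (n := n)) z v 0)
    simp only [zero_smul, add_zero] at e1 e2 e3
    have e4 : (fun s : ℝ => fderiv ℝ (fun x => A * F x + nsq x - c) (z + s • v) v) =
        fun s : ℝ => A * fderiv ℝ F (z + s • v) v + fderiv ℝ (nsq : EC n → ℝ) (z + s • v) v := by
      funext s
      have f1 := hasDerivAt_line h0 z v s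
      have f2 := ((hasDerivAt_line hF z v s).const_mul A).add
        (hasDerivAt_line (contDiff_nsq (n := n)) z v s)
      have f3 := f2.sub_const c
      exact f1.unique f3
    rw [e4] at e1
    exact e1.unique ((e2.const_mul A).add e3)
  unfold Lev
  rw [h1, h1]
  ring

end M3ab

open M3ab in
/-- module M3b -/
theorem exhOfPsh (n : ℕ) (h : SmoothApprox n) : ExhOfPsh n := by
  intro Ω φ hΩ hφ hcomp hsub K hK hKΩ
  -- upper bound of φ on K
  obtain ⟨c, hc⟩ : ∃ c : ℝ, ∀ z ∈ K, φ z ≤ c := by
    obtain ⟨c, hc⟩ := hK.bddAbove_image (hφ.mono hKΩ)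
    exact ⟨c, fun z hz => hc (mem_image_of_mem _ hz)⟩
  set L : Set (EC n) := {z | z ∈ Ω ∧ φ z ≤ c + 3} with hL
  have hLc : IsCompact L := hcomp (c + 3)
  have hLΩ : L ⊆ Ω := fun z hz => hz.1
  obtain ⟨F, hF, hFφ, hFL⟩ := h Ω φ hΩ hφ hsub L hLc hLΩ (1 / 2) (by norm_num)
  obtain ⟨B, hB⟩ : ∃ B : ℝ, ∀ z ∈ L, nsq z ≤ B := by
    obtain ⟨c, hc⟩ := hLc.bddAbove_image (contDiff_nsq (n := n)).continuous.continuousOn
    exact ⟨c, fun z hz => hc (mem_image_of_mem _ hz)⟩
  set A : ℝ := |B| + 1 with hA
  have hA0 : 0 < A := by positivity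
  have hAB : B < A := by rw [hA]; linarith [le_abs_self B]
  set p : EC n → ℝ := fun z => A * F z + nsq z - A * (c + 3 / 2) with hp
  have hpc : ContDiff ℝ ∞ p := ((contDiff_const.mul hF).add contDiff_nsq).sub contDiff_const
  set D : Set (EC n) := {z | (z ∈ Ω ∧ φ z < c + 3) ∧ p z < 0} with hD
  have hDo : IsOpen D := by
    have h1 : IsOpen {z | z ∈ Ω ∧ φ z < c + 3} := hφ.isOpen_inter_preimage hΩ isOpen_Iio
    exact h1.inter (isOpen_lt hpc.continuous continuous_const)
  have hDL : D ⊆ L := fun z hz => ⟨hz.1.1, hz.1.2.le⟩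
  have hcl : closure D ⊆ L := closure_minimal hDL hLc.isClosed
  have habs : ∀ z ∈ L, φ z - 1 / 2 ≤ F z ∧ F z ≤ φ z + 1 / 2 := by
    intro z hz
    have := abs_le.1 (hFφ z hz)
    constructor <;> linarith [this.1, this.2]
  refine ⟨p, D, hpc, hDo, ?_, hLc.of_isClosed_subset isClosed_closure hcl, hcl.trans hLΩ, ?_, ?_, ?_⟩
  · intro z hz
    have hφz := hc z hz
    have hzL : z ∈ L := ⟨hKΩ hz, by linarith⟩
    refine ⟨⟨hKΩ hz, by linarith⟩, ?_⟩
    have h1 := (habs z hzL).2
    have h2 := hB z hzL
    have h3 : A * F z ≤ A * (c + 1 / 2) := by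
      apply mul_le_mul_of_nonneg_left _ hA0.le
      linarith
    rw [hp]
    simp only
    nlinarith
  · intro z hz w
    have hzL := hcl hz
    rw [hp, lev_add_smul hF]
    have := mul_nonneg hA0.le (hFL z hzL w)
    linarith
  · intro z hz
    exact hz.2
  · intro z hz
    have hzc : z ∈ closure D := frontier_subset_closure hz
    have hzD : z ∉ D := by
      rw [hDo.frontier_eq] at hz
      exact hz.2
    have hzL := hcl hzc
    have hp0 : p z ≤ 0 := by
      have : closure D ⊆ {x | p x ≤ 0} :=
        closure_minimal (fun x hx => hx.2.le) (isClosed_le hpc.continuous continuous_const)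
      exact this hzc
    have hlt : φ z < c + 3 := by
      by_contra hge
      push Not at hge
      have h1 := (habs z hzL).1
      have h3 : A * (c + 5 / 2) ≤ A * F z := by
        apply mul_le_mul_of_nonneg_left _ hA0.le
        linarith
      have h4 := nsq_nonneg z
      rw [hp] at hp0
      simp only at hp0
      nlinarith
    by_contra hne
    exact hzD ⟨⟨hzL.1, hlt⟩, lt_of_le_of_ne hp0 hne⟩

end Pool.Agent.H92.Lip
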