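import Mathlib
import Pool.Agent.H92.Lip.Defs

/-!
Module M3c: Oka's lemma, for the sup norm distance (helper91).
-/

set_option autoImplicit false

open MeasureTheory Set Filter Topology
open scoped ContDiff ENNReal

namespace Pool.Agent.H92.Lip

namespace M3c

/-- second derivative test at a local maximum -/
theorem secondTest (h h' : ℝ → ℝ) (c : ℝ) (h1 : ∀ t, HasDerivAt h (h' t) t)
    (h2 : HasDerivAt h' c 0) (hmax : IsLocalMax h 0) : c ≤ 0 := by
  by_contra hc
  push Not at hc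
  have hd : deriv h = h' := funext fun t => (h1 t).deriv
  have hdd : deriv (deriv h) 0 = c := by rw [hd]; exact h2.deriv
  have hd0 : deriv h 0 = 0 := hmax.deriv_eq_zero
  have hmin : IsLocalMin h 0 :=
    isLocalMin_of_deriv_deriv_pos (by rw [hdd]; exact hc) hd0 (h1 0).continuousAt
  have hconst : h =ᶠ[𝓝 0] fun _ => h 0 := by
    filter_upwards [hmax, hmin] with t h1 h2
    exact le_antisymm h1 h2
  have h3 : deriv h =ᶠ[𝓝 0] fun _ => 0 := by
    have := hconst.deriv
    filter_upwards [this] with t ht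
    rw [ht]; simp
  have h4 : deriv (deriv h) 0 = 0 := by
    rw [h3.deriv_eq]; simp
  linarith [hdd ▸ h4]

variable {n : ℕ}

theorem line1 (F : EC n → ℝ) (hF : ContDiff ℝ ∞ F) (g : ℂ → EC n) (hg : Differentiable ℂ g)
    (ζ e : ℂ) (t : ℝ) :
    HasDerivAt (fun t : ℝ => F (g (ζ + t * e)))
      (fderiv ℝ F (g (ζ + t * e)) (e • deriv g (ζ + t * e))) t := by
  have h1 : HasDerivAt (fun t : ℝ => ζ + (t : ℂ) * e) e t := by
    have := ((Complex.ofRealCLM.hasDerivAt (x := t)).mul_const e).const_add ζ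
    simpa using this
  have h2 : HasDerivAt (fun t : ℝ => g (ζ + (t : ℂ) * e)) (e • deriv g (ζ + t * e)) t := by
    exact (hg (ζ + t * e)).hasDerivAt.scomp (x := t) h1
  have h3 : HasFDerivAt F (fderiv ℝ F (g (ζ + t * e))) (g (ζ + t * e)) :=
    ((hF.differentiable (by simp)) _).hasFDerivAt
  exact h3.comp_hasDerivAt t h2

theorem line2 (F : EC n → ℝ) (hF : ContDiff ℝ ∞ F) (g : ℂ → EC n) (hg : Differentiable ℂ g)
    (ζ e : ℂ) :
    HasDerivAt (fun t : ℝ => fderiv ℝ F (g (ζ + t * e)) (e • deriv g (ζ + t * e)))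
      (fderiv ℝ (fderiv ℝ F) (g ζ) (e • deriv g ζ) (e • deriv g ζ) +
        fderiv ℝ F (g ζ) ((e ^ 2) • deriv (deriv g) ζ)) 0 := by
  have h1 : HasDerivAt (fun t : ℝ => ζ + (t : ℂ) * e) e (0 : ℝ) := by
    have := ((Complex.ofRealCLM.hasDerivAt (x := (0 : ℝ))).mul_const e).const_add ζ
    simpa using this
  have hg1 : HasDerivAt g (deriv g ζ) (ζ + ((0 : ℝ) : ℂ) * e) := by
    simpa using (hg ζ).hasDerivAt
  have h2 : HasDerivAt (fun t : ℝ => g (ζ + (t : ℂ) * e)) (e • deriv g ζ) (0 : ℝ) := by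
    exact hg1.scomp (x := (0 : ℝ)) h1
  have hdg : Differentiable ℂ (deriv g) := by
    have := (hg.contDiff (n := 2)).differentiable_deriv_two
    exact this
  have hg2 : HasDerivAt (deriv g) (deriv (deriv g) ζ) (ζ + ((0 : ℝ) : ℂ) * e) := by
    simpa using (hdg ζ).hasDerivAt
  have h3 : HasDerivAt (fun t : ℝ => deriv g (ζ + (t : ℂ) * e)) (e • deriv (deriv g) ζ)
      (0 : ℝ) := by
    exact hg2.scomp (x := (0 : ℝ)) h1
  have h4 : HasDerivAt (fun t : ℝ => e • deriv g (ζ + (t : ℂ) * e))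
      ((e ^ 2) • deriv (deriv g) ζ) (0 : ℝ) := by
    have := h3.const_smul e
    rw [pow_two, mul_smul]
    exact this
  have hF2 : ContDiff ℝ 1 (fderiv ℝ F) := 
    (show ContDiff ℝ 2 F from mod_cast (contDiff_infty.1 hF 2)).fderiv_right (m := 1)
      (by norm_num)
  have h5 : HasFDerivAt (fderiv ℝ F) (fderiv ℝ (fderiv ℝ F) (g ζ)) (g (ζ + ((0 : ℝ) : ℂ) * e)) := by
    simpa using ((hF2.differentiable (by simp)) (g ζ)).hasFDerivAt
  have h6 : HasDerivAt (fun t : ℝ => fderiv ℝ F (g (ζ + (t : ℂ) * e)))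
      (fderiv ℝ (fderiv ℝ F) (g ζ) (e • deriv g ζ)) (0 : ℝ) := by
    exact h5.comp_hasDerivAt (0 : ℝ) h2
  have h7 := h6.clm_apply h4
  simpa using h7

/-- the maximum principle on the unit disc for the composition of a smooth function with
nonnegative Levi form with an entire map -/
theorem maxprinc (F : EC n → ℝ) (hF : ContDiff ℝ ∞ F) (g : ℂ → EC n) (hg : Differentiable ℂ g)
    (hL : ∀ ζ : ℂ, ‖ζ‖ ≤ 1 → ∀ w, 0 ≤ Lev F (g ζ) w) (M : ℝ)
    (hM : ∀ ζ : ℂ, ‖ζ‖ = 1 → F (g ζ) ≤ M) (ζ : ℂ) (hζ : ‖ζ‖ ≤ 1) : F (g ζ) ≤ M := by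
  refine le_of_forall_pos_le_add fun ε hε => ?_
  have hcont : Continuous (fun ζ : ℂ => F (g ζ) + ε * Complex.normSq ζ) :=
    (hF.continuous.comp hg.continuous).add (continuous_const.mul Complex.continuous_normSq)
  obtain ⟨ζ0, hζ0, hmax⟩ := (isCompact_closedBall (0 : ℂ) 1).exists_isMaxOn
    ⟨0, by simp⟩ hcont.continuousOn
  have hζ0' : ‖ζ0‖ ≤ 1 := by simpa using hζ0
  have hζc : ζ ∈ Metric.closedBall (0 : ℂ) 1 := by simpa using hζ
  have hle := hmax hζc
  simp only [Set.mem_ofPred_eq] at hle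
  rcases lt_or_eq_of_le hζ0' with hlt | heq
  · exfalso
    have hloc : IsLocalMax (fun ζ : ℂ => F (g ζ) + ε * Complex.normSq ζ) ζ0 := by
      refine hmax.isLocalMax ?_
      exact Filter.mem_of_superset (Metric.isOpen_ball.mem_nhds (by simpa using hlt))
        Metric.ball_subset_closedBall
    have key : ∀ e : ℂ, fderiv ℝ (fderiv ℝ F) (g ζ0) (e • deriv g ζ0) (e • deriv g ζ0) +
        fderiv ℝ F (g ζ0) ((e ^ 2) • deriv (deriv g) ζ0) + ε * (2 * Complex.normSq e) ≤ 0 := by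
      intro e
      refine secondTest (fun t : ℝ => F (g (ζ0 + t * e)) + ε * Complex.normSq (ζ0 + t * e))
        (fun t : ℝ => fderiv ℝ F (g (ζ0 + t * e)) (e • deriv g (ζ0 + t * e)) +
          ε * (2 * (ζ0.re * e.re + ζ0.im * e.im) + 2 * t * Complex.normSq e)) _ ?_ ?_ ?_
      · intro t
        have h1 := line1 F hF g hg ζ0 e t
        have h2 : HasDerivAt (fun t : ℝ => ε * Complex.normSq (ζ0 + t * e))
            (ε * (2 * (ζ0.re * e.re + ζ0.im * e.im) + 2 * t * Complex.normSq e)) t := by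
          have h3 : (fun t : ℝ => ε * Complex.normSq (ζ0 + t * e)) = fun t : ℝ =>
              ε * (Complex.normSq ζ0 + t * (2 * (ζ0.re * e.re + ζ0.im * e.im)) +
                t ^ 2 * Complex.normSq e) := by
            funext t
            simp only [Complex.normSq_apply, Complex.add_re, Complex.add_im, Complex.mul_re,
              Complex.mul_im, Complex.ofReal_re, Complex.ofReal_im]
            ring
          rw [h3]
          refine HasDerivAt.const_mul ε ?_
          have h4 := (((hasDerivAt_id' t).mul_const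
            (2 * (ζ0.re * e.re + ζ0.im * e.im))).const_add (Complex.normSq ζ0)).add
            ((hasDerivAt_pow 2 t).mul_const (Complex.normSq e))
          refine h4.congr_deriv ?_
          simp
        exact h1.add h2
      · have h1 := line2 F hF g hg ζ0 e
        have h2 : HasDerivAt (fun t : ℝ => ε * (2 * (ζ0.re * e.re + ζ0.im * e.im) +
            2 * t * Complex.normSq e)) (ε * (2 * Complex.normSq e)) (0 : ℝ) := by
          refine HasDerivAt.const_mul ε ?_
          have h4 := ((((hasDerivAt_id' (0 : ℝ)).const_mul 2).mul_const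
            (Complex.normSq e))).const_add (2 * (ζ0.re * e.re + ζ0.im * e.im))
          refine h4.congr_deriv ?_
          simp
        exact h1.add h2
      · have hc : Filter.Tendsto (fun t : ℝ => ζ0 + (t : ℂ) * e) (𝓝 0) (𝓝 ζ0) := by
          have : Continuous (fun t : ℝ => ζ0 + (t : ℂ) * e) := by fun_prop
          simpa using this.tendsto 0
        have := hc.eventually hloc
        filter_upwards [this] with t ht
        simpa using ht
    have k1 := key 1
    have k2 := key Complex.I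
    have hLL := hL ζ0 hζ0' (deriv g ζ0)
    unfold Lev at hLL
    simp only [one_smul, one_pow, Complex.I_sq, neg_smul, map_neg, Complex.normSq_one,
      Complex.normSq_I] at k1 k2
    linarith
  · have h1 : Complex.normSq ζ0 = 1 := by
      rw [Complex.normSq_eq_norm_sq, heq]; norm_num
    have h2 := hM ζ0 heq
    have h3 : 0 ≤ ε * Complex.normSq ζ := mul_nonneg hε.le (Complex.normSq_nonneg _)
    rw [h1] at hle
    linarith

/-- the maximum principle for continuous functions with the sub mean value property -/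
theorem maxprinc' (hS : SmoothApprox n) (Ω : Set (EC n)) (φ : EC n → ℝ) (hΩ : IsOpen Ω)
    (hφ : ContinuousOn φ Ω) (hsm : SubMean Ω φ) (g : ℂ → EC n) (hg : Differentiable ℂ g)
    (hsub : ∀ ζ : ℂ, ‖ζ‖ ≤ 1 → g ζ ∈ Ω) (M : ℝ)
    (hM : ∀ ζ : ℂ, ‖ζ‖ = 1 → φ (g ζ) ≤ M) (ζ : ℂ) (hζ : ‖ζ‖ ≤ 1) : φ (g ζ) ≤ M := by
  refine le_of_forall_pos_le_add fun ε hε => ?_
  have hK : IsCompact (g '' Metric.closedBall 0 1) :=
    (isCompact_closedBall (0 : ℂ) 1).image hg.continuous
  have hKs : g '' Metric.closedBall 0 1 ⊆ Ω := by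
    rintro _ ⟨ξ, hξ, rfl⟩
    exact hsub ξ (by simpa using hξ)
  obtain ⟨F, hF, hFa, hFL⟩ := hS Ω φ hΩ hφ hsm _ hK hKs (ε / 2) (by linarith)
  have hmem : ∀ ξ : ℂ, ‖ξ‖ ≤ 1 → g ξ ∈ g '' Metric.closedBall 0 1 := fun ξ hξ =>
    ⟨ξ, by simpa using hξ, rfl⟩
  have h1 := maxprinc F hF g hg (fun ξ hξ w => hFL _ (hmem ξ hξ) w) (M + ε / 2)
    (fun ξ hξ => by
      have := abs_le.1 (hFa _ (hmem ξ hξ.le))
      have := hM ξ hξ
      linarith [this, (abs_le.1 (hFa _ (hmem ξ hξ.le))).2]) ζ hζ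
  have h2 := (abs_le.1 (hFa _ (hmem ζ hζ))).1
  linarith

/-- the continuity principle -/
theorem kont (hS : SmoothApprox n) (Ω : Set (EC n)) (φ : EC n → ℝ) (hΩ : IsOpen Ω)
    (hφ : ContinuousOn φ Ω) (hcpt : ∀ c : ℝ, IsCompact {z | z ∈ Ω ∧ φ z ≤ c})
    (hsm : SubMean Ω φ) (g : ℝ → ℂ → EC n)
    (hgc : Continuous (fun p : ℝ × ℂ => g p.1 p.2))
    (hg : ∀ s, Differentiable ℂ (g s))
    (h0 : ∀ ζ : ℂ, ‖ζ‖ ≤ 1 → g 0 ζ ∈ Ω)
    (hb : ∀ s ∈ Icc (0 : ℝ) 1, ∀ ζ : ℂ, ‖ζ‖ = 1 → g s ζ ∈ Ω) :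
    ∀ s ∈ Icc (0 : ℝ) 1, ∀ ζ : ℂ, ‖ζ‖ ≤ 1 → g s ζ ∈ Ω := by
  have hKb : IsCompact ((fun p : ℝ × ℂ => g p.1 p.2) '' (Icc (0 : ℝ) 1 ×ˢ Metric.sphere 0 1)) :=
    (isCompact_Icc.prod (isCompact_sphere 0 1)).image hgc
  have hKbs : (fun p : ℝ × ℂ => g p.1 p.2) '' (Icc (0 : ℝ) 1 ×ˢ Metric.sphere 0 1) ⊆ Ω := by
    rintro _ ⟨⟨s, ζ⟩, ⟨hs, hζ⟩, rfl⟩
    exact hb s hs ζ (by simpa using hζ)
  obtain ⟨M, hM⟩ := (hKb.bddAbove_image (hφ.mono hKbs))
  have hM' : ∀ s ∈ Icc (0 : ℝ) 1, ∀ ζ : ℂ, ‖ζ‖ = 1 → φ (g s ζ) ≤ M := by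
    intro s hs ζ hζ
    exact hM ⟨g s ζ, ⟨(s, ζ), ⟨hs, by simpa using hζ⟩, rfl⟩, rfl⟩
  set L : Set (EC n) := {z | z ∈ Ω ∧ φ z ≤ M} with hLdef
  have hLc : IsClosed L := (hcpt M).isClosed
  have step : ∀ s ∈ Icc (0 : ℝ) 1, (∀ ζ : ℂ, ‖ζ‖ ≤ 1 → g s ζ ∈ Ω) →
      ∀ ζ : ℂ, ‖ζ‖ ≤ 1 → g s ζ ∈ L := by
    intro s hs hsub ζ hζ
    exact ⟨hsub ζ hζ, maxprinc' hS Ω φ hΩ hφ hsm (g s) (hg s) hsub M (hM' s hs) ζ hζ⟩
  set S : Set ℝ := {s | ∀ ζ : ℂ, ‖ζ‖ ≤ 1 → g s ζ ∈ L} with hSdef
  have hScl : IsClosed S := by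
    have : S = ⋂ ζ : ℂ, ⋂ _ : ‖ζ‖ ≤ 1, (fun s => g s ζ) ⁻¹' L := by
      ext s; simp [hSdef]
    rw [this]
    refine isClosed_iInter fun ζ => isClosed_iInter fun _ => ?_
    refine hLc.preimage ?_
    exact hgc.comp (Continuous.prodMk continuous_id continuous_const)
  have hall : Icc (0 : ℝ) 1 ⊆ S := by
    refine (hScl.inter isClosed_Icc).Icc_subset_of_forall_mem_nhdsWithin ?_ ?_
    · exact step 0 (by simp) h0
    · rintro x ⟨hxS, hx0, hx1⟩
      have hev : ∀ᶠ s in 𝓝 x, ∀ ζ ∈ Metric.closedBall (0 : ℂ) 1, g s ζ ∈ Ω := by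
        refine (isCompact_closedBall (0 : ℂ) 1).eventually_forall_of_forall_eventually ?_
        intro ζ hζ
        have : g x ζ ∈ Ω := (hxS ζ (by simpa using hζ)).1
        exact (hgc.tendsto (x, ζ)).eventually (hΩ.mem_nhds this)
      have h2 : ∀ᶠ s in 𝓝[>] x, s ∈ Icc (0 : ℝ) 1 := by
        have h3 : ∀ᶠ s in 𝓝[>] x, s < 1 := (eventually_lt_nhds hx1).filter_mono nhdsWithin_le_nhds
        filter_upwards [h3, self_mem_nhdsWithin] with s hs1 hs2
        exact ⟨hx0.trans (le_of_lt hs2), hs1.le⟩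
      filter_upwards [hev.filter_mono nhdsWithin_le_nhds, h2] with s hs hs'
      exact step s hs' (fun ζ hζ => hs ζ (by simpa using hζ))
  intro s hs ζ hζ
  exact (hall hs ζ hζ).1

/-- uniform approximation on the unit circle by real parts of polynomials -/
theorem circleApprox (u : ℂ → ℝ) (hu : ContinuousOn u (Metric.sphere 0 1)) (η : ℝ)
    (hη : 0 < η) : ∃ P : Polynomial ℂ, ∀ ζ : ℂ, ‖ζ‖ = 1 → |(P.eval ζ).re - u ζ| ≤ η := by
  have : Fact (0 < 2 * Real.pi) := ⟨by positivity⟩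
  have hUc : Continuous (fun x : AddCircle (2 * Real.pi) =>
      ((u ((AddCircle.toCircle x : Circle) : ℂ) : ℝ) : ℂ)) := by
    refine Complex.continuous_ofReal.comp ?_
    refine hu.comp_continuous (continuous_subtype_val.comp AddCircle.continuous_toCircle) ?_
    intro x
    simp
  set U : C(AddCircle (2 * Real.pi), ℂ) := ⟨_, hUc⟩ with hU
  have hmem : U ∈ (Submodule.span ℂ (range <| @fourier (2 * Real.pi))).topologicalClosure := by
    rw [span_fourier_closure_eq_top]; trivial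
  have hmem' : U ∈ closure ((Submodule.span ℂ (range <| @fourier (2 * Real.pi)) :
      Submodule ℂ C(AddCircle (2 * Real.pi), ℂ)) : Set C(AddCircle (2 * Real.pi), ℂ)) := hmem
  obtain ⟨g, hg, hgd⟩ := Metric.mem_closure_iff.1 hmem' η hη
  have key : ∃ P Q : Polynomial ℂ, ∀ x : AddCircle (2 * Real.pi),
      g x = P.eval ((AddCircle.toCircle x : Circle) : ℂ) +
        (starRingEnd ℂ) (Q.eval ((AddCircle.toCircle x : Circle) : ℂ)) := by
    refine Submodule.span_induction (p := fun (g : C(AddCircle (2 * Real.pi), ℂ)) _ =>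
      ∃ P Q : Polynomial ℂ, ∀ x : AddCircle (2 * Real.pi),
      g x = P.eval ((AddCircle.toCircle x : Circle) : ℂ) +
        (starRingEnd ℂ) (Q.eval ((AddCircle.toCircle x : Circle) : ℂ))) ?_ ?_ ?_ ?_ hg
    · rintro _ ⟨k, rfl⟩
      rcases Int.eq_nat_or_neg k with ⟨m, rfl | rfl⟩
      · refine ⟨Polynomial.X ^ m, 0, fun x => ?_⟩
        simp [fourier_apply, AddCircle.toCircle_nsmul]
      · refine ⟨0, Polynomial.X ^ m, fun x => ?_⟩
        rw [fourier_neg]
        simp [fourier_apply, AddCircle.toCircle_nsmul]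
    · exact ⟨0, 0, fun x => by simp⟩
    · rintro f1 f2 _ _ ⟨P1, Q1, h1⟩ ⟨P2, Q2, h2⟩
      refine ⟨P1 + P2, Q1 + Q2, fun x => ?_⟩
      simp only [ContinuousMap.add_apply, h1, h2, Polynomial.eval_add, map_add]
      ring
    · rintro c f _ ⟨P, Q, h⟩
      refine ⟨Polynomial.C c * P, Polynomial.C ((starRingEnd ℂ) c) * Q, fun x => ?_⟩
      simp only [ContinuousMap.smul_apply, h, Polynomial.eval_mul, Polynomial.eval_C, map_mul,
        Complex.conj_conj, smul_eq_mul]
      ring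
  obtain ⟨P, Q, hPQ⟩ := key
  refine ⟨P + Q, fun ζ hζ => ?_⟩
  obtain ⟨θ, hθ⟩ : ∃ θ : ℝ, ζ = Complex.exp (θ * Complex.I) := by
    refine ⟨Complex.arg ζ, ?_⟩
    have := Complex.norm_mul_exp_arg_mul_I ζ
    rw [hζ] at this
    simpa using this.symm
  set x : AddCircle (2 * Real.pi) := (θ : AddCircle (2 * Real.pi)) with hx
  have hxζ : ((AddCircle.toCircle x : Circle) : ℂ) = ζ := by
    rw [hx, AddCircle.toCircle_apply_mk, Circle.coe_exp, hθ]
    congr 2
    have : (2 * Real.pi / (2 * Real.pi) : ℝ) = 1 := div_self (by positivity)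
    rw [this, one_mul]
  have h1 : dist (U x) (g x) < η := lt_of_le_of_lt (ContinuousMap.dist_apply_le_dist x) hgd
  rw [dist_comm, dist_eq_norm] at h1
  have h2 : |(g x - U x).re| ≤ η := (Complex.abs_re_le_norm _).trans h1.le
  rw [hPQ x, hxζ] at h2
  have h3 : U x = ((u ζ : ℝ) : ℂ) := by
    rw [hU]; simp only [ContinuousMap.coe_mk, hxζ]
  rw [h3] at h2
  simpa using h2

/-- mean value property for real parts of polynomials -/
theorem meanPoly (P : Polynomial ℂ) :
    (P.eval 0).re = (2 * Real.pi)⁻¹ * ∫ θ in Set.Ioc (0 : ℝ) (2 * Real.pi),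
      (P.eval (Complex.exp ((θ : ℂ) * Complex.I))).re := by
  have h1 : Real.circleAverage (fun ζ : ℂ => P.eval ζ) 0 1 = P.eval 0 := by
    have hd : Differentiable ℂ (fun ζ : ℂ => P.eval ζ) := P.differentiable
    exact DiffContOnCl.circleAverage (hd.diffContOnCl)
  rw [Real.circleAverage_def] at h1
  have h2 : (∫ θ in (0 : ℝ)..2 * Real.pi, P.eval (circleMap 0 1 θ)).re =
      ∫ θ in (0 : ℝ)..2 * Real.pi, (P.eval (circleMap 0 1 θ)).re := by
    have hI : IntervalIntegrable (fun θ => P.eval (circleMap 0 1 θ)) volume 0 (2 * Real.pi) := by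
      apply Continuous.intervalIntegrable
      exact P.continuous.comp (continuous_circleMap 0 1)
    have := (Complex.reCLM.intervalIntegral_comp_comm hI)
    simpa using this.symm
  rw [← h1, Complex.smul_re, h2, intervalIntegral.integral_of_le (by positivity), smul_eq_mul]
  simp [circleMap_zero]

end M3c

/-- Oka's lemma -/
theorem oka (n : ℕ) (hS : SmoothApprox n) : OkaLemma n := by
  intro Ω φ hΩ hne hφ hcpt hsm z hz w hdisc
  have hcl : IsClosed Ωᶜ := hΩ.isClosed_compl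
  have hpos : ∀ y ∈ Ω, 0 < Metric.infDist y Ωᶜ := by
    intro y hy
    exact (hcl.notMem_iff_infDist_pos hne).1 (fun h => h hy)
  set δ : EC n → ℝ := fun y => Metric.infDist y Ωᶜ with hδ
  have hδc : Continuous δ := Metric.continuous_infDist_pt _
  set u : ℂ → ℝ := fun ζ => -Real.log (δ (z + ζ • w)) with hu
  have huc : ContinuousOn u (Metric.closedBall 0 1) := by
    refine ContinuousOn.neg (ContinuousOn.log ?_ ?_)
    · exact (hδc.comp (by fun_prop)).continuousOn
    · intro ζ hζ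
      exact (hpos _ (hdisc ζ (by simpa using hζ))).ne'
  have hucs : ContinuousOn u (Metric.sphere 0 1) := huc.mono Metric.sphere_subset_closedBall
  -- main claim
  have main : ∀ P : Polynomial ℂ, (∀ ζ : ℂ, ‖ζ‖ = 1 → u ζ < (P.eval ζ).re) →
      -Real.log (δ z) ≤ (P.eval 0).re := by
    intro P hP
    have hk : ∀ v : EC n, ‖v‖ ≤ 1 → z + (Complex.exp (-(P.eval 0))) • v ∈ Ω := by
      intro v hv
      have := M3c.kont hS Ω φ hΩ hφ hcpt hsm
        (fun s ζ => z + ζ • w + ((s : ℂ) * Complex.exp (-(P.eval ζ))) • v) ?_ ?_ ?_ ?_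
        1 (by simp) 0 (by simp)
      · simpa using this
      · have hPc : Continuous (fun ζ : ℂ => P.eval ζ) := P.continuous
        have h1 : Continuous (fun p : ℝ × ℂ => P.eval p.2) := hPc.comp continuous_snd
        fun_prop
      · intro s
        have hPd : Differentiable ℂ (fun ζ : ℂ => P.eval ζ) := P.differentiable
        fun_prop
      · intro ζ hζ
        simpa using hdisc ζ hζ
      · intro s hs ζ hζ
        have h1 := hP ζ hζ
        have h2 : Real.exp (-(P.eval ζ).re) < δ (z + ζ • w) := by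
          have h3 := hpos _ (hdisc ζ hζ.le)
          rw [← Real.lt_log_iff_exp_lt h3]
          simp only [hu] at h1
          linarith
        by_contra hnot
        have h4 : δ (z + ζ • w) ≤ dist (z + ζ • w)
            (z + ζ • w + ((s : ℂ) * Complex.exp (-(P.eval ζ))) • v) :=
          Metric.infDist_le_dist_of_mem hnot
        rw [dist_eq_norm, sub_add_cancel_left, norm_neg, norm_smul, norm_mul, Complex.norm_real,
          Complex.norm_exp, Complex.neg_re] at h4
        have h5 : ‖s‖ ≤ 1 := by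
          rw [Real.norm_eq_abs, abs_of_nonneg hs.1]; exact hs.2
        have h6 : ‖s‖ * Real.exp (-(P.eval ζ).re) * ‖v‖ ≤ 1 * Real.exp (-(P.eval ζ).re) * 1 := by
          gcongr
        linarith
    have h1 : Real.exp (-(P.eval 0).re) ≤ δ z := by
      refine (Metric.le_infDist hne).2 fun y hy => ?_
      by_contra hlt
      push Not at hlt
      have h2 := hk ((Complex.exp (P.eval 0)) • (y - z)) ?_
      · rw [smul_smul, ← Complex.exp_add, neg_add_cancel, Complex.exp_zero, one_smul] at h2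
        exact hy (by simpa using h2)
      · rw [norm_smul, Complex.norm_exp, ← dist_eq_norm, dist_comm]
        have h3 : Real.exp ((P.eval 0).re) * dist z y ≤
            Real.exp ((P.eval 0).re) * Real.exp (-(P.eval 0).re) := by gcongr
        rwa [← Real.exp_add, add_neg_cancel, Real.exp_zero] at h3
    have h2 := (Real.le_log_iff_exp_le (hpos z hz)).2 h1
    linarith
  -- conclusion
  refine le_of_forall_pos_le_add fun η hη => ?_
  obtain ⟨P, hP⟩ := M3c.circleApprox (fun ζ => u ζ + η / 2) (hucs.add continuousOn_const) (η / 4)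
    (by linarith)
  have h1 := main P (fun ζ hζ => by
    have := (abs_le.1 (hP ζ hζ)).1
    linarith)
  refine h1.trans ?_
  rw [M3c.meanPoly P]
  have hexp : ∀ θ : ℝ, ‖Complex.exp ((θ : ℂ) * Complex.I)‖ = 1 := fun θ => by
    rw [Complex.norm_exp]; simp
  have hcexp : Continuous (fun θ : ℝ => Complex.exp ((θ : ℂ) * Complex.I)) := by fun_prop
  have hui : Continuous (fun θ : ℝ => u (Complex.exp ((θ : ℂ) * Complex.I))) :=
    hucs.comp_continuous hcexp (fun θ => by simp)
  have hPi : Continuous (fun θ : ℝ => (P.eval (Complex.exp ((θ : ℂ) * Complex.I))).re) :=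
    Complex.continuous_re.comp (P.continuous.comp hcexp)
  have h2 : ∫ θ in Set.Ioc (0 : ℝ) (2 * Real.pi),
      (P.eval (Complex.exp ((θ : ℂ) * Complex.I))).re ≤
      ∫ θ in Set.Ioc (0 : ℝ) (2 * Real.pi), (u (Complex.exp ((θ : ℂ) * Complex.I)) + η) := by
    refine integral_mono ?_ ?_ ?_
    · exact (hPi.integrableOn_Icc (a := 0) (b := 2 * Real.pi)).mono_set Ioc_subset_Icc_self
    · exact ((hui.add continuous_const).integrableOn_Icc (a := 0) (b := 2 * Real.pi)).mono_set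
        Ioc_subset_Icc_self
    · intro θ
      have := (abs_le.1 (hP _ (hexp θ))).2
      simp only
      linarith
  rw [integral_add] at h2
  · have h3 : ∫ θ in Set.Ioc (0 : ℝ) (2 * Real.pi), η = 2 * Real.pi * η := by
      simp [Real.volume_real_Ioc_of_le (show (0 : ℝ) ≤ 2 * Real.pi by positivity)]
    rw [h3] at h2
    have h4 : (2 * Real.pi)⁻¹ * ∫ θ in Set.Ioc (0 : ℝ) (2 * Real.pi),
        (P.eval (Complex.exp ((θ : ℂ) * Complex.I))).re ≤
        (2 * Real.pi)⁻¹ * ((∫ θ in Set.Ioc (0 : ℝ) (2 * Real.pi),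
          u (Complex.exp ((θ : ℂ) * Complex.I))) + 2 * Real.pi * η) := by
      gcongr
    refine h4.trans (le_of_eq ?_)
    rw [mul_add, ← mul_assoc, inv_mul_cancel₀ (by positivity), one_mul]
  · exact (hui.integrableOn_Icc (a := 0) (b := 2 * Real.pi)).mono_set Ioc_subset_Icc_self
  · exact (continuous_const.integrableOn_Icc (a := 0) (b := 2 * Real.pi)).mono_set
      Ioc_subset_Icc_self

end Pool.Agent.H92.Lip
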