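import Pool.Agent.H92.Lip.M5T

/-!
# M5, Riesz representation and Fubini
-/

set_option autoImplicit false
set_option linter.unusedSectionVars false

open MeasureTheory Set Filter Topology
open scoped ContDiff ENNReal ComplexConjugate

namespace Pool.Agent.H92.Lip.M5

theorem riesz_abs {T H : Type*} [AddCommGroup T] [Module ℂ T] [NormedAddCommGroup H]
    [InnerProductSpace ℂ H] [CompleteSpace H] (ι : T →ₗ[ℂ] H) (l : T →ₗ[ℂ] ℂ) (M : ℝ)
    (hM : 0 ≤ M) (h : ∀ t, ‖l t‖ ≤ M * ‖ι t‖) :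
    ∃ y : H, ‖y‖ ≤ M ∧ ∀ t, inner ℂ y (ι t) = l t := by
  obtain ⟨s, hs⟩ := ι.rangeRestrict.exists_rightInverse_of_surjective (LinearMap.range_rangeRestrict ι)
  have hs' : ∀ y : LinearMap.range ι, ι (s y) = y := by
    intro y
    have := LinearMap.congr_fun hs y
    have h2 := congrArg Subtype.val this
    simpa using h2
  have hl : ∀ t, l (s ⟨ι t, LinearMap.mem_range_self ι t⟩) = l t := by
    intro t
    have h1 := h (s ⟨ι t, LinearMap.mem_range_self ι t⟩ - t)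
    rw [map_sub, map_sub, hs'] at h1
    simp only [sub_self, norm_zero, mul_zero] at h1
    exact sub_eq_zero.mp (norm_le_zero_iff.mp h1)
  let f : LinearMap.range ι →L[ℂ] ℂ := (l ∘ₗ s).mkContinuous M (by
    intro y
    have := h (s y)
    rw [hs'] at this
    exact this)
  obtain ⟨g, hg, hgn⟩ := exists_extension_norm_eq (LinearMap.range ι) f
  refine ⟨(InnerProductSpace.toDual ℂ H).symm g, ?_, fun t ↦ ?_⟩
  · rw [LinearIsometryEquiv.norm_map, hgn]
    exact LinearMap.mkContinuous_norm_le _ hM _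
  · rw [InnerProductSpace.toDual_symm_apply]
    have := hg ⟨ι t, LinearMap.mem_range_self ι t⟩
    rw [this]
    exact hl t

theorem eLpNorm_two_toReal {α : Type*} [MeasurableSpace α] {μ : Measure α} {f : α → ℂ}
    (hf : MemLp f 2 μ) : (eLpNorm f 2 μ).toReal = √(∫ x, ‖f x‖ ^ 2 ∂μ) := by
  rw [hf.eLpNorm_eq_integral_rpow_norm (by norm_num) (by norm_num)]
  have : 0 ≤ ∫ x, ‖f x‖ ^ (2 : ℝ≥0∞).toReal ∂μ := integral_nonneg (fun x ↦ by positivity)
  rw [ENNReal.toReal_ofReal (by positivity)]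
  simp [Real.sqrt_eq_rpow]

section fubini

variable {E : Type*} [NormedAddCommGroup E] [NormedSpace ℝ E] [FiniteDimensional ℝ E]
  [MeasureSpace E] [BorelSpace E] [(volume : Measure E).IsAddHaarMeasure]

/-- the product measure on `E × (0,1]` -/
noncomputable def mu (E : Type*) [MeasureSpace E] : Measure (E × ℝ) :=
  (volume : Measure E).prod (volume.restrict (Ioc (0 : ℝ) 1))

/-- the shear map -/
def sh (ρ : ℝ) (q : (E × ℝ) × E) : E := q.2 - (q.1.2 * ρ) • q.1.1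

/-- the three-fold integrand -/
noncomputable def Phi (ζ : E → ℂ) (ρ : ℝ) (g ψ : E → ℂ) (q : (E × ℝ) × E) : ℂ :=
  ζ q.1.1 * ((ρ : ℂ) * (g (sh ρ q) * ψ q.2))

instance : SFinite (mu E) := by unfold mu; infer_instance

theorem sh_qmp (ρ : ℝ) : Measure.QuasiMeasurePreserving (sh ρ : (E × ℝ) × E → E)
    ((mu E).prod volume) volume := by
  refine QuasiMeasurePreserving.prod_of_right ?_ (Eventually.of_forall fun p ↦ ?_)
  · exact Continuous.measurable (by unfold sh; fun_prop)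
  · have : (fun y : E ↦ sh ρ (p, y)) = fun y ↦ y - (p.2 * ρ) • p.1 := rfl
    rw [this]
    exact (measurePreserving_sub_right volume _).quasiMeasurePreserving

theorem memLp_translate {g : E → ℂ} (hg : MemLp g 2 volume) (a : E) :
    MemLp (fun x ↦ g (x - a)) 2 volume :=
  hg.comp_measurePreserving (measurePreserving_sub_right volume a)

theorem integral_translate_sq (g : E → ℂ) (a : E) :
    ∫ x, ‖g (x - a)‖ ^ 2 = ∫ x, ‖g x‖ ^ 2 :=
  integral_sub_right_eq_self (fun x ↦ ‖g x‖ ^ 2) a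

theorem integrable_translate_mul {g ψ : E → ℂ} (hg : MemLp g 2 volume) (hψ : MemLp ψ 2 volume)
    (a : E) : Integrable (fun x ↦ g (x - a) * ψ x) :=
  (memLp_translate hg a).integrable_mul hψ

theorem norm_integral_translate_mul_le {g ψ : E → ℂ} (hg : MemLp g 2 volume)
    (hψ : MemLp ψ 2 volume) (a : E) :
    ∫ x, ‖g (x - a) * ψ x‖ ≤ √(∫ x, ‖g x‖ ^ 2) * √(∫ x, ‖ψ x‖ ^ 2) := by
  have := cauchy_schwarz (memLp_translate hg a) hψ
  rw [integral_translate_sq] at this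
  simpa only [norm_mul] using this

theorem integrable_zeta {ζ : E → ℂ} (hζ : Integrable ζ) : Integrable (fun p : E × ℝ ↦ ζ p.1) (mu E) := by
  have := hζ.mul_prod
    (integrable_const (1 : ℂ) : Integrable (fun _ : ℝ ↦ (1 : ℂ)) (volume.restrict (Ioc (0 : ℝ) 1)))
  simpa [mu] using this

theorem Phi_norm_integral_le {ζ : E → ℂ} {ρ : ℝ} (hρ : 0 < ρ) {g ψ : E → ℂ}
    (hg : MemLp g 2 volume) (hψ : MemLp ψ 2 volume) (p : E × ℝ) :
    ∫ x, ‖Phi ζ ρ g ψ (p, x)‖ ≤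
      ‖ζ p.1‖ * (ρ * (√(∫ x, ‖g x‖ ^ 2) * √(∫ x, ‖ψ x‖ ^ 2))) := by
  have h1 : ∀ x, ‖Phi ζ ρ g ψ (p, x)‖ =
      ‖ζ p.1‖ * (ρ * ‖g (x - (p.2 * ρ) • p.1) * ψ x‖) := by
    intro x
    simp only [Phi, sh]
    rw [norm_mul, norm_mul (ρ : ℂ), Complex.norm_real, Real.norm_of_nonneg hρ.le]
  simp_rw [h1]
  rw [integral_const_mul, integral_const_mul]
  gcongr
  exact norm_integral_translate_mul_le hg hψ _

theorem Phi_integrable {ζ : E → ℂ} (hζ : Integrable ζ) {ρ : ℝ} (hρ : 0 < ρ) {g ψ : E → ℂ}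
    (hg : MemLp g 2 volume) (hψ : MemLp ψ 2 volume) :
    Integrable (Phi ζ ρ g ψ) ((mu E).prod volume) := by
  have hm : AEStronglyMeasurable (Phi ζ ρ g ψ) ((mu E).prod volume) := by
    have h1 : AEStronglyMeasurable (fun q : (E × ℝ) × E ↦ ζ q.1.1) ((mu E).prod volume) :=
      (integrable_zeta hζ).aestronglyMeasurable.comp_fst
    have h2 : AEStronglyMeasurable (fun q : (E × ℝ) × E ↦ g (sh ρ q)) ((mu E).prod volume) :=
      hg.aestronglyMeasurable.comp_quasiMeasurePreserving (sh_qmp ρ)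
    have h3 : AEStronglyMeasurable (fun q : (E × ℝ) × E ↦ ψ q.2) ((mu E).prod volume) :=
      hψ.aestronglyMeasurable.comp_snd
    exact h1.mul ((h2.mul h3).const_mul _)
  rw [integrable_prod_iff hm]
  constructor
  · filter_upwards with p
    simp only [Phi, sh]
    exact ((integrable_translate_mul hg hψ _).const_mul _).const_mul _
  · refine Integrable.mono' ((integrable_zeta hζ).norm.mul_const
      (ρ * (√(∫ x, ‖g x‖ ^ 2) * √(∫ x, ‖ψ x‖ ^ 2)))) hm.norm.integral_prod_right' ?_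
    filter_upwards with p
    rw [Real.norm_of_nonneg (integral_nonneg fun x ↦ norm_nonneg _)]
    exact Phi_norm_integral_le hρ hg hψ p

/-- the bilinear form -/
noncomputable def B (ζ : E → ℂ) (ρ : ℝ) (g ψ : E → ℂ) : ℂ :=
  ∫ q, Phi ζ ρ g ψ q ∂((mu E).prod volume)

theorem B_eq {ζ : E → ℂ} (hζ : Integrable ζ) {ρ : ℝ} (hρ : 0 < ρ) {g ψ : E → ℂ}
    (hg : MemLp g 2 volume) (hψ : MemLp ψ 2 volume) : B ζ ρ g ψ =
      ∫ v, ζ v * ∫ τ in Ioc (0 : ℝ) 1, (ρ : ℂ) * ∫ x, g (x - (τ * ρ) • v) * ψ x := by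
  have hI := Phi_integrable hζ hρ hg hψ
  rw [B, integral_prod _ hI]
  unfold mu at hI ⊢
  rw [integral_prod _ hI.integral_prod_left]
  apply integral_congr_ae
  filter_upwards with v
  rw [← integral_const_mul]
  apply integral_congr_ae
  filter_upwards with τ
  simp only [Phi, sh]
  rw [← integral_const_mul, ← integral_const_mul]

theorem B_norm_le {ζ : E → ℂ} (hζ : Integrable ζ) {ρ : ℝ} (hρ : 0 < ρ) {g ψ : E → ℂ}
    (hg : MemLp g 2 volume) (hψ : MemLp ψ 2 volume) : ‖B ζ ρ g ψ‖ ≤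
      (∫ p, ‖ζ p.1‖ ∂(mu E)) * (ρ * (√(∫ x, ‖g x‖ ^ 2) * √(∫ x, ‖ψ x‖ ^ 2))) := by
  have hI := Phi_integrable hζ hρ hg hψ
  rw [B, integral_prod _ hI, ← integral_mul_const]
  refine norm_integral_le_of_norm_le ((integrable_zeta hζ).norm.mul_const _) ?_
  filter_upwards with p
  exact (norm_integral_le_integral_norm _).trans (Phi_norm_integral_le hρ hg hψ p)

theorem B_kop {ζ : E → ℂ} (hζ : Integrable ζ) {ρ : ℝ} (hρ : 0 < ρ) {g ψ : E → ℂ}
    (hg : MemLp g 2 volume) (hψ : MemLp ψ 2 volume) : B ζ ρ g ψ =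
      ∫ x, (∫ v, ζ v * ∫ τ in Ioc (0 : ℝ) 1, (ρ : ℂ) * g (x - (τ * ρ) • v)) * ψ x := by
  have hI := Phi_integrable hζ hρ hg hψ
  rw [B, integral_prod_symm _ hI]
  apply integral_congr_ae
  filter_upwards [hI.prod_left_ae] with x hx
  unfold mu at hx ⊢
  rw [integral_prod _ hx, ← integral_mul_const]
  apply integral_congr_ae
  filter_upwards with v
  rw [mul_assoc, ← integral_mul_const, ← integral_const_mul]
  apply integral_congr_ae
  filter_upwards with τ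
  simp only [Phi, sh]
  ring

theorem B_add_left {ζ : E → ℂ} (hζ : Integrable ζ) {ρ : ℝ} (hρ : 0 < ρ) {g₁ g₂ ψ : E → ℂ}
    (hg₁ : MemLp g₁ 2 volume) (hg₂ : MemLp g₂ 2 volume) (hψ : MemLp ψ 2 volume) :
    B ζ ρ (g₁ + g₂) ψ = B ζ ρ g₁ ψ + B ζ ρ g₂ ψ := by
  unfold B
  rw [← integral_add (Phi_integrable hζ hρ hg₁ hψ) (Phi_integrable hζ hρ hg₂ hψ)]
  apply integral_congr_ae
  filter_upwards with q
  simp only [Phi, Pi.add_apply]
  ring

theorem B_add_right {ζ : E → ℂ} (hζ : Integrable ζ) {ρ : ℝ} (hρ : 0 < ρ) {g ψ₁ ψ₂ : E → ℂ}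
    (hg : MemLp g 2 volume) (hψ₁ : MemLp ψ₁ 2 volume) (hψ₂ : MemLp ψ₂ 2 volume) :
    B ζ ρ g (ψ₁ + ψ₂) = B ζ ρ g ψ₁ + B ζ ρ g ψ₂ := by
  unfold B
  rw [← integral_add (Phi_integrable hζ hρ hg hψ₁) (Phi_integrable hζ hρ hg hψ₂)]
  apply integral_congr_ae
  filter_upwards with q
  simp only [Phi, Pi.add_apply]
  ring

theorem B_smul_right {ζ : E → ℂ} {ρ : ℝ} {g ψ : E → ℂ} (c : ℂ) :
    B ζ ρ g (c • ψ) = c * B ζ ρ g ψ := by
  unfold B
  rw [← integral_const_mul]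
  apply integral_congr_ae
  filter_upwards with q
  simp only [Phi, Pi.smul_apply, smul_eq_mul]
  ring

end fubini

end Pool.Agent.H92.Lip.M5
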