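import Pool.Agent.H92.Lip.Defs
import Pool.Agent.H92.Lip.M5R

/-!
# M5: `K_ρ` gains one derivative in `L²`, uniformly in `ρ`
-/

set_option autoImplicit false
set_option linter.unusedSectionVars false

open MeasureTheory Set Filter Topology
open scoped ContDiff ENNReal ComplexConjugate

namespace Pool.Agent.H92.Lip

namespace M5

section

variable {E : Type*} [NormedAddCommGroup E] [NormedSpace ℝ E] [FiniteDimensional ℝ E]
  [MeasureSpace E] [BorelSpace E] [(volume : Measure E).IsAddHaarMeasure]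

theorem memLp_test {χ : E → ℂ} (h : ContDiff ℝ ∞ χ) (hc : HasCompactSupport χ) :
    MemLp χ 2 volume := h.continuous.memLp_of_hasCompactSupport hc

theorem contDiff_fderiv_apply {χ : E → ℂ} (h : ContDiff ℝ ∞ χ) (e : E) :
    ContDiff ℝ ∞ (fun x ↦ fderiv ℝ χ x e) :=
  (h.fderiv_right (m := ∞) (by simp)).clm_apply contDiff_const

theorem hasCompactSupport_fderiv_apply {χ : E → ℂ} (hc : HasCompactSupport χ) (e : E) :
    HasCompactSupport (fun x ↦ fderiv ℝ χ x e) := hc.fderiv_apply ℝ e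

theorem memLp_fderiv_test {χ : E → ℂ} (h : ContDiff ℝ ∞ χ) (hc : HasCompactSupport χ) (e : E) :
    MemLp (fun x ↦ fderiv ℝ χ x e) 2 volume :=
  memLp_test (contDiff_fderiv_apply h e) (hasCompactSupport_fderiv_apply hc e)

/-- the estimate for all `g` in `L²` -/
theorem main_L2 {ζ : E → ℂ} (hζ : ContDiff ℝ ∞ ζ) (hζc : HasCompactSupport ζ) :
    ∃ C : ℝ, 0 ≤ C ∧ ∀ ρ : ℝ, 0 < ρ → ∀ e : E, ‖e‖ ≤ 1 → ∀ g χ : E → ℂ, MemLp g 2 volume →
      ContDiff ℝ ∞ χ → HasCompactSupport χ →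
      ‖B ζ ρ g (fun x ↦ fderiv ℝ χ x e)‖ ≤
        C * (eLpNorm g 2 volume).toReal * (eLpNorm χ 2 volume).toReal := by
  obtain ⟨C, hC, hmain⟩ := main_E ζ hζ hζc
  have hζi : Integrable ζ := hζ.continuous.integrable_of_hasCompactSupport hζc
  refine ⟨C, hC, fun ρ hρ e he g χ hg hχ hχc ↦ ?_⟩
  set ψ : E → ℂ := fun x ↦ fderiv ℝ χ x e with hψ
  have hψm : MemLp ψ 2 volume := memLp_fderiv_test hχ hχc e
  have hχm : MemLp χ 2 volume := memLp_test hχ hχc
  set A : ℝ := (∫ p, ‖ζ p.1‖ ∂(mu E)) * (ρ * (eLpNorm ψ 2 volume).toReal) with hA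
  have hA0 : 0 ≤ A := by
    have : 0 ≤ ∫ p, ‖ζ p.1‖ ∂(mu E) := integral_nonneg fun p ↦ norm_nonneg _
    positivity
  set X := (eLpNorm χ 2 volume).toReal with hX
  have hX0 : 0 ≤ X := ENNReal.toReal_nonneg
  -- approximate
  have key : ∀ ε : ℝ, 0 < ε → ‖B ζ ρ g ψ‖ ≤
      C * ((eLpNorm g 2 volume).toReal + ε) * X + A * ε := by
    intro ε hε
    obtain ⟨k, hkc, hk, hkε⟩ := hg.exist_eLpNorm_sub_le (by norm_num) (by norm_num) hε
    have hkm : MemLp k 2 volume := memLp_test hk hkc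
    have hd : MemLp (g - k) 2 volume := hg.sub hkm
    have hdε : (eLpNorm (g - k) 2 volume).toReal ≤ ε :=
      ENNReal.toReal_le_of_le_ofReal hε.le hkε
    have h1 : B ζ ρ g ψ = B ζ ρ k ψ + B ζ ρ (g - k) ψ := by
      rw [← B_add_left hζi hρ hkm hd hψm]
      congr 1
      abel
    have h2 : ‖B ζ ρ k ψ‖ ≤ C * (eLpNorm k 2 volume).toReal * X := by
      rw [B_eq hζi hρ hkm hψm, eLpNorm_two_toReal hkm, hX, eLpNorm_two_toReal hχm]
      exact hmain ρ hρ e he k χ hk hkc hχ hχc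
    have h3 : ‖B ζ ρ (g - k) ψ‖ ≤ A * (eLpNorm (g - k) 2 volume).toReal := by
      have := B_norm_le hζi hρ hd hψm
      rw [← eLpNorm_two_toReal hd, ← eLpNorm_two_toReal hψm] at this
      refine this.trans_eq ?_
      rw [hA]
      ring
    have h4 : (eLpNorm k 2 volume).toReal ≤ (eLpNorm g 2 volume).toReal + ε := by
      have h5 : eLpNorm k 2 volume ≤ eLpNorm g 2 volume + eLpNorm (k - g) 2 volume := by
        have h6 : k = g + (k - g) := by abel
        conv_lhs => rw [h6]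
        exact eLpNorm_add_le hg.aestronglyMeasurable (hkm.sub hg).aestronglyMeasurable
          (by norm_num)
      have h7 : (eLpNorm (k - g) 2 volume).toReal ≤ ε := by
        rw [eLpNorm_sub_comm]; exact hdε
      have h8 := ENNReal.toReal_mono
        (ENNReal.add_ne_top.2 ⟨hg.eLpNorm_ne_top, (hkm.sub hg).eLpNorm_ne_top⟩) h5
      rw [ENNReal.toReal_add hg.eLpNorm_ne_top (hkm.sub hg).eLpNorm_ne_top] at h8
      linarith
    rw [h1]
    calc ‖B ζ ρ k ψ + B ζ ρ (g - k) ψ‖ ≤ ‖B ζ ρ k ψ‖ + ‖B ζ ρ (g - k) ψ‖ := norm_add_le _ _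
      _ ≤ C * (eLpNorm k 2 volume).toReal * X + A * (eLpNorm (g - k) 2 volume).toReal :=
        add_le_add h2 h3
      _ ≤ _ := by gcongr
  refine le_of_forall_pos_le_add fun δ hδ ↦ ?_
  have h9 := key (δ / (C * X + A + 1)) (by positivity)
  refine h9.trans ?_
  have h10 : (C * X + A) * (δ / (C * X + A + 1)) ≤ δ := by
    rw [mul_div_assoc', div_le_iff₀ (by positivity)]
    nlinarith [mul_nonneg hC hX0]
  calc _ = C * (eLpNorm g 2 volume).toReal * X + (C * X + A) * (δ / (C * X + A + 1)) := by ring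
    _ ≤ _ := by gcongr

/-- the space of test functions -/
def TS (E : Type*) [NormedAddCommGroup E] [NormedSpace ℝ E] : Submodule ℂ (E → ℂ) where
  carrier := {χ | ContDiff ℝ ∞ χ ∧ HasCompactSupport χ}
  add_mem' := fun {a b} ha hb ↦ ⟨ha.1.add hb.1, ha.2.add hb.2⟩
  zero_mem' := ⟨contDiff_const, HasCompactSupport.zero⟩
  smul_mem' := fun c {a} ha ↦ ⟨contDiff_const.smul ha.1, ha.2.smul_left⟩

/-- the map to `L²` -/
noncomputable def iota (E : Type*) [NormedAddCommGroup E] [NormedSpace ℝ E]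
    [FiniteDimensional ℝ E] [MeasureSpace E] [BorelSpace E]
    [(volume : Measure E).IsAddHaarMeasure] : TS E →ₗ[ℂ] Lp ℂ 2 (volume : Measure E) where
  toFun χ := (memLp_test χ.2.1 χ.2.2).toLp χ.1
  map_add' χ₁ χ₂ := rfl
  map_smul' c χ := rfl

/-- the functional -/
noncomputable def ell {ζ : E → ℂ} (hζ : Integrable ζ) {ρ : ℝ} (hρ : 0 < ρ) {g : E → ℂ}
    (hg : MemLp g 2 volume) (e : E) : TS E →ₗ[ℂ] ℂ where
  toFun χ := B ζ ρ g (fun x ↦ fderiv ℝ χ.1 x e)
  map_add' χ₁ χ₂ := by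
    rw [← B_add_right hζ hρ hg (memLp_fderiv_test χ₁.2.1 χ₁.2.2 e)
      (memLp_fderiv_test χ₂.2.1 χ₂.2.2 e)]
    congr 1
    funext x
    simp only [Submodule.coe_add, Pi.add_apply]
    rw [fderiv_add (χ₁.2.1.differentiable (by simp) x) (χ₂.2.1.differentiable (by simp) x)]
    rfl
  map_smul' c χ := by
    simp only [RingHom.id_apply, smul_eq_mul]
    rw [← B_smul_right]
    congr 1
    funext x
    simp only [Submodule.coe_smul, Pi.smul_apply]
    rw [fderiv_const_smul (χ.2.1.differentiable (by simp) x)]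
    rfl

theorem grad_main {ζ : E → ℂ} (hζ : ContDiff ℝ ∞ ζ) (hζc : HasCompactSupport ζ) :
    ∃ C : ℝ, 0 ≤ C ∧ ∀ ρ : ℝ, 0 < ρ → ∀ e : E, ‖e‖ ≤ 1 → ∀ g : E → ℂ, MemLp g 2 volume →
      ∃ h : E → ℂ, MemLp h 2 volume ∧
        eLpNorm h 2 volume ≤ ENNReal.ofReal C * eLpNorm g 2 volume ∧
        ∀ χ : E → ℂ, ContDiff ℝ ∞ χ → HasCompactSupport χ →
          ∫ x, (∫ v, ζ v * ∫ τ in Ioc (0 : ℝ) 1, (ρ : ℂ) * g (x - (τ * ρ) • v)) *
            fderiv ℝ χ x e = - ∫ x, h x * χ x := by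
  obtain ⟨C, hC, hmain⟩ := main_L2 hζ hζc
  have hζi : Integrable ζ := hζ.continuous.integrable_of_hasCompactSupport hζc
  refine ⟨C, hC, fun ρ hρ e he g hg ↦ ?_⟩
  have hM : 0 ≤ C * (eLpNorm g 2 volume).toReal := by positivity
  obtain ⟨y, hy, hyt⟩ := riesz_abs (iota E) (ell hζi hρ hg e) (C * (eLpNorm g 2 volume).toReal) hM
    (fun χ ↦ by
      have := hmain ρ hρ e he g χ.1 hg χ.2.1 χ.2.2
      refine this.trans_eq ?_
      congr 1
      change _ = ‖(memLp_test χ.2.1 χ.2.2).toLp χ.1‖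
      rw [Lp.norm_toLp])
  refine ⟨fun x ↦ - conj (y x), (Lp.memLp y).star.neg, ?_, fun χ hχ hχc ↦ ?_⟩
  · have h1 : eLpNorm (fun x ↦ - conj (y x)) 2 volume = eLpNorm y 2 volume := by
      apply eLpNorm_congr_norm_ae
      filter_upwards with x
      simp
    rw [h1, ← ENNReal.ofReal_toReal hg.eLpNorm_ne_top, ← ENNReal.ofReal_mul hC,
      ← ENNReal.ofReal_toReal (Lp.memLp y).eLpNorm_ne_top]
    apply ENNReal.ofReal_le_ofReal
    rw [Lp.norm_def] at hy
    exact hy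
  · rw [← B_kop hζi hρ hg (memLp_fderiv_test hχ hχc e)]
    have h2 := hyt ⟨χ, hχ, hχc⟩
    have h3 : ell hζi hρ hg e ⟨χ, hχ, hχc⟩ = B ζ ρ g (fun x ↦ fderiv ℝ χ x e) := rfl
    rw [← h3, ← h2, L2.inner_def, ← integral_neg]
    have h4 := (memLp_test hχ hχc).coeFn_toLp
    apply integral_congr_ae
    filter_upwards [h4] with x hx
    have h5 : (iota E ⟨χ, hχ, hχc⟩ : Lp ℂ 2 (volume : Measure E)) x = χ x := hx
    rw [h5]
    simp only [RCLike.inner_apply]
    ring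

end

end M5

theorem gradBound (n : ℕ) : GradBound n := fun ζ hζ hζc ↦ M5.grad_main hζ hζc

end Pool.Agent.H92.Lip
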