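import Pool.Agent.H92.Lip.M5W

/-!
# M5, transfer to a finite dimensional normed space
-/

set_option autoImplicit false

open MeasureTheory Set Filter Topology SchwartzMap FourierTransform
open scoped ContDiff ENNReal RealInnerProductSpace LineDeriv

namespace Pool.Agent.H92.Lip.M5

variable {E : Type*} [NormedAddCommGroup E] [NormedSpace ℝ E] [FiniteDimensional ℝ E]
  [MeasureSpace E] [BorelSpace E] [(volume : Measure E).IsAddHaarMeasure]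

theorem exists_scalar : ∃ c : ℝ, 0 ≤ c ∧
    ∀ {X : Type} [NormedAddCommGroup X] [NormedSpace ℝ X], ∀ F : EuclideanSpace ℝ (Fin (Module.finrank ℝ E)) → X,
      ∫ x : E, F (toEuclidean x) = c • ∫ y, F y := by
  set L : E ≃L[ℝ] EuclideanSpace ℝ (Fin (Module.finrank ℝ E)) := toEuclidean with hL
  have h1 : (Measure.map L (volume : Measure E)).IsAddHaarMeasure := inferInstance
  have h2 := Measure.isAddLeftInvariant_eq_smul (Measure.map L (volume : Measure E))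
    (volume : Measure (EuclideanSpace ℝ (Fin (Module.finrank ℝ E))))
  refine ⟨(Measure.addHaarScalarFactor (Measure.map L (volume : Measure E)) volume : ℝ),
    NNReal.coe_nonneg _, fun {X} _ _ F ↦ ?_⟩
  have h3 : ∫ x : E, F (L x) = ∫ y, F y ∂(Measure.map L (volume : Measure E)) :=
    (L.toHomeomorph.measurableEmbedding.integral_map F).symm
  rw [h3]
  conv_lhs => rw [h2]
  rw [integral_smul_nnreal_measure]
  rfl

theorem main_E (ζ : E → ℂ) (hζ : ContDiff ℝ ∞ ζ) (hζc : HasCompactSupport ζ) :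
    ∃ C : ℝ, 0 ≤ C ∧ ∀ ρ : ℝ, 0 < ρ → ∀ e : E, ‖e‖ ≤ 1 → ∀ g χ : E → ℂ, ContDiff ℝ ∞ g →
      HasCompactSupport g → ContDiff ℝ ∞ χ → HasCompactSupport χ →
    ‖∫ v, ζ v * ∫ τ in Ioc (0 : ℝ) 1, (ρ : ℂ) * ∫ x, g (x - (τ * ρ) • v) * fderiv ℝ χ x e‖ ≤
      C * √(∫ x, ‖g x‖ ^ 2) * √(∫ x, ‖χ x‖ ^ 2) := by
  obtain ⟨c, hc, hcF⟩ := exists_scalar (E := E)
  set L : E ≃L[ℝ] EuclideanSpace ℝ (Fin (Module.finrank ℝ E)) := toEuclidean with hL
  have hcomp : ∀ f : E → ℂ, HasCompactSupport f → HasCompactSupport (f ∘ L.symm) := fun f hf ↦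
    hf.comp_homeomorph L.symm.toHomeomorph
  have hsm : ∀ f : E → ℂ, ContDiff ℝ ∞ f → ContDiff ℝ ∞ (f ∘ L.symm) := fun f hf ↦
    hf.comp L.symm.contDiff
  obtain ⟨C, hC, hmain⟩ := main_V ((hcomp ζ hζc).toSchwartzMap (hsm ζ hζ))
  refine ⟨c * C * ‖(L : E →L[ℝ] EuclideanSpace ℝ (Fin (Module.finrank ℝ E)))‖, by positivity,
    fun ρ hρ e he g χ hg hgc hχ hχc ↦ ?_⟩
  have h := hmain ρ hρ (L e) ((hcomp g hgc).toSchwartzMap (hsm g hg))
    ((hcomp χ hχc).toSchwartzMap (hsm χ hχ))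
  have hfd : ∀ y, fderiv ℝ (χ ∘ L.symm) y (L e) = fderiv ℝ χ (L.symm y) e := by
    intro y
    rw [L.symm.comp_right_fderiv]
    simp
  have hcoe : ∀ f : E → ℂ, ∀ (h1 : HasCompactSupport (f ∘ L.symm)) (h2 : ContDiff ℝ ∞ (f ∘ L.symm)),
      ((h1.toSchwartzMap h2 : 𝓢(EuclideanSpace ℝ (Fin (Module.finrank ℝ E)), ℂ)) : _ → ℂ) =
        f ∘ L.symm := fun f h1 h2 ↦ rfl
  simp only [SchwartzMap.lineDerivOp_apply_eq_fderiv, hcoe, hfd] at h
  simp only [Function.comp_apply] at h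
  have k1 : ∀ v : E, ∀ τ : ℝ, ∫ x, g (x - (τ * ρ) • v) * fderiv ℝ χ x e =
      c • ∫ y, g (L.symm (y - (τ * ρ) • L v)) * fderiv ℝ χ (L.symm y) e := by
    intro v τ
    rw [← hcF]
    apply integral_congr_ae
    filter_upwards with x
    simp [← hL]
  have k2 : ∫ v, ζ v * ∫ τ in Ioc (0 : ℝ) 1, (ρ : ℂ) * ∫ x, g (x - (τ * ρ) • v) * fderiv ℝ χ x e =
      c • (c • ∫ w, ζ (L.symm w) * ∫ τ in Ioc (0 : ℝ) 1, (ρ : ℂ) *
        ∫ y, g (L.symm (y - (τ * ρ) • w)) * fderiv ℝ χ (L.symm y) e) := by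
    simp_rw [k1]
    rw [← integral_smul c, ← hcF]
    apply integral_congr_ae
    filter_upwards with v
    simp only [← hL, L.symm_apply_apply]
    rw [← mul_smul_comm, ← integral_smul]
    congr 1
    apply integral_congr_ae
    filter_upwards with τ
    rw [mul_smul_comm]
  have k3 : ∀ f : E → ℂ, ∫ x, ‖f x‖ ^ 2 = c * ∫ y, ‖f (L.symm y)‖ ^ 2 := by
    intro f
    rw [← smul_eq_mul, ← hcF]
    simp [← hL]
  rw [k2, k3 g, k3 χ, norm_smul, norm_smul, Real.norm_of_nonneg hc, Real.sqrt_mul hc,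
    Real.sqrt_mul hc]
  have hLe : ‖L e‖ ≤ ‖(L : E →L[ℝ] EuclideanSpace ℝ (Fin (Module.finrank ℝ E)))‖ := by
    have := (L : E →L[ℝ] EuclideanSpace ℝ (Fin (Module.finrank ℝ E))).le_opNorm e
    have h2 := mul_le_mul_of_nonneg_left he
      (norm_nonneg (L : E →L[ℝ] EuclideanSpace ℝ (Fin (Module.finrank ℝ E))))
    rw [mul_one] at h2
    exact this.trans h2
  have hsq : √c * √c = c := Real.mul_self_sqrt hc
  calc _ ≤ c * (c * (C * ‖L e‖ * √(∫ x, ‖g (L.symm x)‖ ^ 2) * √(∫ x, ‖χ (L.symm x)‖ ^ 2))) := by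
        gcongr
    _ ≤ c * (c * (C * ‖(L : E →L[ℝ] EuclideanSpace ℝ (Fin (Module.finrank ℝ E)))‖ *
          √(∫ x, ‖g (L.symm x)‖ ^ 2) * √(∫ x, ‖χ (L.symm x)‖ ^ 2))) := by gcongr
    _ = c * ((√c * √c) * (C * ‖(L : E →L[ℝ] EuclideanSpace ℝ (Fin (Module.finrank ℝ E)))‖ *
          √(∫ x, ‖g (L.symm x)‖ ^ 2) * √(∫ x, ‖χ (L.symm x)‖ ^ 2))) := by rw [hsq]
    _ = _ := by ring

end Pool.Agent.H92.Lip.M5
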