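import Mathlib

/-!
# M5, Fourier part (in a finite dimensional real inner product space)
-/

set_option autoImplicit false

open MeasureTheory Set Filter Topology SchwartzMap FourierTransform
open scoped ContDiff ENNReal RealInnerProductSpace

namespace Pool.Agent.H92.Lip.M5

variable {V : Type*} [NormedAddCommGroup V] [InnerProductSpace ℝ V]

/-- decay of a Schwartz function -/
theorem exists_decay (f : 𝓢(V, ℂ)) : ∃ C : ℝ, 0 ≤ C ∧ ∀ x, ‖f x‖ ≤ C / (1 + ‖x‖) ^ 2 := by
  obtain ⟨C0, hC0, h0⟩ := f.decay 0 0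
  obtain ⟨C2, hC2, h2⟩ := f.decay 2 0
  refine ⟨2 * (C0 + C2), by positivity, fun x ↦ ?_⟩
  have h0' := h0 x
  have h2' := h2 x
  simp only [pow_zero, one_mul, norm_iteratedFDeriv_zero] at h0' h2'
  rw [le_div_iff₀ (by positivity)]
  have h3 : (1 + ‖x‖) ^ 2 ≤ 2 * (1 + ‖x‖ ^ 2) := by nlinarith [sq_nonneg (1 - ‖x‖)]
  have h4 := mul_le_mul_of_nonneg_left h3 (norm_nonneg (f x))
  nlinarith [norm_nonneg (f x)]

/-- the elementary integral -/
theorem integral_bound (a : ℝ) (ha : 0 ≤ a) :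
    ∫ τ in Ioc (0 : ℝ) 1, a / (1 + τ * a) ^ 2 ≤ 1 := by
  have h1 : ∀ τ ∈ Set.uIcc (0 : ℝ) 1, HasDerivAt (fun τ : ℝ ↦ -(1 + τ * a)⁻¹) (a / (1 + τ * a) ^ 2) τ := by
    intro τ hτ
    rw [Set.uIcc_of_le zero_le_one] at hτ
    have h2 : 1 + τ * a ≠ 0 := by
      have := mul_nonneg hτ.1 ha
      positivity
    have h3 : HasDerivAt (fun τ : ℝ ↦ 1 + τ * a) a τ := by
      simpa using ((hasDerivAt_id τ).mul_const a).const_add 1
    have h4 : HasDerivAt (fun τ : ℝ ↦ -(1 + τ * a)⁻¹) (-(-a / (1 + τ * a) ^ 2)) τ :=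
      (h3.inv h2).neg
    convert h4 using 1
    ring
  have hint : IntervalIntegrable (fun τ : ℝ ↦ a / (1 + τ * a) ^ 2) volume 0 1 := by
    apply ContinuousOn.intervalIntegrable
    intro τ hτ
    rw [Set.uIcc_of_le zero_le_one] at hτ
    have h2 : (1 + τ * a) ^ 2 ≠ 0 := by
      have := mul_nonneg hτ.1 ha
      positivity
    apply ContinuousAt.continuousWithinAt
    exact (continuousAt_const).div (by fun_prop) h2
  rw [← intervalIntegral.integral_of_le zero_le_one,
    intervalIntegral.integral_eq_sub_of_hasDerivAt h1 hint]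
  have : 0 ≤ (1 + 1 * a)⁻¹ := by positivity
  simp only [zero_mul, add_zero, inv_one]
  linarith

variable [FiniteDimensional ℝ V] [MeasurableSpace V] [BorelSpace V]

theorem fourierChar_norm (t : ℝ) : ‖(Real.fourierChar t : ℂ)‖ = 1 := Circle.norm_coe _

theorem integral_translate (G ψ : 𝓢(V, ℂ)) (a : V) :
    ∫ x, 𝓕 G (x - a) * ψ x = ∫ ξ, (Real.fourierChar ⟪ξ, a⟫ : ℂ) * (G ξ * 𝓕 ψ ξ) := by
  have hf : Integrable (fun ξ ↦ (Real.fourierChar ⟪ξ, a⟫ : ℂ) * G ξ) := by
    refine G.integrable.bdd_mul (c := 1) ?_ ?_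
    · apply Continuous.aestronglyMeasurable
      have := Real.continuous_fourierChar
      fun_prop
    · filter_upwards with ξ
      rw [fourierChar_norm]
  have key := VectorFourier.integral_fourierIntegral_smul_eq_flip (L := innerₗ V)
    (f := fun ξ ↦ (Real.fourierChar ⟪ξ, a⟫ : ℂ) * G ξ) (g := ψ)
    Real.continuous_fourierChar continuous_inner hf (ψ.integrable (μ := volume))
  have h1 : ∀ x, VectorFourier.fourierIntegral Real.fourierChar volume (innerₗ V)
      (fun ξ ↦ (Real.fourierChar ⟪ξ, a⟫ : ℂ) * G ξ) x = 𝓕 G (x - a) := by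
    intro x
    rw [SchwartzMap.fourier_coe, Real.fourier_eq]
    apply integral_congr_ae
    filter_upwards with ξ
    rw [innerₗ_apply_apply, inner_sub_right, neg_sub, sub_eq_add_neg, AddChar.map_add_eq_mul,
      mul_smul, Circle.smul_def, Circle.smul_def, Circle.smul_def, smul_eq_mul, smul_eq_mul,
      smul_eq_mul]
    ring
  have h2 : ∀ x, VectorFourier.fourierIntegral Real.fourierChar volume (innerₗ V).flip ψ x =
      𝓕 ψ x := by
    intro x
    rw [SchwartzMap.fourier_coe, Real.fourier_eq]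
    apply integral_congr_ae
    filter_upwards with ξ
    rw [LinearMap.flip_apply, innerₗ_apply_apply, real_inner_comm]
  simp_rw [h1, h2, smul_eq_mul] at key
  rw [key]
  apply integral_congr_ae
  filter_upwards with ξ
  ring

end Pool.Agent.H92.Lip.M5
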