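import Pool.Agent.H92.Lip.M5V

/-!
# M5, Fourier part: the main estimate for Schwartz functions
-/

set_option autoImplicit false

open MeasureTheory Set Filter Topology SchwartzMap FourierTransform
open scoped ContDiff ENNReal RealInnerProductSpace LineDeriv

namespace Pool.Agent.H92.Lip.M5

/-- Cauchy-Schwarz -/
theorem cauchy_schwarz {α : Type*} [MeasurableSpace α] {μ : Measure α} {f g : α → ℂ}
    (hf : MemLp f 2 μ) (hg : MemLp g 2 μ) :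
    ∫ a, ‖f a‖ * ‖g a‖ ∂μ ≤ √(∫ a, ‖f a‖ ^ 2 ∂μ) * √(∫ a, ‖g a‖ ^ 2 ∂μ) := by
  have h2 : ENNReal.ofReal 2 = 2 := by simp
  have := integral_mul_le_Lp_mul_Lq_of_nonneg (μ := μ) (Real.HolderConjugate.two_two)
    (f := fun a ↦ ‖f a‖) (g := fun a ↦ ‖g a‖)
    (by filter_upwards with a; exact norm_nonneg _) (by filter_upwards with a; exact norm_nonneg _)
    (by rw [h2]; exact hf.norm) (by rw [h2]; exact hg.norm)
  simpa [Real.sqrt_eq_rpow] using this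

variable {V : Type*} [NormedAddCommGroup V] [InnerProductSpace ℝ V]
  [FiniteDimensional ℝ V] [MeasurableSpace V] [BorelSpace V]

theorem main_V (ζ : 𝓢(V, ℂ)) : ∃ C : ℝ, 0 ≤ C ∧ ∀ ρ : ℝ, 0 < ρ → ∀ e : V, ∀ g χ : 𝓢(V, ℂ),
    ‖∫ v, ζ v * ∫ τ in Ioc (0 : ℝ) 1, (ρ : ℂ) * ∫ x, g (x - (τ * ρ) • v) * (∂_{e} χ : 𝓢(V, ℂ)) x‖ ≤
      C * ‖e‖ * √(∫ x, ‖g x‖ ^ 2) * √(∫ x, ‖χ x‖ ^ 2) := by
  obtain ⟨C₂, hC₂, hdec⟩ := exists_decay (𝓕⁻ ζ)
  refine ⟨2 * Real.pi * C₂, by positivity, fun ρ hρ e g χ ↦ ?_⟩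
  set G : 𝓢(V, ℂ) := 𝓕⁻ g with hG
  have hgG : 𝓕 G = g := by rw [hG]; simp
  set ψ : 𝓢(V, ℂ) := ∂_{e} χ with hψ
  set H : V → ℂ := fun ξ ↦ G ξ * 𝓕 ψ ξ with hH
  have hHint : Integrable H := by
    have h1 : Integrable (fun ξ ↦ G ξ * 𝓕 ψ ξ) := by
      obtain ⟨B, hB, hB'⟩ := (G).decay 0 0
      refine (𝓕 ψ).integrable.bdd_mul (c := B) G.continuous.aestronglyMeasurable ?_
      filter_upwards with ξ
      simpa using hB' ξ
    exact h1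
  have hψe : ∀ ξ, ‖𝓕 ψ ξ‖ ≤ 2 * Real.pi * (‖ξ‖ * ‖e‖) * ‖𝓕 χ ξ‖ := by
    intro ξ
    rw [hψ, SchwartzMap.fourier_lineDerivOp_eq, smul_apply,
      smulLeftCLM_apply_apply (by fun_prop)]
    rw [norm_smul, norm_smul]
    have h1 : ‖(2 * Real.pi * Complex.I : ℂ)‖ = 2 * Real.pi := by
      simp [abs_of_pos Real.pi_pos]
    rw [h1, mul_assoc, mul_assoc]
    have h2 : ‖(⟪ξ, e⟫ : ℝ)‖ ≤ ‖ξ‖ * ‖e‖ := norm_inner_le_norm ξ e
    have h3 := norm_nonneg (𝓕 χ ξ)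
    have := Real.pi_pos
    nlinarith [mul_le_mul_of_nonneg_right h2 h3]
  have e1 : ∀ v : V, ∀ τ : ℝ, ∫ x, g (x - (τ * ρ) • v) * ψ x =
      ∫ ξ, (Real.fourierChar ⟪ξ, (τ * ρ) • v⟫ : ℂ) * H ξ := by
    intro v τ
    rw [← hgG]
    exact integral_translate G ψ _
  simp_rw [e1]
  -- the three-fold integrand
  set F : (V × ℝ) × V → ℂ := fun q ↦
    (ζ q.1.1 * (ρ : ℂ) * (Real.fourierChar ⟪q.2, (q.1.2 * ρ) • q.1.1⟫ : ℂ)) * H q.2 with hF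
  set μ : Measure (V × ℝ) := (volume : Measure V).prod (volume.restrict (Ioc (0 : ℝ) 1)) with hμ
  have hζμ : Integrable (fun p : V × ℝ ↦ ζ p.1) μ := by
    have := (ζ.integrable (μ := volume)).mul_prod
      (integrable_const (1 : ℂ) : Integrable (fun _ : ℝ ↦ (1 : ℂ)) (volume.restrict (Ioc (0 : ℝ) 1)))
    simpa using this
  have hFint : Integrable F (μ.prod volume) := by
    have h1 : Integrable (fun q : (V × ℝ) × V ↦ ζ q.1.1 * H q.2) (μ.prod volume) :=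
      hζμ.mul_prod hHint
    have h2 := h1.bdd_mul (c := ρ) (f := fun q : (V × ℝ) × V ↦ (ρ : ℂ) *
      (Real.fourierChar ⟪q.2, (q.1.2 * ρ) • q.1.1⟫ : ℂ)) ?_ ?_
    · refine h2.congr ?_
      filter_upwards with q
      simp only [hF]
      ring
    · apply Continuous.aestronglyMeasurable
      have := Real.continuous_fourierChar
      fun_prop
    · filter_upwards with q
      rw [norm_mul, fourierChar_norm, mul_one]
      simp [abs_of_pos hρ]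
  have e2 : ∫ v, ζ v * ∫ τ in Ioc (0 : ℝ) 1, (ρ : ℂ) *
      ∫ ξ, (Real.fourierChar ⟪ξ, (τ * ρ) • v⟫ : ℂ) * H ξ =
      ∫ ξ, H ξ * ((ρ : ℂ) * ∫ τ in Ioc (0 : ℝ) 1, (𝓕⁻ ζ) ((τ * ρ) • ξ)) := by
    have a1 : ∫ v, ζ v * ∫ τ in Ioc (0 : ℝ) 1, (ρ : ℂ) *
        ∫ ξ, (Real.fourierChar ⟪ξ, (τ * ρ) • v⟫ : ℂ) * H ξ = ∫ p, (∫ ξ, F (p, ξ)) ∂μ := by
      rw [hμ, integral_prod _ hFint.integral_prod_left]
      apply integral_congr_ae
      filter_upwards with v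
      rw [← integral_const_mul]
      apply integral_congr_ae
      filter_upwards with τ
      simp only [hF]
      rw [← integral_const_mul, ← integral_const_mul]
      apply integral_congr_ae
      filter_upwards with ξ
      ring
    rw [a1, integral_integral_swap hFint]
    apply integral_congr_ae
    filter_upwards [hFint.prod_left_ae] with ξ hξ
    rw [hμ, integral_prod_symm _ hξ, ← integral_const_mul, ← integral_const_mul]
    apply integral_congr_ae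
    filter_upwards with τ
    have : (𝓕⁻ ζ) ((τ * ρ) • ξ) = ∫ v, (Real.fourierChar ⟪v, (τ * ρ) • ξ⟫ : ℂ) * ζ v := by
      rw [SchwartzMap.fourierInv_coe, Real.fourierInv_eq]
      rfl
    rw [this, ← integral_const_mul, ← integral_const_mul]
    apply integral_congr_ae
    filter_upwards with v
    simp only [hF]
    have : ⟪ξ, (τ * ρ) • v⟫ = ⟪v, (τ * ρ) • ξ⟫ := by
      rw [real_inner_smul_right, real_inner_smul_right, real_inner_comm]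
    rw [this]
    ring
  rw [e2]
  have hbd : ∀ ξ, ‖H ξ * ((ρ : ℂ) * ∫ τ in Ioc (0 : ℝ) 1, (𝓕⁻ ζ) ((τ * ρ) • ξ))‖ ≤
      (2 * Real.pi * C₂ * ‖e‖) * (‖G ξ‖ * ‖𝓕 χ ξ‖) := by
    intro ξ
    have b1 : ‖∫ τ in Ioc (0 : ℝ) 1, (𝓕⁻ ζ) ((τ * ρ) • ξ)‖ ≤
        ∫ τ in Ioc (0 : ℝ) 1, C₂ / (1 + τ * (ρ * ‖ξ‖)) ^ 2 := by
      apply norm_integral_le_of_norm_le
      · apply ContinuousOn.integrableOn_Icc (a := (0 : ℝ)) (b := 1) _ |>.mono_set Ioc_subset_Icc_self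
        intro τ hτ
        have h2 : (1 + τ * (ρ * ‖ξ‖)) ^ 2 ≠ 0 := by
          have := mul_nonneg hτ.1 (mul_nonneg hρ.le (norm_nonneg ξ))
          positivity
        apply ContinuousAt.continuousWithinAt
        exact (continuousAt_const).div (by fun_prop) h2
      · filter_upwards [ae_restrict_mem measurableSet_Ioc] with τ hτ
        refine (hdec _).trans_eq ?_
        rw [norm_smul, Real.norm_of_nonneg (mul_nonneg hτ.1.le hρ.le), mul_assoc]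
    have b2 : (ρ * ‖ξ‖) * ∫ τ in Ioc (0 : ℝ) 1, C₂ / (1 + τ * (ρ * ‖ξ‖)) ^ 2 ≤ C₂ := by
      have := integral_bound (ρ * ‖ξ‖) (by positivity)
      have h3 := mul_le_mul_of_nonneg_left this hC₂
      rw [mul_one] at h3
      refine le_trans (le_of_eq ?_) h3
      rw [← integral_const_mul, ← integral_const_mul]
      apply integral_congr_ae
      filter_upwards with τ
      ring
    rw [norm_mul (H ξ), norm_mul (ρ : ℂ), Complex.norm_real, Real.norm_of_nonneg hρ.le]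
    have b3 : ‖H ξ‖ ≤ ‖G ξ‖ * (2 * Real.pi * (‖ξ‖ * ‖e‖) * ‖𝓕 χ ξ‖) := by
      rw [hH]
      simp only [norm_mul]
      exact mul_le_mul_of_nonneg_left (hψe ξ) (norm_nonneg _)
    calc ‖H ξ‖ * (ρ * ‖∫ τ in Ioc (0 : ℝ) 1, (𝓕⁻ ζ) ((τ * ρ) • ξ)‖)
        ≤ (‖G ξ‖ * (2 * Real.pi * (‖ξ‖ * ‖e‖) * ‖𝓕 χ ξ‖)) *
          (ρ * ∫ τ in Ioc (0 : ℝ) 1, C₂ / (1 + τ * (ρ * ‖ξ‖)) ^ 2) := by gcongr
      _ = (‖G ξ‖ * (2 * Real.pi * ‖e‖ * ‖𝓕 χ ξ‖)) *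
          ((ρ * ‖ξ‖) * ∫ τ in Ioc (0 : ℝ) 1, C₂ / (1 + τ * (ρ * ‖ξ‖)) ^ 2) := by ring
      _ ≤ (‖G ξ‖ * (2 * Real.pi * ‖e‖ * ‖𝓕 χ ξ‖)) * C₂ := by gcongr
      _ = _ := by ring
  have hGm : MemLp (fun ξ ↦ G ξ) 2 volume := G.memLp 2 volume
  have hXm : MemLp (fun ξ ↦ 𝓕 χ ξ) 2 volume := (𝓕 χ).memLp 2 volume
  have hGχ : Integrable (fun ξ ↦ ‖G ξ‖ * ‖𝓕 χ ξ‖) := hGm.norm.integrable_mul hXm.norm
  refine (norm_integral_le_of_norm_le (hGχ.const_mul (2 * Real.pi * C₂ * ‖e‖))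
    (by filter_upwards with ξ; exact hbd ξ)).trans ?_
  rw [integral_const_mul, mul_assoc (2 * Real.pi * C₂ * ‖e‖)]
  gcongr
  refine (cauchy_schwarz hGm hXm).trans_eq ?_
  rw [SchwartzMap.integral_norm_sq_fourier, ← SchwartzMap.integral_norm_sq_fourier G, hgG]

end Pool.Agent.H92.Lip.M5
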