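import Mathlib
import Pool.Agent.H92.Lip.Defs2

/-!
Modules M6a and M6c: weighted `L²` bounds of the averaging operators (helper91).
-/

set_option autoImplicit false

open MeasureTheory Set Filter Topology
open scoped ContDiff ENNReal

namespace Pool.Agent.H92.Lip

namespace M6ac

variable {n : ℕ} {α : Type*} [MeasurableSpace α]

/-- Cauchy–Schwarz -/
theorem cs (ν : Measure α) (k G : α → ℝ≥0∞) (hk : AEMeasurable k ν) (hG : AEMeasurable G ν) :
    (∫⁻ a, k a * G a ∂ν) ^ 2 ≤ (∫⁻ a, k a ∂ν) * ∫⁻ a, k a * G a ^ 2 ∂ν := by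
  have h := ENNReal.lintegral_mul_le_Lp_mul_Lq ν (p := 2) (q := 2)
    (Real.HolderConjugate.two_two)
    (f := fun a => k a ^ (1 / 2 : ℝ)) (g := fun a => k a ^ (1 / 2 : ℝ) * G a)
    (hk.pow_const _) ((hk.pow_const _).mul hG)
  have e1 : ∀ a, ((fun a => k a ^ (1 / 2 : ℝ)) * fun a => k a ^ (1 / 2 : ℝ) * G a) a =
      k a * G a := by
    intro a
    simp only [Pi.mul_apply]
    rw [← mul_assoc, ← ENNReal.rpow_add_of_nonneg _ _ (by norm_num) (by norm_num)]
    norm_num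
  have e2 : ∀ a, (k a ^ (1 / 2 : ℝ)) ^ (2 : ℝ) = k a := by
    intro a
    rw [← ENNReal.rpow_mul]; norm_num
  have e3 : ∀ a, (k a ^ (1 / 2 : ℝ) * G a) ^ (2 : ℝ) = k a * G a ^ 2 := by
    intro a
    rw [ENNReal.mul_rpow_of_nonneg _ _ (by norm_num), e2]
    norm_num
  simp_rw [e1, e2, e3] at h
  calc (∫⁻ a, k a * G a ∂ν) ^ 2 ≤
      ((∫⁻ a, k a ∂ν) ^ (1 / 2 : ℝ) * (∫⁻ a, k a * G a ^ 2 ∂ν) ^ (1 / 2 : ℝ)) ^ 2 := by
        gcongr
    _ = _ := by
        rw [mul_pow, ← ENNReal.rpow_natCast, ← ENNReal.rpow_mul, ← ENNReal.rpow_natCast,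
          ← ENNReal.rpow_mul]
        norm_num

theorem qmp (ν : Measure α) [SFinite ν] (s : α → EC n) (hs : Measurable s) :
    Measure.QuasiMeasurePreserving (fun q : EC n × α => q.1 - s q.2)
      ((volume : Measure (EC n)).prod ν) volume := by
  refine QuasiMeasurePreserving.prod_of_left (by fun_prop) ?_
  exact Eventually.of_forall fun a =>
    (measurePreserving_sub_right (volume : Measure (EC n)) (s a)).quasiMeasurePreserving

theorem meas_prod (ν : Measure α) [SFinite ν] (s : α → EC n) (hs : Measurable s)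
    (g : EC n → ℂ) (hg : AEStronglyMeasurable g volume) :
    AEStronglyMeasurable (fun q : EC n × α => g (q.1 - s q.2))
      ((volume : Measure (EC n)).prod ν) :=
  hg.comp_quasiMeasurePreserving (qmp ν s hs)

/-- the main bound -/
theorem main (S Ω : Set (EC n)) (hΩ : MeasurableSet Ω)
    (w : EC n → ℝ≥0∞) (hw : Measurable w) (ν : Measure α) [SFinite ν] (k : α → ℂ)
    (hk : AEStronglyMeasurable k ν) (s : α → EC n) (hs : Measurable s) (g : EC n → ℂ)
    (hg : AEStronglyMeasurable g (volume.restrict Ω))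
    (hshift : ∀ᵐ a ∂ν, k a ≠ 0 → ∀ x ∈ S, w x ≤ w (x - s a)) (hS : MeasurableSet S)
    (F : EC n → ℂ)
    (hF : ∀ᵐ x, ‖F x‖ₑ ≤ ∫⁻ a, ‖k a‖ₑ * ‖Ω.indicator g (x - s a)‖ₑ ∂ν) :
    ∫⁻ x in S, w x * ‖F x‖ₑ ^ 2 ≤
      (∫⁻ a, ‖k a‖ₑ ∂ν) ^ 2 * ∫⁻ x in Ω, w x * ‖g x‖ₑ ^ 2 := by
  set g' := Ω.indicator g with hg'
  have hg1 : AEStronglyMeasurable g' volume := (aestronglyMeasurable_indicator_iff hΩ).2 hg
  have hgp := meas_prod ν s hs g' hg1
  have hslice : ∀ᵐ x : EC n, AEStronglyMeasurable (fun a => g' (x - s a)) ν :=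
    hgp.prodMk_left
  set K := ∫⁻ a, ‖k a‖ₑ ∂ν with hK
  have step1 : ∫⁻ x in S, w x * ‖F x‖ₑ ^ 2 ≤
      ∫⁻ x in S, K * ∫⁻ a, w x * (‖k a‖ₑ * ‖g' (x - s a)‖ₑ ^ 2) ∂ν := by
    refine lintegral_mono_ae (ae_restrict_of_ae ?_)
    filter_upwards [hF, hslice] with x h1 h2
    calc w x * ‖F x‖ₑ ^ 2 ≤ w x * (∫⁻ a, ‖k a‖ₑ * ‖g' (x - s a)‖ₑ ∂ν) ^ 2 := by gcongr
      _ ≤ w x * (K * ∫⁻ a, ‖k a‖ₑ * ‖g' (x - s a)‖ₑ ^ 2 ∂ν) := by
          gcongr
          exact cs ν _ _ hk.enorm h2.enorm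
      _ = K * (w x * ∫⁻ a, ‖k a‖ₑ * ‖g' (x - s a)‖ₑ ^ 2 ∂ν) := by ring
      _ = K * ∫⁻ a, w x * (‖k a‖ₑ * ‖g' (x - s a)‖ₑ ^ 2) ∂ν := by
          rw [← lintegral_const_mul'' (w x) (f := fun a => ‖k a‖ₑ * ‖g' (x - s a)‖ₑ ^ 2)
            (hk.enorm.mul (h2.enorm.pow_const _))]
  have hmeas : AEMeasurable (fun q : EC n × α => w q.1 * (‖k q.2‖ₑ * ‖g' (q.1 - s q.2)‖ₑ ^ 2))
      ((volume.restrict S).prod ν) := by
    have h1 : AEMeasurable (fun q : EC n × α => w q.1 * (‖k q.2‖ₑ * ‖g' (q.1 - s q.2)‖ₑ ^ 2))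
      ((volume : Measure (EC n)).prod ν) := by
      have hA : AEMeasurable (fun q : EC n × α => ‖k q.2‖ₑ)
        ((volume : Measure (EC n)).prod ν) := (hk.comp_snd).enorm
      have hB : AEMeasurable (fun q : EC n × α => ‖g' (q.1 - s q.2)‖ₑ ^ 2)
        ((volume : Measure (EC n)).prod ν) := hgp.enorm.pow_const _
      exact (hw.comp measurable_fst).aemeasurable.mul (hA.mul hB)
    refine h1.mono_ac ?_
    exact (Measure.restrict_le_self.absolutelyContinuous).prod Measure.AbsolutelyContinuous.rfl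
  have hinner : ∀ a, ∫⁻ x, w (x - s a) * ‖g' (x - s a)‖ₑ ^ 2 = ∫⁻ x in Ω, w x * ‖g x‖ₑ ^ 2 := by
    intro a
    rw [lintegral_sub_right_eq_self (fun x => w x * ‖g' x‖ₑ ^ 2) (s a)]
    rw [← lintegral_indicator hΩ]
    congr 1
    funext x
    by_cases hx : x ∈ Ω
    · simp [hg', hx]
    · simp [hg', hx]
  calc ∫⁻ x in S, w x * ‖F x‖ₑ ^ 2
      ≤ ∫⁻ x in S, K * ∫⁻ a, w x * (‖k a‖ₑ * ‖g' (x - s a)‖ₑ ^ 2) ∂ν := step1
    _ = K * ∫⁻ x in S, ∫⁻ a, w x * (‖k a‖ₑ * ‖g' (x - s a)‖ₑ ^ 2) ∂ν := by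
        rw [lintegral_const_mul'']
        exact hmeas.lintegral_prod_right'
    _ = K * ∫⁻ a, (∫⁻ x in S, w x * (‖k a‖ₑ * ‖g' (x - s a)‖ₑ ^ 2)) ∂ν := by
        rw [lintegral_lintegral_swap hmeas]
    _ ≤ K * ∫⁻ a, (‖k a‖ₑ * ∫⁻ x in Ω, w x * ‖g x‖ₑ ^ 2) ∂ν := by
        refine mul_le_mul_right ?_ K
        refine lintegral_mono_ae ?_
        filter_upwards [hshift] with a ha
        by_cases hka : k a = 0
        · simp [hka]
        · have h1 : ∫⁻ x in S, w x * (‖k a‖ₑ * ‖g' (x - s a)‖ₑ ^ 2) ≤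
              ∫⁻ x in S, ‖k a‖ₑ * (w (x - s a) * ‖g' (x - s a)‖ₑ ^ 2) := by
            refine setLIntegral_mono' hS fun x hx => ?_
            have := ha hka x hx
            calc w x * (‖k a‖ₑ * ‖g' (x - s a)‖ₑ ^ 2) ≤
                w (x - s a) * (‖k a‖ₑ * ‖g' (x - s a)‖ₑ ^ 2) := by gcongr
              _ = _ := by ring
          refine h1.trans ?_
          rw [lintegral_const_mul' _ _ (by simp)]
          refine mul_le_mul_right ?_ _
          refine (setLIntegral_le_lintegral _ _).trans ?_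
          rw [hinner a]
    _ = _ := by
        rw [lintegral_mul_const'' _ hk.enorm]
        ring

theorem eLp2 {β : Type*} [MeasurableSpace β] (μ : Measure β) (F : β → ℂ) :
    eLpNorm F 2 μ ^ 2 = ∫⁻ x, ‖F x‖ₑ ^ 2 ∂μ := by
  rw [eLpNorm_eq_lintegral_rpow_enorm_toReal (by norm_num) (by norm_num),
    ← ENNReal.rpow_natCast, ← ENNReal.rpow_mul]
  norm_num

theorem eLp2w (Φ : EC n → ℝ) (hΦ : Measurable Φ) (t : ℝ) (S : Set (EC n)) (F : EC n → ℂ) :
    eLpNorm F 2 (wm Φ t S) ^ 2 =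
      ∫⁻ x in S, ENNReal.ofReal (Real.exp (-(t * Φ x))) * ‖F x‖ₑ ^ 2 := by
  rw [eLp2, wm, lintegral_withDensity_eq_lintegral_mul_non_measurable]
  · rfl
  · fun_prop
  · exact Eventually.of_forall fun x => ENNReal.ofReal_lt_top

/-- conclusion in terms of `L²` norms -/
theorem concl (Ω : Set (EC n)) (Φ : EC n → ℝ) (t : ℝ) (S : Set (EC n)) (hΩ : IsOpen Ω)
    (hS : MeasurableSet S) (hΦ : Measurable Φ) (ht : 0 ≤ t) (ν : Measure α) [SFinite ν]
    (k : α → ℂ) (hk : Integrable k ν) (s : α → EC n) (hs : Measurable s) (g : EC n → ℂ)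
    (hg : MemLp g 2 (volume.restrict Ω))
    (hshift : ∀ᵐ a ∂ν, k a ≠ 0 → ∀ x ∈ S, Φ (x - s a) ≤ Φ x)
    (F : EC n → ℂ) (hFm : AEStronglyMeasurable F volume)
    (hF : ∀ᵐ x, ‖F x‖ₑ ≤ ∫⁻ a, ‖k a‖ₑ * ‖Ω.indicator g (x - s a)‖ₑ ∂ν) :
    MemLp F 2 volume ∧
      eLpNorm F 2 (wm Φ t S) ≤ ENNReal.ofReal (∫ a, ‖k a‖ ∂ν) * eLpNorm g 2 (wm Φ t Ω) := by
  rw [ofReal_integral_norm_eq_lintegral_enorm hk]
  have hKfin : ∫⁻ a, ‖k a‖ₑ ∂ν < ⊤ := hk.2
  have hgs : ∫⁻ x in Ω, ‖g x‖ₑ ^ 2 < ⊤ := by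
    rw [← eLp2]
    exact ENNReal.pow_lt_top hg.2
  constructor
  · refine ⟨hFm, ?_⟩
    have h1 := main univ Ω hΩ.measurableSet (fun _ => 1) measurable_const ν k
      hk.aestronglyMeasurable s hs g hg.1 (Eventually.of_forall fun a _ x _ => le_refl _)
      MeasurableSet.univ F hF
    simp only [one_mul, Measure.restrict_univ] at h1
    rw [← eLp2] at h1
    have h2 : eLpNorm F 2 volume ^ 2 < ⊤ :=
      h1.trans_lt (ENNReal.mul_lt_top (ENNReal.pow_lt_top hKfin) hgs)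
    by_contra h3
    rw [not_lt, top_le_iff] at h3
    rw [h3] at h2
    simp at h2
  · rw [← ENNReal.pow_le_pow_left_iff (n := 2) (by norm_num), mul_pow, eLp2w Φ hΦ, eLp2w Φ hΦ]
    refine main S Ω hΩ.measurableSet (fun x => ENNReal.ofReal (Real.exp (-(t * Φ x))))
      (by fun_prop) ν k hk.aestronglyMeasurable s hs g hg.1 ?_ hS F hF
    filter_upwards [hshift] with a ha hka x hx
    refine ENNReal.ofReal_le_ofReal (Real.exp_le_exp.2 ?_)
    have := mul_le_mul_of_nonneg_left (ha hka x hx) ht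
    linarith

theorem cone_use (Ω : Set (EC n)) (Φ : EC n → ℝ) (p e : EC n) (c r : ℝ) (ζ : EC n → ℂ)
    (hcone : ConeMono Ω Φ p e c r) (hζ : tsupport ζ ⊆ Metric.closedBall e c) (v : EC n)
    (hv : ζ v ≠ 0) (s : ℝ) (hs0 : 0 ≤ s) (hsr : s ≤ r) (x : EC n) (hx : x ∈ Ω ∩ Metric.ball p r) :
    x - s • v ∈ Ω ∧ Φ (x - s • v) ≤ Φ x := by
  have h1 : v ∈ Metric.closedBall e c := hζ (subset_tsupport _ hv)
  have h2 := hcone x hx.1 hx.2 s hs0 hsr (v - e) (by
    rw [← dist_eq_norm]; exact h1)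
  simpa using h2

/-- measurability of `Aop` -/
theorem aop_meas (ζ : EC n → ℂ) (ρ : ℝ) (hζ : Continuous ζ) (g : EC n → ℂ)
    (hg : AEStronglyMeasurable g volume) : AEStronglyMeasurable (Aop ζ ρ g) volume := by
  have h := meas_prod (volume : Measure (EC n)) (fun v : EC n => ρ • v) (by fun_prop) g hg
  have h2 : AEStronglyMeasurable (fun q : EC n × EC n => ζ q.2 * g (q.1 - ρ • q.2))
      ((volume : Measure (EC n)).prod volume) := by
    have h3 : AEStronglyMeasurable (fun q : EC n × EC n => ζ q.2)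
      ((volume : Measure (EC n)).prod volume) :=
      (hζ.comp continuous_snd).aestronglyMeasurable
    exact h3.mul h
  exact h2.integral_prod_right'

theorem kop_meas (ζ : EC n → ℂ) (ρ : ℝ) (hζ : Continuous ζ) (g : EC n → ℂ)
    (hg : AEStronglyMeasurable g volume) : AEStronglyMeasurable (Kop ζ ρ g) volume := by
  have h := meas_prod ((volume : Measure (EC n)).prod (volume.restrict (Ioc (0 : ℝ) 1)))
    (fun q : EC n × ℝ => (q.2 * ρ) • q.1) (by fun_prop) g hg
  -- reassociate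
  have h' : AEStronglyMeasurable
      (fun q : (EC n × EC n) × ℝ => (ρ : ℂ) * g (q.1.1 - (q.2 * ρ) • q.1.2))
      (((volume : Measure (EC n)).prod (volume : Measure (EC n))).prod
        (volume.restrict (Ioc (0 : ℝ) 1))) := by
    refine AEStronglyMeasurable.const_mul ?_ _
    refine hg.comp_quasiMeasurePreserving ?_
    refine QuasiMeasurePreserving.prod_of_left (by fun_prop) ?_
    refine Eventually.of_forall fun τ => ?_
    exact qmp (volume : Measure (EC n)) (fun v : EC n => (τ * ρ) • v) (by fun_prop)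
  have h2 := h'.integral_prod_right'
  have h3 : AEStronglyMeasurable (fun q : EC n × EC n => ζ q.2)
      ((volume : Measure (EC n)).prod volume) :=
    (hζ.comp continuous_snd).aestronglyMeasurable
  exact (h3.mul h2).integral_prod_right'

theorem prodInt (ζ : EC n → ℂ) (hζ : Integrable ζ) (a b : EC n × EC n → ℂ)
    (ha : AEStronglyMeasurable a ((volume : Measure (EC n)).prod volume))
    (hb : AEStronglyMeasurable b ((volume : Measure (EC n)).prod volume)) (A B : ℝ≥0∞)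
    (hA : ∀ v, eLpNorm (fun x => a (x, v)) 2 volume ≤ A)
    (hB : ∀ v, eLpNorm (fun x => b (x, v)) 2 volume ≤ B) (hA' : A < ⊤) (hB' : B < ⊤) :
    Integrable (fun q : EC n × EC n => ζ q.2 * (a q * b q))
      ((volume : Measure (EC n)).prod volume) := by
  have hm : AEStronglyMeasurable (fun q : EC n × EC n => ζ q.2 * (a q * b q))
      ((volume : Measure (EC n)).prod volume) := (hζ.1.comp_snd).mul (ha.mul hb)
  refine ⟨hm, ?_⟩
  rw [hasFiniteIntegral_iff_enorm, lintegral_prod_symm _ hm.enorm]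
  have ha' : ∀ᵐ v : EC n, AEStronglyMeasurable (fun x => a (x, v)) volume :=
    (ha.comp_quasiMeasurePreserving
      (Measure.measurePreserving_swap (μ := (volume : Measure (EC n)))
        (ν := (volume : Measure (EC n)))).quasiMeasurePreserving).prodMk_left
  have hb' : ∀ᵐ v : EC n, AEStronglyMeasurable (fun x => b (x, v)) volume :=
    (hb.comp_quasiMeasurePreserving
      (Measure.measurePreserving_swap (μ := (volume : Measure (EC n)))
        (ν := (volume : Measure (EC n)))).quasiMeasurePreserving).prodMk_left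
  have hbd : ∀ᵐ v : EC n, ∫⁻ x, ‖ζ v * (a (x, v) * b (x, v))‖ₑ ≤ ‖ζ v‖ₑ * (A * B) := by
    filter_upwards [ha', hb'] with v h1 h2
    simp_rw [enorm_mul]
    rw [lintegral_const_mul' _ _ (by simp)]
    refine mul_le_mul_right ?_ _
    have h := ENNReal.lintegral_mul_le_Lp_mul_Lq volume (p := 2) (q := 2)
      (Real.HolderConjugate.two_two) (f := fun x => ‖a (x, v)‖ₑ) (g := fun x => ‖b (x, v)‖ₑ)
      h1.enorm h2.enorm
    refine h.trans ?_
    refine mul_le_mul' ?_ ?_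
    · have := hA v
      rw [eLpNorm_eq_lintegral_rpow_enorm_toReal (by norm_num) (by norm_num)] at this
      simpa using this
    · have := hB v
      rw [eLpNorm_eq_lintegral_rpow_enorm_toReal (by norm_num) (by norm_num)] at this
      simpa using this
  refine (lintegral_mono_ae hbd).trans_lt ?_
  rw [lintegral_mul_const'' _ hζ.1.enorm]
  exact ENNReal.mul_lt_top hζ.2 (ENNReal.mul_lt_top hA' hB')

/-- moving `Aop` to the test function -/
theorem aop_dual (ζ χ : EC n → ℂ) (ρ : ℝ) (hζ : Continuous ζ) (hζs : HasCompactSupport ζ)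
    (hχ : Continuous χ) (hχs : HasCompactSupport χ) (g : EC n → ℂ) (hg : MemLp g 2 volume) :
    ∫ x, Aop ζ ρ g x * χ x = ∫ y, g y * ∫ v, ζ v * χ (y + ρ • v) := by
  have hζi : Integrable ζ := hζ.integrable_of_hasCompactSupport hζs
  have hχL : MemLp χ 2 volume := hχ.memLp_of_hasCompactSupport hχs
  have hgm := meas_prod (volume : Measure (EC n)) (fun v : EC n => ρ • v) (by fun_prop) g hg.1
  have I1 : Integrable (fun q : EC n × EC n => ζ q.2 * (g (q.1 - ρ • q.2) * χ q.1))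
      ((volume : Measure (EC n)).prod volume) := by
    refine prodInt ζ hζi (fun q => g (q.1 - ρ • q.2)) (fun q => χ q.1) hgm
      (hχ.comp continuous_fst).aestronglyMeasurable (eLpNorm g 2 volume) (eLpNorm χ 2 volume)
      ?_ (fun v => le_refl _) hg.2 hχL.2
    intro v
    exact le_of_eq (eLpNorm_comp_measurePreserving hg.1
      (measurePreserving_sub_right (volume : Measure (EC n)) (ρ • v)))
  have I2 : Integrable (fun q : EC n × EC n => ζ q.2 * (g q.1 * χ (q.1 + ρ • q.2)))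
      ((volume : Measure (EC n)).prod volume) := by
    refine prodInt ζ hζi (fun q => g q.1) (fun q => χ (q.1 + ρ • q.2)) hg.1.comp_fst
      (hχ.comp (by fun_prop)).aestronglyMeasurable (eLpNorm g 2 volume) (eLpNorm χ 2 volume)
      (fun v => le_refl _) ?_ hg.2 hχL.2
    intro v
    exact le_of_eq (eLpNorm_comp_measurePreserving hχL.1
      (measurePreserving_add_right (volume : Measure (EC n)) (ρ • v)))
  calc ∫ x, Aop ζ ρ g x * χ x
      = ∫ x, ∫ v, ζ v * (g (x - ρ • v) * χ x) := by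
        congr 1; funext x
        rw [Aop, ← integral_mul_const]
        congr 1; funext v; ring
    _ = ∫ v, ∫ x, ζ v * (g (x - ρ • v) * χ x) := integral_integral_swap I1
    _ = ∫ v, ∫ y, ζ v * (g y * χ (y + ρ • v)) := by
        congr 1; funext v
        rw [← integral_sub_right_eq_self (fun y => ζ v * (g y * χ (y + ρ • v))) (ρ • v)]
        simp
    _ = ∫ y, ∫ v, ζ v * (g y * χ (y + ρ • v)) := (integral_integral_swap I2).symm
    _ = _ := by
        congr 1; funext y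
        rw [← integral_const_mul]
        congr 1; funext v; ring

end M6ac

/-- M6a -/
theorem kopBound (n : ℕ) : KopBound n := by
  intro Ω Φ M t p e c r ζ ρ g hΩ hΦ hM ht hr hcone hζc hζs hζt hρ hρr hg
  have hζi : Integrable ζ := hζc.integrable_of_hasCompactSupport hζs
  have hgm : AEStronglyMeasurable (Ω.indicator g) volume :=
    (aestronglyMeasurable_indicator_iff hΩ.measurableSet).2 hg.1
  set ν := (volume : Measure (EC n)).prod (volume.restrict (Ioc (0 : ℝ) 1)) with hν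
  have hki : Integrable (fun q : EC n × ℝ => ζ q.1 * (ρ : ℂ)) ν := by
    have h1 : Integrable (fun _ : ℝ => (ρ : ℂ)) (volume.restrict (Ioc (0 : ℝ) 1)) :=
      integrable_const _
    exact hζi.mul_prod h1
  have hkint : ∫ q : EC n × ℝ, ‖ζ q.1 * (ρ : ℂ)‖ ∂ν = ρ * ∫ v, ‖ζ v‖ := by
    have h1 : (fun q : EC n × ℝ => ‖ζ q.1 * (ρ : ℂ)‖) =
        fun q : EC n × ℝ => (fun v => ‖ζ v‖) q.1 * (fun _ : ℝ => ρ) q.2 := by
      funext q
      simp [abs_of_pos hρ]
    rw [h1, hν, integral_prod_mul (fun v : EC n => ‖ζ v‖) (fun _ : ℝ => ρ)]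
    simp [mul_comm]
  have hslice : ∀ᵐ x : EC n, AEStronglyMeasurable
      (fun a : EC n × ℝ => Ω.indicator g (x - (a.2 * ρ) • a.1)) ν :=
    (M6ac.meas_prod ν (fun q : EC n × ℝ => (q.2 * ρ) • q.1) (by fun_prop) _ hgm).prodMk_left
  have := M6ac.concl Ω Φ t (Ω ∩ Metric.ball p r) hΩ (hΩ.inter Metric.isOpen_ball).measurableSet hΦ
    ht ν (fun q : EC n × ℝ => ζ q.1 * (ρ : ℂ)) hki (fun q : EC n × ℝ => (q.2 * ρ) • q.1)
    (by fun_prop) g hg ?_ (Kop ζ ρ (Ω.indicator g)) (M6ac.kop_meas ζ ρ hζc _ hgm) ?_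
  · rw [hkint] at this
    exact this
  · have h1 : ∀ᵐ q : EC n × ℝ ∂ν, q.2 ∈ Ioc (0 : ℝ) 1 := by
      have h2 : ν = ((volume : Measure (EC n)).prod volume).restrict (univ ×ˢ Ioc (0 : ℝ) 1) := by
        rw [hν, ← Measure.prod_restrict, Measure.restrict_univ]
      rw [h2]
      filter_upwards [ae_restrict_mem (MeasurableSet.univ.prod measurableSet_Ioc)] with q hq
      exact hq.2
    filter_upwards [h1] with q hq hk x hx
    have hζq : ζ q.1 ≠ 0 := fun h => hk (by simp [h])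
    refine (M6ac.cone_use Ω Φ p e c r ζ hcone hζt q.1 hζq (q.2 * ρ) ?_ ?_ x hx).2
    · exact mul_nonneg hq.1.le hρ.le
    · calc q.2 * ρ ≤ 1 * ρ := by gcongr; exact hq.2
        _ ≤ r := by linarith
  · filter_upwards [hslice] with x hx
    calc ‖Kop ζ ρ (Ω.indicator g) x‖ₑ
        ≤ ∫⁻ v, ‖ζ v * ∫ τ in Ioc (0 : ℝ) 1, (ρ : ℂ) * Ω.indicator g (x - (τ * ρ) • v)‖ₑ :=
          enorm_integral_le_lintegral_enorm _
      _ ≤ ∫⁻ v, ∫⁻ τ in Ioc (0 : ℝ) 1, ‖ζ v * (ρ : ℂ)‖ₑ *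
            ‖Ω.indicator g (x - (τ * ρ) • v)‖ₑ := by
          refine lintegral_mono fun v => ?_
          rw [enorm_mul]
          calc ‖ζ v‖ₑ * ‖∫ τ in Ioc (0 : ℝ) 1, (ρ : ℂ) * Ω.indicator g (x - (τ * ρ) • v)‖ₑ
              ≤ ‖ζ v‖ₑ * ∫⁻ τ in Ioc (0 : ℝ) 1, ‖(ρ : ℂ) * Ω.indicator g (x - (τ * ρ) • v)‖ₑ := by
                gcongr
                exact enorm_integral_le_lintegral_enorm _
            _ = _ := by
                rw [← lintegral_const_mul' _ _ (by simp)]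
                simp_rw [enorm_mul, mul_assoc]
      _ = ∫⁻ a : EC n × ℝ, ‖ζ a.1 * (ρ : ℂ)‖ₑ * ‖Ω.indicator g (x - (a.2 * ρ) • a.1)‖ₑ ∂ν := by
          rw [hν, lintegral_prod]
          exact (hki.aestronglyMeasurable.enorm.mul hx.enorm)



/-- M6c -/
theorem aopBound (n : ℕ) : AopBound n := by
  intro Ω Φ M t p e c r ζ ρ g hΩ hΦ hM ht hr hcone hζc hζs hζt hρ hρr hg
  have hζi : Integrable ζ := hζc.continuous.integrable_of_hasCompactSupport hζs
  have hgm : AEStronglyMeasurable (Ω.indicator g) volume :=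
    (aestronglyMeasurable_indicator_iff hΩ.measurableSet).2 hg.1
  have hgL : MemLp (Ω.indicator g) 2 volume := (memLp_indicator_iff_restrict hΩ.measurableSet).2 hg
  have h1 := M6ac.concl Ω Φ t (Ω ∩ Metric.ball p r) hΩ
    (hΩ.inter Metric.isOpen_ball).measurableSet hΦ
    ht (volume : Measure (EC n)) ζ hζi (fun v => ρ • v)
    (by fun_prop) g hg ?_ (Aop ζ ρ (Ω.indicator g)) (M6ac.aop_meas ζ ρ hζc.continuous _ hgm) ?_
  · refine ⟨h1.1, h1.2, ?_⟩
    intro e' χ hχ hχs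
    have hχ' : Continuous (fun x => fderiv ℝ χ x e') :=
      (hχ.continuous_fderiv (by simp)).clm_apply continuous_const
    have hζ' : Continuous (fun x => fderiv ℝ ζ x e') :=
      (hζc.continuous_fderiv (by simp)).clm_apply continuous_const
    have hχs' : HasCompactSupport (fun x => fderiv ℝ χ x e') := hχs.fderiv_apply (𝕜 := ℝ) e'
    have hζs' : HasCompactSupport (fun x => fderiv ℝ ζ x e') := hζs.fderiv_apply (𝕜 := ℝ) e'
    rw [M6ac.aop_dual ζ _ ρ hζc.continuous hζs hχ' hχs' _ hgL]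
    have h2 : ∫ x, ((1 / ρ : ℝ) : ℂ) * Aop (fun v => fderiv ℝ ζ v e') ρ (Ω.indicator g) x * χ x =
        ((1 / ρ : ℝ) : ℂ) * ∫ x, Aop (fun v => fderiv ℝ ζ v e') ρ (Ω.indicator g) x * χ x := by
      rw [← integral_const_mul]
      congr 1; funext x; ring
    rw [h2, M6ac.aop_dual _ _ ρ hζ' hζs' hχ.continuous hχs _ hgL, ← integral_const_mul,
      ← integral_neg]
    congr 1; funext y
    have hd : ∀ v, fderiv ℝ (fun v => χ (y + ρ • v)) v e' = (ρ : ℂ) * fderiv ℝ χ (y + ρ • v) e' := by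
      intro v
      have hA : HasFDerivAt (fun v : EC n => y + ρ • v)
          (ρ • ContinuousLinearMap.id ℝ (EC n)) v := by
        exact ((hasFDerivAt_id v).const_smul ρ).const_add y
      have hB := ((hχ.differentiable (by simp)) (y + ρ • v)).hasFDerivAt.comp v hA
      have hC : fderiv ℝ (fun v => χ (y + ρ • v)) v = (fderiv ℝ χ (y + ρ • v)).comp
          (ρ • ContinuousLinearMap.id ℝ (EC n)) := hB.fderiv
      rw [hC]
      simp
    have hχc : ContDiff ℝ ∞ (fun v : EC n => χ (y + ρ • v)) := hχ.comp (by fun_prop)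
    have hIBP : ∫ v, ζ v * fderiv ℝ (fun v => χ (y + ρ • v)) v e' =
        - ∫ v, fderiv ℝ ζ v e' * χ (y + ρ • v) := by
      refine integral_mul_fderiv_eq_neg_fderiv_mul_of_integrable ?_ ?_ ?_ ?_ ?_
      · refine Continuous.integrable_of_hasCompactSupport (hζ'.mul hχc.continuous) ?_
        exact hζs'.mul_right
      · refine Continuous.integrable_of_hasCompactSupport (hζc.continuous.mul
          ((hχc.continuous_fderiv (by simp)).clm_apply continuous_const)) ?_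
        exact hζs.mul_right
      · refine Continuous.integrable_of_hasCompactSupport
          (hζc.continuous.mul hχc.continuous) ?_
        exact hζs.mul_right
      · exact fun x _ => (hζc.differentiable (by simp)) x
      · exact fun x _ => (hχc.differentiable (by simp)) x
    simp_rw [hd] at hIBP
    have h3 : ∫ v, ζ v * ((ρ : ℂ) * fderiv ℝ χ (y + ρ • v) e') =
        (ρ : ℂ) * ∫ v, ζ v * fderiv ℝ χ (y + ρ • v) e' := by
      rw [← integral_const_mul]
      congr 1; funext v; ring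
    rw [h3] at hIBP
    have hρ' : (ρ : ℂ) ≠ 0 := by exact_mod_cast hρ.ne'
    have h4 : ∫ v, ζ v * fderiv ℝ χ (y + ρ • v) e' =
        -(((1 / ρ : ℝ) : ℂ) * ∫ v, fderiv ℝ ζ v e' * χ (y + ρ • v)) := by
      rw [← mul_right_inj' hρ', hIBP]
      push_cast
      field_simp
    rw [h4]
    ring
  · refine Eventually.of_forall fun v hv x hx => ?_
    exact (M6ac.cone_use Ω Φ p e c r ζ hcone hζt v hv ρ hρ.le hρr x hx).2
  · refine Eventually.of_forall fun x => ?_
    calc ‖Aop ζ ρ (Ω.indicator g) x‖ₑ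
        ≤ ∫⁻ v, ‖ζ v * Ω.indicator g (x - ρ • v)‖ₑ := enorm_integral_le_lintegral_enorm _
      _ = _ := by simp_rw [enorm_mul]

end Pool.Agent.H92.Lip
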