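import Pool.Agent.H92.Lip.Defs2

/-!
# M6b: weighted gradient bound of `Kop`
-/

set_option autoImplicit false

open MeasureTheory Set Filter Topology
open scoped ContDiff ENNReal

namespace Pool.Agent.H92.Lip

namespace M6b

variable {n : ℕ}

theorem eLpNorm_two {α : Type*} [MeasurableSpace α] (μ : Measure α) (f : α → ℂ) :
    eLpNorm f 2 μ = (∫⁻ x, ‖f x‖ₑ ^ (2 : ℝ) ∂μ) ^ (1 / 2 : ℝ) := by
  rw [eLpNorm_eq_lintegral_rpow_enorm_toReal (by norm_num) (by norm_num)]
  simp

theorem eLpNorm_two_sq {α : Type*} [MeasurableSpace α] (μ : Measure α) (f : α → ℂ) :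
    (eLpNorm f 2 μ) ^ (2 : ℝ) = ∫⁻ x, ‖f x‖ₑ ^ (2 : ℝ) ∂μ := by
  rw [eLpNorm_two, ← ENNReal.rpow_mul]
  norm_num

theorem eLpNorm_two_le {α : Type*} [MeasurableSpace α] (μ ν : Measure α) (f g : α → ℂ) (C : ℝ≥0∞)
    (h : ∫⁻ x, ‖f x‖ₑ ^ (2 : ℝ) ∂μ ≤ C ^ (2 : ℝ) * ∫⁻ x, ‖g x‖ₑ ^ (2 : ℝ) ∂ν) :
    eLpNorm f 2 μ ≤ C * eLpNorm g 2 ν := by
  rw [eLpNorm_two, eLpNorm_two]
  refine (ENNReal.rpow_le_rpow h (by norm_num)).trans_eq ?_
  rw [ENNReal.mul_rpow_of_nonneg _ _ (by norm_num), ← ENNReal.rpow_mul]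
  norm_num

theorem lintegral_sq_le {α : Type*} [MeasurableSpace α] (μ ν : Measure α) (f g : α → ℂ) (C : ℝ≥0∞)
    (h : eLpNorm f 2 μ ≤ C * eLpNorm g 2 ν) :
    ∫⁻ x, ‖f x‖ₑ ^ (2 : ℝ) ∂μ ≤ C ^ (2 : ℝ) * ∫⁻ x, ‖g x‖ₑ ^ (2 : ℝ) ∂ν := by
  rw [← eLpNorm_two_sq, ← eLpNorm_two_sq, ← ENNReal.mul_rpow_of_nonneg _ _ (by norm_num)]
  exact ENNReal.rpow_le_rpow h (by norm_num)

/-- layer cake -/
theorem layer {S : Set (EC n)} {w : EC n → ℝ} (hw : Measurable w)
    {F : EC n → ℝ≥0∞} (hF : AEMeasurable F volume) :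
    ∫⁻ x in S, ENNReal.ofReal (w x) * F x =
      ∫⁻ l in Ioi (0 : ℝ), ∫⁻ x in S ∩ {x | l < w x}, F x := by
  have h1 : ∀ x, ENNReal.ofReal (w x) * F x =
      ∫⁻ l in Ioi (0 : ℝ), ({x | l < w x}.indicator F x) := by
    intro x
    have : ∀ l : ℝ, ({x | l < w x}.indicator F x) = (Iio (w x)).indicator (fun _ ↦ F x) l := by
      intro l
      by_cases h : l < w x
      · rw [indicator_of_mem (by exact h), indicator_of_mem (by exact h)]
      · rw [indicator_of_notMem (by exact h), indicator_of_notMem (by exact h)]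
    simp_rw [this]
    rw [lintegral_indicator measurableSet_Iio, lintegral_const, Measure.restrict_restrict measurableSet_Iio]
    rw [Measure.restrict_apply_univ, mul_comm]
    congr 1
    have : Iio (w x) ∩ Ioi 0 = Ioo 0 (w x) := by ext; simp [and_comm]
    rw [this, Real.volume_Ioo, sub_zero]
  have h2 : ∀ l : ℝ, MeasurableSet {x | l < w x} := fun l ↦ measurableSet_lt measurable_const hw
  have h3 : ∀ l : ℝ, ∫⁻ x in S ∩ {x | l < w x}, F x = ∫⁻ x in S, {x | l < w x}.indicator F x := by
    intro l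
    rw [lintegral_indicator (h2 l), Measure.restrict_restrict (h2 l), inter_comm]
  simp_rw [h1, h3]
  rw [lintegral_lintegral_swap]
  -- measurability
  have h4 : AEMeasurable (fun q : EC n × ℝ ↦ F q.1)
      ((volume.restrict S).prod (volume.restrict (Ioi (0 : ℝ)))) :=
    (hF.mono_measure Measure.restrict_le_self).comp_fst
  have h5 : MeasurableSet {q : EC n × ℝ | q.2 < w q.1} :=
    measurableSet_lt measurable_snd (hw.comp measurable_fst)
  refine (h4.indicator h5).congr ?_
  filter_upwards with q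
  by_cases h : q.2 < w q.1
  · rw [indicator_of_mem (by exact h)]
    simp only [Function.uncurry]
    rw [indicator_of_mem (by exact h)]
  · rw [indicator_of_notMem (by exact h)]
    simp only [Function.uncurry]
    rw [indicator_of_notMem (by exact h)]

end M6b

open M6b

theorem kopGrad (n : ℕ) (hG : GradBound n) : KopGrad n := by
  intro ζ hζ hζc
  obtain ⟨C, hC, hmain⟩ := hG ζ hζ hζc
  refine ⟨C, hC, fun Ω Φ M t p e c r hΩ hΦm hΦc hM ht hr hcone hsupp ρ hρ hρr e' he' g hg ↦ ?_⟩
  -- indicator of subsets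
  have hind : ∀ D : Set (EC n), MeasurableSet D → D ⊆ Ω → MemLp (D.indicator g) 2 volume := by
    intro D hD hDΩ
    rw [memLp_indicator_iff_restrict hD]
    exact hg.mono_measure (Measure.restrict_mono hDΩ le_rfl)
  obtain ⟨h, hh, -, hweak⟩ := hmain ρ hρ e' he' (Ω.indicator g) (hind Ω hΩ.measurableSet le_rfl)
  refine ⟨h, hh, hweak, ?_⟩
  set w : EC n → ℝ := fun x ↦ Real.exp (-(t * Φ x)) with hw
  have hwm : Measurable w := by
    exact Real.measurable_exp.comp ((measurable_const.mul hΦm).neg)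
  -- level sets
  have hlev : ∀ l : ℝ, ∫⁻ x in (Ω ∩ Metric.ball p r) ∩ {x | l < w x}, ‖h x‖ₑ ^ (2 : ℝ) ≤
      (ENNReal.ofReal C) ^ (2 : ℝ) * ∫⁻ x in Ω ∩ {x | l < w x}, ‖g x‖ₑ ^ (2 : ℝ) := by
    intro l
    set D : Set (EC n) := Ω ∩ {x | l < w x} with hD
    have hDo : IsOpen D := by
      have h1 : ContinuousOn w Ω := by
        exact Real.continuous_exp.comp_continuousOn ((continuousOn_const.mul hΦc).neg)
      exact h1.isOpen_inter_preimage hΩ isOpen_Ioi
    have hDm : MeasurableSet D := hDo.measurableSet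
    have hDΩ : D ⊆ Ω := inter_subset_left
    obtain ⟨k, hk, hkn, hkw⟩ := hmain ρ hρ e' he' (D.indicator g) (hind D hDm hDΩ)
    set U : Set (EC n) := D ∩ Metric.ball p r with hU
    have hUo : IsOpen U := hDo.inter Metric.isOpen_ball
    -- the two operators agree on `U`
    have hagree : ∀ x ∈ U, Kop ζ ρ (Ω.indicator g) x = Kop ζ ρ (D.indicator g) x := by
      intro x hx
      unfold Kop
      congr 1
      funext v
      by_cases hv : v ∈ tsupport ζ
      · congr 1
        apply setIntegral_congr_fun measurableSet_Ioc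
        intro τ hτ
        have hv' : ‖v - e‖ ≤ c := by
          have := hsupp hv
          rwa [Metric.mem_closedBall, dist_eq_norm] at this
        have h1 := hcone x hx.1.1 (Metric.mem_ball.1 hx.2) (τ * ρ) (mul_nonneg hτ.1.le hρ.le)
          ((mul_le_of_le_one_left hρ.le hτ.2).trans hρr) (v - e) hv'
        rw [add_sub_cancel] at h1
        have h2 : x - (τ * ρ) • v ∈ D := by
          refine ⟨h1.1, ?_⟩
          have h3 : w x ≤ w (x - (τ * ρ) • v) := by
            simp only [hw]
            apply Real.exp_le_exp.2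
            have := mul_le_mul_of_nonneg_left h1.2 ht
            linarith
          exact lt_of_lt_of_le hx.1.2 h3
        simp only [indicator_of_mem h1.1, indicator_of_mem h2]
      · rw [image_eq_zero_of_notMem_tsupport hv]
        simp
    -- hence the weak derivatives agree
    have hae : ∀ᵐ x ∂volume, x ∈ U → h x - k x = 0 := by
      apply hUo.ae_eq_zero_of_integral_contDiff_smul_eq_zero
      · exact ((hh.sub hk).locallyIntegrable (by norm_num)).locallyIntegrableOn _
      · intro χ hχ hχc hχU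
        set X : EC n → ℂ := fun x ↦ (χ x : ℂ) with hX
        have hXs : ContDiff ℝ ∞ X := Complex.ofRealCLM.contDiff.comp hχ
        have hXc : HasCompactSupport X := hχc.comp_left Complex.ofReal_zero
        have hXU : tsupport X ⊆ U := by
          refine subset_trans (closure_mono ?_) hχU
          intro x hx
          simp only [hX, Function.mem_support, ne_eq, Complex.ofReal_eq_zero] at hx
          exact hx
        have hXm : MemLp X 2 volume := hXs.continuous.memLp_of_hasCompactSupport hXc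
        have e1 := hweak X hXs hXc
        have e2 := hkw X hXs hXc
        have e3 : ∫ x, Kop ζ ρ (Ω.indicator g) x * fderiv ℝ X x e' =
            ∫ x, Kop ζ ρ (D.indicator g) x * fderiv ℝ X x e' := by
          congr 1
          funext x
          by_cases hx : x ∈ U
          · rw [hagree x hx]
          · have : fderiv ℝ X x = 0 := by
              apply image_eq_zero_of_notMem_tsupport
              intro hx'
              exact hx (hXU (tsupport_fderiv_subset ℝ hx'))
            rw [this]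
            simp
        have e4 : ∫ x, h x * X x = ∫ x, k x * X x := by
          have := e1.symm.trans (e3.trans e2)
          exact neg_injective this
        have e5 : ∫ x, χ x • (h x - k x) = ∫ x, h x * X x - k x * X x := by
          congr 1
          funext x
          simp only [hX, Complex.real_smul]
          ring
        have i1 : Integrable (fun x ↦ h x * X x) volume := hh.integrable_mul hXm
        have i2 : Integrable (fun x ↦ k x * X x) volume := hk.integrable_mul hXm
        rw [e5, integral_sub i1 i2, e4, sub_self]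
    have h6 : ∫⁻ x in (Ω ∩ Metric.ball p r) ∩ {x | l < w x}, ‖h x‖ₑ ^ (2 : ℝ) =
        ∫⁻ x in U, ‖k x‖ₑ ^ (2 : ℝ) := by
      have hUe : (Ω ∩ Metric.ball p r) ∩ {x | l < w x} = U := by
        rw [hU, hD]
        ext x
        simp only [mem_inter_iff]
        tauto
      rw [hUe]
      apply lintegral_congr_ae
      rw [EventuallyEq, ae_restrict_iff' hUo.measurableSet]
      filter_upwards [hae] with x hx hxU
      rw [sub_eq_zero.1 (hx hxU)]
    rw [h6]
    refine (setLIntegral_le_lintegral _ _).trans ?_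
    refine (lintegral_sq_le _ _ _ _ _ hkn).trans_eq ?_
    congr 1
    rw [← eLpNorm_two_sq, ← eLpNorm_two_sq, eLpNorm_indicator_eq_eLpNorm_restrict hDm]
  apply eLpNorm_two_le
  have hBm : MeasurableSet (Ω ∩ Metric.ball p r) := hΩ.measurableSet.inter measurableSet_ball
  have hFh : AEMeasurable (fun x ↦ ‖h x‖ₑ ^ (2 : ℝ)) volume :=
    hh.aestronglyMeasurable.enorm.pow_const _
  have hwe : Measurable (fun x ↦ ENNReal.ofReal (w x)) := hwm.ennreal_ofReal
  have hFg : AEMeasurable (fun x ↦ ‖Ω.indicator g x‖ₑ ^ (2 : ℝ)) volume :=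
    (hind Ω hΩ.measurableSet le_rfl).aestronglyMeasurable.enorm.pow_const _
  have hL : ∫⁻ x, ‖h x‖ₑ ^ (2 : ℝ) ∂(wm Φ t (Ω ∩ Metric.ball p r)) =
      ∫⁻ x in Ω ∩ Metric.ball p r, ENNReal.ofReal (w x) * ‖h x‖ₑ ^ (2 : ℝ) := by
    unfold wm
    rw [lintegral_withDensity_eq_lintegral_mul₀ hwe.aemeasurable (hFh.mono_measure Measure.restrict_le_self)]
    rfl
  have hR : ∫⁻ x, ‖g x‖ₑ ^ (2 : ℝ) ∂(wm Φ t Ω) =
      ∫⁻ x in Ω, ENNReal.ofReal (w x) * ‖Ω.indicator g x‖ₑ ^ (2 : ℝ) := by
    unfold wm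
    rw [lintegral_withDensity_eq_lintegral_mul₀ hwe.aemeasurable
      (hg.aestronglyMeasurable.enorm.pow_const _)]
    apply setLIntegral_congr_fun hΩ.measurableSet
    intro x hx
    simp only [Pi.mul_apply, indicator_of_mem hx]
  rw [hL, hR, layer hwm hFh, layer hwm hFg]
  have hC2 : (ENNReal.ofReal C) ^ (2 : ℝ) ≠ ⊤ := by simp
  rw [← lintegral_const_mul' _ _ hC2]
  apply lintegral_mono
  intro l
  refine (hlev l).trans_eq ?_
  congr 1
  apply setLIntegral_congr_fun (hΩ.measurableSet.inter (measurableSet_lt measurable_const hwm))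
  intro x hx
  simp only [indicator_of_mem hx.1]

end Pool.Agent.H92.Lip
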