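import Mathlib
import Pool.Agent.H92.Lip.Defs2
import Pool.Agent.H92.Lip.M6ac

/-!
Module M6d: the local solution solves the `∂̄` equation on the patch (helper66).
-/

set_option autoImplicit false

open MeasureTheory Set Filter Topology
open scoped ContDiff ENNReal

namespace Pool.Agent.H92.Lip

namespace M6d

variable {n : ℕ} {α : Type*} [MeasurableSpace α]

/-- joint integrability -/
theorem joint (ν : Measure α) [SFinite ν] (k : α → ℂ) (hk : Integrable k ν) (s : α → EC n)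
    (hs : Measurable s) (G : EC n → ℂ) (hG : Integrable G) (χ : EC n → ℂ) (hχ : Continuous χ)
    (C : ℝ) (hC : ∀ x, ‖χ x‖ ≤ C) :
    Integrable (fun q : EC n × α => k q.2 * (G (q.1 - s q.2) * χ q.1))
      ((volume : Measure (EC n)).prod ν) := by
  have hC0 : 0 ≤ C := (norm_nonneg _).trans (hC 0)
  have hm1 : AEStronglyMeasurable (fun q : EC n × α => k q.2 * G (q.1 - s q.2))
      ((volume : Measure (EC n)).prod ν) :=
    (hk.1.comp_snd).mul (M6ac.meas_prod ν s hs G hG.1)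
  have hmχ : AEStronglyMeasurable (fun q : EC n × α => χ q.1)
      ((volume : Measure (EC n)).prod ν) :=
    (hχ.aestronglyMeasurable (μ := (volume : Measure (EC n)))).comp_fst
  have h1 : Integrable (fun q : EC n × α => k q.2 * G (q.1 - s q.2))
      ((volume : Measure (EC n)).prod ν) := by
    rw [integrable_prod_iff' hm1]
    constructor
    · refine Eventually.of_forall fun a => ?_
      exact (hG.comp_sub_right (s a)).const_mul (k a)
    · have : (fun a => ∫ x : EC n, ‖k a * G (x - s a)‖) = fun a => ‖k a‖ * ∫ x, ‖G x‖ := by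
        funext a
        simp_rw [norm_mul]
        rw [integral_const_mul, integral_sub_right_eq_self (fun y => ‖G y‖) (s a)]
      rw [this]
      exact hk.norm.mul_const _
  have h2 : Integrable (fun q : EC n × α => (k q.2 * G (q.1 - s q.2)) * χ q.1)
      ((volume : Measure (EC n)).prod ν) :=
    h1.mul_bdd (c := C) hmχ (Eventually.of_forall fun q => hC q.1)
  refine h2.congr (Eventually.of_forall fun q => ?_)
  simp only [mul_assoc]

/-- duality -/
theorem dual (ν : Measure α) [SFinite ν] (k : α → ℂ) (hk : Integrable k ν) (s : α → EC n)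
    (hs : Measurable s) (G : EC n → ℂ) (hG : Integrable G) (χ : EC n → ℂ) (hχ : Continuous χ)
    (C : ℝ) (hC : ∀ x, ‖χ x‖ ≤ C) :
    Integrable (fun a => k a * ∫ y, G y * χ (y + s a)) ν ∧
    ∫ x, (∫ a, k a * G (x - s a) ∂ν) * χ x = ∫ a, k a * (∫ y, G y * χ (y + s a)) ∂ν := by
  have hJ := joint ν k hk s hs G hG χ hχ C hC
  have h1 : ∀ a, ∫ x, k a * (G (x - s a) * χ x) = k a * ∫ y, G y * χ (y + s a) := by
    intro a
    rw [integral_const_mul, ← integral_sub_right_eq_self (fun y => G y * χ (y + s a)) (s a)]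
    simp
  constructor
  · have := hJ.integral_prod_right
    simp only [h1] at this
    exact this
  · calc ∫ x, (∫ a, k a * G (x - s a) ∂ν) * χ x
        = ∫ x : EC n, ∫ a, k a * (G (x - s a) * χ x) ∂ν := by
          congr 1; funext x
          rw [← integral_mul_const]
          congr 1; funext a; ring
      _ = ∫ a, (∫ x : EC n, k a * (G (x - s a) * χ x)) ∂ν := integral_integral_swap hJ
      _ = _ := by simp_rw [h1]

theorem aop_dual (ζ : EC n → ℂ) (hζ : Integrable ζ) (ρ : ℝ) (G : EC n → ℂ) (hG : Integrable G)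
    (χ : EC n → ℂ) (hχ : Continuous χ) (C : ℝ) (hC : ∀ x, ‖χ x‖ ≤ C) :
    Integrable (fun v => ζ v * ∫ y, G y * χ (y + ρ • v)) ∧
    ∫ x, Aop ζ ρ G x * χ x = ∫ v, ζ v * ∫ y, G y * χ (y + ρ • v) :=
  dual (volume : Measure (EC n)) ζ hζ (fun v => ρ • v) (by fun_prop) G hG χ hχ C hC

theorem kop_dual (ζ : EC n → ℂ) (hζ : Integrable ζ) (ρ : ℝ) (G : EC n → ℂ) (hG : Integrable G)
    (χ : EC n → ℂ) (hχ : Continuous χ) (C : ℝ) (hC : ∀ x, ‖χ x‖ ≤ C) :
    Integrable (fun v => ζ v * ∫ τ in Ioc (0 : ℝ) 1, (ρ : ℂ) * ∫ y, G y * χ (y + (τ * ρ) • v)) ∧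
    ∫ x, Kop ζ ρ G x * χ x =
      ∫ v, ζ v * ∫ τ in Ioc (0 : ℝ) 1, (ρ : ℂ) * ∫ y, G y * χ (y + (τ * ρ) • v) := by
  set ν := (volume : Measure (EC n)).prod (volume.restrict (Ioc (0 : ℝ) 1)) with hν
  have hki : Integrable (fun q : EC n × ℝ => ζ q.1 * (ρ : ℂ)) ν := by
    have h1 : Integrable (fun _ : ℝ => (ρ : ℂ)) (volume.restrict (Ioc (0 : ℝ) 1)) :=
      integrable_const _
    exact hζ.mul_prod h1
  have hD := dual ν (fun q : EC n × ℝ => ζ q.1 * (ρ : ℂ)) hki
    (fun q : EC n × ℝ => (q.2 * ρ) • q.1) (by fun_prop) G hG χ hχ C hC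
  have hJ := joint ν (fun q : EC n × ℝ => ζ q.1 * (ρ : ℂ)) hki
    (fun q : EC n × ℝ => (q.2 * ρ) • q.1) (by fun_prop) G hG (fun _ => 1) continuous_const 1
    (by simp)
  have hJx : ∀ᵐ x : EC n, Integrable (fun q : EC n × ℝ =>
      (ζ q.1 * (ρ : ℂ)) * (G (x - (q.2 * ρ) • q.1) * 1)) ν := hJ.prod_right_ae
  have hKop : ∀ᵐ x : EC n, Kop ζ ρ G x =
      ∫ q : EC n × ℝ, (ζ q.1 * (ρ : ℂ)) * G (x - (q.2 * ρ) • q.1) ∂ν := by
    filter_upwards [hJx] with x hx
    simp only [mul_one] at hx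
    rw [hν, integral_prod _ hx, Kop]
    congr 1; funext v
    rw [← integral_const_mul]
    congr 1; funext τ
    ring
  have e1 : (fun v => ζ v * ∫ τ in Ioc (0 : ℝ) 1, (ρ : ℂ) * ∫ y, G y * χ (y + (τ * ρ) • v)) =
      fun v => ∫ τ in Ioc (0 : ℝ) 1, (ζ v * (ρ : ℂ)) * ∫ y, G y * χ (y + (τ * ρ) • v) := by
    funext v
    rw [← integral_const_mul]
    congr 1; funext τ
    ring
  constructor
  · rw [e1]
    exact hD.1.integral_prod_left
  · calc ∫ x, Kop ζ ρ G x * χ x
        = ∫ x, (∫ q : EC n × ℝ, (ζ q.1 * (ρ : ℂ)) * G (x - (q.2 * ρ) • q.1) ∂ν) * χ x := by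
          refine integral_congr_ae ?_
          filter_upwards [hKop] with x hx
          rw [hx]
      _ = _ := hD.2
      _ = ∫ v, ∫ τ in Ioc (0 : ℝ) 1, (ζ v * (ρ : ℂ)) * ∫ y, G y * χ (y + (τ * ρ) • v) := by
          rw [hν, integral_prod _ hD.1]
      _ = _ := by rw [← e1]

/-- translate of a test function -/
theorem tst_shift (Ω : Set (EC n)) (p : EC n) (r : ℝ) (ψ : EC n → ℂ)
    (hψ : Tst (Ω ∩ Metric.ball p r) ψ) (w : EC n)
    (h : ∀ x ∈ Ω ∩ Metric.ball p r, x - w ∈ Ω) : Tst Ω (fun x => ψ (x + w)) := by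
  refine ⟨hψ.smooth.comp (by fun_prop), ?_, ?_⟩
  · exact hψ.cpt.comp_homeomorph (Homeomorph.addRight w)
  · intro x hx
    have h1 : tsupport (ψ ∘ fun x => x + w) ⊆ (fun x => x + w) ⁻¹' tsupport ψ :=
      tsupport_comp_subset_preimage ψ (by fun_prop)
    have h2 := hψ.sub (h1 hx)
    have h3 := h _ h2
    simpa using h3

theorem fderiv_shift (ψ : EC n → ℂ) (w x : EC n) :
    fderiv ℝ (fun x => ψ (x + w)) x = fderiv ℝ ψ (x + w) := fderiv_comp_add_right w

theorem db_shift (k : Fin n) (ψ : EC n → ℂ) (w x : EC n) :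
    db k (fun x => ψ (x + w)) x = db k ψ (x + w) := by
  simp only [db, fderiv_shift]

/-- the real derivative in terms of `∂` and `∂̄` -/
theorem fderiv_eq (ψ : EC n → ℂ) (x v : EC n) :
    fderiv ℝ ψ x v = ∑ l, (v l * dz l ψ x + (starRingEnd ℂ) (v l) * db l ψ x) := by
  have h1 : v = ∑ l, ((v l).re • (Pi.single l (1 : ℂ) : EC n) +
      (v l).im • (Pi.single l Complex.I : EC n)) := by
    funext j
    simp only [Finset.sum_apply, Pi.add_apply, Pi.smul_apply, Pi.single_apply]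
    simp only [smul_ite, smul_zero]
    rw [Finset.sum_add_distrib]
    simp only [Finset.sum_ite_eq, Finset.mem_univ, if_true]
    simp only [Complex.real_smul, mul_one]
    exact (Complex.re_add_im (v j)).symm
  conv_lhs => rw [h1]
  rw [map_sum]
  refine Finset.sum_congr rfl fun l _ => ?_
  rw [map_add, map_smul, map_smul, dz, db]
  set a := fderiv ℝ ψ x (Pi.single l (1 : ℂ))
  set b := fderiv ℝ ψ x (Pi.single l Complex.I)
  have hv : v l = (v l).re + (v l).im * Complex.I := (Complex.re_add_im (v l)).symm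
  have hc : (starRingEnd ℂ) (v l) = (v l).re - (v l).im * Complex.I := by
    apply Complex.ext <;> simp
  rw [hc]
  conv_rhs => rw [hv]
  simp only [Complex.real_smul, Complex.add_re, Complex.ofReal_re, Complex.mul_re, Complex.I_re,
    mul_zero, Complex.ofReal_im, Complex.I_im, mul_one, sub_self, add_zero, Complex.add_im,
    Complex.mul_im, zero_add]
  linear_combination ((v l).im * b) * Complex.I_sq

theorem ind (Ω : Set (EC n)) (hΩ : MeasurableSet Ω) (F χ : EC n → ℂ) :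
    ∫ y, Ω.indicator F y * χ y = ∫ y in Ω, F y * χ y := by
  rw [← integral_indicator hΩ]
  congr 1; funext y
  by_cases hy : y ∈ Ω <;> simp [hy]

/-- a continuous function with compact support is bounded -/
theorem bdd (χ : EC n → ℂ) (hχ : Continuous χ) (hχs : HasCompactSupport χ) :
    ∃ C, ∀ x, ‖χ x‖ ≤ C := hχs.exists_bound_of_continuous hχ

/-- integration along the segment -/
theorem ftc (ψ : EC n → ℂ) (hψ : ContDiff ℝ ∞ ψ) (y v : EC n) (ρ : ℝ) :
    ∫ τ in Ioc (0 : ℝ) 1, (ρ : ℂ) * fderiv ℝ ψ (y + (τ * ρ) • v) v =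
      ψ (y + ρ • v) - ψ y := by
  have hcont : Continuous (fun τ : ℝ => (ρ : ℂ) * fderiv ℝ ψ (y + (τ * ρ) • v) v) := by
    have h1 : Continuous (fderiv ℝ ψ) := hψ.continuous_fderiv (by simp)
    exact continuous_const.mul ((h1.comp (by fun_prop)).clm_apply continuous_const)
  have h := intervalIntegral.integral_eq_sub_of_hasDerivAt (a := 0) (b := 1)
    (f := fun τ : ℝ => ψ (y + (τ * ρ) • v))
    (f' := fun τ : ℝ => (ρ : ℂ) * fderiv ℝ ψ (y + (τ * ρ) • v) v) ?_
    (hcont.intervalIntegrable _ _)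
  · rw [intervalIntegral.integral_of_le zero_le_one] at h
    rw [h]; simp
  · intro τ _
    have hA : HasDerivAt (fun τ : ℝ => y + (τ * ρ) • v) (ρ • v) τ := by
      have h1 : HasDerivAt (fun τ : ℝ => τ * ρ) ρ τ := by
        simpa using (hasDerivAt_id τ).mul_const ρ
      exact (h1.smul_const v).const_add y
    have hB := ((hψ.differentiable (by simp)) (y + (τ * ρ) • v)).hasFDerivAt.comp_hasDerivAt τ hA
    rw [map_smul, Complex.real_smul] at hB
    exact hB

/-- the core identity for fixed direction `v` -/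
theorem core (Ω : Set (EC n)) (Φ : EC n → ℝ) (p e : EC n) (c r : ℝ) (ρ : ℝ)
    (f : Fin n → EC n → ℂ) (D : Fin n → Fin n → EC n → ℂ) (u : EC n → ℂ)
    (g : Fin n → EC n → ℂ) (hΩ : IsOpen Ω) (hΩb : Bornology.IsBounded Ω)
    (hρ : 0 < ρ) (hρr : ρ ≤ r) (hf : XD Ω f D)
    (hu : ∀ k, WDo (db k) Ω u (f k)) (hgL : ∀ l, MemLp (g l) 2 (volume.restrict Ω))
    (hg : ∀ l k, WDo (db k) Ω (g l) (D l k)) (k : Fin n) (ψ : EC n → ℂ)
    (hψ : Tst (Ω ∩ Metric.ball p r) ψ) (v : EC n)
    (hv : ∀ s : ℝ, 0 ≤ s → s ≤ r → ∀ x ∈ Ω ∩ Metric.ball p r, x - s • v ∈ Ω) :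
    (∫ y, Ω.indicator u y * db k ψ (y + ρ • v)) +
      ∑ l, (v l * (∫ τ in Ioc (0 : ℝ) 1, (ρ : ℂ) *
          ∫ y, Ω.indicator (g l) y * db k ψ (y + (τ * ρ) • v)) +
        (starRingEnd ℂ) (v l) * (∫ τ in Ioc (0 : ℝ) 1, (ρ : ℂ) *
          ∫ y, Ω.indicator (f l) y * db k ψ (y + (τ * ρ) • v))) =
    - ∫ y, Ω.indicator (f k) y * ψ y := by
  have hΩm := hΩ.measurableSet
  have hfin : IsFiniteMeasure (volume.restrict Ω) :=
    ⟨by rw [Measure.restrict_apply_univ]; exact hΩb.measure_lt_top⟩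
  have hL1 : ∀ F : EC n → ℂ, MemLp F 2 (volume.restrict Ω) → Integrable F (volume.restrict Ω) :=
    fun F hF => hF.integrable (by norm_num)
  have hL1' : ∀ F : EC n → ℂ, MemLp F 2 (volume.restrict Ω) → Integrable (Ω.indicator F) :=
    fun F hF => (integrable_indicator_iff hΩm).2 (hL1 F hF)
  set f' : EC n → ℂ := fun x => fderiv ℝ ψ x v with hf'
  have hf'c : Continuous f' := (hψ.smooth.continuous_fderiv (by simp)).clm_apply continuous_const
  have hf's : HasCompactSupport f' := hψ.cpt.fderiv_apply (𝕜 := ℝ) v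
  have hdbc : ∀ j, Continuous (db j ψ) := by
    intro j
    have h1 : Continuous (fderiv ℝ ψ) := hψ.smooth.continuous_fderiv (by simp)
    unfold db
    fun_prop
  have hdzc : ∀ j, Continuous (dz j ψ) := by
    intro j
    have h1 : Continuous (fderiv ℝ ψ) := hψ.smooth.continuous_fderiv (by simp)
    unfold dz
    fun_prop
  have hdbs : ∀ j, HasCompactSupport (db j ψ) := by
    intro j
    refine HasCompactSupport.intro hψ.cpt fun x hx => ?_
    have h0 : fderiv ℝ ψ x = 0 := by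
      have : x ∉ tsupport (fderiv ℝ ψ) := fun h => hx (tsupport_fderiv_subset ℝ h)
      exact image_eq_zero_of_notMem_tsupport this
    simp [db, h0]
  have hdzs : ∀ j, HasCompactSupport (dz j ψ) := by
    intro j
    refine HasCompactSupport.intro hψ.cpt fun x hx => ?_
    have h0 : fderiv ℝ ψ x = 0 := by
      have : x ∉ tsupport (fderiv ℝ ψ) := fun h => hx (tsupport_fderiv_subset ℝ h)
      exact image_eq_zero_of_notMem_tsupport this
    simp [dz, h0]
  have hT : ∀ s : ℝ, 0 ≤ s → s ≤ r → Tst Ω (fun x => ψ (x + s • v)) := fun s h0 h1 =>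
    tst_shift Ω p r ψ hψ (s • v) (hv s h0 h1)
  -- integrability of products
  have hprod : ∀ (F χ : EC n → ℂ), MemLp F 2 (volume.restrict Ω) → Continuous χ →
      HasCompactSupport χ → ∀ w : EC n,
      Integrable (fun y => F y * χ (y + w)) (volume.restrict Ω) := by
    intro F χ hF hχ hχs w
    obtain ⟨C, hC⟩ := bdd χ hχ hχs
    exact (hL1 F hF).mul_bdd (c := C) (hχ.comp (by fun_prop)).aestronglyMeasurable
      (Eventually.of_forall fun y => hC _)
  -- the identity at a fixed shift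
  have hshift : ∀ s : ℝ, 0 ≤ s → s ≤ r →
      ∑ l, (v l * (∫ y in Ω, g l y * db k ψ (y + s • v)) +
        (starRingEnd ℂ) (v l) * ∫ y in Ω, f l y * db k ψ (y + s • v)) =
      ∫ y in Ω, f k y * f' (y + s • v) := by
    intro s h0 h1
    have hTs := hT s h0 h1
    have e1 : ∀ l, ∫ y in Ω, g l y * db k ψ (y + s • v) =
        ∫ y in Ω, f k y * dz l ψ (y + s • v) := by
      intro l
      have a1 := hg l k _ hTs
      have a2 := hf.wd l k _ hTs
      simp only [db_shift, dz, fderiv_shift] at a1 a2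
      rw [a1, ← a2]
      rfl
    have e2 : ∀ l, ∫ y in Ω, f l y * db k ψ (y + s • v) =
        ∫ y in Ω, f k y * db l ψ (y + s • v) := by
      intro l
      have a1 := hf.cl l k _ hTs
      simp only [db_shift] at a1
      exact a1
    have e3 : (fun y => f k y * f' (y + s • v)) = fun y => ∑ l, (v l * (f k y * dz l ψ (y + s • v))
        + (starRingEnd ℂ) (v l) * (f k y * db l ψ (y + s • v))) := by
      funext y
      rw [hf']
      simp only
      rw [fderiv_eq, Finset.mul_sum]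
      refine Finset.sum_congr rfl fun l _ => ?_
      ring
    rw [e3, integral_finsetSum]
    · refine Finset.sum_congr rfl fun l _ => ?_
      rw [e1, e2, integral_add, integral_const_mul, integral_const_mul]
      · exact (hprod (f k) _ (hf.mf k) (hdzc l) (hdzs l) _).const_mul _
      · exact (hprod (f k) _ (hf.mf k) (hdbc l) (hdbs l) _).const_mul _
    · intro l _
      exact ((hprod (f k) _ (hf.mf k) (hdzc l) (hdzs l) _).const_mul _).add
        ((hprod (f k) _ (hf.mf k) (hdbc l) (hdbs l) _).const_mul _)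
  have hmem : ∀ τ ∈ Ioc (0 : ℝ) 1, 0 ≤ τ * ρ ∧ τ * ρ ≤ r := by
    intro τ hτ
    refine ⟨mul_nonneg hτ.1.le hρ.le, ?_⟩
    calc τ * ρ ≤ 1 * ρ := by gcongr; exact hτ.2
      _ ≤ r := by linarith
  -- integrability in `τ`
  have hconst : Integrable (fun _ : ℝ => (ρ : ℂ)) (volume.restrict (Ioc (0 : ℝ) 1)) :=
    integrable_const _
  have hτ : ∀ F : EC n → ℂ, MemLp F 2 (volume.restrict Ω) → Integrable (fun τ : ℝ => (ρ : ℂ) *
      ∫ y, Ω.indicator F y * db k ψ (y + (τ * ρ) • v)) (volume.restrict (Ioc (0 : ℝ) 1)) := by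
    intro F hF
    obtain ⟨C, hC⟩ := bdd _ (hdbc k) (hdbs k)
    exact (dual (volume.restrict (Ioc (0 : ℝ) 1)) (fun _ : ℝ => (ρ : ℂ)) hconst
      (fun τ : ℝ => (τ * ρ) • v) (by fun_prop) (Ω.indicator F) (hL1' F hF) (db k ψ) (hdbc k)
      C hC).1
  have step1 : ∑ l, (v l * (∫ τ in Ioc (0 : ℝ) 1, (ρ : ℂ) *
          ∫ y, Ω.indicator (g l) y * db k ψ (y + (τ * ρ) • v)) +
        (starRingEnd ℂ) (v l) * (∫ τ in Ioc (0 : ℝ) 1, (ρ : ℂ) *
          ∫ y, Ω.indicator (f l) y * db k ψ (y + (τ * ρ) • v))) =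
      ∫ τ in Ioc (0 : ℝ) 1, (ρ : ℂ) * ∫ y in Ω, f k y * f' (y + (τ * ρ) • v) := by
    have h1 : ∀ τ ∈ Ioc (0 : ℝ) 1, (ρ : ℂ) * ∫ y in Ω, f k y * f' (y + (τ * ρ) • v) =
        ∑ l, (v l * ((ρ : ℂ) * ∫ y, Ω.indicator (g l) y * db k ψ (y + (τ * ρ) • v)) +
        (starRingEnd ℂ) (v l) * ((ρ : ℂ) *
          ∫ y, Ω.indicator (f l) y * db k ψ (y + (τ * ρ) • v))) := by
      intro τ hτm
      rw [← hshift (τ * ρ) (hmem τ hτm).1 (hmem τ hτm).2, Finset.mul_sum]
      refine Finset.sum_congr rfl fun l _ => ?_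
      rw [ind Ω hΩm (g l) (fun y => db k ψ (y + (τ * ρ) • v)),
        ind Ω hΩm (f l) (fun y => db k ψ (y + (τ * ρ) • v))]
      ring
    rw [setIntegral_congr_fun measurableSet_Ioc h1, integral_finsetSum]
    · refine Finset.sum_congr rfl fun l _ => ?_
      rw [integral_add, integral_const_mul (v l), integral_const_mul ((starRingEnd ℂ) (v l))]
      · exact (hτ (g l) (hgL l)).const_mul _
      · exact (hτ (f l) (hf.mf l)).const_mul _
    · intro l _
      exact ((hτ (g l) (hgL l)).const_mul _).add ((hτ (f l) (hf.mf l)).const_mul _)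
  have step2 : ∫ τ in Ioc (0 : ℝ) 1, (ρ : ℂ) * ∫ y in Ω, f k y * f' (y + (τ * ρ) • v) =
      ∫ y in Ω, f k y * (ψ (y + ρ • v) - ψ y) := by
    have h1 : ∀ τ : ℝ, (ρ : ℂ) * ∫ y in Ω, f k y * f' (y + (τ * ρ) • v) =
        ∫ y in Ω, (ρ : ℂ) * (f k y * f' (y + (τ * ρ) • v)) := fun τ =>
      (integral_const_mul _ _).symm
    simp_rw [h1]
    rw [integral_integral_swap]
    · congr 1; funext y
      rw [← ftc ψ hψ.smooth y v ρ, ← integral_const_mul]
      congr 1; funext τ
      rw [hf']; ring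
    · obtain ⟨C, hC⟩ := bdd _ hf'c hf's
      have h2 : Integrable (fun q : ℝ × EC n => (ρ : ℂ) * f k q.2)
          ((volume.restrict (Ioc (0 : ℝ) 1)).prod (volume.restrict Ω)) :=
        hconst.mul_prod (hL1 (f k) (hf.mf k))
      have hc : Continuous (fun q : ℝ × EC n => f' (q.2 + (q.1 * ρ) • v)) :=
        hf'c.comp (by fun_prop)
      have h3 := h2.mul_bdd (c := C) hc.aestronglyMeasurable (Eventually.of_forall fun q => hC _)
      refine h3.congr (Eventually.of_forall fun q => ?_)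
      simp only [Function.uncurry, mul_assoc]
  have step3 : ∫ y, Ω.indicator u y * db k ψ (y + ρ • v) = -∫ y in Ω, f k y * ψ (y + ρ • v) := by
    rw [ind Ω hΩm u (fun y => db k ψ (y + ρ • v))]
    have a1 := hu k _ (hT ρ hρ.le hρr)
    simp only [db_shift] at a1
    exact a1
  rw [step1, step2, step3, ind Ω hΩm]
  have hi1 := hprod (f k) ψ (hf.mf k) hψ.smooth.continuous hψ.cpt (ρ • v)
  have hi2 := hprod (f k) ψ (hf.mf k) hψ.smooth.continuous hψ.cpt 0
  simp only [add_zero] at hi2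
  simp_rw [mul_sub]
  rw [integral_sub hi1 hi2]
  ring

end M6d

theorem coneMono_zero {n : ℕ} (Ω : Set (EC n)) (Φ : EC n → ℝ) (p e : EC n) (c r : ℝ)
    (h : ConeMono Ω Φ p e c r) : ConeMono Ω (fun _ => 0) p e c r :=
  fun z hz hd s h0 h1 w hw => ⟨(h z hz hd s h0 h1 w hw).1, le_refl _⟩

/-- M6d -/
theorem localDbar (n : ℕ) : LocalDbar n := by
  intro Ω Φ p e c r ζ ρ f D u g hΩ hΩb hr hcone hζ hζs hζt hζ1 hρ hρr hf huL hu hgL hg k ψ hψ
  have hcone0 := coneMono_zero Ω Φ p e c r hcone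
  have hΩm := hΩ.measurableSet
  have hBm : MeasurableSet (Ω ∩ Metric.ball p r) := (hΩ.inter Metric.isOpen_ball).measurableSet
  have hfin : IsFiniteMeasure (volume.restrict Ω) :=
    ⟨by rw [Measure.restrict_apply_univ]; exact hΩb.measure_lt_top⟩
  have hL1' : ∀ F : EC n → ℂ, MemLp F 2 (volume.restrict Ω) → Integrable (Ω.indicator F) :=
    fun F hF => (integrable_indicator_iff hΩm).2 (hF.integrable (by norm_num))
  have hζi : Integrable ζ := hζ.continuous.integrable_of_hasCompactSupport hζs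
  have hdbc : Continuous (db k ψ) := by
    have h1 : Continuous (fderiv ℝ ψ) := hψ.smooth.continuous_fderiv (by simp)
    unfold db
    fun_prop
  have hdb0 : ∀ x, x ∉ tsupport ψ → db k ψ x = 0 := by
    intro x hx
    have h0 : fderiv ℝ ψ x = 0 := by
      have : x ∉ tsupport (fderiv ℝ ψ) := fun h => hx (tsupport_fderiv_subset ℝ h)
      exact image_eq_zero_of_notMem_tsupport this
    simp [db, h0]
  have hdbs : HasCompactSupport (db k ψ) := HasCompactSupport.intro hψ.cpt hdb0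
  obtain ⟨C, hC⟩ := M6d.bdd _ hdbc hdbs
  -- pass to integrals over the whole space
  have full : ∀ (F χ : EC n → ℂ), (∀ x, x ∉ tsupport ψ → χ x = 0) →
      ∫ x in Ω ∩ Metric.ball p r, F x * χ x = ∫ x, F x * χ x := by
    intro F χ hχ
    refine setIntegral_eq_integral_of_forall_compl_eq_zero fun x hx => ?_
    rw [hχ x (fun h => hx (hψ.sub h)), mul_zero]
  rw [full _ _ hdb0, full _ ψ (fun x hx => image_eq_zero_of_notMem_tsupport hx)]
  have hdbL : MemLp (db k ψ) 2 volume := hdbc.memLp_of_hasCompactSupport hdbs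
  have hζl : ∀ l, Continuous (fun v : EC n => ζ v * v l) := fun l =>
    hζ.continuous.mul (continuous_apply l)
  have hζc : ∀ l, Continuous (fun v : EC n => ζ v * (starRingEnd ℂ) (v l)) := fun l =>
    hζ.continuous.mul (Complex.continuous_conj.comp (continuous_apply l))
  have hζls : ∀ l, HasCompactSupport (fun v : EC n => ζ v * v l) := fun l => hζs.mul_right
  have hζcs : ∀ l, HasCompactSupport (fun v : EC n => ζ v * (starRingEnd ℂ) (v l)) :=
    fun l => hζs.mul_right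
  have hζlt : ∀ l, tsupport (fun v : EC n => ζ v * v l) ⊆ Metric.closedBall e c := fun l =>
    (tsupport_mul_subset_left (f := ζ) (g := fun v : EC n => v l)).trans hζt
  have hζct : ∀ l, tsupport (fun v : EC n => ζ v * (starRingEnd ℂ) (v l)) ⊆
      Metric.closedBall e c := fun l =>
    (tsupport_mul_subset_left (f := ζ) (g := fun v : EC n => (starRingEnd ℂ) (v l))).trans hζt
  -- memberships
  have hA : MemLp (Aop ζ ρ (Ω.indicator u)) 2 volume :=
    (aopBound n Ω (fun _ => 0) 0 0 p e c r ζ ρ u hΩ measurable_const (by simp) le_rfl hr hcone0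
      hζ hζs hζt hρ hρr huL).1
  have hK1 : ∀ l, MemLp (Kop (fun v => ζ v * v l) ρ (Ω.indicator (g l))) 2 volume := fun l =>
    (kopBound n Ω (fun _ => 0) 0 0 p e c r _ ρ (g l) hΩ measurable_const (by simp) le_rfl hr
      hcone0 (hζl l) (hζls l) (hζlt l) hρ hρr (hgL l)).1
  have hK2 : ∀ l, MemLp (Kop (fun v => ζ v * (starRingEnd ℂ) (v l)) ρ (Ω.indicator (f l))) 2
      volume := fun l =>
    (kopBound n Ω (fun _ => 0) 0 0 p e c r _ ρ (f l) hΩ measurable_const (by simp) le_rfl hr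
      hcone0 (hζc l) (hζcs l) (hζct l) hρ hρr (hf.mf l)).1
  have hAi : Integrable (fun x => Aop ζ ρ (Ω.indicator u) x * db k ψ x) := hA.integrable_mul hdbL
  have hK1i : ∀ l, Integrable (fun x => Kop (fun v => ζ v * v l) ρ (Ω.indicator (g l)) x *
      db k ψ x) := fun l => (hK1 l).integrable_mul hdbL
  have hK2i : ∀ l, Integrable (fun x => Kop (fun v => ζ v * (starRingEnd ℂ) (v l)) ρ
      (Ω.indicator (f l)) x * db k ψ x) := fun l => (hK2 l).integrable_mul hdbL
  have e0 : (fun x => locSol ζ ρ Ω u g f x * db k ψ x) = fun x =>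
      Aop ζ ρ (Ω.indicator u) x * db k ψ x +
      ∑ l, (Kop (fun v => ζ v * v l) ρ (Ω.indicator (g l)) x * db k ψ x +
        Kop (fun v => ζ v * (starRingEnd ℂ) (v l)) ρ (Ω.indicator (f l)) x * db k ψ x) := by
    funext x
    rw [locSol, add_mul, Finset.sum_mul]
    simp_rw [add_mul]
  -- duality
  have dA := M6d.aop_dual ζ hζi ρ _ (hL1' u huL) (db k ψ) hdbc C hC
  have dK1 := fun l => M6d.kop_dual (fun v => ζ v * v l)
    ((hζl l).integrable_of_hasCompactSupport (hζls l)) ρ _ (hL1' (g l) (hgL l)) (db k ψ) hdbc C hC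
  have dK2 := fun l => M6d.kop_dual (fun v => ζ v * (starRingEnd ℂ) (v l))
    ((hζc l).integrable_of_hasCompactSupport (hζcs l)) ρ _ (hL1' (f l) (hf.mf l)) (db k ψ) hdbc
    C hC
  have hKi : ∀ l ∈ (Finset.univ : Finset (Fin n)), Integrable (fun x =>
      Kop (fun v => ζ v * v l) ρ (Ω.indicator (g l)) x * db k ψ x +
        Kop (fun v => ζ v * (starRingEnd ℂ) (v l)) ρ (Ω.indicator (f l)) x * db k ψ x) :=
    fun l _ => (hK1i l).add (hK2i l)
  have hKd : ∀ l ∈ (Finset.univ : Finset (Fin n)), Integrable (fun v : EC n =>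
      (((ζ v * v l) * ∫ τ in Ioc (0 : ℝ) 1, (ρ : ℂ) *
          ∫ y, Ω.indicator (g l) y * db k ψ (y + (τ * ρ) • v)) +
        ((ζ v * (starRingEnd ℂ) (v l)) * ∫ τ in Ioc (0 : ℝ) 1, (ρ : ℂ) *
          ∫ y, Ω.indicator (f l) y * db k ψ (y + (τ * ρ) • v)))) :=
    fun l _ => (dK1 l).1.add (dK2 l).1
  rw [e0, integral_add hAi (integrable_finsetSum _ hKi),
    integral_finsetSum _ hKi, dA.2]
  have e1 : ∀ l, ∫ x, (Kop (fun v => ζ v * v l) ρ (Ω.indicator (g l)) x * db k ψ x +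
        Kop (fun v => ζ v * (starRingEnd ℂ) (v l)) ρ (Ω.indicator (f l)) x * db k ψ x) =
      ∫ v, (((ζ v * v l) * ∫ τ in Ioc (0 : ℝ) 1, (ρ : ℂ) *
          ∫ y, Ω.indicator (g l) y * db k ψ (y + (τ * ρ) • v)) +
        ((ζ v * (starRingEnd ℂ) (v l)) * ∫ τ in Ioc (0 : ℝ) 1, (ρ : ℂ) *
          ∫ y, Ω.indicator (f l) y * db k ψ (y + (τ * ρ) • v))) := by
    intro l
    rw [integral_add (hK1i l) (hK2i l), (dK1 l).2, (dK2 l).2, ← integral_add (dK1 l).1 (dK2 l).1]
  simp_rw [e1]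
  rw [← integral_finsetSum _ hKd, ← integral_add dA.1 (integrable_finsetSum _ hKd)]
  have e2 : ∀ v, (ζ v * ∫ y, Ω.indicator u y * db k ψ (y + ρ • v)) +
      ∑ l, (((ζ v * v l) * ∫ τ in Ioc (0 : ℝ) 1, (ρ : ℂ) *
          ∫ y, Ω.indicator (g l) y * db k ψ (y + (τ * ρ) • v)) +
        ((ζ v * (starRingEnd ℂ) (v l)) * ∫ τ in Ioc (0 : ℝ) 1, (ρ : ℂ) *
          ∫ y, Ω.indicator (f l) y * db k ψ (y + (τ * ρ) • v))) =
      ζ v * (-∫ y, Ω.indicator (f k) y * ψ y) := by
    intro v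
    by_cases hv : ζ v = 0
    · simp [hv]
    rw [← M6d.core Ω Φ p e c r ρ f D u g hΩ hΩb hρ hρr hf hu hgL hg k ψ hψ v
      (fun s h0 h1 x hx => (M6ac.cone_use Ω Φ p e c r ζ hcone hζt v hv s h0 h1 x hx).1),
      mul_add, Finset.mul_sum]
    congr 1
    refine Finset.sum_congr rfl fun l _ => ?_
    ring
  simp_rw [e2]
  rw [integral_mul_const, hζ1, one_mul]
  congr 1
  refine integral_congr_ae (Eventually.of_forall fun y => ?_)
  simp only
  by_cases hy : y ∈ Ω
  · simp [hy]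
  · have : ψ y = 0 := image_eq_zero_of_notMem_tsupport (fun h => hy (hψ.sub h).1)
    simp [this]

end Pool.Agent.H92.Lip
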