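import Pool.Agent.H92.Lip.Riesz

set_option autoImplicit false

open MeasureTheory Set Filter Topology
open scoped ContDiff ENNReal

namespace Pool.Agent.H92.Lip

variable {n : ℕ}

theorem Tst.add {Ω : Set (EC n)} {a b : EC n → ℂ} (ha : Tst Ω a) (hb : Tst Ω b) :
    Tst Ω (a + b) where
  smooth := ha.smooth.add hb.smooth
  cpt := ha.cpt.add hb.cpt
  sub := (tsupport_add a b).trans (union_subset ha.sub hb.sub)

theorem Tst.smul {Ω : Set (EC n)} {a : EC n → ℂ} (c : ℂ) (ha : Tst Ω a) : Tst Ω (c • a) where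
  smooth := contDiff_const.smul ha.smooth
  cpt := ha.cpt.smul_left (f := fun _ => c)
  sub := (closure_mono (Function.support_const_smul_subset c a)).trans ha.sub

theorem Tst.zero (Ω : Set (EC n)) : Tst Ω (0 : EC n → ℂ) where
  smooth := contDiff_const
  cpt := HasCompactSupport.zero
  sub := by
    simp [tsupport]

/-- tuples of test functions -/
def TS (Ω : Set (EC n)) : Submodule ℂ (Fin n → EC n → ℂ) where
  carrier := {a | ∀ j, Tst Ω (a j)}
  add_mem' := fun ha hb j => (ha j).add (hb j)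
  zero_mem' := fun _ => Tst.zero Ω
  smul_mem' := fun c _ ha j => (ha j).smul c

theorem Tst.diff {Ω : Set (EC n)} {a : EC n → ℂ} (ha : Tst Ω a) : Differentiable ℝ a :=
  ha.smooth.differentiable (by simp)

theorem db_add {a b : EC n → ℂ} (ha : Differentiable ℝ a) (hb : Differentiable ℝ b) (j : Fin n)
    (x : EC n) : db j (a + b) x = db j a x + db j b x := by
  unfold db
  rw [fderiv_add (ha x) (hb x)]
  simp only [add_apply]
  ring

theorem db_smul {a : EC n → ℂ} (ha : Differentiable ℝ a) (c : ℂ) (j : Fin n)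
    (x : EC n) : db j (c • a) x = c * db j a x := by
  unfold db
  rw [fderiv_const_smul (ha x)]
  simp only [smul_apply, smul_eq_mul]
  ring

theorem db_zero' (j : Fin n) (x : EC n) : db j (0 : EC n → ℂ) x = 0 := by
  unfold db
  simp

theorem continuous_db {a : EC n → ℂ} (ha : ContDiff ℝ ∞ a) (j : Fin n) : Continuous (db j a) := by
  have h : Continuous (fderiv ℝ a) := ha.continuous_fderiv (by simp)
  unfold db
  fun_prop

theorem hcs_db {a : EC n → ℂ} (ha : HasCompactSupport a) (j : Fin n) :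
    HasCompactSupport (db j a) := by
  refine (ha.fderiv (𝕜 := ℝ)).mono fun x hx => ?_
  rw [Function.mem_support] at hx ⊢
  intro h0
  apply hx
  unfold db
  rw [h0]
  simp

/-- `∑ ∂̄_j a_j` -/
noncomputable def dvb (a : Fin n → EC n → ℂ) (x : EC n) : ℂ := ∑ j, db j (a j) x

theorem continuous_dvb {Ω : Set (EC n)} {a : Fin n → EC n → ℂ} (ha : ∀ j, Tst Ω (a j)) :
    Continuous (dvb a) := by
  unfold dvb
  exact continuous_finsetSum _ fun j _ => continuous_db (ha j).smooth j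

theorem hcs_dvb {Ω : Set (EC n)} {a : Fin n → EC n → ℂ} (ha : ∀ j, Tst Ω (a j)) :
    HasCompactSupport (dvb a) := by
  have : dvb a = ∑ j, db j (a j) := by
    ext x
    simp [dvb]
  rw [this]
  refine Finset.sum_induction _ HasCompactSupport (fun _ _ h1 h2 => h1.add h2)
    HasCompactSupport.zero fun j _ => hcs_db (ha j).cpt j

theorem memLp_dvb {Ω : Set (EC n)} {a : Fin n → EC n → ℂ} (ha : ∀ j, Tst Ω (a j))
    {Φ : EC n → ℝ} (hΦ : Measurable Φ) {M t : ℝ} (hΩ : IsOpen Ω) (hM : ∀ z ∈ Ω, |Φ z| ≤ M)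
    (ht : 0 < t) :
    MemLp (fun x => dvb a x * ((Real.exp (t * Φ x / 2) : ℝ) : ℂ)) 2 (volume.restrict Ω) := by
  have h1 : MemLp (dvb a) 2 (volume.restrict Ω) :=
    ((continuous_dvb ha).memLp_of_hasCompactSupport (hcs_dvb ha)).restrict Ω
  refine (h1.const_mul (((Real.exp (t * M / 2) : ℝ) : ℂ))).of_le ?_ ?_
  · refine h1.aestronglyMeasurable.mul ?_
    have : Measurable fun x => ((Real.exp (t * Φ x / 2) : ℝ) : ℂ) := by fun_prop
    exact this.aestronglyMeasurable
  · filter_upwards [ae_restrict_mem hΩ.measurableSet] with x hx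
    rw [norm_mul, norm_mul, mul_comm, Complex.norm_real, Complex.norm_real,
      Real.norm_of_nonneg (Real.exp_pos _).le, Real.norm_of_nonneg (Real.exp_pos _).le]
    refine mul_le_mul_of_nonneg_right (Real.exp_le_exp.2 ?_) (norm_nonneg _)
    have := (abs_le.1 (hM x hx)).2
    nlinarith

/-- the map `a ↦ (∑ ∂̄_j a_j) e^{tΦ/2}` into `L²(Ω)` -/
noncomputable def TL {Ω : Set (EC n)} {Φ : EC n → ℝ} (hΦ : Measurable Φ) {M t : ℝ}
    (hΩ : IsOpen Ω) (hM : ∀ z ∈ Ω, |Φ z| ≤ M) (ht : 0 < t) :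
    TS Ω →ₗ[ℂ] Lp ℂ 2 (volume.restrict Ω) where
  toFun a := (memLp_dvb a.2 hΦ hΩ hM ht).toLp _
  map_add' a b := by
    rw [← MemLp.toLp_add]
    congr 1
    ext x
    have : dvb ((a + b : TS Ω) : Fin n → EC n → ℂ) x =
        dvb (a : Fin n → EC n → ℂ) x + dvb (b : Fin n → EC n → ℂ) x := by
      unfold dvb
      rw [← Finset.sum_add_distrib]
      exact Finset.sum_congr rfl fun j _ => db_add (a.2 j).diff (b.2 j).diff j x
    simp only [Pi.add_apply, this]
    ring
  map_smul' c a := by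
    rw [RingHom.id_apply, ← MemLp.toLp_const_smul]
    congr 1
    ext x
    have : dvb ((c • a : TS Ω) : Fin n → EC n → ℂ) x = c * dvb (a : Fin n → EC n → ℂ) x := by
      unfold dvb
      rw [Finset.mul_sum]
      exact Finset.sum_congr rfl fun j _ => db_smul (a.2 j).diff c j x
    simp only [Pi.smul_apply, this, smul_eq_mul]
    ring

theorem integrable_mul_tst {Ω : Set (EC n)} {f a : EC n → ℂ} (hf : MemLp f 2 (volume.restrict Ω))
    (ha : Tst Ω a) : Integrable (fun x => f x * a x) (volume.restrict Ω) := by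
  have h2 : MemLp a 2 (volume.restrict Ω) :=
    (ha.smooth.continuous.memLp_of_hasCompactSupport ha.cpt).restrict Ω
  exact hf.integrable_mul h2

/-- the functional `a ↦ -∑ ∫ f_j a_j` -/
noncomputable def LL {Ω : Set (EC n)} {f : Fin n → EC n → ℂ}
    (hf : ∀ j, MemLp (f j) 2 (volume.restrict Ω)) : TS Ω →ₗ[ℂ] ℂ where
  toFun a := -∑ j, ∫ x in Ω, f j x * (a : Fin n → EC n → ℂ) j x
  map_add' a b := by
    rw [← neg_add, ← Finset.sum_add_distrib]
    congr 1
    refine Finset.sum_congr rfl fun j _ => ?_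
    rw [← integral_add (integrable_mul_tst (hf j) (a.2 j)) (integrable_mul_tst (hf j) (b.2 j))]
    refine integral_congr_ae (Eventually.of_forall fun x => ?_)
    simp only [Submodule.coe_add, Pi.add_apply]
    ring
  map_smul' c a := by
    rw [RingHom.id_apply, smul_eq_mul, mul_neg, Finset.mul_sum]
    congr 1
    refine Finset.sum_congr rfl fun j _ => ?_
    rw [← integral_const_mul]
    refine integral_congr_ae (Eventually.of_forall fun x => ?_)
    simp only [Submodule.coe_smul, Pi.smul_apply, smul_eq_mul]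
    ring

theorem norm_TL_sq {Ω : Set (EC n)} {Φ : EC n → ℝ} (hΦ : Measurable Φ) {M t : ℝ}
    (hΩ : IsOpen Ω) (hM : ∀ z ∈ Ω, |Φ z| ≤ M) (ht : 0 < t) (a : TS Ω) :
    ‖TL hΦ hΩ hM ht a‖ ^ 2 =
      ∫ x in Ω, ‖dvb (a : Fin n → EC n → ℂ) x‖ ^ 2 * Real.exp (t * Φ x) := by
  have h1 : ‖TL hΦ hΩ hM ht a‖ = (eLpNorm (fun x => dvb (a : Fin n → EC n → ℂ) x *
      ((Real.exp (t * Φ x / 2) : ℝ) : ℂ)) 2 (volume.restrict Ω)).toReal :=
    Lp.norm_toLp _ (memLp_dvb a.2 hΦ hΩ hM ht)
  rw [h1, ← ENNReal.toReal_pow, eLpNorm_sq, ← integral_toReal]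
  · refine integral_congr_ae (Eventually.of_forall fun x => ?_)
    beta_reduce
    rw [ENNReal.toReal_pow, toReal_enorm, norm_mul, mul_pow, Complex.norm_real,
      Real.norm_of_nonneg (Real.exp_pos _).le, ← Real.exp_nat_mul]
    congr 2
    push_cast
    ring
  · refine AEMeasurable.pow_const (AEStronglyMeasurable.enorm ?_) 2
    exact (memLp_dvb a.2 hΦ hΩ hM ht).aestronglyMeasurable
  · exact Eventually.of_forall fun x => ENNReal.pow_lt_top enorm_lt_top

theorem enorm_sq_eq (z : ℂ) : ‖z‖ₑ ^ 2 = ENNReal.ofReal (‖z‖ ^ 2) := by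
  rw [← ofReal_norm, ENNReal.ofReal_pow (norm_nonneg _)]

/-- the squared weighted norm as a real integral -/
theorem wm_sq_real {Ω : Set (EC n)} {Φ : EC n → ℝ} (hΦ : Measurable Φ) {M t : ℝ}
    (hΩ : IsOpen Ω) (hM : ∀ z ∈ Ω, |Φ z| ≤ M) (ht : 0 < t) {f : EC n → ℂ}
    (hf : MemLp f 2 (volume.restrict Ω)) :
    Integrable (fun x => ‖f x‖ ^ 2 * Real.exp (-(t * Φ x))) (volume.restrict Ω) ∧
    eLpNorm f 2 (wm Φ t Ω) ^ 2 =
      ENNReal.ofReal (∫ x in Ω, ‖f x‖ ^ 2 * Real.exp (-(t * Φ x))) := by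
  have hI : Integrable (fun x => ‖f x‖ ^ 2 * Real.exp (-(t * Φ x))) (volume.restrict Ω) := by
    have h1 : Integrable (fun x => ‖f x‖ ^ 2) (volume.restrict Ω) := hf.integrable_norm_pow
      (by norm_num)
    refine h1.mul_bdd (c := Real.exp (t * M)) ?_ ?_
    · have : Measurable fun x => Real.exp (-(t * Φ x)) := by fun_prop
      exact this.aestronglyMeasurable
    · filter_upwards [ae_restrict_mem hΩ.measurableSet] with x hx
      rw [Real.norm_of_nonneg (Real.exp_pos _).le]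
      refine Real.exp_le_exp.2 ?_
      have := (abs_le.1 (hM x hx)).1
      nlinarith
  refine ⟨hI, ?_⟩
  rw [wm_sq hΦ, ofReal_integral_eq_lintegral_ofReal hI
    (Eventually.of_forall fun x => by positivity)]
  refine lintegral_congr fun x => ?_
  rw [enorm_sq_eq, mul_comm, ENNReal.ofReal_mul (by positivity)]

theorem sum_sq_le {ι : Type*} (s : Finset ι) (a : ι → ℝ≥0∞) :
    ∑ i ∈ s, a i ^ 2 ≤ (∑ i ∈ s, a i) ^ 2 := by
  classical
  induction s using Finset.induction_on with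
  | empty => simp
  | insert i s hi ih =>
    rw [Finset.sum_insert hi, Finset.sum_insert hi]
    calc a i ^ 2 + ∑ i ∈ s, a i ^ 2 ≤ a i ^ 2 + (∑ i ∈ s, a i) ^ 2 := by gcongr
      _ ≤ a i ^ 2 + (∑ i ∈ s, a i) ^ 2 + 2 * (a i * ∑ i ∈ s, a i) := le_self_add
      _ = (a i + ∑ i ∈ s, a i) ^ 2 := by ring

theorem hormSolve (n : ℕ) (hap : AprioriIneq n) : HormSolve n := by
  intro Ω Φ M t f hΩ hex hΦ hΦc hM hsp ht hf hcl
  set I : ℝ := ∫ x in Ω, (∑ j, ‖f j x‖ ^ 2) * Real.exp (-(t * Φ x)) with hI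
  have hI0 : 0 ≤ I := by
    refine integral_nonneg fun x => ?_
    positivity
  set C : ℝ := Real.sqrt ((1 / t) * I) with hC
  have hC0 : 0 ≤ C := Real.sqrt_nonneg _
  have hCsq : C ^ 2 = (1 / t) * I := Real.sq_sqrt (by positivity)
  obtain ⟨y, hy, hyL⟩ := riesz_lemma (TL hΦ hΩ hM ht) (LL hf) hC0 (by
    intro a
    have h1 := hap Ω Φ M t f (a : Fin n → EC n → ℂ) hΩ hex hΦc hM hsp ht hf hcl a.2
    have h2 := norm_TL_sq hΦ hΩ hM ht a
    unfold dvb at h2
    rw [← h2, ← hI, ← hCsq, ← mul_pow] at h1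
    have h3 : ‖LL hf a‖ = ‖∑ j, ∫ x in Ω, f j x * (a : Fin n → EC n → ℂ) j x‖ := by
      rw [← norm_neg]
      congr 1
      simp [LL]
    rw [h3]
    exact (abs_le_of_sq_le_sq' h1 (by positivity)).2)
  refine ⟨fun x => (starRingEnd ℂ) (y x) * ((Real.exp (t * Φ x / 2) : ℝ) : ℂ), ?_, ?_, ?_⟩
  · have h1 : MemLp (y : EC n → ℂ) 2 (volume.restrict Ω) := Lp.memLp y
    refine (h1.const_mul (((Real.exp (t * M / 2) : ℝ) : ℂ))).of_le ?_ ?_
    · refine (h1.aestronglyMeasurable.star).mul ?_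
      have : Measurable fun x => ((Real.exp (t * Φ x / 2) : ℝ) : ℂ) := by fun_prop
      exact this.aestronglyMeasurable
    · filter_upwards [ae_restrict_mem hΩ.measurableSet] with x hx
      rw [norm_mul, norm_mul, mul_comm, Complex.norm_real, Complex.norm_real,
        Real.norm_of_nonneg (Real.exp_pos _).le, Real.norm_of_nonneg (Real.exp_pos _).le,
        RCLike.norm_conj]
      refine mul_le_mul_of_nonneg_right (Real.exp_le_exp.2 ?_) (norm_nonneg _)
      have := (abs_le.1 (hM x hx)).2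
      nlinarith
  · intro j ψ hψ
    let a : TS Ω := ⟨Pi.single j ψ, by
      intro i
      by_cases hij : i = j
      · subst hij
        simpa using hψ
      · simpa [Pi.single_eq_of_ne hij] using Tst.zero Ω⟩
    have h1 := hyL a
    have h2 : LL hf a = -∫ x in Ω, f j x * ψ x := by
      show -∑ i, ∫ x in Ω, f i x * (Pi.single j ψ : Fin n → EC n → ℂ) i x = _
      congr 1
      rw [Finset.sum_eq_single j]
      · simp
      · intro i _ hij
        simp [Pi.single_eq_of_ne hij]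
      · simp
    have h3 : ∀ x, dvb (Pi.single j ψ : Fin n → EC n → ℂ) x = db j ψ x := by
      intro x
      unfold dvb
      rw [Finset.sum_eq_single j]
      · simp
      · intro i _ hij
        rw [Pi.single_eq_of_ne hij]
        exact db_zero' i x
      · simp
    rw [h2] at h1
    rw [h1, L2.inner_def]
    refine integral_congr_ae ?_
    have h4 : TL hΦ hΩ hM ht a =ᵐ[volume.restrict Ω] fun x => dvb (a : Fin n → EC n → ℂ) x *
      ((Real.exp (t * Φ x / 2) : ℝ) : ℂ) := MemLp.coeFn_toLp (memLp_dvb a.2 hΦ hΩ hM ht)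
    filter_upwards [h4] with x hx
    rw [hx, RCLike.inner_apply']
    have h5 : dvb (a : Fin n → EC n → ℂ) x = db j ψ x := h3 x
    rw [h5]
    ring
  · have hsq : eLpNorm (fun x => (starRingEnd ℂ) (y x) * ((Real.exp (t * Φ x / 2) : ℝ) : ℂ)) 2
        (wm Φ t Ω) ^ 2 ≤ ENNReal.ofReal ((1 / t) * I) := by
      rw [wm_sq hΦ]
      have h1 : ∫⁻ x in Ω, ENNReal.ofReal (Real.exp (-(t * Φ x))) *
          ‖(starRingEnd ℂ) (y x) * ((Real.exp (t * Φ x / 2) : ℝ) : ℂ)‖ₑ ^ 2 =
          ∫⁻ x in Ω, ‖y x‖ₑ ^ 2 := by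
        refine lintegral_congr fun x => ?_
        rw [enorm_sq_eq, enorm_sq_eq, ← ENNReal.ofReal_mul (by positivity), norm_mul,
          RCLike.norm_conj, Complex.norm_real, Real.norm_of_nonneg (Real.exp_pos _).le]
        congr 1
        have : Real.exp (-(t * Φ x)) * (‖y x‖ * Real.exp (t * Φ x / 2)) ^ 2 =
          ‖y x‖ ^ 2 * (Real.exp (-(t * Φ x)) * (Real.exp (t * Φ x / 2) ^ 2)) := by ring
        rw [this, ← Real.exp_nat_mul, ← Real.exp_add]
        have h0 : -(t * Φ x) + ((2 : ℕ) : ℝ) * (t * Φ x / 2) = 0 := by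
          push_cast
          ring
        rw [h0, Real.exp_zero, mul_one]
      rw [h1, ← eLpNorm_sq, ← hCsq]
      have h2 : eLpNorm (y : EC n → ℂ) 2 (volume.restrict Ω) ≤ ENNReal.ofReal C := by
        rw [← Lp.enorm_def, ← ofReal_norm]
        exact ENNReal.ofReal_le_ofReal hy
      rw [ENNReal.ofReal_pow hC0]
      gcongr
    have hIsum : ENNReal.ofReal I ≤ (∑ j, eLpNorm (f j) 2 (wm Φ t Ω)) ^ 2 := by
      have h1 : I = ∑ j, ∫ x in Ω, ‖f j x‖ ^ 2 * Real.exp (-(t * Φ x)) := by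
        rw [hI, ← integral_finsetSum _ fun j _ => (wm_sq_real hΦ hΩ hM ht (hf j)).1]
        refine integral_congr_ae (Eventually.of_forall fun x => ?_)
        beta_reduce
        rw [Finset.sum_mul]
      rw [h1, ENNReal.ofReal_sum_of_nonneg fun j _ => integral_nonneg fun x => by positivity]
      have h2 : ∀ j ∈ Finset.univ, ENNReal.ofReal (∫ x in Ω, ‖f j x‖ ^ 2 *
          Real.exp (-(t * Φ x))) = eLpNorm (f j) 2 (wm Φ t Ω) ^ 2 := fun j _ =>
        ((wm_sq_real hΦ hΩ hM ht (hf j)).2).symm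
      rw [Finset.sum_congr rfl h2]
      exact sum_sq_le _ _
    have hfin : eLpNorm (fun x => (starRingEnd ℂ) (y x) * ((Real.exp (t * Φ x / 2) : ℝ) : ℂ)) 2
        (wm Φ t Ω) ^ 2 ≤ (ENNReal.ofReal (1 / Real.sqrt t) *
          ∑ j, eLpNorm (f j) 2 (wm Φ t Ω)) ^ 2 := by
      refine hsq.trans ?_
      rw [ENNReal.ofReal_mul (by positivity), mul_pow]
      refine mul_le_mul' (le_of_eq ?_) hIsum
      rw [← ENNReal.ofReal_pow (by positivity), div_pow, one_pow, Real.sq_sqrt ht.le]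
    exact (ENNReal.pow_le_pow_left_iff two_ne_zero).1 hfin

end Pool.Agent.H92.Lip
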