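import Pool.Agent.H92.Lip.M2Proj
import Pool.Agent.H92.Lip.M1
import Pool.Agent.H92.Lip.Glue

/-!
Module M7b: `‖∂_k U‖ = ‖∂̄_k U‖` for compactly supported `U`.
-/

set_option autoImplicit false

open MeasureTheory Set Filter Topology
open scoped ContDiff ENNReal

namespace Pool.Agent.H92.Lip

variable {n : ℕ}

theorem dz_db_comm' {ψ : EC n → ℂ} (h : ContDiff ℝ ∞ ψ) (j k : Fin n) (x : EC n) :
    dz j (db k ψ) x = db k (dz j ψ) x := comb_comm (dz_eq_fd j) (db_eq_fd k) h x

theorem integral_dz_sq {g : EC n → ℂ} (hg : ContDiff ℝ ∞ g) (hc : HasCompactSupport g)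
    (k : Fin n) : ∫ x, ((‖dz k g x‖ ^ 2 : ℝ) : ℂ) = ∫ x, ((‖db k g x‖ ^ 2 : ℝ) : ℂ) := by
  have hgd : ∀ x, DifferentiableAt ℝ g x := fun x => hg.differentiable (by simp) x
  have hcg : ContDiff ℝ ∞ (fun y => (starRingEnd ℂ) (g y)) := M1.cd_conj hg
  have hdz := (FO.dz k).smooth g hg
  have hdb := (FO.db k).smooth g hg
  have hdzc : HasCompactSupport (dz k g) :=
    hc.of_isClosed_subset (isClosed_tsupport _) ((FO.dz k).supp g)
  have hdbc : HasCompactSupport (db k g) :=
    hc.of_isClosed_subset (isClosed_tsupport _) ((FO.db k).supp g)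
  have e1 : ∀ x, ((‖dz k g x‖ ^ 2 : ℝ) : ℂ) = dz k g x * db k (fun y => (starRingEnd ℂ) (g y)) x := by
    intro x
    rw [M1.db_conj (hgd x), Complex.mul_conj, Complex.normSq_eq_norm_sq]
  have e2 : ∀ x, ((‖db k g x‖ ^ 2 : ℝ) : ℂ) = db k g x * dz k (fun y => (starRingEnd ℂ) (g y)) x := by
    intro x
    rw [M1.dz_conj (hgd x), Complex.mul_conj, Complex.normSq_eq_norm_sq]
  simp only [e1, e2]
  rw [M2.ibp_db hdz hdzc hcg, M2.ibp_dz hdb hdbc hcg]
  congr 1
  refine integral_congr_ae (Eventually.of_forall fun x => ?_)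
  beta_reduce
  rw [dz_db_comm' hg]

theorem eLp_dz_eq {g : EC n → ℂ} (hg : ContDiff ℝ ∞ g) (hc : HasCompactSupport g)
    (k : Fin n) : eLpNorm (dz k g) 2 volume = eLpNorm (db k g) 2 volume := by
  have hdz := (FO.dz k).smooth g hg
  have hdb := (FO.db k).smooth g hg
  have hdzc : HasCompactSupport (dz k g) :=
    hc.of_isClosed_subset (isClosed_tsupport _) ((FO.dz k).supp g)
  have hdbc : HasCompactSupport (db k g) :=
    hc.of_isClosed_subset (isClosed_tsupport _) ((FO.db k).supp g)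
  have h := integral_dz_sq hg hc k
  rw [integral_complex_ofReal, integral_complex_ofReal] at h
  have h' : ∫ x, ‖dz k g x‖ ^ 2 = ∫ x, ‖db k g x‖ ^ 2 := by exact_mod_cast h
  have hk : ∀ {F : EC n → ℂ}, Continuous F → HasCompactSupport F →
      eLpNorm F 2 volume ^ 2 = ENNReal.ofReal (∫ x, ‖F x‖ ^ 2) := by
    intro F hF hFc
    have hm : MemLp F 2 volume := hF.memLp_of_hasCompactSupport hFc
    rw [eLpNorm_sq, ofReal_integral_eq_lintegral_ofReal (hm.integrable_norm_pow (by norm_num))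
      (Eventually.of_forall fun x => by positivity)]
    exact lintegral_congr fun x => enorm_sq_eq _
  have h2 : eLpNorm (dz k g) 2 volume ^ 2 = eLpNorm (db k g) 2 volume ^ 2 := by
    rw [hk hdz.continuous hdzc, hk hdb.continuous hdbc, h']
  exact le_antisymm (le_of_sq_le h2.le) (le_of_sq_le h2.ge)

theorem norm_pair_le {F χ : EC n → ℂ} (hF : MemLp F 2 volume) (hχ : MemLp χ 2 volume) :
    ‖∫ x, F x * χ x‖ₑ ≤ eLpNorm F 2 volume * eLpNorm χ 2 volume := by
  have h1 : ‖∫ x, F x * χ x‖ₑ ≤ eLpNorm (fun x => F x * χ x) 1 volume := by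
    rw [eLpNorm_one_eq_lintegral_enorm]
    exact enorm_integral_le_lintegral_enorm _
  refine h1.trans ?_
  have h2 := eLpNorm_smul_le_mul_eLpNorm (p := 2) (q := 2) (r := 1) hχ.1 hF.1
  exact h2

theorem mol_hcs {U : EC n → ℂ} (hc : HasCompactSupport U) (m : ℕ) :
    HasCompactSupport (M2.mol (M2.rh n m) U) := by
  have h : IsCompact (Metric.cthickening (1 / ((m : ℝ) + 1)) (tsupport U)) :=
    hc.isCompact.cthickening
  refine HasCompactSupport.intro h fun x hx => ?_
  exact M2.mol_eq_zero (fun x hx => image_eq_zero_of_notMem_tsupport hx) hx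

theorem pair_bound {k : Fin n} {U V χ : EC n → ℂ} (hU : MemLp U 2 volume)
    (hc : HasCompactSupport U) (hV : MemLp V 2 volume) (h : WDo (db k) univ U V)
    (hχ : ContDiff ℝ ∞ χ) (hχc : HasCompactSupport χ) :
    ‖∫ x, U x * dz k χ x‖ₑ ≤ eLpNorm V 2 volume * eLpNorm χ 2 volume := by
  have hUl : LocallyIntegrable U volume := hU.locallyIntegrable (by norm_num)
  have hdχ : MemLp (dz k χ) 2 volume :=
    ((FO.dz k).smooth χ hχ).continuous.memLp_of_hasCompactSupport
      (hχc.of_isClosed_subset (isClosed_tsupport _) ((FO.dz k).supp χ))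
  have hχm : MemLp χ 2 volume := hχ.continuous.memLp_of_hasCompactSupport hχc
  have hm : ∀ m, ‖∫ x, M2.mol (M2.rh n m) U x * dz k χ x‖ₑ ≤
      eLpNorm V 2 volume * eLpNorm χ 2 volume := by
    intro m
    have hs : ContDiff ℝ ∞ (M2.mol (M2.rh n m) U) :=
      M2.contDiff_mol (M2.rh_smooth m) (M2.rh_cpt m) hUl
    have hcs := mol_hcs hc m
    rw [M2.ibp_dz hs hcs hχ, enorm_neg]
    have hdzs := (FO.dz k).smooth _ hs
    have hdzc : HasCompactSupport (dz k (M2.mol (M2.rh n m) U)) :=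
      hcs.of_isClosed_subset (isClosed_tsupport _) ((FO.dz k).supp _)
    refine (norm_pair_le (hdzs.continuous.memLp_of_hasCompactSupport hdzc) hχm).trans ?_
    refine mul_le_mul' ?_ le_rfl
    rw [eLp_dz_eq hs hcs]
    have e : db k (M2.mol (M2.rh n m) U) = M2.mol (M2.rh n m) V := by
      ext x
      rw [M2.db_mol hUl, M2.mol_eq_test]
      have h1 := h _ (M2.tst_refl (n := n) (m := m) x)
      rw [Measure.restrict_univ] at h1
      rw [h1, neg_neg]
    rw [e]
    exact M2.eL2_mol_le (M2.rh_smooth m).continuous ((M2.bmp n m).integrable_normed)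
      (M2.bmp n m).nonneg_normed (M2.bmp n m).integral_normed hV.1
  have hlim : Tendsto (fun m => ∫ x, M2.mol (M2.rh n m) U x * dz k χ x) atTop
      (𝓝 (∫ x, U x * dz k χ x)) := by
    rw [tendsto_iff_edist_tendsto_0]
    have hb : ∀ m, edist (∫ x, M2.mol (M2.rh n m) U x * dz k χ x) (∫ x, U x * dz k χ x) ≤
        eLpNorm (fun x => M2.mol (M2.rh n m) U x - U x) 2 volume * eLpNorm (dz k χ) 2 volume := by
      intro m
      have hmm := M2.memLp_mol hU m
      have i1 : Integrable (fun x => M2.mol (M2.rh n m) U x * dz k χ x) volume :=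
        hmm.integrable_mul hdχ
      have i2 : Integrable (fun x => U x * dz k χ x) volume := hU.integrable_mul hdχ
      rw [edist_eq_enorm_sub, ← integral_sub i1 i2]
      have e : ∀ x, M2.mol (M2.rh n m) U x * dz k χ x - U x * dz k χ x =
          (M2.mol (M2.rh n m) U x - U x) * dz k χ x := fun x => by ring
      simp only [e]
      exact norm_pair_le (hmm.sub hU) hdχ
    refine tendsto_of_tendsto_of_tendsto_of_le_of_le tendsto_const_nhds ?_
      (fun _ => zero_le) hb
    have h0 : Tendsto (fun m => eLpNorm (fun x => M2.mol (M2.rh n m) U x - U x) 2 volume *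
        eLpNorm (dz k χ) 2 volume) atTop (𝓝 (0 * eLpNorm (dz k χ) 2 volume)) :=
      ENNReal.Tendsto.mul_const (M2.mol_tendsto hU) (Or.inr hdχ.2.ne)
    rwa [zero_mul] at h0
  exact le_of_tendsto' (hlim.enorm) hm

/-- test functions on the whole space -/
def TS1 (n : ℕ) : Submodule ℂ (EC n → ℂ) where
  carrier := {a | Tst univ a}
  add_mem' := fun ha hb => ha.add hb
  zero_mem' := Tst.zero univ
  smul_mem' := fun c _ ha => ha.smul c

theorem TS1.memLp (a : TS1 n) : MemLp (a : EC n → ℂ) 2 (volume : Measure (EC n)) :=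
  a.2.smooth.continuous.memLp_of_hasCompactSupport a.2.cpt

/-- inclusion of test functions in `L²` -/
noncomputable def incl (n : ℕ) : TS1 n →ₗ[ℂ] Lp ℂ 2 (volume : Measure (EC n)) where
  toFun a := (TS1.memLp a).toLp _
  map_add' a b := by
    rw [← MemLp.toLp_add]
    rfl
  map_smul' c a := by
    rw [RingHom.id_apply, ← MemLp.toLp_const_smul]
    rfl

/-- the functional `χ ↦ -∫ U ∂_k χ` -/
noncomputable def dzf {U : EC n → ℂ} (hU : MemLp U 2 volume) (k : Fin n) : TS1 n →ₗ[ℂ] ℂ where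
  toFun a := -∫ x, U x * dz k (a : EC n → ℂ) x
  map_add' a b := by
    have hi : ∀ a : TS1 n, Integrable (fun x => U x * dz k (a : EC n → ℂ) x) := by
      intro a
      have := integrable_mul_tst (Ω := univ) (hU.restrict univ) ((FO.dz k).tst a.2)
      rwa [Measure.restrict_univ] at this
    rw [← neg_add, ← integral_add (hi a) (hi b)]
    congr 1
    refine integral_congr_ae (Eventually.of_forall fun x => ?_)
    have h1 := (FO.dz k).add (a : EC n → ℂ) (b : EC n → ℂ) a.2.smooth b.2.smooth x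
    have h2 : dz k ((a + b : TS1 n) : EC n → ℂ) x =
      dz k (fun y => (a : EC n → ℂ) y + (b : EC n → ℂ) y) x := rfl
    beta_reduce
    rw [h2, h1]
    ring
  map_smul' c a := by
    rw [RingHom.id_apply, smul_eq_mul, mul_neg, ← integral_const_mul]
    congr 1
    refine integral_congr_ae (Eventually.of_forall fun x => ?_)
    have h1 := (FO.dz k).mul (fun _ => c) (a : EC n → ℂ) contDiff_const a.2.smooth x
    have h2 : dz k ((c • a : TS1 n) : EC n → ℂ) x =
      dz k (fun y => c * (a : EC n → ℂ) y) x := rfl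
    beta_reduce
    rw [h2, h1, (FO.dz k).const]
    ring

theorem dzOfDb (n : ℕ) : DzOfDb n := by
  intro k U V hU hc hV h
  have hVn : 0 ≤ (eLpNorm V 2 volume).toReal := ENNReal.toReal_nonneg
  obtain ⟨y, hy, hyL⟩ := riesz_lemma (incl n) (dzf hU k) hVn (by
    intro a
    have h1 := pair_bound hU hc hV h a.2.smooth a.2.cpt
    have h2 : ‖dzf hU k a‖ₑ ≤ eLpNorm V 2 volume * eLpNorm (a : EC n → ℂ) 2 volume := by
      show ‖-∫ x, U x * dz k (a : EC n → ℂ) x‖ₑ ≤ _
      rw [enorm_neg]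
      exact h1
    have h3 : ‖incl n a‖ = (eLpNorm (a : EC n → ℂ) 2 volume).toReal :=
      Lp.norm_toLp _ (TS1.memLp a)
    rw [h3, ← ENNReal.toReal_mul, ← toReal_enorm]
    exact ENNReal.toReal_mono (ENNReal.mul_ne_top hV.2.ne (TS1.memLp a).2.ne) h2)
  have hym : MemLp (y : EC n → ℂ) 2 volume := Lp.memLp y
  refine ⟨fun x => (starRingEnd ℂ) (y x), hym.star, ?_, ?_⟩
  · intro χ hχ
    rw [Measure.restrict_univ]
    have h1 := hyL ⟨χ, hχ⟩
    have h2 : dzf hU k ⟨χ, hχ⟩ = -∫ x, U x * dz k χ x := rfl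
    rw [h2, L2.inner_def] at h1
    have h4 : incl n ⟨χ, hχ⟩ =ᵐ[volume] χ := MemLp.coeFn_toLp (TS1.memLp ⟨χ, hχ⟩)
    have h5 : ∫ x, inner ℂ (y x) (incl n ⟨χ, hχ⟩ x) = ∫ x, (starRingEnd ℂ) (y x) * χ x := by
      refine integral_congr_ae ?_
      filter_upwards [h4] with x hx
      rw [hx, RCLike.inner_apply']
    rw [h5] at h1
    rw [← h1, neg_neg]
  · have h1 : eLpNorm (fun x => (starRingEnd ℂ) (y x)) 2 volume = eLpNorm y 2 volume := by
      refine eLpNorm_congr_norm_ae (Eventually.of_forall fun x => ?_)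
      exact RCLike.norm_conj _
    rw [h1, ← Lp.enorm_def, ← ofReal_norm]
    refine (ENNReal.ofReal_le_ofReal hy).trans ?_
    rw [ENNReal.ofReal_toReal hV.2.ne]

end Pool.Agent.H92.Lip
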