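import Pool.Agent.H92.Lip.Defs2
import Pool.Agent.H92.Lip.M1

/-!
Modules M7d, M7e (helper93): the geometric iteration, and closedness of the derivatives.
-/

set_option autoImplicit false

open MeasureTheory Set Filter Topology
open scoped ContDiff ENNReal ComplexConjugate InnerProductSpace

namespace Pool.Agent.H92.Lip
namespace M7d

variable {n : ℕ}

theorem tst_db {Ω : Set (EC n)} {ψ : EC n → ℂ} (h : Tst Ω ψ) (j : Fin n) :
    Tst Ω (db j ψ) := by
  have h0 : ∀ x, x ∉ tsupport ψ → db j ψ x = 0 := fun x hx => M1.db_zero hx j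
  have hsub : Function.support (db j ψ) ⊆ tsupport ψ := by
    intro x hx
    by_contra hc
    exact hx (h0 x hc)
  have hts : tsupport (db j ψ) ⊆ tsupport ψ :=
    closure_minimal hsub (isClosed_tsupport _)
  exact ⟨M1.cd_db h.smooth j, h.cpt.of_isClosed_subset (isClosed_tsupport _) hts,
    hts.trans h.sub⟩

theorem tst_dz {Ω : Set (EC n)} {ψ : EC n → ℂ} (h : Tst Ω ψ) (j : Fin n) :
    Tst Ω (dz j ψ) := by
  have h0 : ∀ x, x ∉ tsupport ψ → dz j ψ x = 0 := fun x hx => M1.dz_zero hx j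
  have hsub : Function.support (dz j ψ) ⊆ tsupport ψ := by
    intro x hx
    by_contra hc
    exact hx (h0 x hc)
  have hts : tsupport (dz j ψ) ⊆ tsupport ψ :=
    closure_minimal hsub (isClosed_tsupport _)
  exact ⟨M1.cd_dz h.smooth j, h.cpt.of_isClosed_subset (isClosed_tsupport _) hts,
    hts.trans h.sub⟩

theorem comm {ψ : EC n → ℂ} (h : ContDiff ℝ ∞ ψ) (j k : Fin n) :
    db j (dz k ψ) = dz k (db j ψ) := by
  funext x
  exact M1.db_dz_comm h j k x

end M7d

/-- M7e -/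
theorem closedD (n : ℕ) : ClosedD n := by
  intro Ω f D hΩ h k i j ψ hψ
  have e1 := h.wd k i _ (M7d.tst_db hψ j)
  have e2 := h.wd k j _ (M7d.tst_db hψ i)
  have e3 := h.cl i j _ (M7d.tst_dz hψ k)
  rw [M7d.comm hψ.smooth, M7d.comm hψ.smooth] at e3
  rw [e1, e2] at e3
  exact neg_injective e3

namespace M7d

variable {n : ℕ}

/-- continuity in `L²` of the pairing with a fixed `L²` function -/
theorem pair_tendsto {μ : Measure (EC n)} {U : ℕ → EC n → ℂ} {u χ : EC n → ℂ}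
    (hU : ∀ m, MemLp (U m) 2 μ) (hu : MemLp u 2 μ) (hχ : MemLp χ 2 μ)
    (hlim : Tendsto (fun m => (hU m).toLp (U m)) atTop (𝓝 (hu.toLp u))) :
    Tendsto (fun m => ∫ x, U m x * χ x ∂μ) atTop (𝓝 (∫ x, u x * χ x ∂μ)) := by
  have hc : MemLp (fun x => conj (χ x)) 2 μ := hχ.star
  have key : ∀ (g : EC n → ℂ) (hg : MemLp g 2 μ),
      ∫ x, g x * χ x ∂μ = ⟪hc.toLp _, hg.toLp g⟫_ℂ := by
    intro g hg
    rw [MeasureTheory.L2.inner_def]
    refine integral_congr_ae ?_
    filter_upwards [hg.coeFn_toLp, hc.coeFn_toLp] with x h1 h2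
    rw [h1, h2]
    simp
  simp_rw [fun m => key (U m) (hU m)]
  rw [key u hu]
  exact (continuous_const.inner continuous_id).continuousAt.tendsto.comp hlim

theorem tst_memLp {Ω : Set (EC n)} {ψ : EC n → ℂ} (h : Tst Ω ψ) :
    MemLp ψ 2 (volume.restrict Ω) :=
  (h.smooth.continuous.memLp_of_hasCompactSupport h.cpt).mono_measure Measure.restrict_le_self

/-- a norm-summable series of `L²` functions -/
theorem series {μ : Measure (EC n)} {v : ℕ → EC n → ℂ} (hv : ∀ m, MemLp (v m) 2 μ)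
    (K : ℝ) (hK : ∀ m, (eLpNorm (v m) 2 μ).toReal ≤ K * (1 / 2) ^ m) :
    ∃ u : EC n → ℂ, ∃ hu : MemLp u 2 μ, ∃ hU : ∀ M, MemLp (fun x => ∑ m ∈ Finset.range M, v m x) 2 μ,
      Tendsto (fun M => (hU M).toLp (fun x => ∑ m ∈ Finset.range M, v m x)) atTop
        (𝓝 (hu.toLp u)) := by
  have hsum : Summable (fun m => (hv m).toLp (v m)) := by
    refine Summable.of_norm_bounded (g := fun m => K * (1 / 2 : ℝ) ^ m)
      (summable_geometric_two.mul_left K) ?_
    intro m
    rw [Lp.norm_toLp]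
    exact hK m
  obtain ⟨s, hs⟩ := hsum
  refine ⟨s, Lp.memLp s, fun M => memLp_finsetSum _ (fun m _ => hv m), ?_⟩
  have h2 := hs.tendsto_sum_nat
  rw [Lp.toLp_coeFn]
  refine h2.congr ?_
  intro M
  induction M with
  | zero =>
    simp only [Finset.range_zero, Finset.sum_empty]
    rfl
  | succ M ih =>
    rw [Finset.sum_range_succ, ih, ← MemLp.toLp_add]
    refine MemLp.toLp_congr _ _ ?_
    refine Eventually.of_forall fun x => ?_
    simp only [Pi.add_apply]
    rw [Finset.sum_range_succ]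

end M7d

/-- M7d -/
theorem iterate (n : ℕ) : Iterate n := by
  intro Ω hΩ hone f D hXD
  obtain ⟨N, C, hN, hstep⟩ := hone
  -- the state space
  let S := {s : (Fin n → EC n → ℂ) × (Fin n → Fin n → EC n → ℂ) // XD Ω s.1 s.2}
  have hstep' : ∀ s : S, ∃ (s' : S) (u : EC n → ℂ) (P : Fin n → EC n → ℂ),
      N s'.1.1 s'.1.2 ≤ (1 / 2) * N s.1.1 s.1.2 ∧
      MemLp u 2 (volume.restrict Ω) ∧ (∀ k, MemLp (P k) 2 (volume.restrict Ω)) ∧
      (∀ k, WDo (dz k) Ω u (P k)) ∧ (∀ k, WDo (db k) Ω u (fun x => s.1.1 k x - s'.1.1 k x)) ∧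
      eLpNorm u 2 (volume.restrict Ω) ≤ ENNReal.ofReal C * N s.1.1 s.1.2 ∧
      ∀ k, eLpNorm (P k) 2 (volume.restrict Ω) ≤ ENNReal.ofReal C * N s.1.1 s.1.2 := by
    intro s
    obtain ⟨u, P, f', D', h1, h2, h3, h4, h5, h6, h7, h8⟩ := hstep s.1.1 s.1.2 s.2
    exact ⟨⟨(f', D'), h1⟩, u, P, h2, h3, h4, h5, h6, h7, h8⟩
  choose nx uu PP hnx huu hPP hdz hdb hub hPb using hstep'
  let s : ℕ → S := fun m => nx^[m] ⟨(f, D), hXD⟩
  have hs0 : (s 0).1 = (f, D) := rfl
  have hs1 : ∀ m, s (m + 1) = nx (s m) := fun m => Function.iterate_succ_apply' nx m _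
  have hNf : ∀ m, N (s m).1.1 (s m).1.2 ≤ (1 / 2) ^ m * N f D := by
    intro m
    induction m with
    | zero => simp [hs0]
    | succ m ih =>
      rw [hs1]
      calc N (nx (s m)).1.1 (nx (s m)).1.2 ≤ (1 / 2) * N (s m).1.1 (s m).1.2 := hnx (s m)
        _ ≤ (1 / 2) * ((1 / 2) ^ m * N f D) := by gcongr
        _ = (1 / 2) ^ (m + 1) * N f D := by rw [pow_succ]; ring
  have hNtop : N f D ≠ ⊤ := (hN f D hXD).1.ne
  set K : ℝ := (ENNReal.ofReal C * N f D).toReal with hKdef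
  have hKfin : ENNReal.ofReal C * N f D ≠ ⊤ := ENNReal.mul_ne_top ENNReal.ofReal_ne_top hNtop
  have gen : ∀ m (g : EC n → ℂ), eLpNorm g 2 (volume.restrict Ω) ≤
      ENNReal.ofReal C * N (s m).1.1 (s m).1.2 →
      (eLpNorm g 2 (volume.restrict Ω)).toReal ≤ K * (1 / 2) ^ m := by
    intro m g hg
    have h1 : eLpNorm g 2 (volume.restrict Ω) ≤
        (ENNReal.ofReal C * N f D) * (1 / 2) ^ m := by
      calc eLpNorm g 2 (volume.restrict Ω) ≤ ENNReal.ofReal C * N (s m).1.1 (s m).1.2 := hg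
        _ ≤ ENNReal.ofReal C * ((1 / 2) ^ m * N f D) := by gcongr; exact hNf m
        _ = (ENNReal.ofReal C * N f D) * (1 / 2) ^ m := by ring
    have h2 : (ENNReal.ofReal C * N f D) * (1 / 2) ^ m ≠ ⊤ :=
      ENNReal.mul_ne_top hKfin (ENNReal.pow_ne_top (by simp))
    have h3 := ENNReal.toReal_mono h2 h1
    rw [ENNReal.toReal_mul, ENNReal.toReal_pow, ← hKdef] at h3
    have h4 : (1 / 2 : ℝ≥0∞).toReal = 1 / 2 := by simp
    rwa [h4] at h3
  obtain ⟨u, hu, hU, hlim⟩ := M7d.series (μ := volume.restrict Ω) (v := fun m => uu (s m))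
    (fun m => huu (s m)) K (fun m => gen m _ (hub (s m)))
  have hP' := fun k => M7d.series (μ := volume.restrict Ω) (v := fun m => PP (s m) k)
    (fun m => hPP (s m) k) K (fun m => gen m _ (hPb (s m) k))
  choose P hP hPU hPlim using hP'
  have hint : ∀ (g χ : EC n → ℂ), MemLp g 2 (volume.restrict Ω) →
      MemLp χ 2 (volume.restrict Ω) →
      Integrable (fun x => g x * χ x) (volume.restrict Ω) := fun g χ h1 h2 => h1.integrable_mul h2
  refine ⟨u, P, hu, hP, ?_, ?_⟩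
  · intro k ψ hψ
    have l1 := M7d.pair_tendsto hU hu (M7d.tst_memLp (M7d.tst_dz hψ k)) hlim
    have l2 := M7d.pair_tendsto (hPU k) (hP k) (M7d.tst_memLp hψ) (hPlim k)
    refine tendsto_nhds_unique l1 ?_
    refine l2.neg.congr ?_
    intro M
    have e1 : ∀ x, (∑ m ∈ Finset.range M, uu (s m) x) * dz k ψ x =
        ∑ m ∈ Finset.range M, uu (s m) x * dz k ψ x := fun x => Finset.sum_mul _ _ _
    have e2 : ∀ x, (∑ m ∈ Finset.range M, PP (s m) k x) * ψ x =
        ∑ m ∈ Finset.range M, PP (s m) k x * ψ x := fun x => Finset.sum_mul _ _ _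
    simp_rw [e1, e2]
    rw [integral_finsetSum _ (fun m _ => hint _ _ (hPP (s m) k) (M7d.tst_memLp hψ)),
      integral_finsetSum _ (fun m _ => hint _ _ (huu (s m)) (M7d.tst_memLp (M7d.tst_dz hψ k))),
      ← Finset.sum_neg_distrib]
    refine Finset.sum_congr rfl fun m _ => ?_
    exact (hdz (s m) k ψ hψ).symm
  · intro k ψ hψ
    have l1 := M7d.pair_tendsto hU hu (M7d.tst_memLp (M7d.tst_db hψ k)) hlim
    have hfm : ∀ m, MemLp ((s m).1.1 k) 2 (volume.restrict Ω) := fun m => (s m).2.mf k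
    -- the remainders tend to zero
    have hrem : Tendsto (fun m => ∫ x in Ω, (s m).1.1 k x * ψ x) atTop (𝓝 0) := by
      have hz : MemLp (0 : EC n → ℂ) 2 (volume.restrict Ω) := MemLp.zero
      have := M7d.pair_tendsto (U := fun m => (s m).1.1 k) hfm hz (M7d.tst_memLp hψ) (by
        rw [MemLp.toLp_zero]
        rw [tendsto_zero_iff_norm_tendsto_zero]
        simp_rw [Lp.norm_toLp]
        refine squeeze_zero (g := fun m => K * (1 / 2 : ℝ) ^ m) (fun m => ENNReal.toReal_nonneg)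
          (fun m => gen m _ ?_) ?_
        · exact (hN _ _ (s m).2).2 k
        · simpa using (tendsto_pow_atTop_nhds_zero_of_lt_one (by norm_num : (0:ℝ) ≤ 1 / 2)
            (by norm_num)).const_mul K)
      simpa using this
    have l2 : Tendsto (fun M => -((∫ x in Ω, f k x * ψ x) - ∫ x in Ω, (s M).1.1 k x * ψ x))
        atTop (𝓝 (-((∫ x in Ω, f k x * ψ x) - 0))) := (tendsto_const_nhds.sub hrem).neg
    rw [sub_zero] at l2
    refine tendsto_nhds_unique l1 (l2.congr ?_)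
    intro M
    have e1 : ∀ x, (∑ m ∈ Finset.range M, uu (s m) x) * db k ψ x =
        ∑ m ∈ Finset.range M, uu (s m) x * db k ψ x := fun x => Finset.sum_mul _ _ _
    simp_rw [e1]
    rw [integral_finsetSum _ (fun m _ => hint _ _ (huu (s m)) (M7d.tst_memLp (M7d.tst_db hψ k)))]
    have e3 : ∀ m, ∫ x in Ω, uu (s m) x * db k ψ x =
        (∫ x in Ω, (s (m + 1)).1.1 k x * ψ x) - ∫ x in Ω, (s m).1.1 k x * ψ x := by
      intro m
      rw [hdb (s m) k ψ hψ, ← hs1]
      simp_rw [sub_mul]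
      rw [integral_sub (hint _ _ (hfm m) (M7d.tst_memLp hψ))
        (hint _ _ (hfm (m + 1)) (M7d.tst_memLp hψ))]
      ring
    rw [Finset.sum_congr rfl (fun m _ => e3 m), Finset.sum_range_sub
      (fun m => ∫ x in Ω, (s m).1.1 k x * ψ x)]
    have e4 : (s 0).1.1 = f := by rw [hs0]
    rw [e4]
    ring

end Pool.Agent.H92.Lip
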