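import Pool.Agent.H92.Lip.Step2
import Pool.Agent.H92.Lip.M2
import Pool.Agent.H92.Lip.M3c
import Pool.Agent.H92.Lip.M3ab
import Pool.Agent.H92.Lip.M1
import Pool.Agent.H92.Lip.M5
import Pool.Agent.H92.Lip.M6ac
import Pool.Agent.H92.Lip.M6b
import Pool.Agent.H92.Lip.M6d
import Pool.Agent.H92.Lip.M7d

set_option autoImplicit false

open MeasureTheory Set Filter Topology
open scoped ContDiff ENNReal

namespace Pool.Agent.H92.Lip

variable {n : ℕ}

theorem SPsh.congr {Ω : Set (EC n)} {Φ Φ' : EC n → ℝ} (h : SPsh Ω Φ)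
    (he : ∀ z ∈ Ω, Φ' z = Φ z) : SPsh Ω Φ' := by
  intro K hK hKΩ ε hε
  obtain ⟨F, hF, h1, h2⟩ := h K hK hKΩ ε hε
  refine ⟨F, hF, fun z hz => ?_, h2⟩
  rw [he z (hKΩ hz)]
  exact h1 z hz

/-- the `W¹` solvability of `∂̄` on bounded pseudoconvex Lipschitz domains, internal form -/
theorem solve_main (hD : DzOfDb n) {Ω : Set (EC n)} (hΩ : IsOpen Ω)
    (hb : Bornology.IsBounded Ω) (hne : (Ωᶜ).Nonempty) (hLip : LipBd Ω)
    {φ : EC n → ℝ} (hφ : ContinuousOn φ Ω) (hφc : ∀ c : ℝ, IsCompact {z | z ∈ Ω ∧ φ z ≤ c})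
    (hφs : SubMean Ω φ) {f : Fin n → EC n → ℂ} {D : Fin n → Fin n → EC n → ℂ}
    (hX : XD Ω f D) :
    ∃ (u : EC n → ℂ) (P : Fin n → EC n → ℂ), MemLp u 2 (volume.restrict Ω) ∧
      (∀ k, MemLp (P k) 2 (volume.restrict Ω)) ∧ (∀ k, WDo (dz k) Ω u (P k)) ∧
      ∀ k, WDo (db k) Ω u (f k) := by
  classical
  have hS := smoothApprox n
  obtain ⟨Φ, M, hc, hM, hsp, hmono⟩ := exists_weight hS (oka n hS) hΩ hb hne hLip hφ hφc hφs
  have hex : Exh Ω := exhOfPsh n hS Ω φ hΩ hφ hφc hφs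
  set Ψ : EC n → ℝ := Ω.indicator Φ with hΨ
  have he : ∀ z ∈ Ω, Ψ z = Φ z := fun z hz => indicator_of_mem hz Φ
  have hΨc : ContinuousOn Ψ Ω := hc.congr he
  have hΨm : Measurable Ψ := by
    have h1 : Measurable (Ω.piecewise Φ fun _ => (0 : ℝ)) :=
      ContinuousOn.measurable_piecewise hc continuousOn_const hΩ.measurableSet
    rw [hΨ, ← piecewise_eq_indicator]
    exact h1
  have hstep : OneStep Ω := by
    refine oneStep (hormSolve n (apriori n (basicEst n))) (kopBound n) (aopBound n)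
      (kopGrad n (gradBound n)) (localDbar n) hD (closedD n) hΩ hb hex hΨm hΨc (M := M)
      (fun z hz => by rw [he z hz]; exact hM z hz) (hsp.congr he) ?_
    intro x hx
    obtain ⟨e, c, r, hc0, hr0, h⟩ := hmono x hx
    refine ⟨e, c, r, hc0, hr0, ?_⟩
    intro z hz hzx s hs0 hsr w hw
    obtain ⟨h1, h2⟩ := h z hz hzx s hs0 hsr w hw
    refine ⟨h1, ?_⟩
    rw [he _ h1, he _ hz]
    exact h2
  exact iterate n Ω hΩ hstep f D hX

theorem compl_nonempty (hn : 0 < n) {Ω : Set (EC n)} (hb : Bornology.IsBounded Ω) :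
    (Ωᶜ).Nonempty := by
  obtain ⟨R, hR⟩ := hb.exists_norm_le
  refine ⟨Pi.single ⟨0, hn⟩ (((|R| + 1 : ℝ)) : ℂ), fun h => ?_⟩
  have h1 := hR _ h
  rw [Pi.norm_single, Complex.norm_real, Real.norm_of_nonneg (by positivity)] at h1
  have := le_abs_self R
  linarith

theorem fd_expand (e : EC n) (ψ : EC n → ℂ) (x : EC n) :
    fderiv ℝ ψ x e = ∑ k, (e k * dz k ψ x + (starRingEnd ℂ) (e k) * db k ψ x) := by
  have h1 : e = ∑ k, ((e k).re • (Pi.single k (1 : ℂ) : EC n) +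
      (e k).im • (Pi.single k Complex.I : EC n)) := by
    ext j
    rw [Finset.sum_apply, Finset.sum_eq_single j]
    · simp only [Pi.add_apply, Pi.smul_apply, Pi.single_eq_same]
      conv_lhs => rw [← Complex.re_add_im (e j)]
      simp
    · intro k _ hk
      simp [Pi.single_eq_of_ne hk.symm]
    · simp
  conv_lhs => rw [h1]
  rw [map_sum]
  refine Finset.sum_congr rfl fun k _ => ?_
  rw [map_add, map_smul, map_smul]
  have h2 : e k = (e k).re + (e k).im * Complex.I := (Complex.re_add_im (e k)).symm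
  have h3 : (starRingEnd ℂ) (e k) = (e k).re - (e k).im * Complex.I := by
    apply Complex.ext <;> simp
  conv_rhs => rw [h2]
  conv_rhs => rw [← h2, h3]
  conv_rhs => rw [h2]
  simp only [Complex.real_smul, Complex.add_re, Complex.ofReal_re, Complex.mul_re,
    Complex.I_re, mul_zero, Complex.ofReal_im, Complex.I_im, mul_one, sub_self, add_zero,
    Complex.add_im, Complex.mul_im, zero_add]
  unfold dz db
  have hI : Complex.I * Complex.I = -1 := Complex.I_mul_I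
  linear_combination ((e k).im * fderiv ℝ ψ x (Pi.single k Complex.I)) * hI

/-- weak derivatives in real directions in the form of the frozen statement -/
def HasW (Ω : Set (EC n)) (u : EC n → ℂ) : Prop :=
  MemLp u 2 (volume.restrict Ω) ∧
    ∀ e : Fin n → ℂ, ∃ h : (Fin n → ℂ) → ℂ, MemLp h 2 (volume.restrict Ω) ∧
      ∀ ψ : (Fin n → ℂ) → ℂ, ContDiff ℝ ((⊤ : ℕ∞) : WithTop ℕ∞) ψ → HasCompactSupport ψ →
        tsupport ψ ⊆ Ω → ∫ x in Ω, u x * fderiv ℝ ψ x e = - ∫ x in Ω, h x * ψ x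

theorem hasW_of {Ω : Set (EC n)} {u : EC n → ℂ} {P Q : Fin n → EC n → ℂ}
    (hu : MemLp u 2 (volume.restrict Ω)) (hP : ∀ k, MemLp (P k) 2 (volume.restrict Ω))
    (hQ : ∀ k, MemLp (Q k) 2 (volume.restrict Ω)) (hz : ∀ k, WDo (dz k) Ω u (P k))
    (hb : ∀ k, WDo (db k) Ω u (Q k)) : HasW Ω u := by
  refine ⟨hu, fun e => ?_⟩
  refine ⟨fun x => ∑ k, (e k * P k x + (starRingEnd ℂ) (e k) * Q k x),
    memLp_finsetSum _ fun k _ => ((hP k).const_mul _).add ((hQ k).const_mul _), ?_⟩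
  intro ψ h1 h2 h3
  have hψ : Tst Ω ψ := ⟨h1, h2, h3⟩
  have e1 : ∀ x, u x * fderiv ℝ ψ x e = ∑ k, (e k * (u x * dz k ψ x) +
      (starRingEnd ℂ) (e k) * (u x * db k ψ x)) := by
    intro x
    rw [fd_expand, Finset.mul_sum]
    exact Finset.sum_congr rfl fun k _ => by ring
  have e2 : ∀ x, (∑ k, (e k * P k x + (starRingEnd ℂ) (e k) * Q k x)) * ψ x =
      ∑ k, (e k * (P k x * ψ x) + (starRingEnd ℂ) (e k) * (Q k x * ψ x)) := by
    intro x
    rw [Finset.sum_mul]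
    exact Finset.sum_congr rfl fun k _ => by ring
  simp only [e1, e2]
  have i1 := fun k => (integrable_mul_tst hu ((FO.dz k).tst hψ)).const_mul (e k)
  have i2 := fun k => (integrable_mul_tst hu ((FO.db k).tst hψ)).const_mul
    ((starRingEnd ℂ) (e k))
  have i3 := fun k => (integrable_mul_tst (hP k) hψ).const_mul (e k)
  have i4 := fun k => (integrable_mul_tst (hQ k) hψ).const_mul ((starRingEnd ℂ) (e k))
  have i12 : ∀ k, Integrable (fun x => e k * (u x * dz k ψ x) +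
      (starRingEnd ℂ) (e k) * (u x * db k ψ x)) (volume.restrict Ω) :=
    fun k => (i1 k).add (i2 k)
  have i34 : ∀ k, Integrable (fun x => e k * (P k x * ψ x) +
      (starRingEnd ℂ) (e k) * (Q k x * ψ x)) (volume.restrict Ω) :=
    fun k => (i3 k).add (i4 k)
  rw [integral_finsetSum _ fun k _ => i12 k,
    integral_finsetSum _ fun k _ => i34 k, ← Finset.sum_neg_distrib]
  refine Finset.sum_congr rfl fun k _ => ?_
  rw [integral_add (i1 k) (i2 k), integral_add (i3 k) (i4 k), integral_const_mul,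
    integral_const_mul, integral_const_mul, integral_const_mul, hz k ψ hψ, hb k ψ hψ]
  ring

/-- derivatives `∂_k` of a `W¹` function -/
theorem HasW.exists_dz {Ω : Set (EC n)} {u : EC n → ℂ} (h : HasW Ω u) (k : Fin n) :
    ∃ g : EC n → ℂ, MemLp g 2 (volume.restrict Ω) ∧ WDo (dz k) Ω u g := by
  obtain ⟨hu, h⟩ := h
  obtain ⟨h1, m1, w1⟩ := h (Pi.single k (1 : ℂ))
  obtain ⟨h2, m2, w2⟩ := h (Pi.single k Complex.I)
  refine ⟨fun x => (1 / 2 : ℂ) * h1 x + (-(Complex.I / 2)) * h2 x,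
    (m1.const_mul _).add (m2.const_mul _), ?_⟩
  intro ψ hψ
  have e1 : ∀ x, u x * dz k ψ x =
      (1 / 2 : ℂ) * (u x * fderiv ℝ ψ x (Pi.single k (1 : ℂ))) +
      (-(Complex.I / 2)) * (u x * fderiv ℝ ψ x (Pi.single k Complex.I)) := by
    intro x
    unfold dz
    ring
  have e2 : ∀ x, ((1 / 2 : ℂ) * h1 x + (-(Complex.I / 2)) * h2 x) * ψ x =
      (1 / 2 : ℂ) * (h1 x * ψ x) + (-(Complex.I / 2)) * (h2 x * ψ x) := by
    intro x
    ring
  simp only [e1, e2]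
  have i0 : ∀ e' : EC n, Integrable (fun x => u x * fderiv ℝ ψ x e') (volume.restrict Ω) :=
    fun e' => integrable_mul_tst hu ((FO.fd e').tst hψ)
  have i1 := integrable_mul_tst m1 hψ
  have i2 := integrable_mul_tst m2 hψ
  rw [integral_add ((i0 _).const_mul _) ((i0 _).const_mul _),
    integral_add (i1.const_mul _) (i2.const_mul _), integral_const_mul, integral_const_mul,
    integral_const_mul, integral_const_mul, w1 ψ hψ.smooth hψ.cpt hψ.sub,
    w2 ψ hψ.smooth hψ.cpt hψ.sub]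
  ring

/-- final form -/
theorem final (hD : ∀ n, DzOfDb n) (n : ℕ) (Ω : Set (EC n)) (hΩ : IsOpen Ω)
    (hb : Bornology.IsBounded Ω)
    (hpsh : ∃ φ : (Fin n → ℂ) → ℝ, ContinuousOn φ Ω ∧
      (∀ c : ℝ, IsCompact {z | z ∈ Ω ∧ φ z ≤ c}) ∧ SubMean Ω φ)
    (hLip : LipBd Ω) (f : Fin n → EC n → ℂ) (hf : ∀ j, HasW Ω (f j))
    (hcl : ∀ j k : Fin n, ∀ ψ : (Fin n → ℂ) → ℂ, ContDiff ℝ ((⊤ : ℕ∞) : WithTop ℕ∞) ψ →
          HasCompactSupport ψ → tsupport ψ ⊆ Ω →
          ∫ x in Ω, f j x * (fderiv ℝ ψ x (Pi.single k (1 : ℂ) : Fin n → ℂ)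
              + Complex.I * fderiv ℝ ψ x (Pi.single k Complex.I : Fin n → ℂ))
            = ∫ x in Ω, f k x * (fderiv ℝ ψ x (Pi.single j (1 : ℂ) : Fin n → ℂ)
              + Complex.I * fderiv ℝ ψ x (Pi.single j Complex.I : Fin n → ℂ))) :
    ∃ u : EC n → ℂ, HasW Ω u ∧ ∀ j : Fin n, ∀ ψ : (Fin n → ℂ) → ℂ,
      ContDiff ℝ ((⊤ : ℕ∞) : WithTop ℕ∞) ψ → HasCompactSupport ψ → tsupport ψ ⊆ Ω →
          ∫ x in Ω, u x * ((fderiv ℝ ψ x (Pi.single j (1 : ℂ) : Fin n → ℂ)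
              + Complex.I * fderiv ℝ ψ x (Pi.single j Complex.I : Fin n → ℂ)) / 2)
            = - ∫ x in Ω, f j x * ψ x := by
  rcases Nat.eq_zero_or_pos n with hn | hn
  · subst hn
    refine ⟨fun _ => 0, ⟨?_, fun e => ⟨fun _ => 0, ?_, ?_⟩⟩, fun j => j.elim0⟩
    · exact MemLp.zero'
    · exact MemLp.zero'
    · intro ψ _ _ _
      simp
  · have hne := compl_nonempty hn hb
    choose D hDm hDw using fun k j => (hf j).exists_dz k
    have hcl' : WClosed Ω f := by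
      intro j k ψ hψ
      have h1 := hcl j k ψ hψ.smooth hψ.cpt hψ.sub
      have e1 : ∀ (j k : Fin n), ∫ x in Ω, f j x * db k ψ x = (1 / 2 : ℂ) * ∫ x in Ω, f j x *
          (fderiv ℝ ψ x (Pi.single k (1 : ℂ) : Fin n → ℂ)
              + Complex.I * fderiv ℝ ψ x (Pi.single k Complex.I : Fin n → ℂ)) := by
        intro j k
        rw [← integral_const_mul]
        refine integral_congr_ae (Eventually.of_forall fun x => ?_)
        unfold db
        ring
      rw [e1, e1, h1]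
    have hX : XD Ω f D := ⟨fun j => (hf j).1, hDm, hDw, hcl'⟩
    obtain ⟨φ, hφ, hφc, hφs⟩ := hpsh
    obtain ⟨u, P, hu, hP, hz, hbb⟩ := solve_main (hD n) hΩ hb hne hLip hφ hφc hφs hX
    refine ⟨u, hasW_of hu hP (fun k => (hf k).1) hz hbb, ?_⟩
    intro j ψ h1 h2 h3
    exact hbb j ψ ⟨h1, h2, h3⟩

end Pool.Agent.H92.Lip
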