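import Pool.Agent.H92.Lip.Wd

set_option autoImplicit false

open MeasureTheory Set Filter Topology
open scoped ContDiff ENNReal

namespace Pool.Agent.H92.Lip

variable {n : ℕ}

theorem wm_ac (Φ : EC n → ℝ) (t : ℝ) (S : Set (EC n)) : wm Φ t S ≪ volume.restrict S :=
  withDensity_absolutelyContinuous _ _

theorem le_of_sq_le {a b : ℝ≥0∞} (h : a ^ 2 ≤ b ^ 2) : a ≤ b :=
  (ENNReal.pow_le_pow_left_iff two_ne_zero).1 h

/-- comparison of the weighted norm with the unweighted one -/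
theorem nm_le {Ω : Set (EC n)} {Φ : EC n → ℝ} (hΦ : Measurable Φ) {M t : ℝ}
    (hΩ : MeasurableSet Ω) (hM : ∀ z ∈ Ω, |Φ z| ≤ M) (ht : 0 ≤ t) (f : EC n → ℂ) :
    eLpNorm f 2 (wm Φ t Ω) ≤
      ENNReal.ofReal (Real.exp (t * M)) * eLpNorm f 2 (volume.restrict Ω) := by
  refine le_of_sq_le ?_
  rw [wm_sq hΦ, mul_pow, eLpNorm_sq, ← lintegral_const_mul' _ _ (by finiteness)]
  refine setLIntegral_mono' hΩ fun x hx => ?_
  refine mul_le_mul_left ?_ _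
  rw [← ENNReal.ofReal_pow (Real.exp_pos _).le]
  refine ENNReal.ofReal_le_ofReal ?_
  rw [← Real.exp_nat_mul]
  refine Real.exp_le_exp.2 ?_
  have h1 := (abs_le.1 (hM x hx)).1
  have h2 := abs_nonneg (Φ x)
  have h3 := hM x hx
  push_cast
  nlinarith

theorem le_nm {Ω : Set (EC n)} {Φ : EC n → ℝ} (hΦ : Measurable Φ) {M t : ℝ}
    (hΩ : MeasurableSet Ω) (hM : ∀ z ∈ Ω, |Φ z| ≤ M) (ht : 0 ≤ t) (f : EC n → ℂ) :
    eLpNorm f 2 (volume.restrict Ω) ≤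
      ENNReal.ofReal (Real.exp (t * M)) * eLpNorm f 2 (wm Φ t Ω) := by
  refine le_of_sq_le ?_
  rw [mul_pow, wm_sq hΦ, eLpNorm_sq, ← lintegral_const_mul' _ _ (by finiteness)]
  refine setLIntegral_mono' hΩ fun x hx => ?_
  rw [← mul_assoc, ← ENNReal.ofReal_pow (Real.exp_pos _).le,
    ← ENNReal.ofReal_mul (by positivity), ← Real.exp_nat_mul, ← Real.exp_add]
  have h0 : (1 : ℝ≥0∞) ≤ ENNReal.ofReal (Real.exp (((2 : ℕ) : ℝ) * (t * M) + -(t * Φ x))) := by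
    rw [← ENNReal.ofReal_one]
    refine ENNReal.ofReal_le_ofReal (Real.one_le_exp ?_)
    have h1 := (abs_le.1 (hM x hx)).2
    have h2 := abs_nonneg (Φ x)
    have h3 := hM x hx
    push_cast
    nlinarith
  calc ‖f x‖ₑ ^ 2 = 1 * ‖f x‖ₑ ^ 2 := (one_mul _).symm
    _ ≤ _ := mul_le_mul_left h0 _

/-- multiplication by a bounded function supported in a patch -/
theorem nm_mul_le {Ω P : Set (EC n)} {Φ : EC n → ℝ} (hΦ : Measurable Φ) {t : ℝ}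
    (hΩ : MeasurableSet Ω) (hP : MeasurableSet P) (hPΩ : P ⊆ Ω) {A : ℝ} {θ : EC n → ℂ}
    (hθ : ∀ x, ‖θ x‖ ≤ A) (hz : ∀ x ∈ Ω, x ∉ P → θ x = 0) (f : EC n → ℂ) :
    eLpNorm (fun x => θ x * f x) 2 (wm Φ t Ω) ≤
      ENNReal.ofReal A * eLpNorm f 2 (wm Φ t P) := by
  refine le_of_sq_le ?_
  rw [wm_sq hΦ, mul_pow, wm_sq hΦ, ← lintegral_const_mul' _ _ (by finiteness)]
  have h1 : ∫⁻ x in Ω, ENNReal.ofReal (Real.exp (-(t * Φ x))) * ‖θ x * f x‖ₑ ^ 2 =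
      ∫⁻ x in P, ENNReal.ofReal (Real.exp (-(t * Φ x))) * ‖θ x * f x‖ₑ ^ 2 := by
    rw [← lintegral_indicator hΩ, ← lintegral_indicator hP]
    refine lintegral_congr fun x => ?_
    by_cases hx : x ∈ Ω
    · by_cases hxP : x ∈ P
      · rw [indicator_of_mem hx, indicator_of_mem hxP]
      · rw [indicator_of_mem hx, indicator_of_notMem hxP, hz x hx hxP]
        simp
    · rw [indicator_of_notMem hx, indicator_of_notMem fun h => hx (hPΩ h)]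
  rw [h1]
  refine lintegral_mono fun x => ?_
  have h3 : ‖θ x * f x‖ₑ ^ 2 ≤ ENNReal.ofReal A ^ 2 * ‖f x‖ₑ ^ 2 := by
    rw [enorm_mul, mul_pow]
    have h4 : ‖θ x‖ₑ ≤ ENNReal.ofReal A := by
      rw [← ofReal_norm]
      exact ENNReal.ofReal_le_ofReal (hθ x)
    gcongr
  calc _ ≤ ENNReal.ofReal (Real.exp (-(t * Φ x))) * (ENNReal.ofReal A ^ 2 * ‖f x‖ₑ ^ 2) := by
        gcongr
    _ = _ := by ring

theorem nm_add_le {Ω : Set (EC n)} {Φ : EC n → ℝ} {t : ℝ} {f g : EC n → ℂ}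
    (hf : AEStronglyMeasurable f (volume.restrict Ω))
    (hg : AEStronglyMeasurable g (volume.restrict Ω)) :
    eLpNorm (fun x => f x + g x) 2 (wm Φ t Ω) ≤
      eLpNorm f 2 (wm Φ t Ω) + eLpNorm g 2 (wm Φ t Ω) :=
  eLpNorm_add_le (hf.mono_ac (wm_ac Φ t Ω)) (hg.mono_ac (wm_ac Φ t Ω)) (by norm_num)

theorem nm_sum_le {ι : Type*} (s : Finset ι) {Ω : Set (EC n)} {Φ : EC n → ℝ} {t : ℝ}
    {f : ι → EC n → ℂ} (hf : ∀ i ∈ s, AEStronglyMeasurable (f i) (volume.restrict Ω)) :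
    eLpNorm (fun x => ∑ i ∈ s, f i x) 2 (wm Φ t Ω) ≤ ∑ i ∈ s, eLpNorm (f i) 2 (wm Φ t Ω) := by
  have h := eLpNorm_sum_le (s := s) (f := f) (p := 2) (μ := wm Φ t Ω)
    (fun i hi => (hf i hi).mono_ac (wm_ac Φ t Ω)) (by norm_num)
  convert h using 2
  ext x
  simp

theorem nm_neg {Ω : Set (EC n)} {Φ : EC n → ℝ} {t : ℝ} {f : EC n → ℂ} :
    eLpNorm (fun x => -f x) 2 (wm Φ t Ω) = eLpNorm f 2 (wm Φ t Ω) :=
  eLpNorm_neg f 2 _

theorem nm_mono {Ω P : Set (EC n)} {Φ : EC n → ℝ} (hΦ : Measurable Φ) {t : ℝ} (hPΩ : P ⊆ Ω)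
    (f : EC n → ℂ) : eLpNorm f 2 (wm Φ t P) ≤ eLpNorm f 2 (wm Φ t Ω) := by
  refine le_of_sq_le ?_
  rw [wm_sq hΦ, wm_sq hΦ]
  exact lintegral_mono_set hPΩ

/-- real bounds for smooth compactly supported functions -/
theorem exists_bound_hcs {θ : EC n → ℂ} (h1 : Continuous θ) (h2 : HasCompactSupport θ) :
    ∃ A : ℝ, 0 ≤ A ∧ ∀ x, ‖θ x‖ ≤ A := by
  obtain ⟨A, hA⟩ := h1.bounded_above_of_compact_support h2
  exact ⟨A, (norm_nonneg (θ 0)).trans (hA 0), hA⟩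

theorem memLp_mul_hcs {μ : Measure (EC n)} {θ v : EC n → ℂ} (h1 : Continuous θ)
    (h2 : HasCompactSupport θ) (hv : MemLp v 2 μ) : MemLp (fun x => θ x * v x) 2 μ := by
  obtain ⟨A, hA, hθ⟩ := exists_bound_hcs h1 h2
  refine (hv.const_mul (A : ℂ)).of_le (h1.aestronglyMeasurable.mul hv.aestronglyMeasurable) ?_
  refine Eventually.of_forall fun x => ?_
  rw [norm_mul, norm_mul, Complex.norm_real, Real.norm_of_nonneg hA]
  exact mul_le_mul_of_nonneg_right (hθ x) (norm_nonneg _)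

end Pool.Agent.H92.Lip
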