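import Pool.Agent.H92.Lip.Local2

set_option autoImplicit false

open MeasureTheory Set Filter Topology
open scoped ContDiff ENNReal Manifold

namespace Pool.Agent.H92.Lip

variable {n : ℕ}

theorem tsupport_ofReal_comp {f : EC n → ℝ} :
    tsupport (fun x => ((f x : ℝ) : ℂ)) ⊆ tsupport f := by
  refine closure_mono fun x hx => ?_
  rw [Function.mem_support] at hx ⊢
  intro h0
  rw [h0] at hx
  simp at hx

theorem hcs_of_subset_ball {f : EC n → ℂ} {p : EC n} {r : ℝ}
    (h : tsupport f ⊆ Metric.ball p r) : HasCompactSupport f := by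
  refine Metric.isCompact_of_isClosed_isBounded (isClosed_tsupport f) ?_
  exact Metric.isBounded_ball.subset h

theorem hcs_of_bounded {f : EC n → ℂ} {Ω : Set (EC n)} (hb : Bornology.IsBounded Ω)
    (h : tsupport f ⊆ Ω) : HasCompactSupport f :=
  Metric.isCompact_of_isClosed_isBounded (isClosed_tsupport f) (hb.subset h)

theorem exists_pou {Ω : Set (EC n)} (hΩ : IsOpen Ω) (hb : Bornology.IsBounded Ω)
    (r : EC n → ℝ) (hr : ∀ x ∈ frontier Ω, 0 < r x) :
    ∃ (t : Finset (EC n)) (θ0 : EC n → ℂ) (θ : EC n → EC n → ℂ), (∀ p ∈ t, p ∈ frontier Ω) ∧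
      Tst Ω θ0 ∧ (∀ p ∈ t, Tst (Metric.ball p (r p)) (θ p)) ∧
      ∀ x ∈ Ω, θ0 x + ∑ p ∈ t, θ p x = 1 := by
  classical
  have hcomp : IsCompact (frontier Ω) :=
    Metric.isCompact_of_isClosed_isBounded isClosed_frontier
      (hb.closure.subset frontier_subset_closure)
  obtain ⟨t, ht, hcov⟩ := hcomp.elim_nhds_subcover (fun p => Metric.ball p (r p))
    (fun p hp => Metric.ball_mem_nhds p (hr p hp))
  let U : Option t → Set (EC n) := fun i => i.elim Ω fun p => Metric.ball (p : EC n) (r p)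
  have hUo : ∀ i, IsOpen (U i) := by
    intro i
    cases i with
    | none => exact hΩ
    | some p => exact Metric.isOpen_ball
  have hUc : closure Ω ⊆ ⋃ i, U i := by
    intro x hx
    by_cases hxΩ : x ∈ Ω
    · exact mem_iUnion.2 ⟨none, hxΩ⟩
    · have hxf : x ∈ frontier Ω := by
        rw [hΩ.frontier_eq]
        exact ⟨hx, hxΩ⟩
      obtain ⟨p, hp, hpx⟩ := mem_iUnion₂.1 (hcov hxf)
      exact mem_iUnion.2 ⟨some ⟨p, hp⟩, hpx⟩
  obtain ⟨F, hF⟩ := SmoothPartitionOfUnity.exists_isSubordinate (𝓘(ℝ, EC n))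
    (isClosed_closure (s := Ω)) U hUo hUc
  have hsm : ∀ i, ContDiff ℝ ∞ (fun x => ((F i x : ℝ) : ℂ)) := by
    intro i
    have h1 : ContDiff ℝ ∞ (F i) := (F i).contMDiff.contDiff
    exact Complex.ofRealCLM.contDiff.comp h1
  have hsup : ∀ i, tsupport (fun x => ((F i x : ℝ) : ℂ)) ⊆ U i := by
    intro i
    exact tsupport_ofReal_comp.trans (hF i)
  refine ⟨t, fun x => ((F none x : ℝ) : ℂ),
    fun p x => if hp : p ∈ t then ((F (some ⟨p, hp⟩) x : ℝ) : ℂ) else 0, ht, ?_, ?_, ?_⟩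
  · exact ⟨hsm none, hcs_of_bounded hb (hsup none), hsup none⟩
  · intro p hp
    have e : (fun x => if hp : p ∈ t then ((F (some ⟨p, hp⟩) x : ℝ) : ℂ) else 0) =
        fun x => ((F (some ⟨p, hp⟩) x : ℝ) : ℂ) := by
      ext x
      rw [dif_pos hp]
    have e' : ((fun p x => if hp : p ∈ t then ((F (some ⟨p, hp⟩) x : ℝ) : ℂ) else 0) p) =
        fun x => ((F (some ⟨p, hp⟩) x : ℝ) : ℂ) := e
    rw [e']
    exact ⟨hsm _, hcs_of_subset_ball (hsup (some ⟨p, hp⟩)), hsup (some ⟨p, hp⟩)⟩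
  · intro x hx
    have h1 : ∑ᶠ i, F i x = 1 := F.sum_eq_one (subset_closure hx)
    rw [finsum_eq_sum_of_fintype, Fintype.sum_option] at h1
    have h2 : ∑ p ∈ t, (if hp : p ∈ t then ((F (some ⟨p, hp⟩) x : ℝ) : ℂ) else 0) =
        ∑ i : t, ((F (some i) x : ℝ) : ℂ) := by
      rw [← Finset.sum_coe_sort t]
      refine Finset.sum_congr rfl fun i _ => ?_
      rw [dif_pos i.2]
    rw [h2]
    have h3 := congrArg (fun r : ℝ => (r : ℂ)) h1
    push_cast at h3
    exact h3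

end Pool.Agent.H92.Lip
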