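import Pool.Agent.H92.Lip.Defs2

set_option autoImplicit false

open MeasureTheory Set Filter Topology
open scoped ContDiff ENNReal

namespace Pool.Agent.H92.Lip

/-- Riesz representation of a functional controlled by a linear map -/
theorem riesz_lemma {S : Type*} [AddCommGroup S] [Module ℂ S] {H : Type*}
    [NormedAddCommGroup H] [InnerProductSpace ℂ H] [CompleteSpace H] (T : S →ₗ[ℂ] H)
    (L : S →ₗ[ℂ] ℂ) {C : ℝ} (hC : 0 ≤ C) (h : ∀ a, ‖L a‖ ≤ C * ‖T a‖) :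
    ∃ y : H, ‖y‖ ≤ C ∧ ∀ a, L a = inner ℂ y (T a) := by
  obtain ⟨s, hs⟩ := T.rangeRestrict.exists_rightInverse_of_surjective
    (LinearMap.range_rangeRestrict T)
  have hs' : ∀ y : LinearMap.range T, T (s y) = y := by
    intro y
    have h1 := LinearMap.congr_fun hs y
    have h2 := congrArg Subtype.val h1
    simpa using h2
  let g0 : LinearMap.range T →ₗ[ℂ] ℂ := L.comp s
  have hg0 : ∀ y, ‖g0 y‖ ≤ C * ‖y‖ := by
    intro y
    have h1 := h (s y)
    rw [hs'] at h1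
    exact h1
  let g : LinearMap.range T →L[ℂ] ℂ := g0.mkContinuous C hg0
  obtain ⟨G, hG, hGn⟩ := exists_extension_norm_eq (LinearMap.range T) g
  refine ⟨(InnerProductSpace.toDual ℂ H).symm G, ?_, ?_⟩
  · rw [LinearIsometryEquiv.norm_map, hGn]
    exact g0.mkContinuous_norm_le hC hg0
  · intro a
    rw [InnerProductSpace.toDual_symm_apply]
    have h1 : G (T a) = g ⟨T a, LinearMap.mem_range_self T a⟩ := hG ⟨T a, _⟩
    rw [h1]
    have h2 : g ⟨T a, LinearMap.mem_range_self T a⟩ = L (s ⟨T a, LinearMap.mem_range_self T a⟩) :=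
      rfl
    rw [h2]
    have h3 := h (a - s ⟨T a, LinearMap.mem_range_self T a⟩)
    rw [map_sub, map_sub, hs', sub_self, norm_zero, mul_zero] at h3
    exact sub_eq_zero.1 (norm_le_zero_iff.1 h3)

theorem eLpNorm_sq {α : Type*} [MeasurableSpace α] (f : α → ℂ) (μ : Measure α) :
    eLpNorm f 2 μ ^ 2 = ∫⁻ x, ‖f x‖ₑ ^ 2 ∂μ := by
  have h := eLpNorm_nnreal_pow_eq_lintegral (p := 2) (f := f) (μ := μ) (by norm_num)
  simpa using h

variable {n : ℕ}

theorem wm_lintegral {Φ : EC n → ℝ} (hΦ : Measurable Φ) (t : ℝ) (S : Set (EC n))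
    (g : EC n → ℝ≥0∞) :
    ∫⁻ x, g x ∂(wm Φ t S) = ∫⁻ x in S, ENNReal.ofReal (Real.exp (-(t * Φ x))) * g x := by
  unfold wm
  rw [lintegral_withDensity_eq_lintegral_mul_non_measurable]
  · rfl
  · fun_prop
  · exact Eventually.of_forall fun x => ENNReal.ofReal_lt_top

theorem wm_sq {Φ : EC n → ℝ} (hΦ : Measurable Φ) (t : ℝ) (S : Set (EC n)) (f : EC n → ℂ) :
    eLpNorm f 2 (wm Φ t S) ^ 2 =
      ∫⁻ x in S, ENNReal.ofReal (Real.exp (-(t * Φ x))) * ‖f x‖ₑ ^ 2 := by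
  rw [eLpNorm_sq, wm_lintegral hΦ]

end Pool.Agent.H92.Lip
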