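import Pool.Agent.H92.Lip.Glue2
import Pool.Agent.H92.Lip.Arith

set_option autoImplicit false

open MeasureTheory Set Filter Topology
open scoped ContDiff ENNReal

namespace Pool.Agent.H92.Lip

variable {n : ℕ}

namespace PD

variable {Ω : Set (EC n)} {t : Finset (EC n)} {r : EC n → ℝ} {θ0 : EC n → ℂ}
    {θ : EC n → EC n → ℂ} {f : Fin n → EC n → ℂ} {D : Fin n → Fin n → EC n → ℂ}
    {u : EC n → ℂ} {v : EC n → EC n → ℂ} {P : EC n → Fin n → EC n → ℂ}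
    {W0 : Fin n → EC n → ℂ} {W : Fin n → Fin n → EC n → ℂ}

theorem zero_off {p : EC n} {ρ : ℝ} {α : EC n → ℂ} (hα : Tst (Metric.ball p ρ) α) :
    ∀ x ∈ Ω, x ∉ Ω ∩ Metric.ball p ρ → α x = 0 := by
  intro x hx hxP
  by_contra h0
  exact hxP ⟨hx, hα.sub (subset_tsupport _ h0)⟩

/-- norm of a glued function -/
theorem nm_gl (h : PD Ω t r θ0 θ f D u v P W0 W) {Φ : EC n → ℝ} (hΦ : Measurable Φ) {s : ℝ}
    {α0 : EC n → ℂ} {α : EC n → EC n → ℂ}
    (h0 : Tst Ω α0) (hα : ∀ p ∈ t, Tst (Metric.ball p (r p)) (α p)) {A : ℝ}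
    (hA0 : ∀ x, ‖α0 x‖ ≤ A) (hA : ∀ p ∈ t, ∀ x, ‖α p x‖ ≤ A) :
    nm Φ s Ω (gl t α0 α u v) ≤ ENNReal.ofReal A *
      (nm Φ s Ω u + ∑ p ∈ t, nm Φ s (Ω ∩ Metric.ball p (r p)) (v p)) := by
  have m0 := memLp_mul_hcs h0.smooth.continuous h0.cpt h.mu
  have m1 : ∀ p ∈ t, MemLp (fun x => α p x * v p x) 2 (volume.restrict Ω) := fun p hp =>
    memLp_mul_hcs (hα p hp).smooth.continuous (hα p hp).cpt ((h.mv p hp).restrict Ω)
  have hΩ := h.hΩ.measurableSet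
  refine (nm_add_le m0.1 (memLp_finsetSum _ m1).1).trans ?_
  rw [mul_add]
  refine add_le_add ?_ ?_
  · exact nm_mul_le hΦ hΩ hΩ Subset.rfl hA0 (fun x hx hx' => absurd hx hx') u
  · refine (nm_sum_le _ fun p hp => (m1 p hp).1).trans ?_
    rw [Finset.mul_sum]
    refine Finset.sum_le_sum fun p hp => ?_
    exact nm_mul_le hΦ hΩ (h.hΩ.inter Metric.isOpen_ball).measurableSet inter_subset_left
      (hA p hp) (zero_off (hα p hp)) (v p)

/-- norm of the `∂_k` derivative of a glued function -/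
theorem nm_glz (h : PD Ω t r θ0 θ f D u v P W0 W) {Φ : EC n → ℝ} (hΦ : Measurable Φ) {s : ℝ}
    {α : EC n → EC n → ℂ} (hα : ∀ p ∈ t, Tst (Metric.ball p (r p)) (α p)) {A : ℝ} (k : Fin n)
    (hA : ∀ p ∈ t, ∀ x, ‖α p x‖ ≤ A) (hA' : ∀ p ∈ t, ∀ x, ‖dz k (α p) x‖ ≤ A)
    {V : EC n → ℂ} (hV : MemLp V 2 volume) :
    nm Φ s Ω (glz t α k v P V) ≤ nm Φ s Ω V + ENNReal.ofReal A *
      ((∑ p ∈ t, nm Φ s (Ω ∩ Metric.ball p (r p)) (P p k)) +
        ∑ p ∈ t, nm Φ s (Ω ∩ Metric.ball p (r p)) (v p)) := by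
  have m1 := fun p hp => (h.mem_term hα k p hp).restrict Ω
  have hΩ := h.hΩ.measurableSet
  refine (nm_add_le (hV.restrict Ω).1 (memLp_finsetSum _ m1).1).trans ?_
  refine add_le_add_right ?_ _
  refine (nm_sum_le _ fun p hp => (m1 p hp).1).trans ?_
  rw [← Finset.sum_add_distrib, Finset.mul_sum]
  refine Finset.sum_le_sum fun p hp => ?_
  have ma := (memLp_mul_hcs (hα p hp).smooth.continuous (hα p hp).cpt
    ((h.mP p hp k).restrict Ω))
  have mb : MemLp (fun x => dz k (α p) x * v p x) 2 (volume.restrict Ω) :=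
    memLp_mul_hcs ((FO.dz k).tst (hα p hp)).smooth.continuous
    ((FO.dz k).tst (hα p hp)).cpt ((h.mv p hp).restrict Ω)
  have e : (fun x => α p x * P p k x + v p x * dz k (α p) x) =
      fun x => α p x * P p k x + dz k (α p) x * v p x := by
    ext x
    ring
  rw [e, mul_add]
  have hP := (h.hΩ.inter (Metric.isOpen_ball (x := p) (ε := r p))).measurableSet
  refine (nm_add_le ma.1 mb.1).trans (add_le_add ?_ ?_)
  · exact nm_mul_le hΦ hΩ hP inter_subset_left (hA p hp) (zero_off (hα p hp)) _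
  · exact nm_mul_le hΦ hΩ hP inter_subset_left (hA' p hp)
      (zero_off ((FO.dz k).tst (hα p hp))) _

end PD

/-- bounds for a test function and its derivatives -/
structure Bd (A : ℝ) (θ : EC n → ℂ) : Prop where
  b0 : ∀ x, ‖θ x‖ ≤ A
  bb : ∀ k x, ‖db k θ x‖ ≤ A
  bz : ∀ k x, ‖dz k θ x‖ ≤ A
  bbb : ∀ k j x, ‖db k (db j θ) x‖ ≤ A
  bzb : ∀ k j x, ‖dz k (db j θ) x‖ ≤ A

theorem Bd.mono {A B : ℝ} {θ : EC n → ℂ} (h : Bd A θ) (hAB : A ≤ B) : Bd B θ :=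
  ⟨fun x => (h.b0 x).trans hAB, fun k x => (h.bb k x).trans hAB, fun k x => (h.bz k x).trans hAB,
    fun k j x => (h.bbb k j x).trans hAB, fun k j x => (h.bzb k j x).trans hAB⟩

theorem exists_Bd {S : Set (EC n)} {θ : EC n → ℂ} (hθ : Tst S θ) : ∃ A : ℝ, 0 ≤ A ∧ Bd A θ := by
  have h : ∀ ψ : EC n → ℂ, Tst S ψ → ∃ A : ℝ, 0 ≤ A ∧ ∀ x, ‖ψ x‖ ≤ A := fun ψ hψ =>
    exists_bound_hcs hψ.smooth.continuous hψ.cpt
  obtain ⟨a0, p0, h0⟩ := h θ hθ
  choose ab pb hb using fun k => h (db k θ) ((FO.db k).tst hθ)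
  choose az pz hz using fun k => h (dz k θ) ((FO.dz k).tst hθ)
  choose abb pbb hbb using fun k j => h (db k (db j θ)) ((FO.db k).tst ((FO.db j).tst hθ))
  choose azb pzb hzb using fun k j => h (dz k (db j θ)) ((FO.dz k).tst ((FO.db j).tst hθ))
  have s1 : ∀ {g : Fin n → ℝ} (_ : ∀ k, 0 ≤ g k) (k : Fin n), g k ≤ ∑ k, g k :=
    fun {g} hg k => Finset.single_le_sum (f := g) (fun k _ => hg k) (Finset.mem_univ k)
  have s0 : ∀ {g : Fin n → ℝ} (_ : ∀ k, 0 ≤ g k), 0 ≤ ∑ k, g k :=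
    fun {g} hg => Finset.sum_nonneg fun k _ => hg k
  have q1 := s0 pb
  have q2 := s0 pz
  have q3 := s0 fun k => s0 (pbb k)
  have q4 := s0 fun k => s0 (pzb k)
  refine ⟨a0 + (∑ k, ab k) + (∑ k, az k) + (∑ k, ∑ j, abb k j) + ∑ k, ∑ j, azb k j,
    by positivity, ?_, ?_, ?_, ?_, ?_⟩
  · intro x
    linarith [h0 x]
  · intro k x
    linarith [hb k x, s1 pb k]
  · intro k x
    linarith [hz k x, s1 pz k]
  · intro k j x
    linarith [hbb k j x, s1 (pbb k) j, s1 (fun k => s0 (pbb k)) k]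
  · intro k j x
    linarith [hzb k j x, s1 (pzb k) j, s1 (fun k => s0 (pzb k)) k]

end Pool.Agent.H92.Lip
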