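import Pool.Agent.H92.Lip.Weight2

set_option autoImplicit false

open MeasureTheory Set Filter Topology
open scoped ContDiff ENNReal

namespace Pool.Agent.H92.Lip

variable {n : ℕ}

theorem nsq_lip {M : ℝ} {x y : EC n} (hx : ‖x‖ ≤ M) (hy : ‖y‖ ≤ M) :
    |nsq x - nsq y| ≤ (n * (2 * M)) * ‖x - y‖ := by
  unfold nsq
  rw [← Finset.sum_sub_distrib]
  refine (Finset.abs_sum_le_sum_abs _ _).trans ?_
  have h1 : ∀ j ∈ (Finset.univ : Finset (Fin n)), |‖x j‖ ^ 2 - ‖y j‖ ^ 2| ≤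
      2 * M * ‖x - y‖ := by
    intro j _
    have hxj : ‖x j‖ ≤ M := (norm_le_pi_norm x j).trans hx
    have hyj : ‖y j‖ ≤ M := (norm_le_pi_norm y j).trans hy
    have e : ‖x j‖ ^ 2 - ‖y j‖ ^ 2 = (‖x j‖ - ‖y j‖) * (‖x j‖ + ‖y j‖) := by ring
    rw [e, abs_mul]
    have h2 : |‖x j‖ - ‖y j‖| ≤ ‖x - y‖ :=
      (abs_norm_sub_norm_le _ _).trans (norm_le_pi_norm (x - y) j)
    have h3 : |‖x j‖ + ‖y j‖| ≤ 2 * M := by
      rw [abs_of_nonneg (by positivity)]
      linarith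
    calc _ ≤ ‖x - y‖ * (2 * M) := mul_le_mul h2 h3 (abs_nonneg _) (norm_nonneg _)
      _ = _ := by ring
  refine (Finset.sum_le_card_nsmul _ _ _ h1).trans (le_of_eq ?_)
  rw [Finset.card_univ, Fintype.card_fin, nsmul_eq_mul]
  ring

namespace Cov

variable {Ω : Set (EC n)} (V : Cov Ω)

/-- monotonicity constant -/
noncomputable def κ : ℝ := V.ρ / (2 * V.E)

theorem κ_pos : 0 < V.κ := by
  have := V.E_pos
  have := V.hρ
  unfold κ
  positivity

theorem κ_mul : V.κ * V.E = V.ρ / 2 := by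
  have := V.E_pos
  unfold κ
  field_simp

theorem κ_le : V.κ ≤ V.ρ / 2 := by
  rw [← V.κ_mul]
  have := V.κ_pos
  have := V.hE
  nlinarith

/-- comparison of one term; `q ∈ t` is the chart used for the direction -/
theorem term_mono (hΩ : IsOpen Ω) (hne : (Ωᶜ).Nonempty) {q : EC n} (hq : q ∈ V.t)
    {p : EC n} (hp : p ∈ V.t) {Λ s : ℝ} (hΛ : 0 ≤ Λ) {z w : EC n} (hz : z ∈ Ω)
    (hzq : dist z q ≤ V.r q / 16) (hs0 : 0 ≤ s) (hs1 : s ≤ 1 / 16) (hsr : s ≤ V.r q)
    (hw : ‖w‖ ≤ V.ρ / 2) (hv : s * ‖V.e q + w‖ ≤ V.ρ / 16)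
    (hd : dl Ω z + s * V.ρ ≤ V.ρ * V.s0 * Real.exp (-Λ)) :
    (V.ψ p z) ^ 2 * (Real.exp (-V.B) * (V.κ * s * Λ)) -
        2 * V.A * Real.exp V.B * (s * ‖V.e q + w‖) ≤
      (V.ψ p z * V.ψ p z) * Real.exp (V.u p z) -
      (V.ψ p (z - s • (V.e q + w)) * V.ψ p (z - s • (V.e q + w))) *
        Real.exp (V.u p (z - s • (V.e q + w))) := by
  set v := z - s • (V.e q + w) with hvdef
  have hρ := V.hρ
  have hrp := V.hρr p hp
  have hrq := V.hρr q hq
  have hcq := V.hρc q hq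
  have hcp := V.hρc p hp
  have hA := V.hA
  have heB := Real.exp_pos V.B
  have hdist : dist v z = s * ‖V.e q + w‖ := by
    rw [hvdef, dist_eq_norm]
    have : z - s • (V.e q + w) - z = -(s • (V.e q + w)) := by abel
    rw [this, norm_neg, norm_smul, Real.norm_of_nonneg hs0]
  have hnn : 0 ≤ s * ‖V.e q + w‖ := by positivity
  by_cases hzp : dist z p < V.r p / 4
  · have hvp : dist v p < V.r p := by
      have := dist_triangle v z p
      linarith
    have hvΩ : v ∈ Ω := by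
      refine (V.ch q hq).mem z hz (by linarith) s hs0 hsr w ?_
      linarith
    have hz0 := V.hψ0 p hp z
    have hz1 := V.hψ1 p hp z
    have hv0 := V.hψ0 p hp v
    have hv1 := V.hψ1 p hp v
    have hκ := V.κ_pos
    have hκs : 0 ≤ V.κ * s := mul_nonneg hκ.le hs0
    have hs0l := V.s0_le
    have hs0p := V.s0_pos
    have hκs' : V.κ * s ≤ V.ρ / 32 := by
      have := V.κ_le
      nlinarith
    have hep := V.he p hp
    have hep0 := norm_nonneg (V.e p)
    have hs0e : V.s0 * ‖V.e p‖ ≤ V.ρ / 16 := by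
      rw [← V.s0_mul]
      exact mul_le_mul_of_nonneg_left hep hs0p.le
    have hκe : V.κ * ‖V.e p‖ ≤ V.ρ / 2 := by
      rw [← V.κ_mul]
      exact mul_le_mul_of_nonneg_left hep hκ.le
    have g1 := (V.ch p hp).uu_growth hΩ hne V.hD hs0p hz (by linarith) hκs (by linarith)
    have g2 := (V.ch p hp).uu_compare hΩ hne (V.ch q hq) V.hD hs0p hz (by linarith)
      hκ.le hs0 hsr (by linarith) (w := w) (by linarith) (by
        have : V.κ * s * ‖V.e p‖ ≤ V.ρ / 32 := by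
          calc _ = (V.κ * ‖V.e p‖) * s := by ring
            _ ≤ (V.ρ / 2) * (1 / 16) := mul_le_mul hκe hs1 hs0 (by positivity)
            _ = _ := by ring
        rw [add_mul]
        linarith) hvp hvΩ
    have hlog : Λ ≤ Real.log (V.c p * V.s0) - Real.log (dl Ω z + V.κ * s * ‖V.e p‖) := by
      have hdz := dl_pos hΩ hne hz
      have h1 : dl Ω z + V.κ * s * ‖V.e p‖ ≤ V.c p * V.s0 * Real.exp (-Λ) := by
        have h2 : V.κ * s * ‖V.e p‖ ≤ s * V.ρ := by
          calc _ = (V.κ * ‖V.e p‖) * s := by ring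
            _ ≤ V.ρ * s := mul_le_mul_of_nonneg_right (by linarith) hs0
            _ = _ := by ring
        have h3 : V.ρ * V.s0 * Real.exp (-Λ) ≤ V.c p * V.s0 * Real.exp (-Λ) := by
          have := Real.exp_pos (-Λ)
          gcongr
        linarith
      have h4 : 0 < dl Ω z + V.κ * s * ‖V.e p‖ := by positivity
      have h5 := Real.log_le_log h4 h1
      have h6 : 0 < V.c p * V.s0 := mul_pos (V.ch p hp).hc hs0p
      rw [Real.log_mul h6.ne' (Real.exp_pos _).ne', Real.log_exp] at h5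
      linarith
    set a := V.u p z with ha
    set b := V.u p v with hb
    have hab : V.κ * s * Λ ≤ a - b := by
      have h7 : V.κ * s * Λ ≤ V.κ * s * (Real.log (V.c p * V.s0) -
          Real.log (dl Ω z + V.κ * s * ‖V.e p‖)) := mul_le_mul_of_nonneg_left hlog hκs
      have h8 : a - b ≥ uu Ω (V.e p) V.s0 z - uu Ω (V.e p) V.s0 (z - (V.κ * s) • V.e p) := by
        rw [ha, hb]
        unfold u
        linarith
      linarith
    have hbB := (abs_le.1 (V.u_bdd hne hp hvΩ hvp))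
    rw [← hb] at hbB
    have h9 : Real.exp b * (a - b) ≤ Real.exp a - Real.exp b := by
      have := exp_sub_le b a
      linarith
    have h10 : Real.exp (-V.B) * (V.κ * s * Λ) ≤ Real.exp b * (a - b) := by
      refine mul_le_mul (Real.exp_le_exp.2 hbB.1) hab (by positivity) (Real.exp_pos _).le
    have h11 : |V.ψ p z * V.ψ p z - V.ψ p v * V.ψ p v| ≤ 2 * V.A * (s * ‖V.e q + w‖) := by
      have e1 : V.ψ p z * V.ψ p z - V.ψ p v * V.ψ p v =
          (V.ψ p z - V.ψ p v) * (V.ψ p z + V.ψ p v) := by ring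
      rw [e1, abs_mul]
      have h12 := V.hψl p hp z v
      have h13 : ‖z - v‖ = s * ‖V.e q + w‖ := by
        rw [← hdist, dist_comm, dist_eq_norm]
      rw [h13] at h12
      have h14 : |V.ψ p z + V.ψ p v| ≤ 2 := by
        rw [abs_of_nonneg (by linarith)]
        linarith
      calc _ ≤ (V.A * (s * ‖V.e q + w‖)) * 2 :=
            mul_le_mul h12 h14 (abs_nonneg _) (by positivity)
        _ = _ := by ring
    have h15 := (abs_le.1 h11).1
    have h16 : Real.exp b ≤ Real.exp V.B := Real.exp_le_exp.2 hbB.2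
    have h17 : -(2 * V.A * Real.exp V.B * (s * ‖V.e q + w‖)) ≤
        (V.ψ p z * V.ψ p z - V.ψ p v * V.ψ p v) * Real.exp b := by
      have h18 : (-(2 * V.A * (s * ‖V.e q + w‖))) * Real.exp b ≤
          (V.ψ p z * V.ψ p z - V.ψ p v * V.ψ p v) * Real.exp b :=
        mul_le_mul_of_nonneg_right h15 (Real.exp_pos _).le
      have h19 : (2 * V.A * (s * ‖V.e q + w‖)) * Real.exp b ≤
          (2 * V.A * (s * ‖V.e q + w‖)) * Real.exp V.B :=
        mul_le_mul_of_nonneg_left h16 (by positivity)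
      linarith
    have h20 : (V.ψ p z) ^ 2 * (Real.exp (-V.B) * (V.κ * s * Λ)) ≤
        (V.ψ p z) ^ 2 * (Real.exp a - Real.exp b) :=
      mul_le_mul_of_nonneg_left (h10.trans h9) (sq_nonneg _)
    have e3 : (V.ψ p z * V.ψ p z) * Real.exp a - (V.ψ p v * V.ψ p v) * Real.exp b =
        (V.ψ p z) ^ 2 * (Real.exp a - Real.exp b) +
          (V.ψ p z * V.ψ p z - V.ψ p v * V.ψ p v) * Real.exp b := by ring
    rw [e3]
    linarith
  · rw [not_lt] at hzp
    have hrp' := (V.ch p hp).hr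
    have hz' : V.ψ p z = 0 := V.hψout p hp z (by linarith)
    have hv' : V.ψ p v = 0 := by
      refine V.hψout p hp v ?_
      have := dist_triangle_left z p v
      linarith
    rw [hz', hv']
    have : 0 ≤ 2 * V.A * Real.exp V.B * (s * ‖V.e q + w‖) := by positivity
    simp only [mul_zero, zero_mul, sub_zero, ne_eq, OfNat.ofNat_ne_zero, not_false_eq_true,
      zero_pow]
    linarith

theorem mono (hΩ : IsOpen Ω) (hb : Bornology.IsBounded Ω) (hne : (Ωᶜ).Nonempty) {x : EC n}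
    (hx : x ∈ frontier Ω) : ∃ (e : EC n) (c r : ℝ), 0 < c ∧ 0 < r ∧
      ∀ z ∈ Ω, dist z x < r → ∀ s : ℝ, 0 ≤ s → s ≤ r → ∀ w : EC n, ‖w‖ ≤ c →
        z - s • (e + w) ∈ Ω ∧ V.Phi (z - s • (e + w)) ≤ V.Phi z := by
  obtain ⟨q, hq, hxq⟩ := V.cover x hx
  obtain ⟨M, hM⟩ := hb.exists_norm_le
  have hρ := V.hρ
  have hE := V.E_pos
  have hκ := V.κ_pos
  have hA := V.hA
  have hC := V.C_pos
  have heB := Real.exp_pos V.B
  have hemB := Real.exp_pos (-V.B)
  have hs0p := V.s0_pos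
  set N : ℝ := V.E + V.ρ with hN
  have hNpos : 0 < N := by positivity
  set T : ℝ := (V.t.card : ℝ) * (2 * V.A * Real.exp V.B) * N + V.C * (n * (2 * |M|)) * N
    with hT
  have hT0 : 0 ≤ T := by positivity
  set Λ : ℝ := T / (Real.exp (-V.B) * V.κ) with hΛ
  have hΛ0 : 0 ≤ Λ := by positivity
  have hΛT : Real.exp (-V.B) * (V.κ * Λ) = T := by
    rw [hΛ]
    field_simp
  have hgap : 0 < V.r q / 16 - dist x q := by linarith
  set r : ℝ := min (min (V.r q / 16 - dist x q) (1 / 16)) (min (V.ρ / (16 * N))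
    (V.ρ * V.s0 * Real.exp (-Λ) / (1 + V.ρ))) with hr
  have hr0 : 0 < r := by
    refine lt_min (lt_min hgap (by norm_num)) (lt_min (by positivity) ?_)
    have := Real.exp_pos (-Λ)
    positivity
  have hr1 : r ≤ V.r q / 16 - dist x q := (min_le_left _ _).trans (min_le_left _ _)
  have hr2 : r ≤ 1 / 16 := (min_le_left _ _).trans (min_le_right _ _)
  have hr3 : r ≤ V.ρ / (16 * N) := (min_le_right _ _).trans (min_le_left _ _)
  have hr4 : r ≤ V.ρ * V.s0 * Real.exp (-Λ) / (1 + V.ρ) :=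
    (min_le_right _ _).trans (min_le_right _ _)
  have hr3' : r * N ≤ V.ρ / 16 := by
    rw [le_div_iff₀ (by positivity)] at hr3
    linarith
  have hr4' : r * (1 + V.ρ) ≤ V.ρ * V.s0 * Real.exp (-Λ) := by
    rwa [le_div_iff₀ (by positivity)] at hr4
  refine ⟨V.e q, V.ρ / 2, r, by positivity, hr0, ?_⟩
  intro z hz hzx s hs0 hsr w hw
  have hrq := V.hρr q hq
  have hcq := V.hρc q hq
  have hxq0 := dist_nonneg (x := x) (y := q)
  have hzq : dist z q ≤ V.r q / 16 := by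
    have := dist_triangle z x q
    linarith
  have hvΩ : z - s • (V.e q + w) ∈ Ω := by
    refine (V.ch q hq).mem z hz (by linarith) s hs0 (by linarith) w ?_
    linarith
  refine ⟨hvΩ, ?_⟩
  have hnorm : ‖V.e q + w‖ ≤ N := by
    refine (norm_add_le _ _).trans ?_
    have := V.he q hq
    linarith
  have hsN : s * ‖V.e q + w‖ ≤ s * N := mul_le_mul_of_nonneg_left hnorm hs0
  have hv : s * ‖V.e q + w‖ ≤ V.ρ / 16 := by
    refine hsN.trans (le_trans ?_ hr3')
    exact mul_le_mul_of_nonneg_right hsr hNpos.le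
  have hd : dl Ω z + s * V.ρ ≤ V.ρ * V.s0 * Real.exp (-Λ) := by
    refine le_trans ?_ hr4'
    have h1 : dl Ω z ≤ dist z x := by
      refine dl_le_dist ?_
      rw [hΩ.frontier_eq] at hx
      exact hx.2
    have h2 : s * V.ρ ≤ r * V.ρ := mul_le_mul_of_nonneg_right hsr hρ.le
    rw [mul_add, mul_one]
    linarith
  have key : ∀ p ∈ V.t, (V.ψ p z) ^ 2 * (Real.exp (-V.B) * (V.κ * s * Λ)) -
        2 * V.A * Real.exp V.B * (s * N) ≤
      (V.ψ p z * V.ψ p z) * Real.exp (V.u p z) -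
      (V.ψ p (z - s • (V.e q + w)) * V.ψ p (z - s • (V.e q + w))) *
        Real.exp (V.u p (z - s • (V.e q + w))) := by
    intro p hp
    have h1 := V.term_mono hΩ hne hq hp hΛ0 hz hzq hs0 (hsr.trans hr2) (by linarith) hw hv hd
    have h2 : 2 * V.A * Real.exp V.B * (s * ‖V.e q + w‖) ≤
        2 * V.A * Real.exp V.B * (s * N) := mul_le_mul_of_nonneg_left hsN (by positivity)
    linarith
  have hsum := Finset.sum_le_sum key
  rw [Finset.sum_sub_distrib, Finset.sum_sub_distrib, Finset.sum_const, nsmul_eq_mul] at hsum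
  have hlow : Real.exp (-V.B) * (V.κ * s * Λ) ≤
      ∑ p ∈ V.t, (V.ψ p z) ^ 2 * (Real.exp (-V.B) * (V.κ * s * Λ)) := by
    have h1 : (V.ψ q z) ^ 2 * (Real.exp (-V.B) * (V.κ * s * Λ)) ≤
        ∑ p ∈ V.t, (V.ψ p z) ^ 2 * (Real.exp (-V.B) * (V.κ * s * Λ)) :=
      Finset.single_le_sum (f := fun p => (V.ψ p z) ^ 2 * (Real.exp (-V.B) * (V.κ * s * Λ)))
        (fun p _ => by positivity) hq
    rw [V.hψin q hq z hzq] at h1
    linarith
  have hnsq : V.C * nsq (z - s • (V.e q + w)) - V.C * nsq z ≤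
      V.C * (n * (2 * |M|)) * (s * N) := by
    have h1 := nsq_lip ((hM _ hvΩ).trans (le_abs_self M)) ((hM z hz).trans (le_abs_self M))
    have h2 : ‖z - s • (V.e q + w) - z‖ ≤ s * N := by
      have : z - s • (V.e q + w) - z = -(s • (V.e q + w)) := by abel
      rw [this, norm_neg, norm_smul, Real.norm_of_nonneg hs0]
      exact hsN
    have h3 := (abs_le.1 h1).2
    have h4 : nsq (z - s • (V.e q + w)) - nsq z ≤ (n * (2 * |M|)) * (s * N) := by
      refine h3.trans ?_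
      exact mul_le_mul_of_nonneg_left h2 (by positivity)
    have h5 := mul_le_mul_of_nonneg_left h4 hC.le
    linarith
  have hfin : Real.exp (-V.B) * (V.κ * s * Λ) =
      (V.t.card : ℝ) * (2 * V.A * Real.exp V.B * (s * N)) +
        V.C * (n * (2 * |M|)) * (s * N) := by
    have : Real.exp (-V.B) * (V.κ * s * Λ) = s * (Real.exp (-V.B) * (V.κ * Λ)) := by ring
    rw [this, hΛT, hT]
    ring
  unfold Phi
  linarith

end Cov

/-- M4: existence of the weight -/
theorem exists_weight (happ : SmoothApprox n) (hok : OkaLemma n) {Ω : Set (EC n)}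
    (hΩ : IsOpen Ω) (hb : Bornology.IsBounded Ω) (hne : (Ωᶜ).Nonempty) (hL : LipBd Ω)
    {φ : EC n → ℝ} (hφ : ContinuousOn φ Ω) (hφc : ∀ c : ℝ, IsCompact {z | z ∈ Ω ∧ φ z ≤ c})
    (hφs : SubMean Ω φ) :
    ∃ (Φ : EC n → ℝ) (M : ℝ), ContinuousOn Φ Ω ∧ (∀ z ∈ Ω, |Φ z| ≤ M) ∧ SPsh Ω Φ ∧
      ∀ x ∈ frontier Ω, ∃ (e : EC n) (c r : ℝ), 0 < c ∧ 0 < r ∧
      ∀ z ∈ Ω, dist z x < r → ∀ s : ℝ, 0 ≤ s → s ≤ r → ∀ w : EC n, ‖w‖ ≤ c →
        z - s • (e + w) ∈ Ω ∧ Φ (z - s • (e + w)) ≤ Φ z := by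
  obtain ⟨V⟩ := exists_cov hΩ hb hne hL
  obtain ⟨M, hM⟩ := V.Phi_bdd hb hne
  exact ⟨V.Phi, M, V.Phi_cont hΩ hne, hM,
    V.spsh happ hΩ hne (hok Ω φ hΩ hne hφ hφc hφs), fun x hx => V.mono hΩ hb hne hx⟩

end Pool.Agent.H92.Lip
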