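import Pool.Agent.H92.Lip.Step
import Pool.Agent.H92.Lip.Weight3

set_option autoImplicit false

open MeasureTheory Set Filter Topology
open scoped ContDiff ENNReal

namespace Pool.Agent.H92.Lip

variable {n : ℕ}

theorem nm_lt_top {Ω : Set (EC n)} {Φ : EC n → ℝ} (hΦ : Measurable Φ) {M s : ℝ}
    (hΩ : MeasurableSet Ω) (hM : ∀ z ∈ Ω, |Φ z| ≤ M) (hs : 0 ≤ s) {f : EC n → ℂ}
    (hf : MemLp f 2 (volume.restrict Ω)) : nm Φ s Ω f < ⊤ := by
  refine (nm_le hΦ hΩ hM hs f).trans_lt ?_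
  exact ENNReal.mul_lt_top ENNReal.ofReal_lt_top hf.2

theorem oneStep (hH : HormSolve n) (hK : KopBound n) (hA : AopBound n) (hG : KopGrad n)
    (hL : LocalDbar n) (hD : DzOfDb n) (hC : ClosedD n) {Ω : Set (EC n)} (hΩ : IsOpen Ω)
    (hb : Bornology.IsBounded Ω) (hex : Exh Ω) {Φ : EC n → ℝ} (hΦ : Measurable Φ)
    (hΦc : ContinuousOn Φ Ω) {M : ℝ} (hM : ∀ z ∈ Ω, |Φ z| ≤ M) (hsp : SPsh Ω Φ)
    (hmono : ∀ x ∈ frontier Ω, ∃ (e : EC n) (c r : ℝ), 0 < c ∧ 0 < r ∧ ConeMono Ω Φ x e c r) :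
    OneStep Ω := by
  have hΩm := hΩ.measurableSet
  choose! e c r hc hr hcone using hmono
  have hloc : ∀ x ∈ frontier Ω, _ := fun x hx =>
    exists_local hK hA hG hL hΩ hb hΦ hΦc hM (hc x hx) (hr x hx) (hcone x hx)
  choose! Cx hCx hloc using hloc
  obtain ⟨t, θ0, θ, htf, h0, hθ, hsum⟩ := exists_pou hΩ hb r hr
  -- constants
  obtain ⟨a0, ha0, hBd0⟩ := exists_Bd h0
  have hBt : ∀ p ∈ t, ∃ A : ℝ, 0 ≤ A ∧ Bd A (θ p) := fun p hp => exists_Bd (hθ p hp)
  choose! at' hat hBdt using hBt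
  obtain ⟨a1, ha1, ha1t⟩ := exists_upper t at'
  set A : ℝ := a0 + a1 with hAdef
  have hA0 : 0 ≤ A := by positivity
  have hBd0 : Bd A θ0 := hBd0.mono (by linarith)
  have hBdt : ∀ p ∈ t, Bd A (θ p) := fun p hp => (hBdt p hp).mono (by linarith [ha1t p hp])
  set Cm : ℝ := ∑ p ∈ t, Cx p with hCm
  have hCm0 : 0 ≤ Cm := Finset.sum_nonneg fun p hp => hCx p (htf p hp)
  obtain ⟨r0, hr0, hr01, hr0t⟩ := exists_lower t r fun p hp => hr p (htf p hp)
  set N : ℝ := (n : ℝ) with hN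
  have hN0 : 0 ≤ N := Nat.cast_nonneg n
  set B : ℝ := N * A * (1 + Cm) + 2 * N ^ 2 * A * Cm with hB
  have hB0 : 0 ≤ B := by positivity
  set τ : ℝ := (4 * B + 1) ^ 2 with hτ
  have hτ0 : 0 < τ := by positivity
  have hsτ : Real.sqrt τ = 4 * B + 1 := Real.sqrt_sq (by positivity)
  set s : ℝ := 1 / Real.sqrt τ with hs
  have hs0 : 0 ≤ s := by positivity
  have hs1 : s ≤ 1 := by
    rw [hs, hsτ, div_le_one (by positivity)]
    linarith
  have hsB : s * B ≤ 1 / 4 := by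
    rw [hs, hsτ, one_div, inv_mul_le_iff₀ (by positivity)]
    linarith
  set E : ℝ := Real.exp (τ * M) with hE
  have hE0 : 0 < E := Real.exp_pos _
  set K : ℝ := 1 / r0 + 4 * (B + 2 * N ^ 2 * A * E ^ 2) with hKdef
  have hK1 : 1 ≤ K := by
    have h1 : 1 ≤ 1 / r0 := by
      rw [le_div_iff₀ hr0]
      linarith
    have h2 : 0 ≤ 4 * (B + 2 * N ^ 2 * A * E ^ 2) := by positivity
    linarith
  have hK0 : 0 < K := by linarith
  have hKB : B + 2 * N ^ 2 * A * E ^ 2 ≤ K / 4 := by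
    have h1 : 0 < 1 / r0 := by positivity
    linarith
  set ρ : ℝ := 1 / K with hρdef
  have hρ0 : 0 < ρ := by positivity
  have hρr : ρ ≤ r0 := by
    rw [hρdef, div_le_iff₀ hK0]
    have h1 : 1 / r0 ≤ K := by
      have h2 : 0 ≤ 4 * (B + 2 * N ^ 2 * A * E ^ 2) := by positivity
      linarith
    rw [div_le_iff₀ hr0] at h1
    linarith
  have hρK : ρ * K = 1 := by
    rw [hρdef]
    field_simp
  have h1ρ : 1 / ρ = K := by
    rw [hρdef, one_div_one_div]
  -- the norm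
  refine ⟨fun f D => (∑ k, ∑ j, nm Φ τ Ω (D k j)) + ENNReal.ofReal K * ∑ j, nm Φ τ Ω (f j),
    E * (1 + (2 * E ^ 2 * A + A + 6 * A * Cm)), ?_, ?_⟩
  · intro f D hX
    refine ⟨?_, ?_⟩
    · refine ENNReal.add_lt_top.2 ⟨?_, ?_⟩
      · exact ENNReal.sum_lt_top.2 fun k _ => ENNReal.sum_lt_top.2 fun j _ =>
          nm_lt_top hΦ hΩm hM hτ0.le (hX.mD k j)
      · exact ENNReal.mul_lt_top ENNReal.ofReal_lt_top (ENNReal.sum_lt_top.2 fun j _ =>
          nm_lt_top hΦ hΩm hM hτ0.le (hX.mf j))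
    · intro j
      refine (le_nm hΦ hΩm hM hτ0.le (f j)).trans ?_
      refine mul_le_mul' ?_ ?_
      · refine ENNReal.ofReal_le_ofReal ?_
        have : 0 ≤ E * (2 * E ^ 2 * A + A + 6 * A * Cm) := by positivity
        linarith
      · refine le_trans ?_ le_add_self
        calc nm Φ τ Ω (f j) ≤ ∑ j, nm Φ τ Ω (f j) :=
              Finset.single_le_sum (f := fun j => nm Φ τ Ω (f j)) (fun _ _ => zero_le)
                (Finset.mem_univ j)
          _ = 1 * ∑ j, nm Φ τ Ω (f j) := (one_mul _).symm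
          _ ≤ _ := by
            refine mul_le_mul_left ?_ _
            rw [← ENNReal.ofReal_one]
            exact ENNReal.ofReal_le_ofReal hK1
  · intro f D hX
    obtain ⟨u, hu, hub, hun⟩ := hH Ω Φ M τ f hΩ hex hΦ hΦc hM hsp hτ0 hX.mf hX.cl
    have hg : ∀ k, _ := fun k => hH Ω Φ M τ (D k) hΩ hex hΦ hΦc hM hsp hτ0 (hX.mD k)
      (hC Ω f D hΩ hX k)
    choose g hgm hgb hgn using hg
    have hv : ∀ p ∈ t, _ := fun p hp => hloc p (htf p hp) τ ρ f D u g hτ0.le hρ0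
      (hρr.trans (hr0t p hp)) hX hu hub hgm hgb
    choose! v P hmv hmP hwz hwb hnv hnP using hv
    have hi0 : ∀ k, _ := fun k => interior hD hΩ h0 k hBd0.b0 (hBd0.bb k) hu (hX.mf k) (hub k)
    choose W0 hW0m hW0w hW0n using hi0
    have hi1 : ∀ k j, _ := fun k j => interior hD hΩ ((FO.db j).tst h0) k (hBd0.bb j)
      (hBd0.bbb k j) hu (hX.mf k) (hub k)
    choose W hWm hWw hWn using hi1
    have hPD : PD Ω t r θ0 θ f D u v P W0 W :=
      ⟨hΩ, h0, hθ, hsum, hX, hu, hub, hmv, hmP, hwz, hwb, hW0m, hW0w, hWm, hWw⟩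
    -- abbreviations for the norms
    set F : ℝ≥0∞ := ∑ j, nm Φ τ Ω (f j) with hF
    set G : ℝ≥0∞ := ∑ k, ∑ j, nm Φ τ Ω (D k j) with hGdef
    set U : ℝ≥0∞ := nm Φ τ Ω u with hU
    set Γ : ℝ≥0∞ := ∑ l, nm Φ τ Ω (g l) with hΓ
    have hFt : F ≠ ⊤ := (ENNReal.sum_lt_top.2 fun j _ =>
          nm_lt_top hΦ hΩm hM hτ0.le (hX.mf j)).ne
    have hGt : G ≠ ⊤ := (ENNReal.sum_lt_top.2 fun k _ => ENNReal.sum_lt_top.2 fun j _ =>
          nm_lt_top hΦ hΩm hM hτ0.le (hX.mD k j)).ne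
    have hUF : U ≤ ENNReal.ofReal s * F := hun
    have hΓG : Γ ≤ ENNReal.ofReal s * G := by
      rw [hΓ, hGdef, Finset.mul_sum]
      exact Finset.sum_le_sum fun k _ => hgn k
    have hCxm : ∀ (X : ℝ≥0∞), ∑ p ∈ t, ENNReal.ofReal (Cx p) * X = ENNReal.ofReal Cm * X := by
      intro X
      rw [hCm, ENNReal.ofReal_sum_of_nonneg fun p hp => hCx p (htf p hp), Finset.sum_mul]
    have hV : ∑ p ∈ t, nm Φ τ (Ω ∩ Metric.ball p (r p)) (v p) ≤
        ENNReal.ofReal Cm * (U + ENNReal.ofReal ρ * (Γ + F)) := by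
      rw [← hCxm]
      exact Finset.sum_le_sum fun p hp => hnv p hp
    have hQ : ∀ k, ∑ p ∈ t, nm Φ τ (Ω ∩ Metric.ball p (r p)) (P p k) ≤
        ENNReal.ofReal Cm * (ENNReal.ofReal K * U + (Γ + F)) := by
      intro k
      rw [← hCxm, ← h1ρ]
      exact Finset.sum_le_sum fun p hp => hnP p hp k
    -- interior terms
    have hint : ∀ (V : EC n → ℂ) (k : Fin n), eLpNorm V 2 volume ≤ ENNReal.ofReal A *
        (eLpNorm (f k) 2 (volume.restrict Ω) + eLpNorm u 2 (volume.restrict Ω)) →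
        nm Φ τ Ω V ≤ ENNReal.ofReal E ^ 2 * ENNReal.ofReal A * (F + U) := by
      intro V k hVn
      calc nm Φ τ Ω V ≤ ENNReal.ofReal E * eLpNorm V 2 (volume.restrict Ω) :=
            nm_le hΦ hΩm hM hτ0.le V
        _ ≤ ENNReal.ofReal E * eLpNorm V 2 volume := by
            refine mul_le_mul_right (eLpNorm_mono_measure _ Measure.restrict_le_self) _
        _ ≤ ENNReal.ofReal E * (ENNReal.ofReal A * (eLpNorm (f k) 2 (volume.restrict Ω) +
              eLpNorm u 2 (volume.restrict Ω))) := mul_le_mul_right hVn _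
        _ ≤ ENNReal.ofReal E * (ENNReal.ofReal A * (ENNReal.ofReal E * nm Φ τ Ω (f k) +
              ENNReal.ofReal E * U)) := by
            have h1 := le_nm hΦ hΩm hM hτ0.le (f k)
            have h2 := le_nm hΦ hΩm hM hτ0.le u
            gcongr
        _ = ENNReal.ofReal E ^ 2 * ENNReal.ofReal A * (nm Φ τ Ω (f k) + U) := by ring
        _ ≤ _ := by
            have h3 : nm Φ τ Ω (f k) ≤ F :=
              Finset.single_le_sum (f := fun j => nm Φ τ Ω (f j)) (fun _ _ => zero_le)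
                (Finset.mem_univ k)
            gcongr
    have hbnd1 : ∀ j, nm Φ τ Ω (PD.err t θ0 θ u v j) ≤ ENNReal.ofReal A *
        (U + ENNReal.ofReal Cm * (U + ENNReal.ofReal ρ * (Γ + F))) := by
      intro j
      have h1 := hPD.nm_gl hΦ (s := τ) ((FO.db j).tst h0) (α := fun p => db j (θ p))
        (fun p hp => (FO.db j).tst (hθ p hp)) (hBd0.bb j) (fun p hp => (hBdt p hp).bb j)
      have h2 : nm Φ τ Ω (PD.err t θ0 θ u v j) =
          nm Φ τ Ω (PD.gl t (db j θ0) (fun p => db j (θ p)) u v) := nm_neg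
      rw [h2]
      refine h1.trans ?_
      gcongr
    have hbnd2 : ∀ k j, nm Φ τ Ω (PD.errz t θ v P W k j) ≤
        ENNReal.ofReal E ^ 2 * ENNReal.ofReal A * (F + U) + ENNReal.ofReal A *
        (ENNReal.ofReal Cm * (ENNReal.ofReal K * U + (Γ + F)) +
          ENNReal.ofReal Cm * (U + ENNReal.ofReal ρ * (Γ + F))) := by
      intro k j
      have h1 := hPD.nm_glz hΦ (s := τ) (α := fun p => db j (θ p))
        (fun p hp => (FO.db j).tst (hθ p hp)) k (fun p hp => (hBdt p hp).bb j)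
        (fun p hp => (hBdt p hp).bzb k j) (hWm k j)
      have h2 : nm Φ τ Ω (PD.errz t θ v P W k j) =
          nm Φ τ Ω (PD.glz t (fun p => db j (θ p)) k v P (W k j)) := nm_neg
      rw [h2]
      refine h1.trans ?_
      have h3 := hint _ k (hWn k j)
      have h4 := hQ k
      gcongr
    have hbnd3 : ∀ k, nm Φ τ Ω (PD.glz t θ k v P (W0 k)) ≤
        ENNReal.ofReal E ^ 2 * ENNReal.ofReal A * (F + U) + ENNReal.ofReal A *
        (ENNReal.ofReal Cm * (ENNReal.ofReal K * U + (Γ + F)) +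
          ENNReal.ofReal Cm * (U + ENNReal.ofReal ρ * (Γ + F))) := by
      intro k
      have h1 := hPD.nm_glz hΦ (s := τ) hθ k (fun p hp => (hBdt p hp).b0)
        (fun p hp => (hBdt p hp).bz k) (hW0m k)
      refine h1.trans ?_
      have h3 := hint _ k (hW0n k)
      have h4 := hQ k
      gcongr
    have hbnd4 : nm Φ τ Ω (PD.gl t θ0 θ u v) ≤ ENNReal.ofReal A *
        (U + ENNReal.ofReal Cm * (U + ENNReal.ofReal ρ * (Γ + F))) := by
      refine (hPD.nm_gl hΦ (s := τ) h0 hθ hBd0.b0 (fun p hp => (hBdt p hp).b0)).trans ?_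
      gcongr
    have cN : (Real.toNNReal N : ℝ) = N := Real.coe_toNNReal _ hN0
    have cA : (Real.toNNReal A : ℝ) = A := Real.coe_toNNReal _ hA0
    have cC : (Real.toNNReal Cm : ℝ) = Cm := Real.coe_toNNReal _ hCm0
    have cs : (Real.toNNReal s : ℝ) = s := Real.coe_toNNReal _ hs0
    have cρ : (Real.toNNReal ρ : ℝ) = ρ := Real.coe_toNNReal _ hρ0.le
    have cK : (Real.toNNReal K : ℝ) = K := Real.coe_toNNReal _ hK0.le
    have cE : (Real.toNNReal E : ℝ) = E := Real.coe_toNNReal _ hE0.le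
    have hcst : ENNReal.ofReal E * ((2 * (Real.toNNReal E) ^ 2 * Real.toNNReal A +
        Real.toNNReal A + 6 * Real.toNNReal A * Real.toNNReal Cm : NNReal) : ℝ≥0∞) ≤
        ENNReal.ofReal (E * (1 + (2 * E ^ 2 * A + A + 6 * A * Cm))) := by
      have h1 : ((2 * (Real.toNNReal E) ^ 2 * Real.toNNReal A +
        Real.toNNReal A + 6 * Real.toNNReal A * Real.toNNReal Cm : NNReal) : ℝ≥0∞) =
        ENNReal.ofReal (2 * E ^ 2 * A + A + 6 * A * Cm) := by
        unfold ENNReal.ofReal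
        congr 1
        apply NNReal.eq
        rw [Real.coe_toNNReal _ (by positivity)]
        push_cast
        rw [cA, cC, cE]
      rw [h1, ← ENNReal.ofReal_mul hE0.le]
      refine ENNReal.ofReal_le_ofReal ?_
      refine mul_le_mul_of_nonneg_left ?_ hE0.le
      linarith
    refine ⟨PD.gl t θ0 θ u v, fun k => PD.glz t θ k v P (W0 k), PD.err t θ0 θ u v,
      PD.errz t θ v P W, hPD.newXD, ?_, hPD.mem_gl h0 hθ, fun k => hPD.mem_glz hθ k (hW0m k),
      fun k => hPD.wdz h0 hθ k (hW0m k) (hW0w k), hPD.wdb, ?_, ?_⟩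
    · refine arithE (F := F) (G := G) (U := U) (Γ := Γ) (s := Real.toNNReal s)
        (ρ := Real.toNNReal ρ) (K := Real.toNNReal K) (A := Real.toNNReal A)
        (C := Real.toNNReal Cm) (E := Real.toNNReal E) (N := Real.toNNReal N) hFt hGt
        (by rw [cρ, cK]; exact hρK) (by rw [cK]; exact hK1) (by rw [cs]; exact hs1) hUF hΓG
        ?_ ?_ (by rw [cs, cN, cA, cC]; exact hsB) (by rw [cN, cA, cC, cE, cK]; exact hKB)
      · have h1 : ∑ j, nm Φ τ Ω (PD.err t θ0 θ u v j) ≤ ∑ _j : Fin n, (ENNReal.ofReal A *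
          (U + ENNReal.ofReal Cm * (U + ENNReal.ofReal ρ * (Γ + F)))) :=
          Finset.sum_le_sum fun j _ => hbnd1 j
        rw [Finset.sum_const, Finset.card_univ, Fintype.card_fin, nsmul_eq_mul] at h1
        have h2 : ((n : ℕ) : ℝ≥0∞) = ENNReal.ofReal N := by
          rw [hN, ENNReal.ofReal_natCast]
        rw [h2] at h1
        exact h1
      · have h1 : ∑ k, ∑ j, nm Φ τ Ω (PD.errz t θ v P W k j) ≤ ∑ _k : Fin n, ∑ _j : Fin n,
            (ENNReal.ofReal E ^ 2 * ENNReal.ofReal A * (F + U) + ENNReal.ofReal A *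
        (ENNReal.ofReal Cm * (ENNReal.ofReal K * U + (Γ + F)) +
          ENNReal.ofReal Cm * (U + ENNReal.ofReal ρ * (Γ + F)))) :=
          Finset.sum_le_sum fun k _ => Finset.sum_le_sum fun j _ => hbnd2 k j
        rw [Finset.sum_const, Finset.sum_const, Finset.card_univ, Fintype.card_fin, nsmul_eq_mul,
          nsmul_eq_mul] at h1
        have h2 : ((n : ℕ) : ℝ≥0∞) = ENNReal.ofReal N := by
          rw [hN, ENNReal.ofReal_natCast]
        rw [h2] at h1
        exact h1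
    · have key := arithE2 (F := F) (G := G) (U := U) (Γ := Γ) (s := Real.toNNReal s)
        (ρ := Real.toNNReal ρ) (K := Real.toNNReal K) (A := Real.toNNReal A)
        (C := Real.toNNReal Cm) (E := Real.toNNReal E) hFt hGt
        (by rw [cρ, cK]; exact hρK) (by rw [cK]; exact hK1) (by rw [cs]; exact hs1) hUF hΓG
        hbnd4 le_rfl
      refine (le_nm hΦ hΩm hM hτ0.le _).trans ?_
      calc _ ≤ ENNReal.ofReal E * _ := mul_le_mul_right key.1 _
        _ ≤ _ := by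
          rw [← mul_assoc]
          exact mul_le_mul' hcst le_rfl
    · intro k
      have key := arithE2 (F := F) (G := G) (U := U) (Γ := Γ) (s := Real.toNNReal s)
        (ρ := Real.toNNReal ρ) (K := Real.toNNReal K) (A := Real.toNNReal A)
        (C := Real.toNNReal Cm) (E := Real.toNNReal E) hFt hGt
        (by rw [cρ, cK]; exact hρK) (by rw [cK]; exact hK1) (by rw [cs]; exact hs1) hUF hΓG
        hbnd4 (hbnd3 k)
      refine (le_nm hΦ hΩm hM hτ0.le _).trans ?_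
      calc _ ≤ ENNReal.ofReal E * _ := mul_le_mul_right key.2 _
        _ ≤ _ := by
          rw [← mul_assoc]
          exact mul_le_mul' hcst le_rfl

end Pool.Agent.H92.Lip
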