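import Pool.Agent.H92.Lip.M7a

set_option autoImplicit false

open MeasureTheory Set Filter Topology
open scoped ContDiff ENNReal

namespace Pool.Agent.H92.Lip

variable {n : ℕ}

/-- first order homogeneous operators with constant coefficients -/
structure FO (T : (EC n → ℂ) → EC n → ℂ) : Prop where
  smooth : ∀ ψ, ContDiff ℝ ∞ ψ → ContDiff ℝ ∞ (T ψ)
  add : ∀ θ ψ, ContDiff ℝ ∞ θ → ContDiff ℝ ∞ ψ → ∀ x, T (fun y => θ y + ψ y) x = T θ x + T ψ x
  mul : ∀ θ ψ, ContDiff ℝ ∞ θ → ContDiff ℝ ∞ ψ → ∀ x,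
    T (fun y => θ y * ψ y) x = θ x * T ψ x + ψ x * T θ x
  loc : ∀ θ ψ x, θ =ᶠ[𝓝 x] ψ → T θ x = T ψ x
  const : ∀ c x, T (fun _ => c) x = 0

/-- the directional derivative -/
noncomputable def fd (e : EC n) (ψ : EC n → ℂ) (x : EC n) : ℂ := fderiv ℝ ψ x e

theorem contDiff_fd' (e : EC n) {ψ : EC n → ℂ} (h : ContDiff ℝ ∞ ψ) : ContDiff ℝ ∞ (fd e ψ) :=
  (h.fderiv_right (m := ∞) (by simp)).clm_apply contDiff_const

theorem FO.fd (e : EC n) : FO (fd e) where
  smooth ψ h := contDiff_fd' e h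
  add θ ψ h1 h2 x := by
    unfold Lip.fd
    rw [fderiv_fun_add (h1.differentiable (by simp) x) (h2.differentiable (by simp) x)]
    rfl
  mul θ ψ h1 h2 x := by
    unfold Lip.fd
    rw [fderiv_fun_mul (h1.differentiable (by simp) x) (h2.differentiable (by simp) x)]
    simp
  loc θ ψ x h := by
    unfold Lip.fd
    rw [h.fderiv_eq]
  const c x := by
    unfold Lip.fd
    simp

theorem FO.comb {T1 T2 T : (EC n → ℂ) → EC n → ℂ} (h1 : FO T1) (h2 : FO T2) (a b : ℂ)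
    (hT : ∀ ψ x, T ψ x = a * T1 ψ x + b * T2 ψ x) : FO T where
  smooth ψ h := by
    have : T ψ = fun x => a * T1 ψ x + b * T2 ψ x := funext fun x => hT ψ x
    rw [this]
    exact (contDiff_const.mul (h1.smooth ψ h)).add (contDiff_const.mul (h2.smooth ψ h))
  add θ ψ g1 g2 x := by
    rw [hT, hT, hT, h1.add θ ψ g1 g2, h2.add θ ψ g1 g2]
    ring
  mul θ ψ g1 g2 x := by
    rw [hT, hT, hT, h1.mul θ ψ g1 g2, h2.mul θ ψ g1 g2]
    ring
  loc θ ψ x h := by
    rw [hT, hT, h1.loc θ ψ x h, h2.loc θ ψ x h]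
  const c x := by
    rw [hT, h1.const, h2.const]
    ring

theorem dz_eq_fd (k : Fin n) (ψ : EC n → ℂ) (x : EC n) :
    dz k ψ x = (1 / 2 : ℂ) * fd (Pi.single k (1 : ℂ)) ψ x +
      (-(Complex.I / 2)) * fd (Pi.single k Complex.I) ψ x := by
  unfold dz fd
  ring

theorem db_eq_fd (k : Fin n) (ψ : EC n → ℂ) (x : EC n) :
    db k ψ x = (1 / 2 : ℂ) * fd (Pi.single k (1 : ℂ)) ψ x +
      (Complex.I / 2) * fd (Pi.single k Complex.I) ψ x := by
  unfold db fd
  ring

theorem FO.dz (k : Fin n) : FO (dz k) := (FO.fd _).comb (FO.fd _) _ _ (dz_eq_fd k)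

theorem FO.db (k : Fin n) : FO (db k) := (FO.fd _).comb (FO.fd _) _ _ (db_eq_fd k)

theorem FO.supp {T : (EC n → ℂ) → EC n → ℂ} (h : FO T) (ψ : EC n → ℂ) :
    tsupport (T ψ) ⊆ tsupport ψ := by
  refine closure_minimal ?_ (isClosed_tsupport ψ)
  intro x hx
  by_contra h1
  apply hx
  have h2 : ψ =ᶠ[𝓝 x] fun _ => (0 : ℂ) := notMem_tsupport_iff_eventuallyEq.1 h1
  rw [h.loc _ _ _ h2, h.const]

theorem FO.tst {T : (EC n → ℂ) → EC n → ℂ} (h : FO T) {S : Set (EC n)} {ψ : EC n → ℂ}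
    (hψ : Tst S ψ) : Tst S (T ψ) where
  smooth := h.smooth ψ hψ.smooth
  cpt := hψ.cpt.of_isClosed_subset (isClosed_tsupport _) (h.supp ψ)
  sub := (h.supp ψ).trans hψ.sub

theorem Tst.mul {S P : Set (EC n)} {θ ψ : EC n → ℂ} (hθ : ContDiff ℝ ∞ θ) (hψ : Tst S ψ)
    (h : tsupport θ ∩ S ⊆ P) : Tst P (fun x => θ x * ψ x) where
  smooth := hθ.mul hψ.smooth
  cpt := hψ.cpt.mul_left
  sub := fun _ hx => h ⟨tsupport_mul_subset_left hx, hψ.sub (tsupport_mul_subset_right hx)⟩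

theorem Tst.mono {S S' : Set (EC n)} {ψ : EC n → ℂ} (hψ : Tst S ψ) (h : S ⊆ S') : Tst S' ψ :=
  ⟨hψ.smooth, hψ.cpt, hψ.sub.trans h⟩

/-- integrals of products with a function supported in `P ⊆ S` -/
theorem setInt_sub {S P : Set (EC n)} (hS : MeasurableSet S) (hPS : P ⊆ S)
    {F : EC n → ℂ} (hF : ∀ x ∈ S, x ∉ P → F x = 0) : ∫ x in S, F x = ∫ x in P, F x := by
  refine setIntegral_eq_of_subset_of_forall_sdiff_eq_zero hS hPS ?_
  intro x hx
  exact hF x hx.1 hx.2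

theorem WDo.mul {T : (EC n → ℂ) → EC n → ℂ} (hT : FO T) {Ω P : Set (EC n)}
    (hΩ : MeasurableSet Ω) (hPΩ : P ⊆ Ω) {θ v g : EC n → ℂ} (hθ : ContDiff ℝ ∞ θ)
    (hs : tsupport θ ∩ Ω ⊆ P) (hv : MemLp v 2 (volume.restrict P))
    (hg : MemLp g 2 (volume.restrict P)) (h : WDo T P v g) :
    WDo T Ω (fun x => θ x * v x) (fun x => θ x * g x + v x * T θ x) := by
  intro ψ hψ
  have hz : ∀ x ∈ Ω, x ∉ P → θ x = 0 := by
    intro x hx hxP
    by_contra h0
    exact hxP (hs ⟨subset_tsupport _ h0, hx⟩)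
  have hz' : ∀ x ∈ Ω, x ∉ P → T θ x = 0 := by
    intro x hx hxP
    by_contra h0
    exact hxP (hs ⟨hT.supp θ (subset_tsupport _ h0), hx⟩)
  rw [setInt_sub hΩ hPΩ (F := fun x => θ x * v x * T ψ x) (fun x hx hxP => by
      rw [hz x hx hxP]
      ring), setInt_sub hΩ hPΩ (F := fun x => (θ x * g x + v x * T θ x) * ψ x)
      (fun x hx hxP => by
      rw [hz x hx hxP, hz' x hx hxP]
      ring)]
  have h1 := h _ (Tst.mul hθ hψ hs)
  have hTst2 : Tst P (fun x => T θ x * ψ x) := Tst.mul (hT.smooth θ hθ) hψ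
    (fun x hx => hs ⟨hT.supp θ hx.1, hx.2⟩)
  have hTst3 : Tst P (fun x => θ x * T ψ x) := Tst.mul hθ (hT.tst hψ) hs
  have e1 : ∀ x, v x * T (fun y => θ y * ψ y) x = v x * (θ x * T ψ x) + v x * (T θ x * ψ x) := by
    intro x
    rw [hT.mul θ ψ hθ hψ.smooth]
    ring
  simp only [e1] at h1
  rw [integral_add (integrable_mul_tst hv hTst3) (integrable_mul_tst hv hTst2)] at h1
  have e2 : ∫ x in P, (θ x * g x + v x * T θ x) * ψ x =
      (∫ x in P, g x * (θ x * ψ x)) + ∫ x in P, v x * (T θ x * ψ x) := by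
    rw [← integral_add (integrable_mul_tst hg (Tst.mul hθ hψ hs)) (integrable_mul_tst hv hTst2)]
    refine integral_congr_ae (Eventually.of_forall fun x => ?_)
    ring
  have e3 : ∫ x in P, θ x * v x * T ψ x = ∫ x in P, v x * (θ x * T ψ x) := by
    refine integral_congr_ae (Eventually.of_forall fun x => ?_)
    ring
  rw [e2, e3, neg_add, ← h1]
  ring

theorem WDo.mono {T : (EC n → ℂ) → EC n → ℂ} (hT : FO T) {S P : Set (EC n)}
    (hS : MeasurableSet S) (hPS : P ⊆ S) {u g : EC n → ℂ} (h : WDo T S u g) : WDo T P u g := by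
  intro ψ hψ
  have h1 := h ψ (hψ.mono hPS)
  rw [setInt_sub hS hPS (F := fun x => u x * T ψ x) (fun x _ hxP => by
      have : T ψ x = 0 := by
        by_contra h0
        exact hxP ((hT.tst hψ).sub (subset_tsupport _ h0))
      rw [this, mul_zero]), setInt_sub hS hPS (F := fun x => g x * ψ x) (fun x _ hxP => by
      have : ψ x = 0 := by
        by_contra h0
        exact hxP (hψ.sub (subset_tsupport _ h0))
      rw [this, mul_zero])] at h1
  exact h1

theorem WDo.add {T : (EC n → ℂ) → EC n → ℂ} (hT : FO T) {S : Set (EC n)}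
    {u g u' g' : EC n → ℂ} (hu : MemLp u 2 (volume.restrict S))
    (hg : MemLp g 2 (volume.restrict S)) (hu' : MemLp u' 2 (volume.restrict S))
    (hg' : MemLp g' 2 (volume.restrict S)) (h : WDo T S u g) (h' : WDo T S u' g') :
    WDo T S (fun x => u x + u' x) (fun x => g x + g' x) := by
  intro ψ hψ
  simp only [add_mul]
  rw [integral_add (integrable_mul_tst hu (hT.tst hψ)) (integrable_mul_tst hu' (hT.tst hψ)),
    integral_add (integrable_mul_tst hg hψ) (integrable_mul_tst hg' hψ), h ψ hψ, h' ψ hψ]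
  ring

theorem WDo.const_mul {T : (EC n → ℂ) → EC n → ℂ} {S : Set (EC n)}
    {u g : EC n → ℂ} (c : ℂ) (h : WDo T S u g) :
    WDo T S (fun x => c * u x) (fun x => c * g x) := by
  intro ψ hψ
  simp only [mul_assoc]
  rw [integral_const_mul, integral_const_mul, h ψ hψ]
  ring

theorem WDo.zero (T : (EC n → ℂ) → EC n → ℂ) (S : Set (EC n)) :
    WDo T S (fun _ => 0) (fun _ => 0) := by
  intro ψ hψ
  simp

theorem WDo.sum {ι : Type*} (s : Finset ι) {T : (EC n → ℂ) → EC n → ℂ} (hT : FO T)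
    {S : Set (EC n)} {u g : ι → EC n → ℂ} (hu : ∀ i ∈ s, MemLp (u i) 2 (volume.restrict S))
    (hg : ∀ i ∈ s, MemLp (g i) 2 (volume.restrict S)) (h : ∀ i ∈ s, WDo T S (u i) (g i)) :
    WDo T S (fun x => ∑ i ∈ s, u i x) (fun x => ∑ i ∈ s, g i x) := by
  classical
  induction s using Finset.induction_on with
  | empty => simpa using WDo.zero T S
  | insert i s hi ih =>
    simp only [Finset.sum_insert hi]
    refine WDo.add hT (hu i (Finset.mem_insert_self _ _)) (hg i (Finset.mem_insert_self _ _))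
      (memLp_finsetSum _ fun j hj => hu j (Finset.mem_insert_of_mem hj))
      (memLp_finsetSum _ fun j hj => hg j (Finset.mem_insert_of_mem hj))
      (h i (Finset.mem_insert_self _ _)) (ih (fun j hj => hu j (Finset.mem_insert_of_mem hj))
        (fun j hj => hg j (Finset.mem_insert_of_mem hj))
        (fun j hj => h j (Finset.mem_insert_of_mem hj)))

theorem WDo.congr {T : (EC n → ℂ) → EC n → ℂ} {S : Set (EC n)} (hS : MeasurableSet S)
    {u g u' g' : EC n → ℂ} (h : WDo T S u g) (h1 : ∀ x ∈ S, u' x = u x)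
    (h2 : ∀ x ∈ S, g' x = g x) : WDo T S u' g' := by
  intro ψ hψ
  have e1 : ∫ x in S, u' x * T ψ x = ∫ x in S, u x * T ψ x :=
    setIntegral_congr_fun hS fun x hx => by rw [h1 x hx]
  have e2 : ∫ x in S, g' x * ψ x = ∫ x in S, g x * ψ x :=
    setIntegral_congr_fun hS fun x hx => by rw [h2 x hx]
  rw [e1, e2]
  exact h ψ hψ

end Pool.Agent.H92.Lip
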