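import Pool.Agent.H92.Lip.Geo2

set_option autoImplicit false

open MeasureTheory Set Filter Topology
open scoped ContDiff ENNReal

namespace Pool.Agent.H92.Lip

variable {n : ℕ}

/-- the Lipschitz graph condition used in the frozen statement -/
def LipBd (Ω : Set (EC n)) : Prop :=
  ∀ p ∈ frontier Ω, ∃ U ∈ nhds p, ∃ L : (Fin n → ℂ) →L[ℝ] ℝ, ∃ v : Fin n → ℂ, L v = 1 ∧
      ∃ g : (Fin n → ℂ) → ℝ, ∃ K : NNReal, LipschitzWith K g ∧
        (∀ (x : Fin n → ℂ) (t : ℝ), g (x + t • v) = g x) ∧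
        Ω ∩ U = {x | x ∈ U ∧ L x < g x}

theorem exists_chart {Ω : Set (EC n)} (hΩ : IsOpen Ω) (hL : LipBd Ω) {p : EC n}
    (hp : p ∈ frontier Ω) : ∃ (e : EC n) (c r : ℝ), Chart Ω p e c r := by
  have hpΩ : p ∉ Ω := by
    rw [hΩ.frontier_eq] at hp
    exact hp.2
  obtain ⟨U, hU, L, v, hLv, g, K, hg, hgv, hΩU⟩ := hL p hp
  obtain ⟨R, hR, hRU⟩ := Metric.mem_nhds_iff.1 hU
  set c : ℝ := 1 / (‖L‖ + K + 1) with hc
  have hK0 : (0 : ℝ) ≤ K := K.2
  have hden : 0 < ‖L‖ + K + 1 := by positivity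
  have hcpos : 0 < c := by positivity
  have hcL : c * (‖L‖ + K) ≤ 1 := by
    rw [hc, div_mul_eq_mul_div, one_mul, div_le_one hden]
    linarith
  set r : ℝ := R / (2 * (1 + ‖v‖ + c)) with hr
  have hrpos : 0 < r := by positivity
  have hrR : r * (1 + ‖v‖ + c) = R / 2 := by
    rw [hr]
    field_simp
  refine ⟨v, c, r, hcpos, hrpos, hpΩ, ?_⟩
  intro z hz hzr s hs0 hsr w hw
  have hzU : z ∈ U := by
    refine hRU ?_
    rw [Metric.mem_ball]
    have : r * 1 ≤ r * (1 + ‖v‖ + c) := by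
      refine mul_le_mul_of_nonneg_left ?_ hrpos.le
      have := norm_nonneg v
      linarith
    linarith
  have hzU' : z - s • (v + w) ∈ U := by
    refine hRU ?_
    rw [Metric.mem_ball]
    have h1 : dist (z - s • (v + w)) z ≤ r * (‖v‖ + c) := by
      rw [dist_eq_norm]
      have : z - s • (v + w) - z = -(s • (v + w)) := by abel
      rw [this, norm_neg, norm_smul, Real.norm_of_nonneg hs0]
      refine mul_le_mul hsr ?_ (norm_nonneg _) hrpos.le
      exact (norm_add_le _ _).trans (by linarith)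
    have h2 := dist_triangle (z - s • (v + w)) z p
    have h3 : r * (1 + ‖v‖ + c) = r + r * (‖v‖ + c) := by ring
    linarith
  have h1 : L z < g z := by
    have : z ∈ Ω ∩ U := ⟨hz, hzU⟩
    rw [hΩU] at this
    exact this.2
  have h2 : z - s • (v + w) ∈ {x | x ∈ U ∧ L x < g x} := by
    refine ⟨hzU', ?_⟩
    have e1 : g (z - s • (v + w)) = g (z - s • w) := by
      have := hgv (z - s • w) (-s)
      rw [← this]
      congr 1
      rw [smul_add, neg_smul]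
      abel
    have e2 : L (z - s • (v + w)) = L z - s - s * L w := by
      rw [map_sub, map_smul, map_add, hLv, smul_eq_mul]
      ring
    have e3 : g z - K * (s * ‖w‖) ≤ g (z - s • w) := by
      have := hg.dist_le_mul z (z - s • w)
      rw [Real.dist_eq, dist_eq_norm, sub_sub_cancel, norm_smul, Real.norm_of_nonneg hs0] at this
      have := (abs_le.1 this).2
      linarith
    have e4 : -(‖L‖ * ‖w‖) ≤ L w := by
      have := L.le_opNorm w
      rw [Real.norm_eq_abs] at this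
      exact (abs_le.1 this).1
    rw [e1, e2]
    have e5 : s * (‖w‖ * (‖L‖ + K)) ≤ s * 1 := by
      refine mul_le_mul_of_nonneg_left ?_ hs0
      refine le_trans ?_ hcL
      exact mul_le_mul_of_nonneg_right hw (by positivity)
    have e6 : s * (-(‖L‖ * ‖w‖)) ≤ s * L w := mul_le_mul_of_nonneg_left e4 hs0
    nlinarith
  rw [← hΩU] at h2
  exact h2.1

theorem exists_bump (p : EC n) {r : ℝ} (hr : 0 < r) : ∃ ψ : EC n → ℝ, ContDiff ℝ ∞ ψ ∧
    HasCompactSupport ψ ∧ (∀ z, 0 ≤ ψ z) ∧ (∀ z, ψ z ≤ 1) ∧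
    (∀ z, dist z p ≤ r / 16 → ψ z = 1) ∧ (∀ z, r / 8 ≤ dist z p → ψ z = 0) := by
  let f : ContDiffBump p := ⟨r / 16, r / 8, by positivity, by linarith⟩
  refine ⟨f, f.contDiff, f.hasCompactSupport, fun z => f.nonneg, fun z => f.le_one, ?_, ?_⟩
  · intro z hz
    exact f.one_of_mem_closedBall (by simpa using hz)
  · intro z hz
    exact f.zero_of_le_dist hz

theorem bump_bounds {ψ : EC n → ℝ} (h1 : ContDiff ℝ ∞ ψ) (h2 : HasCompactSupport ψ) :
    ∃ A : ℝ, 0 ≤ A ∧ (∀ z w, |D2 (fun x => ψ x * ψ x) z w| ≤ A * ‖w‖ ^ 2) ∧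
      (∀ z w, |fderiv ℝ ψ z w| ≤ A * ‖w‖) ∧ ∀ x y, |ψ x - ψ y| ≤ A * ‖x - y‖ := by
  obtain ⟨A1, hA1⟩ := (contDiff_fd h1).continuous.bounded_above_of_compact_support
    (h2.fderiv (𝕜 := ℝ))
  have h3 : ContDiff ℝ ∞ (fun x => ψ x * ψ x) := h1.mul h1
  have h4 : HasCompactSupport (fun x => ψ x * ψ x) := h2.mul_right
  obtain ⟨A2, hA2⟩ := ((contDiff_fd h3).fderiv_right (m := ∞)
    (by simp)).continuous.bounded_above_of_compact_support
    ((h4.fderiv (𝕜 := ℝ)).fderiv (𝕜 := ℝ))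
  refine ⟨max A1 A2 ⊔ 0, le_max_right _ _, ?_, ?_, ?_⟩
  · intro z w
    rw [← Real.norm_eq_abs]
    unfold D2
    refine (ContinuousLinearMap.le_opNorm _ _).trans ?_
    have h5 := ContinuousLinearMap.le_opNorm (fderiv ℝ (fderiv ℝ fun x => ψ x * ψ x) z) w
    have h6 : ‖fderiv ℝ (fderiv ℝ fun x => ψ x * ψ x) z‖ ≤ max A1 A2 ⊔ 0 :=
      (hA2 z).trans ((le_max_right _ _).trans (le_max_left _ _))
    calc _ ≤ (‖fderiv ℝ (fderiv ℝ fun x => ψ x * ψ x) z‖ * ‖w‖) * ‖w‖ := by gcongr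
      _ ≤ ((max A1 A2 ⊔ 0) * ‖w‖) * ‖w‖ := by gcongr
      _ = _ := by ring
  · intro z w
    rw [← Real.norm_eq_abs]
    refine (ContinuousLinearMap.le_opNorm _ _).trans ?_
    have h6 : ‖fderiv ℝ ψ z‖ ≤ max A1 A2 ⊔ 0 :=
      (hA1 z).trans ((le_max_left _ _).trans (le_max_left _ _))
    gcongr
  · intro x y
    rw [← Real.norm_eq_abs]
    refine Convex.norm_image_sub_le_of_norm_fderiv_le (𝕜 := ℝ) (s := univ)
      (fun z _ => h1.differentiable (by simp) z) (fun z _ => ?_) convex_univ (mem_univ y)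
      (mem_univ x)
    exact (hA1 z).trans ((le_max_left _ _).trans (le_max_left _ _))

/-- a finite family of charts covering the boundary -/
structure Cov (Ω : Set (EC n)) where
  t : Finset (EC n)
  e : EC n → EC n
  c : EC n → ℝ
  r : EC n → ℝ
  ψ : EC n → EC n → ℝ
  E : ℝ
  ρ : ℝ
  A : ℝ
  D : ℝ
  ch : ∀ p ∈ t, Chart Ω p (e p) (c p) (r p)
  cover : ∀ q ∈ frontier Ω, ∃ p ∈ t, dist q p < r p / 16
  hE : 1 ≤ E
  he : ∀ p ∈ t, ‖e p‖ ≤ E
  hρ : 0 < ρ
  hρr : ∀ p ∈ t, ρ ≤ r p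
  hρc : ∀ p ∈ t, ρ ≤ c p
  hψs : ∀ p ∈ t, ContDiff ℝ ∞ (ψ p)
  hψ0 : ∀ p ∈ t, ∀ z, 0 ≤ ψ p z
  hψ1 : ∀ p ∈ t, ∀ z, ψ p z ≤ 1
  hψin : ∀ p ∈ t, ∀ z, dist z p ≤ r p / 16 → ψ p z = 1
  hψout : ∀ p ∈ t, ∀ z, r p / 8 ≤ dist z p → ψ p z = 0
  hA : 0 ≤ A
  hψ2 : ∀ p ∈ t, ∀ z w, |D2 (fun x => ψ p x * ψ p x) z w| ≤ A * ‖w‖ ^ 2
  hψd : ∀ p ∈ t, ∀ z w, |fderiv ℝ (ψ p) z w| ≤ A * ‖w‖
  hψl : ∀ p ∈ t, ∀ x y, |ψ p x - ψ p y| ≤ A * ‖x - y‖
  hD : ∀ z, z ∈ Ω → dl Ω z ≤ D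

theorem exists_upper (t : Finset (EC n)) (f : EC n → ℝ) : ∃ A : ℝ, 1 ≤ A ∧ ∀ p ∈ t, f p ≤ A := by
  refine ⟨1 + ∑ p ∈ t, |f p|, ?_, ?_⟩
  · have := Finset.sum_nonneg (s := t) fun p _ => abs_nonneg (f p)
    linarith
  · intro p hp
    have := Finset.single_le_sum (f := fun p => |f p|) (fun p _ => abs_nonneg (f p)) hp
    have := le_abs_self (f p)
    linarith

theorem exists_lower (t : Finset (EC n)) (f : EC n → ℝ) (hf : ∀ p ∈ t, 0 < f p) :
    ∃ a : ℝ, 0 < a ∧ a ≤ 1 ∧ ∀ p ∈ t, a ≤ f p := by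
  obtain ⟨A, hA1, hA⟩ := exists_upper t fun p => (f p)⁻¹
  have hA0 : 0 < A := by linarith
  refine ⟨A⁻¹, by positivity, inv_le_one_of_one_le₀ hA1, ?_⟩
  intro p hp
  have := hA p hp
  have h1 := hf p hp
  exact inv_le_of_inv_le₀ h1 this

theorem exists_cov {Ω : Set (EC n)} (hΩ : IsOpen Ω) (hb : Bornology.IsBounded Ω)
    (hne : (Ωᶜ).Nonempty) (hL : LipBd Ω) : Nonempty (Cov Ω) := by
  have h1 : ∀ p : EC n, p ∈ frontier Ω → ∃ (e : EC n) (c r : ℝ), Chart Ω p e c r :=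
    fun p hp => exists_chart hΩ hL hp
  choose! e c r h using h1
  have hcomp : IsCompact (frontier Ω) :=
    Metric.isCompact_of_isClosed_isBounded isClosed_frontier
      (hb.closure.subset frontier_subset_closure)
  obtain ⟨t, ht, hcov⟩ := hcomp.elim_nhds_subcover (fun p => Metric.ball p (r p / 16))
    (fun p hp => Metric.ball_mem_nhds p (by have := (h p hp).hr; positivity))
  have h2 : ∀ p : EC n, p ∈ t → ∃ ψ : EC n → ℝ, ContDiff ℝ ∞ ψ ∧
      HasCompactSupport ψ ∧ (∀ z, 0 ≤ ψ z) ∧ (∀ z, ψ z ≤ 1) ∧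
      (∀ z, dist z p ≤ r p / 16 → ψ z = 1) ∧ (∀ z, r p / 8 ≤ dist z p → ψ z = 0) :=
    fun p hp => exists_bump p (h p (ht p hp)).hr
  choose! ψ hψ using h2
  have h3 : ∀ p : EC n, p ∈ t → ∃ A : ℝ, 0 ≤ A ∧
      (∀ z w, |D2 (fun x => ψ p x * ψ p x) z w| ≤ A * ‖w‖ ^ 2) ∧
      (∀ z w, |fderiv ℝ (ψ p) z w| ≤ A * ‖w‖) ∧ ∀ x y, |ψ p x - ψ p y| ≤ A * ‖x - y‖ :=
    fun p hp => bump_bounds (hψ p hp).1 (hψ p hp).2.1
  choose! A hA using h3
  obtain ⟨A', hA'1, hA'⟩ := exists_upper t A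
  obtain ⟨E, hE1, hE⟩ := exists_upper t fun p => ‖e p‖
  obtain ⟨ρ1, hρ1, _, hρ1r⟩ := exists_lower t r fun p hp => (h p (ht p hp)).hr
  obtain ⟨ρ2, hρ2, _, hρ2c⟩ := exists_lower t c fun p hp => (h p (ht p hp)).hc
  obtain ⟨q, hq⟩ := hne
  obtain ⟨D, hD⟩ := hb.subset_ball q
  refine ⟨⟨t, e, c, r, ψ, E, min ρ1 ρ2, A', D, fun p hp => h p (ht p hp), ?_, hE1, hE,
    lt_min hρ1 hρ2, fun p hp => (min_le_left _ _).trans (hρ1r p hp),
    fun p hp => (min_le_right _ _).trans (hρ2c p hp), fun p hp => (hψ p hp).1,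
    fun p hp => (hψ p hp).2.2.1, fun p hp => (hψ p hp).2.2.2.1,
    fun p hp => (hψ p hp).2.2.2.2.1, fun p hp => (hψ p hp).2.2.2.2.2, by linarith, ?_, ?_, ?_,
    ?_⟩⟩
  · intro q hq
    obtain ⟨p, hp, hpq⟩ := mem_iUnion₂.1 (hcov hq)
    exact ⟨p, hp, hpq⟩
  · intro p hp z w
    refine ((hA p hp).2.1 z w).trans ?_
    exact mul_le_mul_of_nonneg_right (hA' p hp) (by positivity)
  · intro p hp z w
    refine ((hA p hp).2.2.1 z w).trans ?_
    exact mul_le_mul_of_nonneg_right (hA' p hp) (by positivity)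
  · intro p hp x y
    refine ((hA p hp).2.2.2 x y).trans ?_
    exact mul_le_mul_of_nonneg_right (hA' p hp) (by positivity)
  · intro z hz
    have h4 := hD hz
    rw [Metric.mem_ball] at h4
    exact (dl_le_dist (by simpa using hq)).trans h4.le

namespace Cov

variable {Ω : Set (EC n)} (V : Cov Ω)

/-- averaging length -/
noncomputable def s0 : ℝ := V.ρ / (16 * V.E)

theorem E_pos : 0 < V.E := by
  have := V.hE
  linarith

theorem s0_pos : 0 < V.s0 := by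
  have := V.E_pos
  have := V.hρ
  unfold s0
  positivity

theorem s0_mul : V.s0 * V.E = V.ρ / 16 := by
  have := V.E_pos
  unfold s0
  field_simp

theorem s0_le : V.s0 ≤ V.ρ / 16 := by
  rw [← V.s0_mul]
  have := V.s0_pos
  have := V.hE
  nlinarith

theorem s0_le_r {p : EC n} (hp : p ∈ V.t) : V.s0 ≤ V.r p := by
  have h1 := V.hρr p hp
  have h2 := V.s0_le
  have h3 := V.hρ
  linarith

/-- one term -/
noncomputable def u (p z : EC n) : ℝ := uu Ω (V.e p) V.s0 z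

/-- bound for the `u` -/
noncomputable def B : ℝ := ∑ p ∈ V.t, |∫ s in (0 : ℝ)..V.s0, bd (V.c p) V.D s|

theorem B_nonneg : 0 ≤ V.B := Finset.sum_nonneg fun _ _ => abs_nonneg _

theorem u_bdd (hne : (Ωᶜ).Nonempty) {p : EC n} (hp : p ∈ V.t) {z : EC n} (hz : z ∈ Ω)
    (hzr : dist z p < V.r p) : |V.u p z| ≤ V.B := by
  refine ((V.ch p hp).uu_bdd hne V.hD V.s0_pos.le (V.s0_le_r hp) hz hzr).trans ?_
  refine (le_abs_self _).trans ?_
  exact Finset.single_le_sum (f := fun p => |∫ s in (0 : ℝ)..V.s0, bd (V.c p) V.D s|)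
    (fun _ _ => abs_nonneg _) hp

theorem u_cont (hΩ : IsOpen Ω) (hne : (Ωᶜ).Nonempty) {p : EC n} (hp : p ∈ V.t) :
    ContinuousOn (V.u p) (Ω ∩ Metric.ball p (V.r p)) :=
  (V.ch p hp).uu_cont hΩ hne V.hD V.s0_pos.le (V.s0_le_r hp)

theorem u_sub (hΩ : IsOpen Ω) (hne : (Ωᶜ).Nonempty)
    (hoka : SubMean Ω (fun z => -Real.log (dl Ω z))) {p : EC n} (hp : p ∈ V.t) :
    SubMean (Ω ∩ Metric.ball p (V.r p)) (V.u p) :=
  (V.ch p hp).uu_sub hΩ hne V.hD V.s0_pos.le (V.s0_le_r hp) hoka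

/-- constant in front of `|z|²` -/
noncomputable def C : ℝ := 1 + (V.t.card : ℝ) * ((2 * V.A + 8 * V.A ^ 2) * Real.exp (V.B + 1))

theorem C_pos : 0 < V.C := by
  have := V.hA
  have := Real.exp_pos (V.B + 1)
  unfold C
  positivity

/-- the weight -/
noncomputable def Phi (z : EC n) : ℝ :=
  (∑ p ∈ V.t, (V.ψ p z * V.ψ p z) * Real.exp (V.u p z)) + V.C * nsq z

theorem term_cont (hΩ : IsOpen Ω) (hne : (Ωᶜ).Nonempty) {p : EC n} (hp : p ∈ V.t) :
    ContinuousOn (fun z => (V.ψ p z * V.ψ p z) * Real.exp (V.u p z)) Ω := by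
  intro z hz
  have hr := (V.ch p hp).hr
  by_cases h : dist z p < V.r p
  · refine ContinuousAt.continuousWithinAt ?_
    have h1 : ContinuousAt (V.u p) z :=
      (V.u_cont hΩ hne hp).continuousAt ((hΩ.inter Metric.isOpen_ball).mem_nhds ⟨hz, h⟩)
    have h2 : ContinuousAt (V.ψ p) z := (V.hψs p hp).continuous.continuousAt
    exact (h2.mul h2).mul h1.rexp
  · rw [not_lt] at h
    refine ContinuousAt.continuousWithinAt ?_
    have h1 : (fun z => (V.ψ p z * V.ψ p z) * Real.exp (V.u p z)) =ᶠ[𝓝 z] fun _ => (0 : ℝ) := by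
      have : {x | V.r p / 8 < dist x p} ∈ 𝓝 z := by
        refine (isOpen_lt continuous_const (continuous_id.dist continuous_const)).mem_nhds ?_
        simp only [mem_ofPred_eq, id]
        linarith
      filter_upwards [this] with x hx
      rw [V.hψout p hp x (le_of_lt hx)]
      ring
    exact continuousAt_const.congr h1.symm

theorem Phi_cont (hΩ : IsOpen Ω) (hne : (Ωᶜ).Nonempty) : ContinuousOn V.Phi Ω := by
  refine ContinuousOn.add ?_ ?_
  · exact continuousOn_finsetSum _ fun p hp => V.term_cont hΩ hne hp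
  · exact (continuous_const.mul contDiff_nsq.continuous).continuousOn

theorem term_bound (hne : (Ωᶜ).Nonempty) {p : EC n} (hp : p ∈ V.t) {z : EC n} (hz : z ∈ Ω) :
    |(V.ψ p z * V.ψ p z) * Real.exp (V.u p z)| ≤ Real.exp V.B := by
  have h0 := V.hψ0 p hp z
  have h1 := V.hψ1 p hp z
  by_cases h : dist z p < V.r p
  · have h2 := (abs_le.1 (V.u_bdd hne hp hz h)).2
    rw [abs_of_nonneg (by positivity)]
    calc _ ≤ 1 * Real.exp (V.u p z) := by
          refine mul_le_mul_of_nonneg_right ?_ (Real.exp_pos _).le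
          nlinarith
      _ ≤ Real.exp V.B := by
          rw [one_mul]
          exact Real.exp_le_exp.2 h2
  · rw [not_lt] at h
    have hr := (V.ch p hp).hr
    rw [V.hψout p hp z (by linarith)]
    simp only [mul_zero, zero_mul, abs_zero]
    exact (Real.exp_pos _).le

theorem nsq_bound {S : Set (EC n)} (hb : Bornology.IsBounded S) :
    ∃ M, ∀ z ∈ S, nsq z ≤ M := by
  have hc : IsCompact (closure S) := Metric.isCompact_of_isClosed_isBounded isClosed_closure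
    hb.closure
  obtain ⟨M, hM⟩ := hc.exists_bound_of_continuousOn contDiff_nsq.continuous.continuousOn
  exact ⟨M, fun z hz => (le_abs_self _).trans (hM z (subset_closure hz))⟩

theorem Phi_bdd (hb : Bornology.IsBounded Ω) (hne : (Ωᶜ).Nonempty) :
    ∃ M, ∀ z ∈ Ω, |V.Phi z| ≤ M := by
  obtain ⟨M, hM⟩ := nsq_bound hb
  refine ⟨V.t.card * Real.exp V.B + V.C * M, fun z hz => ?_⟩
  unfold Phi
  refine (abs_add_le _ _).trans (add_le_add ?_ ?_)
  · refine (Finset.abs_sum_le_sum_abs _ _).trans ?_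
    rw [← nsmul_eq_mul]
    exact Finset.sum_le_card_nsmul _ _ _ fun p hp => V.term_bound hne hp hz
  · have := V.C_pos
    have := nsq_nonneg z
    rw [abs_of_nonneg (by positivity)]
    exact mul_le_mul_of_nonneg_left (hM z hz) V.C_pos.le

end Cov

end Pool.Agent.H92.Lip
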