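import Pool.Agent.H92.Lip.Weight

set_option autoImplicit false

open MeasureTheory Set Filter Topology
open scoped ContDiff ENNReal

namespace Pool.Agent.H92.Lip

variable {n : ℕ}

theorem D2_sum' {ι : Type*} (t : Finset ι) {F : ι → EC n → ℝ} (hF : ∀ i ∈ t, ContDiff ℝ ∞ (F i))
    (z w : EC n) : D2 (fun x => ∑ i ∈ t, F i x) z w = ∑ i ∈ t, D2 (F i) z w := by
  refine D2_eq_of (ContDiff.sum fun i hi => hF i hi)
    (g := fun s => ∑ i ∈ t, fderiv ℝ (F i) (z + s • w) w) ?_ ?_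
  · intro s
    exact HasDerivAt.fun_sum fun i hi => hasDerivAt_line (hF i hi) z w s
  · have := HasDerivAt.fun_sum (u := t) fun i hi => hasDerivAt_line2 (hF i hi) z w 0
    simpa using this

theorem D2_zero_of {F : EC n → ℝ} {z : EC n} (h : F =ᶠ[𝓝 z] fun _ => 0) (w : EC n) :
    D2 F z w = 0 := by
  have h1 : fderiv ℝ F =ᶠ[𝓝 z] fderiv ℝ (fun _ : EC n => (0 : ℝ)) := h.fderiv
  unfold D2
  rw [h1.fderiv_eq]
  simp

theorem exp_sub_le (a b : ℝ) : Real.exp a - Real.exp b ≤ Real.exp a * (a - b) := by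
  have h := Real.add_one_le_exp (b - a)
  have h1 : Real.exp b = Real.exp a * Real.exp (b - a) := by
    rw [← Real.exp_add]
    congr 1
    ring
  have h2 := Real.exp_pos a
  rw [h1]
  nlinarith

theorem abs_exp_sub {a b M : ℝ} (ha : a ≤ M) (hb : b ≤ M) :
    |Real.exp a - Real.exp b| ≤ Real.exp M * |a - b| := by
  have h1 := exp_sub_le a b
  have h2 := exp_sub_le b a
  have h3 : Real.exp a ≤ Real.exp M := Real.exp_le_exp.2 ha
  have h4 : Real.exp b ≤ Real.exp M := Real.exp_le_exp.2 hb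
  have h5 := le_abs_self (a - b)
  have h6 := neg_abs_le (a - b)
  have h7 := Real.exp_pos a
  have h8 := Real.exp_pos b
  have h9 := abs_nonneg (a - b)
  rw [abs_le]
  constructor
  · have : Real.exp b * (b - a) ≤ Real.exp M * |a - b| := by
      calc _ ≤ Real.exp b * |a - b| := by
            refine mul_le_mul_of_nonneg_left ?_ h8.le
            linarith
        _ ≤ _ := mul_le_mul_of_nonneg_right h4 h9
    linarith
  · have : Real.exp a * (a - b) ≤ Real.exp M * |a - b| := by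
      calc _ ≤ Real.exp a * |a - b| := mul_le_mul_of_nonneg_left h5 h7.le
        _ ≤ _ := mul_le_mul_of_nonneg_right h3 h9
    linarith

namespace Cov

variable {Ω : Set (EC n)} (V : Cov Ω)

theorem Lev_term_in {p : EC n} (hp : p ∈ V.t) {F : EC n → ℝ} (hF : ContDiff ℝ ∞ F) {z : EC n}
    (hFz : F z ≤ V.B + 1) (hL : ∀ w, 0 ≤ Lev F z w) (w : EC n) :
    -((2 * V.A + 8 * V.A ^ 2) * Real.exp (V.B + 1) * ‖w‖ ^ 2) ≤
      Lev (fun x => (V.ψ p x * V.ψ p x) * Real.exp (F x)) z w := by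
  rw [Lev_eq]
  have h1 := D2_sq_exp (V.hψs p hp) hF z w
  have h2 := D2_sq_exp (V.hψs p hp) hF z (Complex.I • w)
  have a1 := (abs_le.1 (V.hψ2 p hp z w)).1
  have a2 := (abs_le.1 (V.hψ2 p hp z (Complex.I • w))).1
  have b1 := V.hψd p hp z w
  have b2 := V.hψd p hp z (Complex.I • w)
  rw [norm_I_smul] at a2 b2
  have c1 : (fderiv ℝ (V.ψ p) z w) ^ 2 ≤ (V.A * ‖w‖) ^ 2 := sq_le_sq' (by
    linarith [neg_abs_le (fderiv ℝ (V.ψ p) z w)]) ((le_abs_self _).trans b1)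
  have c2 : (fderiv ℝ (V.ψ p) z (Complex.I • w)) ^ 2 ≤ (V.A * ‖w‖) ^ 2 := sq_le_sq' (by
    linarith [neg_abs_le (fderiv ℝ (V.ψ p) z (Complex.I • w))]) ((le_abs_self _).trans b2)
  have h3 := hL w
  rw [Lev_eq] at h3
  have h4 : 0 ≤ V.ψ p z ^ 2 * (D2 F z w + D2 F z (Complex.I • w)) :=
    mul_nonneg (sq_nonneg _) h3
  have h5 : -((2 * V.A + 8 * V.A ^ 2) * ‖w‖ ^ 2) ≤
      (D2 (fun x => V.ψ p x * V.ψ p x) z w - 4 * (fderiv ℝ (V.ψ p) z w) ^ 2 +
        V.ψ p z ^ 2 * D2 F z w) + (D2 (fun x => V.ψ p x * V.ψ p x) z (Complex.I • w) -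
        4 * (fderiv ℝ (V.ψ p) z (Complex.I • w)) ^ 2 + V.ψ p z ^ 2 * D2 F z (Complex.I • w)) := by
    nlinarith
  have h6 : Real.exp (F z) ≤ Real.exp (V.B + 1) := Real.exp_le_exp.2 hFz
  have h7 := Real.exp_pos (F z)
  have hA := V.hA
  have h8 : 0 ≤ (2 * V.A + 8 * V.A ^ 2) * ‖w‖ ^ 2 := by positivity
  have h9 : Real.exp (F z) * (-((2 * V.A + 8 * V.A ^ 2) * ‖w‖ ^ 2)) ≤
    Real.exp (F z) * ((D2 (fun x => V.ψ p x * V.ψ p x) z w - 4 * (fderiv ℝ (V.ψ p) z w) ^ 2 +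
        V.ψ p z ^ 2 * D2 F z w) + (D2 (fun x => V.ψ p x * V.ψ p x) z (Complex.I • w) -
        4 * (fderiv ℝ (V.ψ p) z (Complex.I • w)) ^ 2 + V.ψ p z ^ 2 * D2 F z (Complex.I • w))) :=
    mul_le_mul_of_nonneg_left h5 h7.le
  have h10 : Real.exp (F z) * ((2 * V.A + 8 * V.A ^ 2) * ‖w‖ ^ 2) ≤
      Real.exp (V.B + 1) * ((2 * V.A + 8 * V.A ^ 2) * ‖w‖ ^ 2) :=
    mul_le_mul_of_nonneg_right h6 h8
  linarith

theorem Lev_term_out {p : EC n} (hp : p ∈ V.t) {F : EC n → ℝ} {z : EC n}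
    (hz : V.r p / 8 < dist z p) (w : EC n) :
    Lev (fun x => (V.ψ p x * V.ψ p x) * Real.exp (F x)) z w = 0 := by
  have h1 : (fun z => (V.ψ p z * V.ψ p z) * Real.exp (F z)) =ᶠ[𝓝 z] fun _ => (0 : ℝ) := by
    have : {x | V.r p / 8 < dist x p} ∈ 𝓝 z :=
      (isOpen_lt continuous_const (continuous_id.dist continuous_const)).mem_nhds hz
    filter_upwards [this] with x hx
    rw [V.hψout p hp x (le_of_lt hx)]
    ring
  rw [Lev_eq, D2_zero_of h1, D2_zero_of h1, add_zero]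

theorem spsh (happ : SmoothApprox n) (hΩ : IsOpen Ω) (hne : (Ωᶜ).Nonempty)
    (hoka : SubMean Ω (fun z => -Real.log (dl Ω z))) : SPsh Ω V.Phi := by
  intro K hK hKΩ ε hε
  set δ : ℝ := min 1 (ε / ((V.t.card + 1) * Real.exp (V.B + 1))) with hδ
  have hexp := Real.exp_pos (V.B + 1)
  have hδ0 : 0 < δ := lt_min one_pos (by positivity)
  have hδ1 : δ ≤ 1 := min_le_left _ _
  have hδε : (V.t.card : ℝ) * (Real.exp (V.B + 1) * δ) ≤ ε := by
    have h1 : δ ≤ ε / ((V.t.card + 1) * Real.exp (V.B + 1)) := min_le_right _ _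
    rw [le_div_iff₀ (by positivity)] at h1
    have h2 : 0 ≤ Real.exp (V.B + 1) * δ := by positivity
    nlinarith
  have h1 : ∀ p : EC n, p ∈ V.t → ∃ F : EC n → ℝ, ContDiff ℝ ∞ F ∧
      (∀ z ∈ K ∩ Metric.closedBall p (V.r p / 8), |F z - V.u p z| ≤ δ) ∧
      ∀ z ∈ K ∩ Metric.closedBall p (V.r p / 8), ∀ w, 0 ≤ Lev F z w := by
    intro p hp
    have hr := (V.ch p hp).hr
    refine happ (Ω ∩ Metric.ball p (V.r p)) (V.u p) (hΩ.inter Metric.isOpen_ball)
      (V.u_cont hΩ hne hp) (V.u_sub hΩ hne hoka hp) _ (hK.inter_right Metric.isClosed_closedBall)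
      ?_ δ hδ0
    intro z hz
    refine ⟨hKΩ hz.1, ?_⟩
    have := hz.2
    rw [Metric.mem_closedBall] at this
    rw [Metric.mem_ball]
    linarith
  choose! F hF using h1
  have hub : ∀ p ∈ V.t, ∀ z ∈ K, dist z p ≤ V.r p / 8 → V.u p z ≤ V.B ∧ F p z ≤ V.B + 1 ∧
      |F p z - V.u p z| ≤ δ ∧ ∀ w, 0 ≤ Lev (F p) z w := by
    intro p hp z hz hd
    have hr := (V.ch p hp).hr
    have h2 := (abs_le.1 (V.u_bdd hne hp (hKΩ hz) (by linarith))).2
    have h3 := (hF p hp).2.1 z ⟨hz, hd⟩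
    have h4 := (abs_le.1 h3).2
    exact ⟨h2, by linarith, h3, (hF p hp).2.2 z ⟨hz, hd⟩⟩
  have hs1 : ∀ p ∈ V.t, ContDiff ℝ ∞ (fun x => (V.ψ p x * V.ψ p x) * Real.exp (F p x)) :=
    fun p hp => ((V.hψs p hp).mul (V.hψs p hp)).mul (hF p hp).1.exp
  refine ⟨fun z => (∑ p ∈ V.t, (V.ψ p z * V.ψ p z) * Real.exp (F p z)) + V.C * nsq z,
    (ContDiff.sum hs1).add (contDiff_const.mul contDiff_nsq), ?_, ?_⟩
  · intro z hz
    unfold Phi
    rw [add_sub_add_right_eq_sub, ← Finset.sum_sub_distrib]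
    refine ((Finset.abs_sum_le_sum_abs _ _).trans ?_).trans hδε
    rw [← nsmul_eq_mul]
    refine Finset.sum_le_card_nsmul _ _ _ fun p hp => ?_
    have h0 := V.hψ0 p hp z
    have h1 := V.hψ1 p hp z
    by_cases hd : dist z p ≤ V.r p / 8
    · obtain ⟨b1, b2, b3, b4⟩ := hub p hp z hz hd
      rw [← mul_sub, abs_mul, abs_of_nonneg (mul_nonneg h0 h0)]
      have h3 := abs_exp_sub b2 (b1.trans (by linarith : V.B ≤ V.B + 1))
      have h4 : V.ψ p z * V.ψ p z ≤ 1 := by nlinarith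
      calc _ ≤ 1 * (Real.exp (V.B + 1) * δ) := by
            refine mul_le_mul h4 (h3.trans ?_) (abs_nonneg _) zero_le_one
            exact mul_le_mul_of_nonneg_left b3 hexp.le
        _ = _ := one_mul _
    · rw [not_le] at hd
      rw [V.hψout p hp z hd.le]
      simp only [mul_zero, zero_mul, sub_zero, abs_zero]
      positivity
  · intro z hz w
    have e1 : ∀ w, D2 (fun z => (∑ p ∈ V.t, (V.ψ p z * V.ψ p z) * Real.exp (F p z)) +
        V.C * nsq z) z w = (∑ p ∈ V.t, D2 (fun z => (V.ψ p z * V.ψ p z) *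
          Real.exp (F p z)) z w) + V.C * (2 * nsq w) := by
      intro w
      rw [D2_add (ContDiff.sum hs1) (contDiff_const.mul contDiff_nsq), D2_sum' V.t hs1]
      congr 1
      rw [D2_mul contDiff_const contDiff_nsq, D2_nsq]
      have h2 : D2 (fun _ : EC n => V.C) z w = 0 := by
        unfold D2
        simp
      rw [h2]
      simp
    rw [Lev_eq, e1 w, e1 (Complex.I • w), nsq_I_smul]
    have e2 : ∑ p ∈ V.t, -((2 * V.A + 8 * V.A ^ 2) * Real.exp (V.B + 1) * ‖w‖ ^ 2) ≤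
        ∑ p ∈ V.t, Lev (fun z => (V.ψ p z * V.ψ p z) * Real.exp (F p z)) z w := by
      refine Finset.sum_le_sum fun p hp => ?_
      by_cases hd : dist z p ≤ V.r p / 8
      · obtain ⟨b1, b2, b3, b4⟩ := hub p hp z hz hd
        exact V.Lev_term_in hp (hF p hp).1 b2 b4 w
      · rw [not_le] at hd
        rw [V.Lev_term_out hp hd w]
        have := V.hA
        have : 0 ≤ (2 * V.A + 8 * V.A ^ 2) * Real.exp (V.B + 1) * ‖w‖ ^ 2 := by positivity
        linarith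
    rw [Finset.sum_const, nsmul_eq_mul] at e2
    simp only [Lev_eq, Finset.sum_add_distrib] at e2
    have h3 := norm_sq_le_nsq w
    have h4 : (V.t.card : ℝ) * ((2 * V.A + 8 * V.A ^ 2) * Real.exp (V.B + 1) * ‖w‖ ^ 2) ≤
        (V.t.card : ℝ) * ((2 * V.A + 8 * V.A ^ 2) * Real.exp (V.B + 1)) * nsq w := by
      have := V.hA
      have h5 : 0 ≤ (V.t.card : ℝ) * ((2 * V.A + 8 * V.A ^ 2) * Real.exp (V.B + 1)) := by
        positivity
      nlinarith
    have h6 : V.C = 1 + (V.t.card : ℝ) * ((2 * V.A + 8 * V.A ^ 2) * Real.exp (V.B + 1)) := rfl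
    have h7 : 0 ≤ (V.t.card : ℝ) * ((2 * V.A + 8 * V.A ^ 2) * Real.exp (V.B + 1)) * nsq w := by
      have := V.hA
      have := nsq_nonneg w
      positivity
    rw [h6]
    nlinarith

end Cov

end Pool.Agent.H92.Lip
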